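import Pool.Agent.helper18.CWM.SpecB

/-!
# Project cwm (MP_7c3fb3_pr), module ANC: ancestors
-/

open Finset Filter Topology

namespace CWM

section
variable {V U : Type} [Fintype V] [DecidableEq V] [Fintype U] (D : Dyn V U)

omit [Fintype V] [Fintype U] in
lemma ANC_sub (a : V × U) (A : Finset V) : A ⊆ (if a.1 ∈ A then A ∪ D.nb a.1 else A) := by
  split_ifs
  · exact Finset.subset_union_left
  · exact Finset.Subset.refl A

omit [Fintype V] [Fintype U] in
lemma ANC_mono (w : List (V × U)) : ∀ (A B : Finset V), A ⊆ B → anc D w A ⊆ anc D w B := by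
  induction w with
  | nil => intro A B h; exact h
  | cons a w ih =>
    intro A B h
    show anc D w (if a.1 ∈ A then A ∪ D.nb a.1 else A) ⊆ anc D w (if a.1 ∈ B then B ∪ D.nb a.1 else B)
    apply ih
    by_cases hA : a.1 ∈ A
    · rw [if_pos hA, if_pos (h hA)]
      exact Finset.union_subset_union h (Finset.Subset.refl _)
    · rw [if_neg hA]
      exact h.trans (ANC_sub D a B)

omit [Fintype V] [Fintype U] in
lemma ANC_ext (w : List (V × U)) : ∀ (A : Finset V), A ⊆ anc D w A := by
  induction w with
  | nil => intro A; exact Finset.Subset.refl A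
  | cons a w ih =>
    intro A
    exact (ANC_sub D a A).trans (ih _)

omit [Fintype V] [Fintype U] in
lemma ANC_app (w w' : List (V × U)) : ∀ (A : Finset V), anc D (w ++ w') A = anc D w' (anc D w A) := by
  induction w with
  | nil => intro A; rfl
  | cons a w ih =>
    intro A
    show anc D (w ++ w') (if a.1 ∈ A then A ∪ D.nb a.1 else A) = _
    rw [ih]
    rfl

omit [Fintype V] [Fintype U] in
lemma ANC_pt (w : List (V × U)) : ∀ (A : Finset V) (z : V), z ∈ anc D w A → ∃ y ∈ A, z ∈ anc D w {y} := by
  induction w with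
  | nil => intro A z hz; exact ⟨z, hz, Finset.mem_singleton_self z⟩
  | cons a w ih =>
    intro A z hz
    have hz' : z ∈ anc D w (if a.1 ∈ A then A ∪ D.nb a.1 else A) := hz
    obtain ⟨y, hy, hzy⟩ := ih _ z hz'
    by_cases hyA : y ∈ A
    · refine ⟨y, hyA, ?_⟩
      show z ∈ anc D w (if a.1 ∈ ({y} : Finset V) then {y} ∪ D.nb a.1 else {y})
      exact ANC_mono D w _ _ (ANC_sub D a {y}) hzy
    · by_cases hA : a.1 ∈ A
      · rw [if_pos hA] at hy
        have hy2 : y ∈ D.nb a.1 := by
          rcases Finset.mem_union.1 hy with h | h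
          · exact absurd h hyA
          · exact h
        refine ⟨a.1, hA, ?_⟩
        show z ∈ anc D w (if a.1 ∈ ({a.1} : Finset V) then {a.1} ∪ D.nb a.1 else {a.1})
        rw [if_pos (Finset.mem_singleton_self _)]
        refine ANC_mono D w {y} _ ?_ hzy
        intro t ht
        rw [Finset.mem_singleton.1 ht]
        exact Finset.mem_union_right _ hy2
      · rw [if_neg hA] at hy
        exact absurd hy hyA

omit [Fintype V] [Fintype U] in
lemma ANC_key (hloc : ∀ (x : V) (u : U) (σ τ : V → Bool), (∀ y ∈ D.nb x, σ y = τ y) → D.up x u σ = D.up x u τ)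
    (w : List (V × U)) (σ τ : V → Bool) : ∀ (A : Finset V), (∀ z ∈ anc D w A, σ z = τ z) →
      ∀ x ∈ A, fl D w σ x = fl D w τ x := by
  induction w with
  | nil => intro A h x hx; exact h x hx
  | cons a w ih =>
    intro A h x hx
    have h1 := ih (if a.1 ∈ A then A ∪ D.nb a.1 else A) h
    show Function.update (fl D w σ) a.1 (D.up a.1 a.2 (fl D w σ)) x =
      Function.update (fl D w τ) a.1 (D.up a.1 a.2 (fl D w τ)) x
    by_cases hxa : x = a.1
    · subst hxa
      rw [Function.update_self, Function.update_self]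
      apply hloc
      intro y hy
      apply h1
      rw [if_pos hx]
      exact Finset.mem_union_right _ hy
    · rw [Function.update_of_ne hxa, Function.update_of_ne hxa]
      exact h1 x (ANC_sub D a A hx)

omit [Fintype V] [Fintype U] in
lemma ANC_filt_pos (R : Finset V) (a : V × U) (w : List (V × U)) (h : a.1 ∈ R) :
    filt R (a :: w) = a :: filt R w := by
  unfold filt
  rw [List.filter_cons_of_pos (by simpa using h)]

omit [Fintype V] [Fintype U] in
lemma ANC_filt_neg (R : Finset V) (a : V × U) (w : List (V × U)) (h : a.1 ∉ R) :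
    filt R (a :: w) = filt R w := by
  unfold filt
  rw [List.filter_cons_of_neg (by simpa using h)]

omit [Fintype V] [Fintype U] in
lemma ANC_six (R : Finset V) (w : List (V × U)) : ∀ (A : Finset V), A ⊆ R →
    (anc D w A ⊆ R ↔ anc D (filt R w) A ⊆ R) := by
  induction w with
  | nil => intro A _; exact Iff.rfl
  | cons a w ih =>
    intro A hA
    by_cases ha : a.1 ∈ R
    · rw [ANC_filt_pos R a w ha]
      show anc D w (if a.1 ∈ A then A ∪ D.nb a.1 else A) ⊆ R ↔
        anc D (filt R w) (if a.1 ∈ A then A ∪ D.nb a.1 else A) ⊆ R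
      by_cases hA' : (if a.1 ∈ A then A ∪ D.nb a.1 else A) ⊆ R
      · exact ih _ hA'
      · constructor
        · intro h; exact absurd ((ANC_ext D w _).trans h) hA'
        · intro h; exact absurd ((ANC_ext D (filt R w) _).trans h) hA'
    · rw [ANC_filt_neg R a w ha]
      show anc D w (if a.1 ∈ A then A ∪ D.nb a.1 else A) ⊆ R ↔ _
      rw [if_neg (fun h => ha (hA h))]
      exact ih A hA

omit [Fintype V] [Fintype U] in
lemma ANC_seven (hloc : ∀ (x : V) (u : U) (σ τ : V → Bool), (∀ y ∈ D.nb x, σ y = τ y) → D.up x u σ = D.up x u τ)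
    (R : Finset V) (w : List (V × U)) : ∀ (A : Finset V), A ⊆ R → anc D w A ⊆ R →
    anc D (filt R w) A = anc D w A ∧ ∀ (σ : V → Bool), ∀ x ∈ A, fl D w σ x = fl D (filt R w) σ x := by
  induction w with
  | nil => intro A _ _; exact ⟨rfl, fun σ x _ => rfl⟩
  | cons a w ih =>
    intro A hA hR
    by_cases ha : a.1 ∈ R
    · rw [ANC_filt_pos R a w ha]
      have hR' : anc D w (if a.1 ∈ A then A ∪ D.nb a.1 else A) ⊆ R := hR
      have hA' : (if a.1 ∈ A then A ∪ D.nb a.1 else A) ⊆ R := (ANC_ext D w _).trans hR'
      obtain ⟨h1, h2⟩ := ih _ hA' hR'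
      refine ⟨h1, ?_⟩
      intro σ x hx
      show Function.update (fl D w σ) a.1 (D.up a.1 a.2 (fl D w σ)) x =
        Function.update (fl D (filt R w) σ) a.1 (D.up a.1 a.2 (fl D (filt R w) σ)) x
      by_cases hxa : x = a.1
      · subst hxa
        rw [Function.update_self, Function.update_self]
        apply hloc
        intro y hy
        apply h2
        rw [if_pos hx]
        exact Finset.mem_union_right _ hy
      · rw [Function.update_of_ne hxa, Function.update_of_ne hxa]
        exact h2 σ x (ANC_sub D a A hx)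
    · rw [ANC_filt_neg R a w ha]
      have haA : a.1 ∉ A := fun h => ha (hA h)
      have hR' : anc D w (if a.1 ∈ A then A ∪ D.nb a.1 else A) ⊆ R := hR
      rw [if_neg haA] at hR'
      obtain ⟨h1, h2⟩ := ih A hA hR'
      refine ⟨?_, ?_⟩
      · show _ = anc D w (if a.1 ∈ A then A ∪ D.nb a.1 else A)
        rw [if_neg haA]
        exact h1
      · intro σ x hx
        show Function.update (fl D w σ) a.1 (D.up a.1 a.2 (fl D w σ)) x = _
        have hxa : x ≠ a.1 := fun h => haA (h ▸ hx)
        rw [Function.update_of_ne hxa]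
        exact h2 σ x hx

end

theorem ANC : ANC_stmt := by
  intro V U _ _ _ D d hD
  refine ⟨fun w A B h => ANC_mono D w A B h, fun w A => ANC_ext D w A, fun w w' A => ANC_app D w w' A,
    ?_, ?_, fun R A w hA => ANC_six D R w A hA, fun R A w hA hR => ANC_seven D hD.loc R w A hA hR⟩
  · intro w A z
    constructor
    · exact ANC_pt D w A z
    · rintro ⟨y, hy, hz⟩
      exact ANC_mono D w {y} A (Finset.singleton_subset_iff.2 hy) hz
  · intro w x z hz
    by_contra hzn
    have hz2 : ∃ σ : V → Bool, fl D w (flp z σ) x ≠ fl D w σ x := by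
      unfold supp at hz
      simpa using hz
    obtain ⟨σ, hσ⟩ := hz2
    apply hσ
    refine ANC_key D hD.loc w (flp z σ) σ {x} ?_ x (Finset.mem_singleton_self x)
    intro y hy
    have hyz : y ≠ z := fun h => hzn (h ▸ hy)
    unfold flp
    rw [Function.update_of_ne hyz]

end CWM
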