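import Pool.Agent.helper18.CWM.SpecF

/-!
# cwm:AS1 — the conditions on the parameters
-/

open Finset Filter Topology

namespace CWM

theorem AS1_pow (d : ℕ) (hd : 1 ≤ d) (L : ℝ) (hL : 0 ≤ L) :
    (L ^ ((1 : ℝ) / (4 * d))) ^ (4 * d) = L := by
  have h : ((1 : ℝ) / (4 * d)) = (((4 * d : ℕ) : ℝ))⁻¹ := by
    push_cast
    rw [one_div]
  rw [h]
  exact Real.rpow_inv_natCast_pow hL (by omega)

theorem AS1_e2 (d : ℕ) : ∀ᶠ L in (atTop : Filter ℝ), (2 : ℝ) ^ (2 * d) * L ^ (4 * d) ≤ Real.exp L := by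
  have h := Real.tendsto_pow_mul_exp_neg_atTop_nhds_zero (4 * d)
  have h2 : ∀ᶠ L in (atTop : Filter ℝ), L ^ (4 * d) * Real.exp (-L) < 1 / (2 : ℝ) ^ (2 * d) :=
    h.eventually_lt_const (by positivity)
  filter_upwards [h2] with L hL
  rw [Real.exp_neg, ← div_eq_mul_inv, div_lt_div_iff₀ (Real.exp_pos L) (by positivity)] at hL
  linarith

theorem AS1_e3 (C : ℝ) (hC : 0 < C) :
    ∀ᶠ L in (atTop : Filter ℝ), C * L * Real.exp (2 - L / 4) ≤ 1 / 2 := by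
  have h := Real.tendsto_pow_mul_exp_neg_atTop_nhds_zero 1
  have h1 : Tendsto (fun L : ℝ => L / 4) atTop atTop := tendsto_id.atTop_div_const (by norm_num)
  have h2 := h.comp h1
  have hpos : 0 < 1 / (8 * C * Real.exp 2) := by positivity
  have h3 : ∀ᶠ L in (atTop : Filter ℝ), (L / 4) ^ 1 * Real.exp (-(L / 4)) < 1 / (8 * C * Real.exp 2) :=
    h2.eventually_lt_const hpos
  filter_upwards [h3] with L hL
  have h4 : Real.exp (2 - L / 4) = Real.exp 2 * Real.exp (-(L / 4)) := by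
    rw [← Real.exp_add]
    ring_nf
  rw [h4, pow_one] at *
  have h5 : C * L * (Real.exp 2 * Real.exp (-(L / 4))) =
      4 * C * Real.exp 2 * (L / 4 * Real.exp (-(L / 4))) := by ring
  rw [h5]
  have h6 : 4 * C * Real.exp 2 * (L / 4 * Real.exp (-(L / 4))) ≤
      4 * C * Real.exp 2 * (1 / (8 * C * Real.exp 2)) :=
    mul_le_mul_of_nonneg_left hL.le (by positivity)
  refine h6.trans (le_of_eq ?_)
  field_simp
  norm_num

theorem AS1 : AS1_stmt := by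
  intro d ε K hd hε hε1 hK
  have hlog : Tendsto (fun N : ℕ => Real.log (N : ℝ)) atTop atTop :=
    Real.tendsto_log_atTop.comp tendsto_natCast_atTop_atTop
  have hd0 : (0 : ℝ) < d := by exact_mod_cast hd
  have hs : Tendsto (fun L : ℝ => L ^ ((1 : ℝ) / (4 * d))) atTop atTop :=
    tendsto_rpow_atTop (by positivity)
  have e1 : ∀ᶠ L in (atTop : Filter ℝ),
      (2 : ℝ) ^ (4 * d + 1) * (32 * d + 9) + 64 / ε + 2 ≤ L ^ ((1 : ℝ) / (4 * d)) :=
    hs.eventually_ge_atTop _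
  have e3 := AS1_e3 ((64 * d + 19) ^ d) (by positivity)
  have e4 : ∀ᶠ L in (atTop : Filter ℝ), 8 + 64 / ε ≤ L := eventually_ge_atTop _
  obtain ⟨N₀, h⟩ := eventually_atTop.1
    (hlog.eventually (e1.and ((AS1_e2 d).and (e3.and e4))))
  refine ⟨N₀, fun N T hN hT _ => ?_⟩
  obtain ⟨h1, h2, h3, h4⟩ := h N hN
  have hq : 0 < 64 / ε := by positivity
  -- the basic quantities
  set L : ℝ := Real.log (N : ℝ) with hLdef
  set s : ℝ := L ^ ((1 : ℝ) / (4 * d)) with hsdef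
  have hL8 : 8 ≤ L := by linarith
  have hN0 : N ≠ 0 := by
    rintro rfl
    rw [hLdef] at hL8
    norm_num at hL8
  have hNpos : (0 : ℝ) < N := by
    have : 0 < N := Nat.pos_of_ne_zero hN0
    exact_mod_cast this
  have hN1 : (1 : ℝ) ≤ N := by
    have : 1 ≤ N := Nat.pos_of_ne_zero hN0
    exact_mod_cast this
  have hexp : Real.exp L = N := by rw [hLdef, Real.exp_log hNpos]
  have hsL : s ^ (4 * d) = L := AS1_pow d hd L (by linarith)
  have hA : (0 : ℝ) ≤ (2 : ℝ) ^ (4 * d + 1) * (32 * d + 9) := by positivity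
  have hs2 : 2 ≤ s := by linarith
  obtain ⟨τ, hτ⟩ : ∃ τ, τ = tq d N := ⟨_, rfl⟩
  have hτ' : τ = ⌊s⌋₊ := hτ
  have hτs : (τ : ℝ) ≤ s := by rw [hτ']; exact Nat.floor_le (by linarith)
  have hsτ : s < τ + 1 := by rw [hτ']; exact Nat.lt_floor_add_one s
  have hτC : (2 : ℝ) ^ (4 * d + 1) * (32 * d + 9) ≤ τ := by linarith
  have hτ1 : (1 : ℝ) ≤ τ := by linarith
  have hτ1' : 1 ≤ τ := by exact_mod_cast hτ1
  -- powers
  have hτL : (τ : ℝ) ^ (4 * d) ≤ L := by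
    rw [← hsL]
    exact pow_le_pow_left₀ (by linarith) hτs _
  have hLτ : L ≤ 2 ^ (4 * d) * (τ : ℝ) ^ (4 * d) := by
    rw [← hsL, ← mul_pow]
    exact pow_le_pow_left₀ (by linarith) (by linarith) _
  have hs_sq : s ^ 2 ≤ L := by
    rw [← hsL]
    exact pow_le_pow_right₀ (by linarith) (by omega)
  obtain ⟨J, hJ⟩ : ∃ J, J = jq d N ε := ⟨_, rfl⟩
  have hJ' : J = ⌊ε / 64 * L / τ⌋₊ := by rw [hJ, hτ]; rfl
  have hJnn : 0 ≤ ε / 64 * L / τ := by positivity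
  have hJle : (J : ℝ) ≤ ε / 64 * L / τ := by rw [hJ']; exact Nat.floor_le hJnn
  have hJτ : (J : ℝ) * τ ≤ ε / 64 * L := by
    have := mul_le_mul_of_nonneg_right hJle (by linarith : (0 : ℝ) ≤ τ)
    rwa [div_mul_cancel₀ _ (by linarith : (τ : ℝ) ≠ 0)] at this
  have hJ1 : 1 ≤ J := by
    rw [hJ']
    refine Nat.le_floor ?_
    rw [Nat.cast_one, le_div_iff₀ (by linarith : (0 : ℝ) < τ), one_mul]
    have hs64 : 64 / ε ≤ s := by linarith
    have : 64 ≤ ε * s := by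
      rw [div_le_iff₀ hε] at hs64
      linarith
    have h5 : s ≤ ε / 64 * s ^ 2 := by nlinarith
    have h6 : ε / 64 * s ^ 2 ≤ ε / 64 * L := mul_le_mul_of_nonneg_left hs_sq (by positivity)
    linarith
  -- the quotient T / N
  have hTN : L / 4 ≤ (T : ℝ) / N := by
    rw [le_div_iff₀ hNpos]
    calc L / 4 * N = N * L / 4 := by ring
      _ ≤ T := hT
  obtain ⟨X, hX⟩ : ∃ X : ℝ, X = (T : ℝ) / N := ⟨_, rfl⟩
  rw [← hX] at hTN
  have hXT : X * N = T := by rw [hX, div_mul_cancel₀ _ hNpos.ne']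
  have hX2 : 2 ≤ X := by linarith
  have hmq1 : (mq T ε : ℝ) ≤ (1 + ε / 2) * T := Nat.floor_le (by positivity)
  have hmq2 : (1 + ε / 2) * T < mq T ε + 1 := Nat.lt_floor_add_one _
  have hm2q1 : (1 + ε / 8) * T ≤ m2q T ε := Nat.le_ceil _
  have hm2q2 : (m2q T ε : ℝ) < (1 + ε / 8) * T + 1 := Nat.ceil_lt_add_one (by positivity)
  have hinv : 1 / (N : ℝ) ≤ 1 := by rw [div_le_one hNpos]; exact hN1
  have hinv0 : 0 ≤ 1 / (N : ℝ) := by positivity
  have hmqN : (1 + ε / 2) * X - 1 / N ≤ (mq T ε : ℝ) / N := by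
    rw [le_div_iff₀ hNpos, sub_mul, div_mul_cancel₀ _ hNpos.ne', mul_assoc, hXT]
    linarith
  have hm2qN : (m2q T ε : ℝ) / N ≤ (1 + ε / 8) * X + 1 / N := by
    rw [div_le_iff₀ hNpos, add_mul, div_mul_cancel₀ _ hNpos.ne', mul_assoc, hXT]
    linarith
  have hJX : (J : ℝ) * τ ≤ ε / 16 * X := by
    have : ε / 64 * L ≤ ε / 64 * (4 * X) := mul_le_mul_of_nonneg_left (by linarith) (by positivity)
    linarith
  have hth : (1 + 11 * ε / 32) * X - 1 / N ≤ thq d N T ε := by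
    unfold thq
    rw [← hJ, ← hτ]
    have h5 : (1 - ε / 16) * ((1 + ε / 2) * X - 1 / N) ≤ (1 - ε / 16) * ((mq T ε : ℝ) / N) :=
      mul_le_mul_of_nonneg_left hmqN (by linarith)
    have h6 : ε * ε ≤ ε * 1 := mul_le_mul_of_nonneg_left hε1.le hε.le
    have h7 : ε * ε * X ≤ ε * X := by
      have := mul_le_mul_of_nonneg_right h6 (by linarith : 0 ≤ X)
      linarith
    have h8 : 0 ≤ ε / 16 * (1 / N) := by positivity
    nlinarith
  have hthX : X - 1 ≤ thq d N T ε := by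
    have : 0 ≤ 11 * ε / 32 * X := by positivity
    nlinarith
  have hth1 : 1 ≤ thq d N T ε := by linarith
  rw [← hτ, ← hJ]
  refine ⟨hτ1', hJ1, ?_, ?_, hth1, ?_, ?_, ?_, ?_⟩
  · -- (3)
    have hJL : (J : ℝ) * τ ≤ 2 ^ (4 * d) * (τ : ℝ) ^ (4 * d) := by
      have : ε / 64 * L ≤ 1 * L := mul_le_mul_of_nonneg_right (by linarith) (by linarith)
      linarith
    have g1 : ((J : ℝ) * τ ^ (2 * d) + 1) * τ ≤ 2 ^ (4 * d + 1) * (τ : ℝ) ^ (6 * d) := by
      have g2 : (J : ℝ) * τ * τ ^ (2 * d) ≤ 2 ^ (4 * d) * (τ : ℝ) ^ (4 * d) * τ ^ (2 * d) :=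
        mul_le_mul_of_nonneg_right hJL (by positivity)
      have g3 : (τ : ℝ) ^ (4 * d) * τ ^ (2 * d) = τ ^ (6 * d) := by
        rw [← pow_add]
        ring_nf
      have g4 : (τ : ℝ) ≤ τ ^ (6 * d) := le_self_pow₀ hτ1 (by omega)
      have g5 : (1 : ℝ) ≤ 2 ^ (4 * d) := one_le_pow₀ (by norm_num)
      have g6 : (0 : ℝ) ≤ (τ : ℝ) ^ (6 * d) := by positivity
      have g7 : (τ : ℝ) ^ (6 * d) ≤ 2 ^ (4 * d) * (τ : ℝ) ^ (6 * d) := by nlinarith
      calc ((J : ℝ) * τ ^ (2 * d) + 1) * τ = (J : ℝ) * τ * τ ^ (2 * d) + τ := by ring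
        _ ≤ 2 ^ (4 * d) * (τ : ℝ) ^ (4 * d) * τ ^ (2 * d) + τ ^ (6 * d) := by linarith
        _ = 2 ^ (4 * d) * (τ : ℝ) ^ (6 * d) + τ ^ (6 * d) := by rw [mul_assoc, g3]
        _ ≤ 2 ^ (4 * d) * (τ : ℝ) ^ (6 * d) + 2 ^ (4 * d) * (τ : ℝ) ^ (6 * d) := by linarith
        _ = 2 ^ (4 * d + 1) * (τ : ℝ) ^ (6 * d) := by ring
    have g8 : (4 * ((8 * (d : ℝ) + 2) * τ) + 1) ≤ (32 * d + 9) * τ := by nlinarith
    have g9 : (τ : ℝ) ≤ τ ^ (2 * d) := le_self_pow₀ hτ1 (by omega)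
    have g10 : ((J : ℝ) * τ ^ (2 * d) + 1) * (4 * ((8 * (d : ℝ) + 2) * τ) + 1) ≤ (τ : ℝ) ^ (8 * d) := by
      calc ((J : ℝ) * τ ^ (2 * d) + 1) * (4 * ((8 * (d : ℝ) + 2) * τ) + 1)
          ≤ ((J : ℝ) * τ ^ (2 * d) + 1) * ((32 * d + 9) * τ) :=
            mul_le_mul_of_nonneg_left g8 (by positivity)
        _ = (32 * d + 9) * (((J : ℝ) * τ ^ (2 * d) + 1) * τ) := by ring
        _ ≤ (32 * d + 9) * (2 ^ (4 * d + 1) * (τ : ℝ) ^ (6 * d)) :=
            mul_le_mul_of_nonneg_left g1 (by positivity)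
        _ = (2 ^ (4 * d + 1) * (32 * d + 9)) * (τ : ℝ) ^ (6 * d) := by ring
        _ ≤ (τ : ℝ) ^ (2 * d) * (τ : ℝ) ^ (6 * d) :=
            mul_le_mul_of_nonneg_right (hτC.trans g9) (by positivity)
        _ = (τ : ℝ) ^ (8 * d) := by
            rw [← pow_add]
            ring_nf
    exact_mod_cast g10
  · -- (4)
    have g1 : (2 * (τ : ℝ) ^ (8 * d)) ^ (2 * d) = 2 ^ (2 * d) * ((τ : ℝ) ^ (4 * d)) ^ (4 * d) := by
      rw [mul_pow, ← pow_mul, ← pow_mul]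
      ring_nf
    have g2 : (2 * (τ : ℝ) ^ (8 * d)) ^ (2 * d) ≤ N := by
      rw [g1, ← hexp]
      refine le_trans ?_ h2
      exact mul_le_mul_of_nonneg_left (pow_le_pow_left₀ (by positivity) hτL _) (by positivity)
    exact_mod_cast g2
  · -- (6)
    have g1 : (vv d τ (τ ^ (2 * d)) : ℝ) ≤ (64 * d + 19) ^ d * L := by
      unfold vv
      push_cast
      have g2 : (8 * ((8 * (d : ℝ) + 2) * τ) + 3) ≤ (64 * d + 19) * τ := by nlinarith
      have g3 : (8 * ((8 * (d : ℝ) + 2) * τ) + 3) ^ d ≤ ((64 * d + 19) * τ) ^ d :=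
        pow_le_pow_left₀ (by positivity) g2 _
      have g4 : (τ : ℝ) ^ (2 * d) * τ ^ d ≤ τ ^ (4 * d) := by
        rw [← pow_add]
        exact pow_le_pow_right₀ hτ1 (by omega)
      calc (τ : ℝ) ^ (2 * d) * (8 * ((8 * (d : ℝ) + 2) * τ) + 3) ^ d
          ≤ (τ : ℝ) ^ (2 * d) * ((64 * d + 19) * τ) ^ d := mul_le_mul_of_nonneg_left g3 (by positivity)
        _ = (64 * d + 19) ^ d * ((τ : ℝ) ^ (2 * d) * τ ^ d) := by rw [mul_pow]; ring
        _ ≤ (64 * d + 19) ^ d * L := mul_le_mul_of_nonneg_left (g4.trans hτL) (by positivity)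
    have g5 : Real.exp (-(thq d N T ε - 1)) ≤ Real.exp (2 - L / 4) := by
      rw [Real.exp_le_exp]
      linarith
    calc (vv d τ (τ ^ (2 * d)) : ℝ) * Real.exp (-(thq d N T ε - 1))
        ≤ ((64 * d + 19) ^ d * L) * Real.exp (2 - L / 4) :=
          mul_le_mul g1 g5 (Real.exp_pos _).le (by positivity)
      _ ≤ 1 / 2 := h3
  · -- (7)
    rw [div_le_iff₀ (by linarith : 0 < thq d N T ε)]
    have g1 : (1 - ε / 16) * ((1 + 11 * ε / 32) * X - 1 / N) ≤ (1 - ε / 16) * thq d N T ε :=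
      mul_le_mul_of_nonneg_left hth (by linarith)
    have h6 : ε * ε ≤ ε * 1 := mul_le_mul_of_nonneg_left hε1.le hε.le
    have h7 : ε * ε * X ≤ ε * X := by
      have := mul_le_mul_of_nonneg_right h6 (by linarith : 0 ≤ X)
      linarith
    have h8 : 0 ≤ ε / 16 * (1 / N) := by positivity
    have h9 : 16 ≤ ε * X := by
      have h10 : 64 / ε ≤ L := by linarith
      rw [div_le_iff₀ hε] at h10
      nlinarith
    nlinarith
  · -- (8)
    have g1 : (T : ℝ) ≤ m2q T ε := by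
      have : 0 ≤ ε / 8 * T := by positivity
      linarith
    exact_mod_cast g1
  · -- (9)
    push_cast
    have g1 : (τ : ℝ) + 1 ≤ ε / 2 * X := by
      have hs64 : 64 / ε ≤ s := by linarith
      rw [div_le_iff₀ hε] at hs64
      have g2 : s + 1 ≤ ε / 8 * s ^ 2 := by nlinarith
      have g3 : ε / 8 * s ^ 2 ≤ ε / 8 * L := mul_le_mul_of_nonneg_left hs_sq (by positivity)
      have g4 : ε / 8 * L ≤ ε / 8 * (4 * X) := mul_le_mul_of_nonneg_left (by linarith) (by positivity)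
      linarith
    have g5 : ((τ : ℝ) + 1) * N ≤ ε / 2 * X * N := mul_le_mul_of_nonneg_right g1 hNpos.le
    have g6 : ε / 2 * X * N = ε / 2 * T := by rw [mul_assoc, hXT]
    rw [g6] at g5
    linarith

end CWM
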