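import Pool.Agent.helper18.CWM.SpecF

/-!
# Project cwm, module AS2: asymptotics of stage 1
-/

open Finset Filter Topology

namespace CWM

lemma AS2_tq_tendsto (d : ℕ) (hd : 1 ≤ d) : Tendsto (fun N : ℕ => tq d N) atTop atTop := by
  unfold tq
  have hd' : (0 : ℝ) < 1 / (4 * d) := by
    have : (0 : ℝ) < d := by exact_mod_cast hd
    positivity
  exact tendsto_nat_floor_atTop.comp
    ((tendsto_rpow_atTop hd').comp (Real.tendsto_log_atTop.comp tendsto_natCast_atTop_atTop))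

lemma AS2_log_le (d N : ℕ) (hd : 1 ≤ d) (hN : 1 ≤ N) :
    Real.log N ≤ (((tq d N + 1) ^ (4 * d) : ℕ) : ℝ) := by
  have hL : 0 ≤ Real.log N := Real.log_nonneg (by exact_mod_cast hN)
  have hd0 : (4 * (d : ℝ)) ≠ 0 := by
    have : (0 : ℝ) < d := by exact_mod_cast hd
    positivity
  have h1 : (Real.log N) ^ ((1 : ℝ) / (4 * d)) ≤ (tq d N : ℝ) + 1 := by
    unfold tq
    exact (Nat.lt_floor_add_one _).le
  have h2 : ((Real.log N) ^ ((1 : ℝ) / (4 * d))) ^ (4 * d) = Real.log N := by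
    rw [← Real.rpow_natCast, ← Real.rpow_mul hL]
    push_cast
    rw [one_div, inv_mul_cancel₀ hd0, Real.rpow_one]
  calc Real.log N = ((Real.log N) ^ ((1 : ℝ) / (4 * d))) ^ (4 * d) := h2.symm
    _ ≤ ((tq d N : ℝ) + 1) ^ (4 * d) := pow_le_pow_left₀ (Real.rpow_nonneg hL _) h1 _
    _ = (((tq d N + 1) ^ (4 * d) : ℕ) : ℝ) := by push_cast; ring

lemma AS2_poly (p : Polynomial ℝ) (c : ℝ) (hc : 0 < c) :
    Tendsto (fun n : ℕ => p.eval (n : ℝ) * Real.exp (-c * n)) atTop (𝓝 0) := by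
  have h1 := Polynomial.tendsto_div_exp_atTop (p.comp (Polynomial.C c⁻¹ * Polynomial.X))
  have h2 : Tendsto (fun n : ℕ => c * (n : ℝ)) atTop atTop :=
    tendsto_natCast_atTop_atTop.const_mul_atTop hc
  refine (h1.comp h2).congr fun n => ?_
  simp only [Function.comp_apply, Polynomial.eval_comp, Polynomial.eval_mul, Polynomial.eval_C, Polynomial.eval_X]
  rw [← mul_assoc, inv_mul_cancel₀ hc.ne', one_mul, div_eq_mul_inv, ← Real.exp_neg]
  congr 2
  ring

theorem AS2 : AS2_stmt := by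
  intro d A' c' ω hd hA hc hω
  -- the polynomial
  let p : Polynomial ℝ := Polynomial.C (Real.exp 3 * A') * (1 + 2 * (Polynomial.X + 1) ^ (4 * d) *
    (2 * (4 * Polynomial.X ^ (8 * d) + 6 * ((8 * Polynomial.C (d : ℝ) + 2) * Polynomial.X) + 2) + 1) ^ d)
  have hp : ∀ x : ℝ, p.eval x = Real.exp 3 * A' * (1 + 2 * (x + 1) ^ (4 * d) *
      (2 * (4 * x ^ (8 * d) + 6 * ((8 * d + 2) * x) + 2) + 1) ^ d) := by
    intro x
    simp [p]
  have h1 := (AS2_poly p c' hc).comp (AS2_tq_tendsto d hd)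
  set δ : ℝ := min 1 (ω / Real.exp 1) with hδ
  have hδ0 : 0 < δ := lt_min one_pos (div_pos hω (Real.exp_pos 1))
  have hδ1 : δ ≤ 1 := min_le_left _ _
  have hδω : Real.exp 1 * δ ≤ ω := by
    have : δ ≤ ω / Real.exp 1 := min_le_right _ _
    rw [le_div_iff₀ (Real.exp_pos 1)] at this
    linarith
  have h2 := (h1.eventually_lt_const hδ0).and (eventually_ge_atTop 1)
  obtain ⟨N₀, hN₀⟩ := eventually_atTop.1 h2
  refine ⟨N₀, fun N hN => ?_⟩
  obtain ⟨h3, hN1⟩ := hN₀ N hN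
  simp only [Function.comp_apply, hp] at h3
  unfold qq
  have hlog := AS2_log_le d N hd hN1
  set τ : ℕ := tq d N with hτ
  set s : ℕ := (τ + 1) ^ (4 * d) with hs
  have hsc : ((s : ℕ) : ℝ) = ((τ : ℝ) + 1) ^ (4 * d) := by rw [hs]; push_cast; ring
  have hs1 : 1 ≤ s := Nat.one_le_pow _ _ (Nat.succ_pos _)
  have hτs : (τ : ℝ) ≤ s := by
    have : τ + 1 ≤ (τ + 1) ^ (4 * d) := Nat.le_self_pow (by omega) _
    have h4 : τ ≤ s := by omega
    exact_mod_cast h4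
  have hN' : (N : ℝ) ≤ Real.exp s := by
    have hN0 : (0 : ℝ) < N := by exact_mod_cast hN1
    calc (N : ℝ) = Real.exp (Real.log N) := (Real.exp_log hN0).symm
      _ ≤ Real.exp s := Real.exp_le_exp.2 hlog
  have hτe : (τ : ℝ) ≤ Real.exp s := by
    have := Real.add_one_le_exp (s : ℝ)
    linarith
  have hτc : (((τ ^ (8 * d) : ℕ) : ℝ)) = (τ : ℝ) ^ (8 * d) := by push_cast; ring
  rw [hτc]
  have hτ0 : (0 : ℝ) ≤ τ := Nat.cast_nonneg _
  set B : ℝ := 1 + 2 * (s : ℝ) * (2 * (4 * (τ : ℝ) ^ (8 * d) + 6 * ((8 * d + 2) * τ) + 2) + 1) ^ d with hB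
  have hB0 : 0 ≤ B := by positivity
  have h5 : Real.exp 3 * (B * (A' * Real.exp (-c' * τ))) ≤ δ := by
    rw [← hsc] at h3
    have : Real.exp 3 * (B * (A' * Real.exp (-c' * τ))) =
      Real.exp 3 * A' * (1 + 2 * (s : ℝ) * (2 * (4 * (τ : ℝ) ^ (8 * d) + 6 * ((8 * d + 2) * τ) + 2) + 1) ^ d) *
      Real.exp (-c' * τ) := by rw [hB]; ring
    rw [this]
    exact h3.le
  set Q : ℝ := A' * Real.exp (-c' * τ) with hQ
  have hQ0 : 0 ≤ Q := by positivity
  have hN0 : (0 : ℝ) ≤ N := Nat.cast_nonneg _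
  have e3 : Real.exp (3 : ℝ) ^ s = Real.exp s * Real.exp s * Real.exp s := by
    rw [← Real.exp_nat_mul, ← Real.exp_add, ← Real.exp_add]
    congr 1
    ring
  calc (N : ℝ) * (B ^ s * (Real.exp 1 * (τ * N)) * Q ^ s)
      = Real.exp 1 * ((N * N * τ) * (B * Q) ^ s) := by rw [mul_pow B Q s]; ring
    _ ≤ Real.exp 1 * ((Real.exp s * Real.exp s * Real.exp s) * (B * Q) ^ s) := by
        refine mul_le_mul_of_nonneg_left ?_ (Real.exp_pos 1).le
        refine mul_le_mul_of_nonneg_right ?_ (pow_nonneg (mul_nonneg hB0 hQ0) s)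
        have ha : (N : ℝ) * N ≤ Real.exp s * Real.exp s := mul_le_mul hN' hN' hN0 (Real.exp_pos _).le
        exact mul_le_mul ha hτe hτ0 (by positivity)
    _ = Real.exp 1 * (Real.exp 3 * (B * Q)) ^ s := by rw [← e3, mul_pow (Real.exp 3)]
    _ ≤ Real.exp 1 * δ ^ s := by
        refine mul_le_mul_of_nonneg_left ?_ (Real.exp_pos 1).le
        exact pow_le_pow_left₀ (mul_nonneg (Real.exp_pos _).le (mul_nonneg hB0 hQ0)) h5 s
    _ ≤ Real.exp 1 * δ := by
        refine mul_le_mul_of_nonneg_left ?_ (Real.exp_pos 1).le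
        exact pow_le_of_le_one hδ0.le hδ1 (by omega)
    _ ≤ ω := hδω

end CWM
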