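import Pool.Agent.helper18.CWM.SpecF

set_option autoImplicit false

/-! # Project cwm (MP_7c3fb3_pr), row AS3: the error of the paths -/

open Finset Filter Topology

namespace CWM

/-- `τ^(8d) ≥ L^2 / 2^(8d)` -/
lemma AS3_tau (d N : ℕ) (hd : 1 ≤ d) (hL : 1 ≤ Real.log N) :
    (Real.log N) ^ 2 / 2 ^ (8 * d) ≤ (tq d N : ℝ) ^ (8 * d) := by
  have hd0 : (0 : ℝ) < d := by exact_mod_cast hd
  set L : ℝ := Real.log N with hLdef
  have hL0 : 0 ≤ L := by linarith
  have h1 : L ^ ((1 : ℝ) / (4 * d)) < (tq d N : ℝ) + 1 := Nat.lt_floor_add_one _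
  have h2 : 1 ≤ tq d N := by
    refine Nat.le_floor ?_
    rw [Nat.cast_one]
    exact Real.one_le_rpow hL (by positivity)
  have h2' : (1 : ℝ) ≤ tq d N := by exact_mod_cast h2
  have h3 : (L ^ ((1 : ℝ) / (4 * d))) ^ (8 * d) = L ^ 2 := by
    rw [← Real.rpow_natCast, ← Real.rpow_mul hL0]
    have : (1 : ℝ) / (4 * d) * ((8 * d : ℕ) : ℝ) = ((2 : ℕ) : ℝ) := by
      push_cast
      field_simp
      norm_num
    rw [this, Real.rpow_natCast]
  rw [div_le_iff₀ (by positivity), ← h3, ← mul_pow]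
  refine pow_le_pow_left₀ (Real.rpow_nonneg hL0 _) ?_ _
  linarith

theorem AS3 : AS3_stmt := by
  intro d ε K ω hd hε0 hε1 hK hω
  have hd0 : (0 : ℝ) < d := by exact_mod_cast hd
  have hlog2 : 0 < Real.log 2 := Real.log_pos (by norm_num)
  set c : ℝ := 2 * Real.log 2 / 2 ^ (8 * d) with hc
  have hc0 : 0 < c := by positivity
  set L₀ : ℝ := (1 + 8 * d * K + |Real.log ω|) / c + 1 with hL₀
  have hL₀1 : 1 ≤ L₀ := by
    have : 0 ≤ (1 + 8 * d * K + |Real.log ω|) / c := by positivity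
    linarith
  refine ⟨⌈Real.exp L₀⌉₊, ?_⟩
  intro N T hN _ hT
  have hNr : Real.exp L₀ ≤ N := le_trans (Nat.le_ceil _) (by exact_mod_cast hN)
  have hNpos : (0 : ℝ) < N := lt_of_lt_of_le (Real.exp_pos _) hNr
  have hLL : L₀ ≤ Real.log N := by
    rw [Real.le_log_iff_exp_le hNpos]
    exact hNr
  have hL1 : 1 ≤ Real.log N := hL₀1.trans hLL
  have htau := AS3_tau d N hd hL1
  set L : ℝ := Real.log N with hL
  -- the number of letters
  have hmq : (mq T ε : ℝ) ≤ (1 + ε / 2) * T := Nat.floor_le (by positivity)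
  have hT0 : (0 : ℝ) ≤ T := by positivity
  have hm2 : (mq T ε : ℝ) / N ≤ 2 * K * L := by
    rw [div_le_iff₀ hNpos]
    have h1 : (1 + ε / 2) * T ≤ 2 * T := by nlinarith
    have h2 : 2 * (T : ℝ) ≤ 2 * (K * (N * L)) := by linarith
    calc (mq T ε : ℝ) ≤ 2 * (K * (N * L)) := hmq.trans (h1.trans h2)
      _ = 2 * K * L * N := by ring
  have hhalf : (1 / 2 : ℝ) = Real.exp (-Real.log 2) := by
    rw [Real.exp_neg, Real.exp_log (by norm_num)]
    norm_num
  have e1 : (N : ℝ) * ((1 / 2) ^ (2 * tq d N ^ (8 * d) + 1) * Real.exp (4 * d * (mq T ε / N)))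
      = Real.exp (L + (((2 * tq d N ^ (8 * d) + 1 : ℕ) : ℝ) * (-Real.log 2)
          + 4 * d * (mq T ε / N))) := by
    rw [hhalf, ← Real.exp_nat_mul, Real.exp_add, Real.exp_add, hL, Real.exp_log hNpos]
  rw [e1, ← Real.exp_log hω]
  apply Real.exp_le_exp.2
  have h3 : (((2 * tq d N ^ (8 * d) + 1 : ℕ) : ℝ)) * (-Real.log 2) ≤ -(c * L ^ 2) := by
    push_cast
    have h4 : c * L ^ 2 = 2 * Real.log 2 * (L ^ 2 / 2 ^ (8 * d)) := by rw [hc]; ring
    rw [h4]
    have h5 := mul_le_mul_of_nonneg_left htau (show 0 ≤ 2 * Real.log 2 by positivity)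
    nlinarith
  have h6 : 4 * d * ((mq T ε : ℝ) / N) ≤ 8 * d * K * L := by
    have := mul_le_mul_of_nonneg_left hm2 (show 0 ≤ 4 * (d : ℝ) by positivity)
    linarith
  have h7 : 1 + 8 * d * K + |Real.log ω| ≤ c * L := by
    have h8 : (1 + 8 * d * K + |Real.log ω|) / c ≤ L := by linarith
    rw [div_le_iff₀ hc0] at h8
    linarith
  have h9 : (1 + 8 * d * K) * L + |Real.log ω| ≤ c * L ^ 2 := by
    have h10 := mul_le_mul_of_nonneg_right h7 (show 0 ≤ L by linarith)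
    have h11 : |Real.log ω| ≤ |Real.log ω| * L := le_mul_of_one_le_right (abs_nonneg _) hL1
    nlinarith
  have h12 : -|Real.log ω| ≤ Real.log ω := neg_abs_le _
  linarith

end CWM
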