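import Pool.Agent.helper18.CWM.SpecF

/-!
# Project cwm (MP_7c3fb3_pr), module AS4: the number of letters
-/

open Finset Filter Topology

namespace CWM

lemma AS4_tq (d : ℕ) (hd : 1 ≤ d) : Tendsto (fun N : ℕ => tq d N) atTop atTop := by
  unfold tq
  have h0 : (0 : ℝ) < 1 / (4 * d) := by
    have : (1 : ℝ) ≤ d := by exact_mod_cast hd
    positivity
  exact tendsto_nat_floor_atTop.comp ((tendsto_rpow_atTop h0).comp
    (Real.tendsto_log_atTop.comp tendsto_natCast_atTop_atTop))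

theorem AS4 : AS4_stmt := by
  intro d ε K ω hd hε hε1 hK hω
  obtain ⟨Q, hQ⟩ := exists_nat_ge (2048 / ε ^ 2 : ℝ)
  obtain ⟨N₁, hN₁⟩ := Filter.eventually_atTop.1 ((AS4_tq d hd).eventually_ge_atTop (Q + 1))
  obtain ⟨N₂, hN₂⟩ := exists_nat_ge (1 / ω : ℝ)
  refine ⟨max N₁ (N₂ + 1), fun N T hN hT1 hT2 => ?_⟩
  have hN1 : N₁ ≤ N := (le_max_left _ _).trans hN
  have hN2 : N₂ + 1 ≤ N := (le_max_right _ _).trans hN
  have hNpos : (0 : ℝ) < N := by
    have : 0 < N := by omega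
    exact_mod_cast this
  have hN1' : (1 : ℝ) ≤ N := by
    have : 1 ≤ N := by omega
    exact_mod_cast this
  have hlog : 0 ≤ Real.log N := Real.log_nonneg hN1'
  have hτ : Q + 1 ≤ tq d N := hN₁ N hN1
  have hτ2 : (Q : ℝ) ≤ ((tq d N ^ (8 * d) : ℕ) : ℝ) := by
    have h1 : tq d N ≤ tq d N ^ (8 * d) := Nat.le_self_pow (by omega) _
    have h2 : Q ≤ tq d N ^ (8 * d) := by omega
    exact_mod_cast h2
  have hmq : (T : ℝ) ≤ mq T ε := by
    have h1 : T ≤ mq T ε := by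
      unfold mq
      apply Nat.le_floor
      have : (0 : ℝ) ≤ T := Nat.cast_nonneg T
      nlinarith
    exact_mod_cast h1
  have hε2 : 0 < ε ^ 2 := by positivity
  have hQ2 : 2048 ≤ ε ^ 2 * ((tq d N ^ (8 * d) : ℕ) : ℝ) := by
    have h1 : 2048 / ε ^ 2 ≤ ((tq d N ^ (8 * d) : ℕ) : ℝ) := hQ.trans hτ2
    rw [div_le_iff₀ hε2] at h1
    linarith
  generalize ((tq d N ^ (8 * d) : ℕ) : ℝ) = X at hQ2 hτ2
  have hX : 0 ≤ X := (Nat.cast_nonneg Q).trans hτ2
  have hexp : 2 * Real.log N ≤ (ε / 16) ^ 2 * (mq T ε * (2 * X) / N) / 2 := by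
    have h1 : Real.log N / 4 ≤ mq T ε / N := by
      rw [le_div_iff₀ hNpos]
      linarith
    have h2 : (ε / 16) ^ 2 * (mq T ε * (2 * X) / N) / 2 = (ε ^ 2 * X / 256) * (mq T ε / N) := by
      field_simp
      ring
    rw [h2]
    have h3 : 8 ≤ ε ^ 2 * X / 256 := by linarith
    calc 2 * Real.log N = 8 * (Real.log N / 4) := by ring
      _ ≤ (ε ^ 2 * X / 256) * (Real.log N / 4) := mul_le_mul_of_nonneg_right h3 (by positivity)
      _ ≤ (ε ^ 2 * X / 256) * (mq T ε / N) := mul_le_mul_of_nonneg_left h1 (by linarith)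
  have hfin : Real.exp (-((ε / 16) ^ 2 * (mq T ε * (2 * X) / N) / 2)) ≤ 1 / (N : ℝ) ^ 2 := by
    have h1 : Real.exp (-((ε / 16) ^ 2 * (mq T ε * (2 * X) / N) / 2)) ≤ Real.exp (-(2 * Real.log N)) :=
      Real.exp_le_exp.2 (by linarith)
    refine h1.trans (le_of_eq ?_)
    rw [Real.exp_neg, two_mul, Real.exp_add, Real.exp_log hNpos]
    field_simp
  calc N * Real.exp (-((ε / 16) ^ 2 * (mq T ε * (2 * X) / N) / 2)) ≤ N * (1 / (N : ℝ) ^ 2) :=
        mul_le_mul_of_nonneg_left hfin hNpos.le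
    _ = 1 / N := by field_simp
    _ ≤ ω := by
        rw [div_le_iff₀ hNpos]
        have h1 : 1 / ω ≤ N := by
          have : (N₂ : ℝ) ≤ N := by exact_mod_cast (by omega : N₂ ≤ N)
          linarith
        rw [div_le_iff₀ hω] at h1
        linarith

end CWM
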