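import Pool.Agent.helper18.CWM.SpecF
import Pool.Agent.helper18.CWM.AS2

/-!
# Project cwm (MP_7c3fb3_pr), module AS5: asymptotics of stage 2
-/

open Finset Filter Topology

namespace CWM

lemma AS5_le_log (d N : ℕ) (hd : 1 ≤ d) (hN : 1 ≤ N) :
    ((tq d N : ℕ) : ℝ) ^ (4 * d) ≤ Real.log N := by
  have hL : 0 ≤ Real.log N := Real.log_nonneg (by exact_mod_cast hN)
  have hd0 : (4 * (d : ℝ)) ≠ 0 := by
    have : (0 : ℝ) < d := by exact_mod_cast hd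
    positivity
  have h1 : (tq d N : ℝ) ≤ (Real.log N) ^ ((1 : ℝ) / (4 * d)) := by
    unfold tq
    exact Nat.floor_le (Real.rpow_nonneg hL _)
  have h2 : ((Real.log N) ^ ((1 : ℝ) / (4 * d))) ^ (4 * d) = Real.log N := by
    rw [← Real.rpow_natCast, ← Real.rpow_mul hL]
    push_cast
    rw [one_div, inv_mul_cancel₀ hd0, Real.rpow_one]
  calc ((tq d N : ℕ) : ℝ) ^ (4 * d) ≤ ((Real.log N) ^ ((1 : ℝ) / (4 * d))) ^ (4 * d) :=
        pow_le_pow_left₀ (Nat.cast_nonneg _) h1 _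
    _ = Real.log N := h2

/-- the algebraic core: everything with `L = log N` -/
lemma AS5_core (N J M : ℕ) (P1 P2 Q L : ℝ) (hN : (N : ℝ) = Real.exp L) (hM : 1 ≤ M) (hP1 : 0 ≤ P1)
    (hP2 : 1 ≤ P2) (hQ : 0 ≤ Q) (hR : P1 * P2 * Q ≤ Real.exp (-1)) (hJM : 2 * L ≤ (J * M : ℕ)) :
    (N : ℝ) * (P1 ^ (J * M) * P2 ^ J * Q ^ (J * M)) ≤ Real.exp (-L) := by
  have h1 : P2 ^ J ≤ P2 ^ (J * M) := pow_le_pow_right₀ hP2 (Nat.le_mul_of_pos_right J hM)
  have h2 : P1 ^ (J * M) * P2 ^ J * Q ^ (J * M) ≤ (P1 * P2 * Q) ^ (J * M) := by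
    rw [mul_pow, mul_pow]
    apply mul_le_mul_of_nonneg_right _ (pow_nonneg hQ _)
    exact mul_le_mul_of_nonneg_left h1 (pow_nonneg hP1 _)
  have h3 : (P1 * P2 * Q) ^ (J * M) ≤ Real.exp (-1) ^ (J * M) :=
    pow_le_pow_left₀ (by positivity) hR _
  have h4 : Real.exp (-1) ^ (J * M) ≤ Real.exp (-(2 * L)) := by
    rw [← Real.exp_nat_mul]
    apply Real.exp_le_exp.2
    linarith
  calc (N : ℝ) * (P1 ^ (J * M) * P2 ^ J * Q ^ (J * M)) ≤ N * Real.exp (-(2 * L)) :=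
        mul_le_mul_of_nonneg_left (h2.trans (h3.trans h4)) (Nat.cast_nonneg _)
    _ = Real.exp (-L) := by
        rw [hN, ← Real.exp_add]
        congr 1
        ring

theorem AS5 : AS5_stmt := by
  intro d ε A' c' ω hd hε hε1 hA hc hω
  let a : Polynomial ℝ := (Polynomial.X + 1) ^ (4 * d) *
    (8 * ((8 * Polynomial.C (d : ℝ) + 2) * Polynomial.X) + 3) ^ d
  let p : Polynomial ℝ := (a + 2 * ((Polynomial.X + 1) ^ (4 * d) * Polynomial.X ^ (2 * d)) *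
      (8 * ((8 * Polynomial.C (d : ℝ) + 2) * Polynomial.X) + 3) ^ d) *
    (Polynomial.C (Real.exp 1) * (Polynomial.X * (a * (4 * Polynomial.X ^ (8 * d) + 1) ^ d))) *
    Polynomial.C A'
  have hp : ∀ x : ℝ, p.eval x =
      ((x + 1) ^ (4 * d) * (8 * ((8 * (d : ℝ) + 2) * x) + 3) ^ d +
        2 * ((x + 1) ^ (4 * d) * x ^ (2 * d)) * (8 * ((8 * (d : ℝ) + 2) * x) + 3) ^ d) *
      (Real.exp 1 * (x * ((x + 1) ^ (4 * d) * (8 * ((8 * (d : ℝ) + 2) * x) + 3) ^ d *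
        (4 * x ^ (8 * d) + 1) ^ d))) * A' := by
    intro x
    simp [p, a]
  have h1 := (AS2_poly p c' hc).comp (AS2_tq_tendsto d hd)
  obtain ⟨Q₀, hQ₀⟩ := exists_nat_ge (256 / ε : ℝ)
  obtain ⟨N₂, hN₂⟩ := exists_nat_ge (1 / ω : ℝ)
  have h2 := ((h1.eventually_lt_const (Real.exp_pos (-1))).and (eventually_ge_atTop (N₂ + 1))).and
    ((AS2_tq_tendsto d hd).eventually_ge_atTop (Q₀ + 1))
  obtain ⟨N₀, hN₀⟩ := eventually_atTop.1 h2
  refine ⟨N₀, fun N hN => ?_⟩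
  obtain ⟨⟨h3, hN1⟩, h4⟩ := hN₀ N hN
  simp only [Function.comp_apply, hp] at h3
  have hN1' : 1 ≤ N := by omega
  have hNpos : (0 : ℝ) < N := by exact_mod_cast hN1'
  have hup := AS2_log_le d N hd hN1'
  have hlo := AS5_le_log d N hd hN1'
  set L : ℝ := Real.log N with hL
  have hL0 : 0 ≤ L := Real.log_nonneg (by exact_mod_cast hN1')
  set τ : ℕ := tq d N with hτ
  have hτ1 : 1 ≤ τ := by omega
  have hτr : (1 : ℝ) ≤ τ := by exact_mod_cast hτ1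
  have hτQ : 256 / ε ≤ τ := by
    have : (Q₀ : ℝ) ≤ τ := by exact_mod_cast (by omega : Q₀ ≤ τ)
    linarith
  have hτε : 256 ≤ ε * τ := by
    rw [div_le_iff₀ hε] at hτQ
    linarith
  set J : ℕ := jq d N ε with hJ
  -- upper bound for `J`
  have hJfl : ((J : ℕ) : ℝ) ≤ ε / 64 * L / τ := by
    rw [hJ]
    unfold jq
    apply Nat.floor_le
    positivity
  have hJup : (J : ℝ) ≤ ((τ : ℝ) + 1) ^ (4 * d) := by
    have e1 : ε / 64 * L / τ ≤ L := by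
      rw [div_le_iff₀ (by linarith)]
      nlinarith
    have e2 : (((τ + 1) ^ (4 * d) : ℕ) : ℝ) = ((τ : ℝ) + 1) ^ (4 * d) := by push_cast; ring
    rw [e2] at hup
    linarith
  -- lower bound for `J`
  have hτ2 : (τ : ℝ) ^ 2 ≤ L := by
    refine le_trans ?_ hlo
    exact pow_le_pow_right₀ hτr (by omega)
  have hJlo : ε / 128 * L / τ ≤ J := by
    have e1 : ε / 64 * L / τ < J + 1 := by
      rw [hJ]
      unfold jq
      exact Nat.lt_floor_add_one _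
    have e2 : 1 ≤ ε / 128 * L / τ := by
      rw [le_div_iff₀ (by linarith)]
      nlinarith
    have e3 : ε / 64 * L / τ = 2 * (ε / 128 * L / τ) := by ring
    linarith
  have hM1 : 1 ≤ τ ^ (2 * d) := Nat.one_le_pow _ _ hτ1
  have hM2 : (τ : ℝ) ^ 2 ≤ ((τ ^ (2 * d) : ℕ) : ℝ) := by
    push_cast
    exact pow_le_pow_right₀ hτr (by omega)
  have hJM : 2 * L ≤ ((J * τ ^ (2 * d) : ℕ) : ℝ) := by
    have e0 : ((J * τ ^ (2 * d) : ℕ) : ℝ) = (J : ℝ) * ((τ ^ (2 * d) : ℕ) : ℝ) := by push_cast; ring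
    rw [e0]
    calc 2 * L ≤ ε / 128 * L * τ := by nlinarith
      _ = ε / 128 * L / τ * (τ : ℝ) ^ 2 := by
          field_simp
      _ ≤ (J : ℝ) * ((τ ^ (2 * d) : ℕ) : ℝ) :=
          mul_le_mul hJlo hM2 (by positivity) (Nat.cast_nonneg _)
  unfold PP qq
  have hexpL : (N : ℝ) = Real.exp L := (Real.exp_log hNpos).symm
  set S : ℝ := (8 * ((8 * (d : ℝ) + 2) * τ) + 3) ^ d with hS
  have hS1 : 1 ≤ S := by
    rw [hS]
    apply one_le_pow₀
    have : (0 : ℝ) ≤ (8 * (d : ℝ) + 2) * τ := by positivity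
    linarith
  have hc1 : ((((τ + 1) ^ (4 * d) * (8 * ((8 * d + 2) * τ) + 3) ^ d : ℕ) : ℕ) : ℝ)
      = ((τ : ℝ) + 1) ^ (4 * d) * S := by
    rw [hS]
    push_cast
    ring
  have hρ : ((τ ^ (8 * d) : ℕ) : ℝ) = (τ : ℝ) ^ (8 * d) := by push_cast; ring
  have hMc : ((τ ^ (2 * d) : ℕ) : ℝ) = (τ : ℝ) ^ (2 * d) := by push_cast; ring
  rw [hc1, hρ, hMc]
  have hW1 : (1 : ℝ) ≤ ((τ : ℝ) + 1) ^ (4 * d) := one_le_pow₀ (by linarith)
  have hfin := AS5_core N J (τ ^ (2 * d))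
    (((τ : ℝ) + 1) ^ (4 * d) * S + 2 * (J * (τ : ℝ) ^ (2 * d)) * S)
    (Real.exp 1 * (τ * (((τ : ℝ) + 1) ^ (4 * d) * S * (4 * (τ : ℝ) ^ (8 * d) + 1) ^ d)))
    (A' * Real.exp (-c' * τ)) L hexpL hM1 (by positivity) ?_ (by positivity) ?_ hJM
  · refine hfin.trans ?_
    have e1 : Real.exp (-L) = 1 / N := by
      rw [Real.exp_neg, ← hexpL, one_div]
    rw [e1, div_le_iff₀ hNpos]
    have e2 : 1 / ω ≤ N := by
      have : (N₂ : ℝ) ≤ N := by exact_mod_cast (by omega : N₂ ≤ N)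
      linarith
    rw [div_le_iff₀ hω] at e2
    linarith
  · have e1 : (1 : ℝ) ≤ Real.exp 1 := Real.one_le_exp (by norm_num)
    have e2 : (1 : ℝ) ≤ (4 * (τ : ℝ) ^ (8 * d) + 1) ^ d := by
      apply one_le_pow₀
      have : (0 : ℝ) ≤ (τ : ℝ) ^ (8 * d) := by positivity
      linarith
    exact one_le_mul_of_one_le_of_one_le e1 (one_le_mul_of_one_le_of_one_le hτr
      (one_le_mul_of_one_le_of_one_le (one_le_mul_of_one_le_of_one_le hW1 hS1) e2))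
  · refine le_trans ?_ h3.le
    rw [mul_assoc _ A']
    apply mul_le_mul_of_nonneg_right _ (mul_pos hA (Real.exp_pos _)).le
    apply mul_le_mul_of_nonneg_right _ (by positivity)
    have e3 : 2 * ((J : ℝ) * (τ : ℝ) ^ (2 * d)) * S ≤ 2 * (((τ : ℝ) + 1) ^ (4 * d) * (τ : ℝ) ^ (2 * d)) * S := by
      apply mul_le_mul_of_nonneg_right _ (by linarith)
      apply mul_le_mul_of_nonneg_left _ (by norm_num)
      exact mul_le_mul_of_nonneg_right hJup (by positivity)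
    linarith

end CWM
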