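import Pool.Agent.helper18.CWM.SpecF

/-!
# Project cwm (MP_7c3fb3_pr), module AS6: the final comparison
-/

open Finset Filter Topology

namespace CWM

lemma AS6_tq (d : ℕ) (hd : 1 ≤ d) : Tendsto (fun N : ℕ => tq d N) atTop atTop := by
  unfold tq
  have h0 : (0 : ℝ) < 1 / (4 * d) := by
    have : (1 : ℝ) ≤ d := by exact_mod_cast hd
    positivity
  exact tendsto_nat_floor_atTop.comp ((tendsto_rpow_atTop h0).comp
    (Real.tendsto_log_atTop.comp tendsto_natCast_atTop_atTop))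

lemma AS6_log (d N : ℕ) (hd : 1 ≤ d) (hN : 1 ≤ N) :
    ((tq d N : ℝ)) ^ (4 * d) ≤ Real.log N ∧ Real.log N ≤ ((tq d N : ℝ) + 1) ^ (4 * d) := by
  have hL : 0 ≤ Real.log N := Real.log_nonneg (by exact_mod_cast hN)
  have hd0 : (4 * (d : ℝ)) ≠ 0 := by
    have : (0 : ℝ) < d := by exact_mod_cast hd
    positivity
  have h0 : 0 ≤ (Real.log N) ^ ((1 : ℝ) / (4 * d)) := Real.rpow_nonneg hL _
  have h1 : (Real.log N) ^ ((1 : ℝ) / (4 * d)) ≤ (tq d N : ℝ) + 1 := by
    unfold tq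
    exact (Nat.lt_floor_add_one _).le
  have h3 : (tq d N : ℝ) ≤ (Real.log N) ^ ((1 : ℝ) / (4 * d)) := by
    unfold tq
    exact Nat.floor_le h0
  have h2 : ((Real.log N) ^ ((1 : ℝ) / (4 * d))) ^ (4 * d) = Real.log N := by
    rw [← Real.rpow_natCast, ← Real.rpow_mul hL]
    push_cast
    rw [one_div, inv_mul_cancel₀ hd0, Real.rpow_one]
  constructor
  · calc ((tq d N : ℝ)) ^ (4 * d) ≤ ((Real.log N) ^ ((1 : ℝ) / (4 * d))) ^ (4 * d) :=
        pow_le_pow_left₀ (Nat.cast_nonneg _) h3 _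
      _ = Real.log N := h2
  · calc Real.log N = ((Real.log N) ^ ((1 : ℝ) / (4 * d))) ^ (4 * d) := h2.symm
      _ ≤ ((tq d N : ℝ) + 1) ^ (4 * d) := pow_le_pow_left₀ h0 h1 _

theorem AS6 : AS6_stmt := by
  intro d ε K A c c0 ω hd hε hε1 hK hA hc hc0 hc01 hω
  have hdr : (1 : ℝ) ≤ d := by exact_mod_cast hd
  -- constants
  set B : ℝ := -Real.log c0 with hB
  have hB0 : 0 ≤ B := by
    have := Real.log_nonpos hc0.le hc01
    linarith
  set C1 : ℝ := (8 * (8 * d + 2) + 3) ^ d with hC1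
  have hC10 : 0 < C1 := by positivity
  set G : ℝ := 16 * (A + 1) / ε with hG
  have hG0 : 0 < G := by positivity
  set δ : ℝ := c * ε / 32 with hδ
  have hδ0 : 0 < δ := by positivity
  obtain ⟨Q, hQ⟩ := exists_nat_ge ((B + 2) * C1 / δ)
  set L0 : ℝ := max 1 (max (2 ^ (8 * d + 1) * (4 * d * (2 * K + 1) + 1 / 2 + δ))
    (Real.log (G ^ 2 / ω) / δ)) with hL0
  have e1 := (AS6_tq d hd).eventually_ge_atTop (Q + 1)
  have e2 := (Real.tendsto_log_atTop.comp tendsto_natCast_atTop_atTop).eventually_ge_atTop L0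
  obtain ⟨N₀, hN₀⟩ := eventually_atTop.1 ((e1.and e2).and (eventually_ge_atTop 1))
  refine ⟨N₀, fun N T hN hT1 hT2 => ?_⟩
  obtain ⟨⟨hτ, hL⟩, hN1⟩ := hN₀ N hN
  simp only [Function.comp_apply] at hL
  have hNr : (1 : ℝ) ≤ N := by exact_mod_cast hN1
  have hN0 : (0 : ℝ) < N := by linarith
  obtain ⟨hlog1, hlog2⟩ := AS6_log d N hd hN1
  set L : ℝ := Real.log N with hLdef
  have hL1 : 1 ≤ L := (le_max_left _ _).trans hL
  have hL2 : 2 ^ (8 * d + 1) * (4 * d * (2 * K + 1) + 1 / 2 + δ) ≤ L :=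
    ((le_max_left _ _).trans (le_max_right _ _)).trans hL
  have hL3 : Real.log (G ^ 2 / ω) / δ ≤ L :=
    ((le_max_right _ _).trans (le_max_right _ _)).trans hL
  have hL0' : 0 < L := by linarith
  set τ : ℕ := tq d N with hτdef
  have hτ1 : (1 : ℝ) ≤ τ := by
    have : 1 ≤ τ := by omega
    exact_mod_cast this
  have hτQ : (B + 2) * C1 / δ ≤ τ := by
    have : (Q : ℝ) ≤ τ := by exact_mod_cast (by omega : Q ≤ τ)
    linarith
  -- `vv`
  set v : ℝ := (vv d τ (τ ^ (2 * d)) : ℝ) with hv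
  have hv0 : 0 ≤ v := Nat.cast_nonneg _
  have hvle : v ≤ C1 * (τ : ℝ) ^ (3 * d) := by
    rw [hv, hC1]
    unfold vv
    push_cast
    have h1 : (8 * ((8 * (d : ℝ) + 2) * τ) + 3) ≤ (8 * (8 * d + 2) + 3) * τ := by nlinarith
    calc (τ : ℝ) ^ (2 * d) * (8 * ((8 * (d : ℝ) + 2) * τ) + 3) ^ d
        ≤ (τ : ℝ) ^ (2 * d) * ((8 * (8 * d + 2) + 3) * τ) ^ d := by gcongr
      _ = _ := by rw [mul_pow, show 3 * d = 2 * d + d by ring, pow_add]; ring
  have hvτ : v * τ ≤ C1 * L := by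
    calc v * τ ≤ C1 * (τ : ℝ) ^ (3 * d) * τ := by gcongr
      _ = C1 * (τ : ℝ) ^ (3 * d + 1) := by rw [pow_succ]; ring
      _ ≤ C1 * (τ : ℝ) ^ (4 * d) := by
          have : (τ : ℝ) ^ (3 * d + 1) ≤ (τ : ℝ) ^ (4 * d) :=
            pow_le_pow_right₀ hτ1 (by omega)
          exact mul_le_mul_of_nonneg_left this hC10.le
      _ ≤ C1 * L := mul_le_mul_of_nonneg_left hlog1 hC10.le
  have hBv : (B + 2) * v ≤ δ * L := by
    have h1 : (B + 2) * C1 ≤ τ * δ := by
      rwa [div_le_iff₀ hδ0] at hτQ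
    have h2 : (B + 2) * v * τ ≤ δ * L * τ := by
      calc (B + 2) * v * τ = (B + 2) * (v * τ) := by ring
        _ ≤ (B + 2) * (C1 * L) := mul_le_mul_of_nonneg_left hvτ (by linarith)
        _ = (B + 2) * C1 * L := by ring
        _ ≤ τ * δ * L := mul_le_mul_of_nonneg_right h1 hL0'.le
        _ = δ * L * τ := by ring
    exact le_of_mul_le_mul_right h2 (by linarith)
  -- `ubq`
  set m : ℝ := (m2q T ε : ℝ) with hm
  have hT0 : (0 : ℝ) ≤ T := Nat.cast_nonneg T
  have hm1 : (1 + ε / 8) * T ≤ m := by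
    rw [hm]; unfold m2q; exact Nat.le_ceil _
  have hm2 : m ≤ 2 * T + 1 := by
    rw [hm]; unfold m2q
    have h1 := Nat.ceil_lt_add_one (show 0 ≤ (1 + ε / 8) * (T : ℝ) by positivity)
    nlinarith
  have hfirst : Real.exp (-c * ((m - T) / N)) ≤ Real.exp (-(δ * L)) := by
    apply Real.exp_le_exp.2
    have h1 : δ * L ≤ c * ((m - T) / N) := by
      have h2 : ε / 32 * L ≤ (m - T) / N := by
        rw [le_div_iff₀ hN0]
        have h3 : ε / 8 * T ≤ m - T := by linarith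
        nlinarith
      calc δ * L = c * (ε / 32 * L) := by rw [hδ]; ring
        _ ≤ c * ((m - T) / N) := mul_le_mul_of_nonneg_left h2 hc.le
    linarith
  have hsqrt : 1 / √(N : ℝ) = Real.exp (-(L / 2)) := by
    rw [Real.exp_neg, hLdef, one_div]
    congr 1
    rw [Real.sqrt_eq_rpow, Real.rpow_def_of_pos hN0]
    congr 1; ring
  have hsecond : ((1 : ℝ) / 2) ^ (τ ^ (8 * d) + 1) * Real.exp (4 * d * (m / N)) ≤
      Real.exp (-(L / 2)) * Real.exp (-(δ * L)) := by
    have hk : L ^ 2 / 2 ^ (8 * d) ≤ ((τ ^ (8 * d) : ℕ) : ℝ) := by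
      rw [div_le_iff₀ (by positivity)]
      have h1 : L ≤ (2 * (τ : ℝ)) ^ (4 * d) := by
        refine hlog2.trans (pow_le_pow_left₀ (by positivity) (by linarith) _)
      calc L ^ 2 ≤ ((2 * (τ : ℝ)) ^ (4 * d)) ^ 2 := pow_le_pow_left₀ hL0'.le h1 2
        _ = (2 * (τ : ℝ)) ^ (8 * d) := by rw [← pow_mul]; congr 1; ring
        _ = _ := by rw [mul_pow]; push_cast; ring
    have hmN : m / N ≤ 2 * K * L + 1 := by
      rw [div_le_iff₀ hN0]
      nlinarith
    have h2 : ((1 : ℝ) / 2) ^ (τ ^ (8 * d) + 1) ≤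
        Real.exp (-(1 / 2 * (L ^ 2 / 2 ^ (8 * d)))) := by
      have h3 : ((1 : ℝ) / 2) ^ (τ ^ (8 * d) + 1) ≤ ((1 : ℝ) / 2) ^ (τ ^ (8 * d)) :=
        pow_le_pow_of_le_one (by norm_num) (by norm_num) (Nat.le_succ _)
      have h4 : ((1 : ℝ) / 2) ^ (τ ^ (8 * d)) = Real.exp (-(Real.log 2 * (τ ^ (8 * d) : ℕ))) := by
        have hh : (1 : ℝ) / 2 = Real.exp (-(Real.log 2)) := by
          rw [Real.exp_neg, Real.exp_log (by norm_num), one_div]
        rw [hh, ← Real.exp_nat_mul]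
        congr 1
        push_cast
        ring
      rw [h4] at h3
      refine h3.trans (Real.exp_le_exp.2 ?_)
      have hlog : 1 / 2 ≤ Real.log 2 := by
        have := Real.log_two_gt_d9; linarith
      have h5 : 1 / 2 * (L ^ 2 / 2 ^ (8 * d)) ≤ Real.log 2 * (τ ^ (8 * d) : ℕ) := by
        apply mul_le_mul hlog hk (by positivity) (by linarith)
      linarith
    rw [← Real.exp_add]
    calc ((1 : ℝ) / 2) ^ (τ ^ (8 * d) + 1) * Real.exp (4 * d * (m / N))
        ≤ Real.exp (-(1 / 2 * (L ^ 2 / 2 ^ (8 * d)))) * Real.exp (4 * d * (2 * K * L + 1)) := by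
          gcongr
      _ = Real.exp (-(1 / 2 * (L ^ 2 / 2 ^ (8 * d))) + 4 * d * (2 * K * L + 1)) := by
          rw [← Real.exp_add]
      _ ≤ Real.exp (-(L / 2) + -(δ * L)) := by
          apply Real.exp_le_exp.2
          have h6 : L * (4 * d * (2 * K + 1) + 1 / 2 + δ) ≤ L ^ 2 / 2 ^ (8 * d) / 2 := by
            rw [div_div, ← pow_succ, le_div_iff₀ (by positivity)]
            calc L * (4 * d * (2 * K + 1) + 1 / 2 + δ) * 2 ^ (8 * d + 1)
                = L * (2 ^ (8 * d + 1) * (4 * d * (2 * K + 1) + 1 / 2 + δ)) := by ring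
              _ ≤ L * L := mul_le_mul_of_nonneg_left hL2 hL0'.le
              _ = L ^ 2 := by ring
          have h7 : 4 * (d : ℝ) * (2 * K * L + 1) ≤ L * (4 * d * (2 * K + 1)) := by
            nlinarith
          nlinarith
  set E : ℝ := Real.exp (-(L / 2)) * Real.exp (-(δ * L)) with hE
  have hE0 : 0 < E := by positivity
  have hub : ubq d N T A c ε ≤ G * E := by
    unfold ubq
    rw [hsqrt, div_le_iff₀ (by positivity)]
    have h1 : Real.exp (-(L / 2)) * (A * Real.exp (-c * ((m - T) / N))) ≤ A * E := by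
      calc Real.exp (-(L / 2)) * (A * Real.exp (-c * ((m - T) / N)))
          ≤ Real.exp (-(L / 2)) * (A * Real.exp (-(δ * L))) := by gcongr
        _ = A * E := by rw [hE]; ring
    calc _ ≤ A * E + E := add_le_add h1 hsecond
      _ = G * E * (ε / 16) := by rw [hG]; field_simp
  have hub0 : 0 ≤ ubq d N T A c ε := by unfold ubq; positivity
  -- assembly
  unfold bb
  have h1 : (c0⁻¹) ^ vv d τ (τ ^ (2 * d)) = Real.exp (B * v) := by
    have h0 : B * v = ((vv d τ (τ ^ (2 * d)) : ℕ) : ℝ) * Real.log c0⁻¹ := by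
      rw [Real.log_inv, hB, hv]; ring
    rw [h0, Real.exp_nat_mul, Real.exp_log (by positivity)]
  have h2 : v ^ 2 ≤ Real.exp (2 * v) := by
    have h3 : v ≤ Real.exp v := by
      have := Real.add_one_le_exp v; linarith
    calc v ^ 2 ≤ Real.exp v ^ 2 := pow_le_pow_left₀ hv0 h3 2
      _ = Real.exp (2 * v) := by rw [← Real.exp_nat_mul]; push_cast; rfl
  have hNexp : (N : ℝ) = Real.exp L := (Real.exp_log hN0).symm
  rw [h1]
  show N * (Real.exp (B * v) * (v * ubq d N T A c ε) ^ 2) ≤ ω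
  calc N * (Real.exp (B * v) * (v * ubq d N T A c ε) ^ 2)
      = Real.exp L * (Real.exp (B * v) * (v ^ 2 * ubq d N T A c ε ^ 2)) := by
        rw [← hNexp]; ring
    _ ≤ Real.exp L * (Real.exp (B * v) * (Real.exp (2 * v) * (G * E) ^ 2)) := by gcongr
    _ = Real.exp L * (Real.exp ((B + 2) * v) * (G * E) ^ 2) := by
        rw [add_mul, Real.exp_add]; ring
    _ ≤ Real.exp L * (Real.exp (δ * L) * (G * E) ^ 2) := by
        have := Real.exp_le_exp.2 hBv
        gcongr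
    _ = G ^ 2 * Real.exp (-(δ * L)) := by
        have h8 : (G * E) ^ 2 = G ^ 2 * (Real.exp (-L) * Real.exp (-(2 * (δ * L)))) := by
          rw [hE, mul_pow, mul_pow, ← Real.exp_nat_mul, ← Real.exp_nat_mul]
          congr 3 <;> push_cast <;> ring
        rw [h8]
        have h9 : Real.exp L * (Real.exp (δ * L) * (G ^ 2 * (Real.exp (-L) *
            Real.exp (-(2 * (δ * L)))))) = G ^ 2 * (Real.exp L * Real.exp (-L) *
            (Real.exp (δ * L) * Real.exp (-(2 * (δ * L))))) := by ring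
        rw [h9, ← Real.exp_add, ← Real.exp_add]
        have e3 : L + -L = 0 := by ring
        have e4 : δ * L + -(2 * (δ * L)) = -(δ * L) := by ring
        rw [e3, e4, Real.exp_zero, one_mul]
    _ ≤ ω := by
        have h10 : Real.log (G ^ 2 / ω) ≤ δ * L := by
          rw [div_le_iff₀ hδ0] at hL3; linarith
        have h11 : G ^ 2 / ω ≤ Real.exp (δ * L) := by
          rw [← Real.exp_log (show 0 < G ^ 2 / ω by positivity)]
          exact Real.exp_le_exp.2 h10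
        rw [Real.exp_neg, ← div_eq_mul_inv, div_le_iff₀ (Real.exp_pos _)]
        rw [div_le_iff₀ hω] at h11
        linarith

end CWM
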