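import Pool.Agent.helper18.CWM.SpecB

open Finset

namespace CWM

theorem BIN_site {V U : Type} [Fintype U] (D : Dyn V U) (S : Finset V)
    (h1 : ∑ u, D.nu u = 1) (g : V → ℝ) : Wa D S (fun a => g a.1) = ∑ x ∈ S, g x := by
  unfold Wa
  refine Finset.sum_congr rfl (fun x _ => ?_)
  show ∑ u, D.nu u * g x = g x
  rw [← Finset.sum_mul, h1, one_mul]

theorem BIN_len {V U : Type} [DecidableEq V] (R : Finset V) (a : V × U)
    (w : List (V × U)) : (filt R (a :: w)).length = (if a.1 ∈ R then 1 else 0) + (filt R w).length := by
  unfold filt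
  by_cases h : a.1 ∈ R
  · rw [if_pos h, List.filter_cons_of_pos (by simpa using h), List.length_cons, Nat.add_comm]
  · rw [if_neg h, List.filter_cons_of_neg (by simpa using h), Nat.zero_add]

theorem BIN : BIN_stmt := by
  intro V U _ _ _ D R S h1 hRS hS m
  have hS0 : (S.card : ℝ) ≠ 0 := by exact_mod_cast (Finset.card_pos.2 hS).ne'
  have hfil : S.filter (fun x => x ∈ R) = R := by
    ext x
    rw [Finset.mem_filter]
    exact ⟨fun h => h.2, fun h => ⟨hRS h, h⟩⟩
  have hfil2 : ((S.filter (fun x => x ∉ R)).card : ℝ) = S.card - R.card := by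
    have := Finset.card_filter_add_card_filter_not (s := S) (fun x => x ∈ R)
    rw [hfil] at this
    rw [← this]
    push_cast
    ring
  constructor
  · intro r
    induction m with
    | zero =>
      rw [Ew_zero]
      simp [filt]
    | succ m ih =>
      rw [Ew_succ]
      have h2 : ∀ a : V × U, (Ew D S m fun w => r ^ (filt R (a :: w)).length) =
          (if a.1 ∈ R then r else 1) *
            (1 - (R.card : ℝ) / S.card + (R.card : ℝ) / S.card * r) ^ m := by
        intro a
        rw [← ih, ← Ew_smul]
        refine Ew_congr D (fun w _ _ => ?_)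
        rw [BIN_len, pow_add]
        by_cases h : a.1 ∈ R
        · rw [if_pos h, if_pos h, pow_one]
        · rw [if_neg h, if_neg h, pow_zero]
      rw [show (fun a : V × U => Ew D S m fun w => r ^ (filt R (a :: w)).length) =
        fun a => (if a.1 ∈ R then r else 1) *
            (1 - (R.card : ℝ) / S.card + (R.card : ℝ) / S.card * r) ^ m from funext h2]
      rw [BIN_site D S h1 (fun x => (if x ∈ R then r else 1) *
            (1 - (R.card : ℝ) / S.card + (R.card : ℝ) / S.card * r) ^ m)]
      rw [← Finset.sum_mul, Finset.sum_ite, hfil, Finset.sum_const, Finset.sum_const,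
        nsmul_eq_mul, nsmul_eq_mul, hfil2, pow_succ]
      field_simp
      ring
  · induction m with
    | zero =>
      rw [Ew_zero]
      simp [filt]
    | succ m ih =>
      rw [Ew_succ]
      have h2 : ∀ a : V × U, (Ew D S m fun w => ((filt R (a :: w)).length : ℝ)) =
          (if a.1 ∈ R then 1 else 0) + m * ((R.card : ℝ) / S.card) := by
        intro a
        rw [← ih]
        rw [← Ew_const D h1 hS m (if a.1 ∈ R then (1 : ℝ) else 0), ← Ew_add]
        refine Ew_congr D (fun w _ _ => ?_)
        rw [BIN_len]
        push_cast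
        rfl
      rw [show (fun a : V × U => Ew D S m fun w => ((filt R (a :: w)).length : ℝ)) =
        fun a => (if a.1 ∈ R then 1 else 0) + m * ((R.card : ℝ) / S.card) from funext h2]
      rw [BIN_site D S h1 (fun x => (if x ∈ R then 1 else 0) + m * ((R.card : ℝ) / S.card))]
      rw [Finset.sum_add_distrib, Finset.sum_ite, hfil, Finset.sum_const, Finset.sum_const,
        Finset.sum_const, nsmul_eq_mul, nsmul_eq_mul, nsmul_eq_mul]
      push_cast
      field_simp
      ring

end CWM
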