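import Pool.Agent.helper18.CWM.SpecA

set_option autoImplicit false

open Finset Filter Topology

namespace CWM

/-- the plus sites in `D` -/
def BRA_P {V : Type} (D : Finset V) (σ : V → Bool) : Finset V := D.filter fun x => σ x = true

theorem BRA_mem {V : Type} (D : Finset V) (σ : V → Bool) (x : V) :
    x ∈ BRA_P D σ ↔ x ∈ D ∧ σ x = true := Finset.mem_filter

theorem BRA_sp {V : Type} [DecidableEq V] (D : Finset V) (σ : V → Bool) (x : V) (hx : x ∈ D) :
    sp (BRA_P D σ) x = CU.sg (σ x) := by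
  unfold sp CU.sg
  by_cases h : σ x = true
  · rw [if_pos ((BRA_mem D σ x).2 ⟨hx, h⟩), if_pos h]
  · rw [if_neg (fun h1 => h ((BRA_mem D σ x).1 h1).2), if_neg h]

/-- all the fibres of `BRA_P` have the same size -/
theorem BRA_card {V : Type} [Fintype V] [DecidableEq V] (D P : Finset V) (hP : P ⊆ D) :
    (univ.filter fun σ : V → Bool => BRA_P D σ = P).card =
      (univ.filter fun σ : V → Bool => BRA_P D σ = ∅).card := by
  refine Finset.card_bij' (fun σ _ => fun x => if x ∈ P then false else σ x)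
    (fun σ _ => fun x => if x ∈ P then true else σ x) ?_ ?_ ?_ ?_
  · intro σ hσ
    rw [Finset.mem_filter] at hσ ⊢
    refine ⟨Finset.mem_univ _, ?_⟩
    rw [Finset.eq_empty_iff_forall_notMem]
    intro x hx
    rw [BRA_mem] at hx
    obtain ⟨h1, h2⟩ := hx
    by_cases h3 : x ∈ P
    · rw [if_pos h3] at h2
      exact absurd h2 (by decide)
    · rw [if_neg h3] at h2
      apply h3
      rw [← hσ.2, BRA_mem]
      exact ⟨h1, h2⟩
  · intro σ hσ
    rw [Finset.mem_filter] at hσ ⊢
    refine ⟨Finset.mem_univ _, ?_⟩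
    ext x
    rw [BRA_mem]
    constructor
    · rintro ⟨h1, h2⟩
      by_contra h3
      rw [if_neg h3] at h2
      have h4 : x ∈ BRA_P D σ := (BRA_mem D σ x).2 ⟨h1, h2⟩
      rw [hσ.2] at h4
      exact absurd h4 (Finset.notMem_empty x)
    · intro h1
      exact ⟨hP h1, by rw [if_pos h1]⟩
  · intro σ hσ
    rw [Finset.mem_filter] at hσ
    funext x
    by_cases h : x ∈ P
    · simp only [if_pos h]
      rw [← hσ.2, BRA_mem] at h
      exact h.2.symm
    · simp only [if_neg h]
  · intro σ hσ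
    rw [Finset.mem_filter] at hσ
    funext x
    by_cases h : x ∈ P
    · simp only [if_pos h]
      by_contra h2
      have h3 : x ∈ BRA_P D σ := by
        rw [BRA_mem]
        refine ⟨hP h, ?_⟩
        cases hx : σ x
        · exact absurd hx.symm h2
        · rfl
      rw [hσ.2] at h3
      exact absurd h3 (Finset.notMem_empty x)
    · simp only [if_neg h]

theorem BRA_sum {V : Type} [Fintype V] [DecidableEq V] (D : Finset V) (f : Finset V → ℝ) :
    ∑ σ : V → Bool, f (BRA_P D σ) =
      ((univ.filter fun σ : V → Bool => BRA_P D σ = ∅).card : ℝ) * ∑ P ∈ D.powerset, f P := by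
  have hmaps : ∀ σ ∈ (univ : Finset (V → Bool)), BRA_P D σ ∈ D.powerset := fun σ _ => by
    rw [Finset.mem_powerset]
    exact Finset.filter_subset _ _
  rw [← Finset.sum_fiberwise_of_maps_to hmaps, Finset.mul_sum]
  refine Finset.sum_congr rfl fun P hP => ?_
  have h1 : ∑ σ ∈ univ.filter (fun σ : V → Bool => BRA_P D σ = P), f (BRA_P D σ) =
      ∑ σ ∈ univ.filter (fun σ : V → Bool => BRA_P D σ = P), f P :=
    Finset.sum_congr rfl fun σ hσ => by rw [(Finset.mem_filter.1 hσ).2]
  rw [h1, Finset.sum_const, nsmul_eq_mul, BRA_card D P (Finset.mem_powerset.1 hP)]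

theorem BRA_HH {V : Type} [Fintype V] [DecidableEq V] (nb : V → Finset V) (β : ℝ) (D : Finset V)
    (g : V → ℝ) (σ : V → Bool) :
    HH (fun x y => if x ∈ D ∧ y ∈ nb x ∩ D then β / 2 else 0) (fun x => if x ∈ D then g x else 0) σ =
      β * en nb D (BRA_P D σ) + ∑ x ∈ D, g x * sp (BRA_P D σ) x := by
  unfold HH en
  congr 1
  · have h1 : ∀ x, (∑ y, (if x ∈ D ∧ y ∈ nb x ∩ D then β / 2 else 0) * (CU.sg (σ x) * CU.sg (σ y))) =
        if x ∈ D then ∑ y ∈ nb x ∩ D, (β / 2) * (sp (BRA_P D σ) x * sp (BRA_P D σ) y) else 0 := by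
      intro x
      by_cases hx : x ∈ D
      · rw [if_pos hx]
        have h2 : ∀ y, (if x ∈ D ∧ y ∈ nb x ∩ D then β / 2 else 0) * (CU.sg (σ x) * CU.sg (σ y)) =
            if y ∈ nb x ∩ D then (β / 2) * (sp (BRA_P D σ) x * sp (BRA_P D σ) y) else 0 := by
          intro y
          by_cases hy : y ∈ nb x ∩ D
          · rw [if_pos ⟨hx, hy⟩, if_pos hy, BRA_sp D σ x hx, BRA_sp D σ y (Finset.mem_inter.1 hy).2]
          · rw [if_neg (fun h => hy h.2), if_neg hy, zero_mul]
        rw [Finset.sum_congr rfl fun y _ => h2 y, Finset.sum_ite_mem, Finset.univ_inter]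
      · rw [if_neg hx]
        refine Finset.sum_eq_zero fun y _ => ?_
        rw [if_neg (fun h => hx h.1), zero_mul]
    rw [Finset.sum_congr rfl fun x _ => h1 x, Finset.sum_ite_mem, Finset.univ_inter, Finset.mul_sum,
      Finset.mul_sum]
    refine Finset.sum_congr rfl fun x _ => ?_
    rw [Finset.mul_sum, Finset.mul_sum]
    refine Finset.sum_congr rfl fun y _ => ?_
    ring
  · have h1 : ∀ x, (if x ∈ D then g x else 0) * CU.sg (σ x) =
        if x ∈ D then g x * sp (BRA_P D σ) x else 0 := by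
      intro x
      by_cases hx : x ∈ D
      · rw [if_pos hx, if_pos hx, BRA_sp D σ x hx]
      · rw [if_neg hx, if_neg hx, zero_mul]
    rw [Finset.sum_congr rfl fun x _ => h1 x, Finset.sum_ite_mem, Finset.univ_inter]

theorem BRA_nonempty {V : Type} [Fintype V] [DecidableEq V] (D : Finset V) :
    ((univ.filter fun σ : V → Bool => BRA_P D σ = ∅).card : ℝ) ≠ 0 := by
  have h : 0 < (univ.filter fun σ : V → Bool => BRA_P D σ = ∅).card := by
    rw [Finset.card_pos]
    refine ⟨fun _ => false, ?_⟩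
    rw [Finset.mem_filter]
    refine ⟨Finset.mem_univ _, ?_⟩
    rw [Finset.eq_empty_iff_forall_notMem]
    intro x hx
    rw [BRA_mem] at hx
    exact absurd hx.2 (by decide)
  exact_mod_cast h.ne'

theorem BRA : BRA_stmt := by
  intro V _ _ nb β D g x hx
  unfold mg mgG ZF
  have h1 : ∀ σ : V → Bool, Real.exp (HH (fun x y => if x ∈ D ∧ y ∈ nb x ∩ D then β / 2 else 0)
      (fun x => if x ∈ D then g x else 0) σ) * CU.sg (σ x) =
      (fun P => Real.exp (β * en nb D P + ∑ x ∈ D, g x * sp P x) * sp P x) (BRA_P D σ) := by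
    intro σ
    simp only
    rw [BRA_HH, BRA_sp D σ x hx]
  have h2 : ∀ σ : V → Bool, Real.exp (HH (fun x y => if x ∈ D ∧ y ∈ nb x ∩ D then β / 2 else 0)
      (fun x => if x ∈ D then g x else 0) σ) =
      (fun P => Real.exp (β * en nb D P + ∑ x ∈ D, g x * sp P x) * 1) (BRA_P D σ) := by
    intro σ
    simp only
    rw [BRA_HH, mul_one]
  rw [Finset.sum_congr rfl fun σ _ => h1 σ, Finset.sum_congr rfl fun σ _ => h2 σ,
    BRA_sum D (fun P => Real.exp (β * en nb D P + ∑ x ∈ D, g x * sp P x) * sp P x),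
    BRA_sum D (fun P => Real.exp (β * en nb D P + ∑ x ∈ D, g x * sp P x) * 1),
    mul_div_mul_left _ _ (BRA_nonempty D)]

end CWM
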