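import Pool.Agent.helper18.CWM.SpecA
import Pool.Agent.helper18.CWM.BRA

set_option autoImplicit false

open Finset Filter Topology

namespace CWM

/-- the configuration with plus sites `P` in `A` and `b` off `A` -/
def BRT_s {V : Type} [DecidableEq V] (A : Finset V) (b : Bool) (P : Finset V) : V → Bool :=
  fun x => if x ∈ A then decide (x ∈ P) else b

theorem BRT_P {V : Type} [DecidableEq V] (A : Finset V) (b : Bool) (P : Finset V) (hP : P ⊆ A) :
    BRA_P A (BRT_s A b P) = P := by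
  ext x
  rw [BRA_mem]
  unfold BRT_s
  constructor
  · rintro ⟨h1, h2⟩
    rw [if_pos h1] at h2
    exact of_decide_eq_true h2
  · intro h1
    refine ⟨hP h1, ?_⟩
    rw [if_pos (hP h1)]
    exact decide_eq_true h1

theorem BRT_sP {V : Type} [DecidableEq V] (A : Finset V) (b : Bool) (σ : V → Bool)
    (h : ∀ x, x ∉ A → σ x = b) : BRT_s A b (BRA_P A σ) = σ := by
  funext x
  unfold BRT_s
  by_cases hx : x ∈ A
  · rw [if_pos hx]
    cases hσ : σ x
    · rw [decide_eq_false_iff_not, BRA_mem]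
      rintro ⟨_, h2⟩
      rw [hσ] at h2
      exact absurd h2 (by decide)
    · rw [decide_eq_true_iff, BRA_mem]
      exact ⟨hx, hσ⟩
  · rw [if_neg hx, h x hx]

theorem BRT_sum {V : Type} [Fintype V] [DecidableEq V] (A : Finset V) (b : Bool)
    (W F : (V → Bool) → ℝ) :
    ∑ σ, cw W A b σ * F σ = ∑ P ∈ A.powerset, W (BRT_s A b P) * F (BRT_s A b P) := by
  classical
  have h1 : ∑ σ, cw W A b σ * F σ =
      ∑ σ ∈ univ.filter (fun σ : V → Bool => ∀ x, x ∉ A → σ x = b), W σ * F σ := by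
    rw [Finset.sum_filter]
    refine Finset.sum_congr rfl fun σ _ => ?_
    unfold cw
    by_cases h : ∀ x, x ∉ A → σ x = b
    · rw [if_pos h, ind_of h, mul_one]
    · rw [if_neg h, ind_not h, mul_zero, zero_mul]
  rw [h1]
  refine Finset.sum_bij' (fun σ _ => BRA_P A σ) (fun P _ => BRT_s A b P) ?_ ?_ ?_ ?_ ?_
  · intro σ _
    rw [Finset.mem_powerset]
    exact Finset.filter_subset _ _
  · intro P _
    rw [Finset.mem_filter]
    refine ⟨Finset.mem_univ _, ?_⟩
    intro x hx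
    unfold BRT_s
    rw [if_neg hx]
  · intro σ hσ
    exact BRT_sP A b σ (Finset.mem_filter.1 hσ).2
  · intro P hP
    exact BRT_P A b P (Finset.mem_powerset.1 hP)
  · intro σ hσ
    rw [BRT_sP A b σ (Finset.mem_filter.1 hσ).2]

/-! ### the torus -/

theorem BRT_ev_ne {d n : ℕ} (i j : Fin d) (h : i ≠ j) : (CU.ev j : CU.Site d (n + 3)) i = 0 := by
  unfold CU.ev
  exact Pi.single_eq_of_ne h 1

theorem BRT_ev_self {d n : ℕ} (i : Fin d) : (CU.ev i : CU.Site d (n + 3)) i = 1 := by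
  unfold CU.ev
  exact Pi.single_eq_same i 1

theorem BRT_one_ne {n : ℕ} : (1 : ZMod (n + 3)) ≠ 0 := by
  haveI : Fact (1 < n + 3) := ⟨by omega⟩
  exact one_ne_zero

theorem BRT_two_ne {n : ℕ} : (1 : ZMod (n + 3)) ≠ -1 := by
  intro h
  have h2 : ((2 : ℕ) : ZMod (n + 3)) = 0 := by
    have h3 : (1 : ZMod (n + 3)) + 1 = 0 := by
      nth_rw 1 [h]
      exact neg_add_cancel 1
    push_cast
    rw [← h3]
    norm_num
  rw [ZMod.natCast_eq_zero_iff] at h2
  have := Nat.le_of_dvd (by norm_num) h2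
  omega

theorem BRT_inj1 {d n : ℕ} (x : CU.Site d (n + 3)) :
    Function.Injective fun i : Fin d => x + CU.ev i := by
  intro i j h
  have h1 : (CU.ev i : CU.Site d (n + 3)) = CU.ev j := add_left_cancel h
  by_contra hne
  have h2 := congrFun h1 i
  rw [BRT_ev_self, BRT_ev_ne i j hne] at h2
  exact BRT_one_ne h2

theorem BRT_inj2 {d n : ℕ} (x : CU.Site d (n + 3)) :
    Function.Injective fun i : Fin d => x - CU.ev i := by
  intro i j h
  have h1 : (CU.ev i : CU.Site d (n + 3)) = CU.ev j := sub_right_injective h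
  by_contra hne
  have h2 := congrFun h1 i
  rw [BRT_ev_self, BRT_ev_ne i j hne] at h2
  exact BRT_one_ne h2

theorem BRT_ne {d n : ℕ} (x : CU.Site d (n + 3)) (i j : Fin d) : x + CU.ev i ≠ x - CU.ev j := by
  intro h
  have h1 : (CU.ev i : CU.Site d (n + 3)) = - CU.ev j := by
    have h2 : x + CU.ev i = x + (- CU.ev j) := by rw [h, sub_eq_add_neg]
    exact add_left_cancel h2
  have h2 := congrFun h1 i
  rw [Pi.neg_apply, BRT_ev_self] at h2
  by_cases hij : i = j
  · subst hij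
    rw [BRT_ev_self] at h2
    exact BRT_two_ne h2
  · rw [BRT_ev_ne i j hij, neg_zero] at h2
    exact BRT_one_ne h2

theorem BRT_nbsum {d n : ℕ} (β h : ℝ) (x : CU.Site d (n + 3)) (f : CU.Site d (n + 3) → ℝ) :
    ∑ y ∈ (tD d (n + 3) β h).nb x, f y = ∑ i : Fin d, f (x + CU.ev i) + ∑ i : Fin d, f (x - CU.ev i) := by
  show ∑ y ∈ (univ.image fun i : Fin d => x + CU.ev i) ∪ univ.image fun i : Fin d => x - CU.ev i, f y = _
  rw [Finset.sum_union, Finset.sum_image (BRT_inj1 x).injOn, Finset.sum_image (BRT_inj2 x).injOn]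
  rw [Finset.disjoint_left]
  intro y h1 h2
  obtain ⟨i, _, hi⟩ := Finset.mem_image.1 h1
  obtain ⟨j, _, hj⟩ := Finset.mem_image.1 h2
  exact BRT_ne x i j (hi.trans hj.symm)

theorem BRT_mem {d n : ℕ} (β h : ℝ) (x y : CU.Site d (n + 3)) :
    y ∈ (tD d (n + 3) β h).nb x ↔ (∃ i, x + CU.ev i = y) ∨ ∃ i, x - CU.ev i = y := by
  show y ∈ (univ.image fun i : Fin d => x + CU.ev i) ∪ (univ.image fun i : Fin d => x - CU.ev i) ↔ _
  rw [Finset.mem_union, Finset.mem_image, Finset.mem_image]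
  simp

theorem BRT_symm {d n : ℕ} (β h : ℝ) (x y : CU.Site d (n + 3)) :
    y ∈ (tD d (n + 3) β h).nb x ↔ x ∈ (tD d (n + 3) β h).nb y := by
  rw [BRT_mem, BRT_mem]
  constructor
  · rintro (⟨i, rfl⟩ | ⟨i, rfl⟩)
    · exact Or.inr ⟨i, add_sub_cancel_right _ _⟩
    · exact Or.inl ⟨i, sub_add_cancel _ _⟩
  · rintro (⟨i, rfl⟩ | ⟨i, rfl⟩)
    · exact Or.inr ⟨i, add_sub_cancel_right _ _⟩
    · exact Or.inl ⟨i, sub_add_cancel _ _⟩

theorem BRT_bonds {d n : ℕ} (β h : ℝ) (s : CU.Site d (n + 3) → ℝ) :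
    ∑ x, ∑ i : Fin d, s x * s (x + CU.ev i) =
      (1 / 2) * ∑ x, ∑ y ∈ (tD d (n + 3) β h).nb x, s x * s y := by
  have h1 : ∑ x, ∑ y ∈ (tD d (n + 3) β h).nb x, s x * s y =
      ∑ x, ∑ i : Fin d, s x * s (x + CU.ev i) + ∑ x, ∑ i : Fin d, s x * s (x - CU.ev i) := by
    rw [← Finset.sum_add_distrib]
    exact Finset.sum_congr rfl fun x _ => BRT_nbsum β h x fun y => s x * s y
  have h2 : ∑ x, ∑ i : Fin d, s x * s (x - CU.ev i) = ∑ x, ∑ i : Fin d, s x * s (x + CU.ev i) := by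
    rw [Finset.sum_comm, Finset.sum_comm (f := fun x (i : Fin d) => s x * s (x + CU.ev i))]
    refine Finset.sum_congr rfl fun i _ => ?_
    rw [← Equiv.sum_comp (Equiv.addRight (CU.ev i)) (fun x => s x * s (x - CU.ev i))]
    refine Finset.sum_congr rfl fun x _ => ?_
    show s (x + CU.ev i) * s (x + CU.ev i - CU.ev i) = _
    rw [add_sub_cancel_right]
    ring
  rw [h1, h2]
  ring

theorem BRT_sq (b : Bool) : CU.sg b * CU.sg b = 1 := by
  cases b <;> norm_num [CU.sg]

/-- the energy of a configuration which is constant off `A` -/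
theorem BRT_wt {d n : ℕ} (β h : ℝ) (A : Finset (CU.Site d (n + 3))) (b : Bool)
    (P : Finset (CU.Site d (n + 3))) (hP : P ⊆ A) :
    CU.wt β h (BRT_s A b P) =
      Real.exp (β * ((1 / 2) * ∑ x ∈ univ \ A, nA (tD d (n + 3) β h).nb (univ \ A) x) +
        h * (CU.sg b * ((univ \ A).card : ℝ))) *
      Real.exp (β * en (tD d (n + 3) β h).nb A P +
        ∑ y ∈ A, (h + CU.sg b * (β * nA (tD d (n + 3) β h).nb (univ \ A) y)) * sp P y) := by
  rw [← Real.exp_add]
  unfold CU.wt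
  congr 1
  set nb := (tD d (n + 3) β h).nb with hnb
  set s : CU.Site d (n + 3) → ℝ := fun x => CU.sg (BRT_s A b P x) with hs
  set ε : ℝ := CU.sg b with hε
  have hsA : ∀ x ∈ A, s x = sp P x := by
    intro x hx
    have h1 := BRA_sp A (BRT_s A b P) x hx
    rw [BRT_P A b P hP] at h1
    exact h1.symm
  have hsN : ∀ x, x ∉ A → s x = ε := by
    intro x hx
    show CU.sg (BRT_s A b P x) = CU.sg b
    unfold BRT_s
    rw [if_neg hx]
  have hb := BRT_bonds β h s
  have hfield : ∑ x, s x = ∑ x ∈ A, sp P x + ε * ((univ \ A).card : ℝ) := by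
    rw [← Finset.sum_sdiff (Finset.subset_univ A), add_comm, Finset.sum_congr rfl hsA]
    congr 1
    rw [Finset.sum_congr rfl fun x hx => hsN x (Finset.mem_sdiff.1 hx).2, Finset.sum_const,
      nsmul_eq_mul, mul_comm]
  have hin : ∀ x, ∑ y ∈ nb x, s y = ∑ y ∈ nb x ∩ A, sp P y + ε * nA nb (univ \ A) x := by
    intro x
    have h1 : nb x = (nb x ∩ A) ∪ (nb x ∩ (univ \ A)) := by
      rw [← Finset.inter_union_distrib_left, Finset.union_sdiff_of_subset (Finset.subset_univ A),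
        Finset.inter_univ]
    have h2 : Disjoint (nb x ∩ A) (nb x ∩ (univ \ A)) := by
      rw [Finset.disjoint_left]
      intro y h3 h4
      exact (Finset.mem_sdiff.1 (Finset.mem_inter.1 h4).2).2 (Finset.mem_inter.1 h3).2
    nth_rw 1 [h1]
    rw [Finset.sum_union h2]
    congr 1
    · exact Finset.sum_congr rfl fun y hy => hsA y (Finset.mem_inter.1 hy).2
    · rw [Finset.sum_congr rfl fun y hy => hsN y (Finset.mem_sdiff.1 (Finset.mem_inter.1 hy).2).2,
        Finset.sum_const, nsmul_eq_mul, mul_comm]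
      rfl
  have hcross : ∑ x ∈ univ \ A, ∑ y ∈ nb x ∩ A, sp P y = ∑ y ∈ A, nA nb (univ \ A) y * sp P y := by
    have h1 : ∑ x ∈ univ \ A, ∑ y ∈ nb x ∩ A, sp P y =
        ∑ y ∈ A, ∑ x ∈ nb y ∩ (univ \ A), sp P y := by
      refine Finset.sum_comm' ?_
      intro x y
      rw [Finset.mem_inter, Finset.mem_inter]
      constructor
      · rintro ⟨h1, h2, h3⟩
        exact ⟨⟨(BRT_symm β h x y).1 h2, h1⟩, h3⟩
      · rintro ⟨⟨h1, h2⟩, h3⟩
        exact ⟨h2, (BRT_symm β h x y).2 h1, h3⟩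
    rw [h1]
    refine Finset.sum_congr rfl fun y _ => ?_
    rw [Finset.sum_const, nsmul_eq_mul]
    rfl
  have hT : ∑ x, ∑ y ∈ nb x, s x * s y =
      2 * en nb A P + 2 * ε * ∑ y ∈ A, nA nb (univ \ A) y * sp P y +
        ∑ x ∈ univ \ A, nA nb (univ \ A) x := by
    have h1 : ∀ x, ∑ y ∈ nb x, s x * s y =
        s x * (∑ y ∈ nb x ∩ A, sp P y + ε * nA nb (univ \ A) x) := by
      intro x
      rw [← Finset.mul_sum, hin x]
    rw [Finset.sum_congr rfl fun x _ => h1 x, ← Finset.sum_sdiff (Finset.subset_univ A)]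
    have h2 : ∑ x ∈ univ \ A, s x * (∑ y ∈ nb x ∩ A, sp P y + ε * nA nb (univ \ A) x) =
        ε * ∑ y ∈ A, nA nb (univ \ A) y * sp P y + ∑ x ∈ univ \ A, nA nb (univ \ A) x := by
      rw [← hcross, Finset.mul_sum, ← Finset.sum_add_distrib]
      refine Finset.sum_congr rfl fun x hx => ?_
      rw [hsN x (Finset.mem_sdiff.1 hx).2]
      have h3 : ε * ε = 1 := BRT_sq b
      linear_combination nA nb (univ \ A) x * h3
    have h3 : ∑ x ∈ A, s x * (∑ y ∈ nb x ∩ A, sp P y + ε * nA nb (univ \ A) x) =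
        2 * en nb A P + ε * ∑ y ∈ A, nA nb (univ \ A) y * sp P y := by
      unfold en
      rw [← mul_assoc, Finset.mul_sum, Finset.mul_sum, ← Finset.sum_add_distrib]
      refine Finset.sum_congr rfl fun x hx => ?_
      rw [hsA x hx, ← Finset.mul_sum]
      ring
    rw [h2, h3]
    ring
  have hlin : ∑ y ∈ A, (h + ε * (β * nA nb (univ \ A) y)) * sp P y =
      h * ∑ x ∈ A, sp P x + ε * β * ∑ y ∈ A, nA nb (univ \ A) y * sp P y := by
    rw [Finset.mul_sum, Finset.mul_sum, ← Finset.sum_add_distrib]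
    refine Finset.sum_congr rfl fun y _ => ?_
    ring
  show β * ∑ x, ∑ i : Fin d, s x * s (x + CU.ev i) + h * ∑ x, s x = _
  rw [hb, hT, hfield, hlin]
  ring

theorem BRT_av {d n : ℕ} (β h : ℝ) (A : Finset (CU.Site d (n + 3))) (b : Bool)
    (x : CU.Site d (n + 3)) (hx : x ∈ A) :
    av (cw (CU.wt β h : CU.Conf d (n + 3) → ℝ) A b) (fun σ => CU.sg (σ x)) =
      mg (tD d (n + 3) β h).nb β A
        (fun y => h + CU.sg b * (β * nA (tD d (n + 3) β h).nb (univ \ A) y)) x := by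
  unfold av mg ZF
  have hden : ∑ σ, cw (CU.wt β h : CU.Conf d (n + 3) → ℝ) A b σ =
      ∑ σ, cw (CU.wt β h : CU.Conf d (n + 3) → ℝ) A b σ * (fun _ => (1 : ℝ)) σ := by
    simp
  rw [hden, BRT_sum, BRT_sum]
  set c : ℝ := Real.exp (β * ((1 / 2) * ∑ x ∈ univ \ A, nA (tD d (n + 3) β h).nb (univ \ A) x) +
        h * (CU.sg b * ((univ \ A).card : ℝ))) with hc
  have hc0 : c ≠ 0 := (Real.exp_pos _).ne'
  have h1 : ∑ P ∈ A.powerset, CU.wt β h (BRT_s A b P) * (fun σ => CU.sg (σ x)) (BRT_s A b P) =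
      c * ∑ P ∈ A.powerset, Real.exp (β * en (tD d (n + 3) β h).nb A P +
        ∑ y ∈ A, (h + CU.sg b * (β * nA (tD d (n + 3) β h).nb (univ \ A) y)) * sp P y) * sp P x := by
    rw [Finset.mul_sum]
    refine Finset.sum_congr rfl fun P hP => ?_
    have hP' := Finset.mem_powerset.1 hP
    have h2 := BRA_sp A (BRT_s A b P) x hx
    rw [BRT_P A b P hP'] at h2
    simp only
    rw [BRT_wt β h A b P hP', h2]
    ring
  have h2 : ∑ P ∈ A.powerset, CU.wt β h (BRT_s A b P) * (fun _ => (1 : ℝ)) (BRT_s A b P) =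
      c * ∑ P ∈ A.powerset, Real.exp (β * en (tD d (n + 3) β h).nb A P +
        ∑ y ∈ A, (h + CU.sg b * (β * nA (tD d (n + 3) β h).nb (univ \ A) y)) * sp P y) * 1 := by
    rw [Finset.mul_sum]
    refine Finset.sum_congr rfl fun P hP => ?_
    have hP' := Finset.mem_powerset.1 hP
    simp only
    rw [BRT_wt β h A b P hP']
    ring
  rw [h1, h2, mul_div_mul_left _ _ hc0]

theorem BRT : BRT_stmt := by
  intro d n β h A x hx
  have hT : ∀ (B : Finset (CU.Site d (n + 3))) (y : CU.Site d (n + 3)), y ∈ B →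
      av (cw (CU.wt β h : CU.Conf d (n + 3) → ℝ) B true) (fun σ => CU.sg (σ y)) =
      mg (tD d (n + 3) β h).nb β B (fun z => h + β * nA (tD d (n + 3) β h).nb (univ \ B) z) y := by
    intro B y hy
    rw [BRT_av β h B true y hy]
    congr 1
    funext z
    have : CU.sg true = 1 := by simp [CU.sg]
    rw [this, one_mul]
  refine ⟨hT A x hx, ?_, ?_⟩
  · rw [BRT_av β h A false x hx]
    congr 1
    funext z
    have : CU.sg false = -1 := by simp [CU.sg]
    rw [this]
    ring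
  · have h1 := hT univ x (Finset.mem_univ x)
    have h2 : cw (CU.wt β h : CU.Conf d (n + 3) → ℝ) univ true = CU.wt β h := by
      funext σ
      unfold cw
      rw [ind_of (fun y hy => absurd (Finset.mem_univ y) hy), mul_one]
    rw [h2] at h1
    rw [h1]
    congr 1
    funext z
    unfold nA
    rw [Finset.sdiff_self, Finset.inter_empty]
    simp

end CWM
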