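import Pool.Agent.helper18.CWM.SpecH

/-!
Row cwm:CH (helper9).
-/

set_option autoImplicit false

open Finset Filter Topology

namespace CWM

/-- the ancestors leave the ball -/
def CH_fast {V U : Type} [Fintype V] [DecidableEq V] (D : Dyn V U) (l : ℕ) (w : List (V × U)) (y : V) : Prop :=
  ¬ anc D w {y} ⊆ Bl D y l

theorem CH_E {V U : Type} [Fintype V] [DecidableEq V] [Fintype U] (hANC : ANC_stmt) (D : Dyn V U) (d : ℕ) (hD : D.Ok d)
    (l : ℕ) (x0 z : V) :
    ∀ (w : List (V × U)) (x : V), D.ds x0 x ≤ l → z ∈ anc D w {x} → D.ds x0 z ≤ l ∨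
      ∃ (w1 w2 : List (V × U)) (x1 : V), w = w1 ++ w2 ∧ w1 ≠ [] ∧ D.ds x0 x1 = l + 1 ∧ z ∈ anc D w2 {x1}
  | [], x, hx, hz => by
    have : z = x := by simpa [anc] using hz
    rw [this]
    exact Or.inl hx
  | a :: w, x, hx, hz => by
    obtain ⟨-, -, -, h4, -⟩ := hANC V U D d hD
    have hz' : z ∈ anc D w (if a.1 ∈ ({x} : Finset V) then {x} ∪ D.nb a.1 else {x}) := hz
    obtain ⟨y, hy, hzy⟩ := (h4 _ _ _).1 hz'
    have hgo : D.ds x0 y ≤ l → D.ds x0 z ≤ l ∨
        ∃ (w1 w2 : List (V × U)) (x1 : V), a :: w = w1 ++ w2 ∧ w1 ≠ [] ∧ D.ds x0 x1 = l + 1 ∧ z ∈ anc D w2 {x1} := by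
      intro hyl
      rcases CH_E hANC D d hD l x0 z w y hyl hzy with h | ⟨w1, w2, x1, rfl, -, h2, h3⟩
      · exact Or.inl h
      · exact Or.inr ⟨a :: w1, w2, x1, rfl, List.cons_ne_nil _ _, h2, h3⟩
    by_cases hax : a.1 ∈ ({x} : Finset V)
    · rw [if_pos hax] at hy
      rcases Finset.mem_union.1 hy with h | h
      · rw [Finset.mem_singleton.1 h] at hgo
        exact hgo hx
      · have h1 : D.ds a.1 y ≤ 1 := hD.nbd _ _ h
        rw [Finset.mem_singleton.1 hax] at h1
        have h2 := hD.dst x0 x y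
        by_cases hyl : D.ds x0 y ≤ l
        · exact hgo hyl
        · exact Or.inr ⟨[a], w, y, rfl, List.cons_ne_nil _ _, by omega, hzy⟩
    · rw [if_neg hax] at hy
      rw [Finset.mem_singleton.1 hy] at hgo
      exact hgo hx

theorem CH_G {V U : Type} [Fintype V] [DecidableEq V] [Fintype U] (hANC : ANC_stmt) (D : Dyn V U) (d : ℕ) (hD : D.Ok d)
    (l : ℕ) (z : V) : ∀ (n : ℕ) (w : List (V × U)) (x : V), w.length = n → CH_fast D l w x → z ∈ anc D w {x} →
      ∃ y : V, Relation.ReflTransGen (fun y y' => CH_fast D l w y ∧ CH_fast D l w y' ∧ D.ds y y' ≤ l + 1) x y ∧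
        D.ds y z ≤ 2 * l + 1 := by
  intro n
  induction n using Nat.strong_induction_on with
  | _ n ih =>
    intro w x hn hf hz
    obtain ⟨hA1, hA2, hA3, -⟩ := hANC V U D d hD
    have hxx : D.ds x x ≤ l := by
      rw [(hD.ds0 x x).2 rfl]
      exact Nat.zero_le _
    rcases CH_E hANC D d hD l x z w x hxx hz with h | ⟨w1, w2, x1, rfl, h1, h2, h3⟩
    · exact ⟨x, Relation.ReflTransGen.refl, by omega⟩
    · by_cases hf1 : CH_fast D l w2 x1
      · have hlen : w2.length < n := by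
          rw [← hn, List.length_append]
          have := List.length_pos_iff.2 h1
          omega
        obtain ⟨y, hy, hyz⟩ := ih _ hlen w2 x1 rfl hf1 h3
        have hmono : ∀ y, CH_fast D l w2 y → CH_fast D l (w1 ++ w2) y := by
          intro y h hsub
          apply h
          refine subset_trans ?_ hsub
          rw [hA3]
          exact hA1 _ _ _ (hA2 _ _)
        refine ⟨y, Relation.ReflTransGen.head ⟨hf, hmono _ hf1, h2.le⟩ ?_, hyz⟩
        exact Relation.ReflTransGen.mono (fun a b hab => ⟨hmono _ hab.1, hmono _ hab.2.1, hab.2.2⟩) _ _ hy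
      · have h4 : anc D w2 {x1} ⊆ Bl D x1 l := not_not.1 hf1
        have h5 : D.ds x1 z ≤ l := (mem_Bl D).1 (h4 h3)
        refine ⟨x, Relation.ReflTransGen.refl, ?_⟩
        have := hD.dst x x1 z
        omega

/-- CH -/
theorem CH (hSAN : SAN_stmt) (hANC : ANC_stmt) : CH_stmt := by
  intro V U _ _ _ D d hD l w x z hz
  obtain ⟨-, -, -, -, hA5, hA6, -⟩ := hANC V U D d hD
  have hself : ∀ y : V, ({y} : Finset V) ⊆ Bl D y l := by
    intro y t ht
    rw [Finset.mem_singleton.1 ht, mem_Bl, (hD.ds0 y y).2 rfl]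
    exact Nat.zero_le _
  have hfo : ∀ y, CH_fast D l w y → Opn D l w y := by
    intro y hy
    refine Or.inr fun h => hy ((hA6 (Bl D y l) {y} w (hself y)).2 h)
  have hO : Opn D l w x := by
    by_contra hno
    have h1 : fl D (filt (Bl D x l) w) pl x = fl D (filt (Bl D x l) w) mi x := by
      by_contra h
      exact hno (Or.inl h)
    have h2 : ∀ σ : V → Bool, fl D w σ x = fl D (filt (Bl D x l) w) mi x := by
      intro σ
      have ha := (hSAN V U D d hD (Bl D x l) w σ mi).1 (fun _ _ => rfl) (mi_le σ) x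
      have hb := (hSAN V U D d hD (Bl D x l) w σ pl).2 (fun _ _ => rfl) (le_pl σ) x
      rw [h1] at hb
      exact le_antisymm hb ha
    unfold supp at hz
    obtain ⟨-, σ, hσ⟩ := Finset.mem_filter.1 hz
    exact hσ ((h2 _).trans (h2 _).symm)
  refine ⟨hO, ?_⟩
  have hza : z ∈ anc D w {x} := hA5 w x hz
  by_cases hf : CH_fast D l w x
  · obtain ⟨y, hy, hyz⟩ := CH_G hANC D d hD l z w.length w x rfl hf hza
    exact ⟨y, Relation.ReflTransGen.mono (fun a b hab => ⟨hfo a hab.1, hfo b hab.2.1, hab.2.2⟩) _ _ hy, hyz⟩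
  · have h4 : anc D w {x} ⊆ Bl D x l := not_not.1 hf
    have h5 : D.ds x z ≤ l := (mem_Bl D).1 (h4 hza)
    exact ⟨x, Relation.ReflTransGen.refl, by omega⟩

end CWM
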