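import Pool.Agent.helper18.CWM.SpecL

/-!
# Project cwm (MP_7c3fb3_pr): row CHB
-/

set_option autoImplicit false

open Finset

namespace CWM

lemma CHB_var {X : Type} [Fintype X] (P f : X → ℝ) (h1 : ∑ x, P x = 1) :
    ∑ x, P x * (f x - ∑ y, P y * f y) ^ 2 = ∑ x, P x * f x ^ 2 - (∑ x, P x * f x) ^ 2 := by
  set a := ∑ y, P y * f y with ha
  have e : ∀ x, P x * (f x - a) ^ 2 = P x * f x ^ 2 - 2 * a * (P x * f x) + a ^ 2 * P x := by
    intro x
    ring
  rw [Finset.sum_congr rfl fun x _ => e x, Finset.sum_add_distrib, Finset.sum_sub_distrib,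
    ← Finset.mul_sum, ← Finset.mul_sum, h1, ← ha]
  ring

lemma CHB_aux {X : Type} [Fintype X] (P Q f : X → ℝ) (g v : ℝ) (hP : ∀ x, 0 ≤ P x)
    (hQ : ∀ x, 0 ≤ Q x) (hP1 : ∑ x, P x = 1) (hQ1 : ∑ x, Q x = 1) (hg : 0 < g)
    (hgap : g ≤ ∑ x, P x * f x - ∑ x, Q x * f x)
    (hvP : ∑ x, P x * f x ^ 2 - (∑ x, P x * f x) ^ 2 ≤ v)
    (hvQ : ∑ x, Q x * f x ^ 2 - (∑ x, Q x * f x) ^ 2 ≤ v) :
    1 - 8 * v / g ^ 2 ≤ (∑ x, |P x - Q x|) / 2 := by
  rw [← CHB_var P f hP1] at hvP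
  rw [← CHB_var Q f hQ1] at hvQ
  set a := ∑ x, P x * f x with ha
  set b := ∑ x, Q x * f x with hb
  have hg2 : 0 < g ^ 2 := by positivity
  -- the two one sided bounds
  have hpt : ∀ x, P x * (1 - 8 / g ^ 2 * (f x - a) ^ 2) - Q x * (-1 + 8 / g ^ 2 * (f x - b) ^ 2) ≤
      |P x - Q x| := by
    intro x
    by_cases hx : (a + b) / 2 < f x
    · have h1 : 1 - 8 / g ^ 2 * (f x - a) ^ 2 ≤ 1 := by
        have : 0 ≤ 8 / g ^ 2 * (f x - a) ^ 2 := by positivity
        linarith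
      have h2 : (1 : ℝ) ≤ -1 + 8 / g ^ 2 * (f x - b) ^ 2 := by
        have h3 : (g / 2) ^ 2 ≤ (f x - b) ^ 2 := by
          apply pow_le_pow_left₀ (by linarith)
          linarith
        have h4 : 8 / g ^ 2 * (g / 2) ^ 2 ≤ 8 / g ^ 2 * (f x - b) ^ 2 :=
          mul_le_mul_of_nonneg_left h3 (by positivity)
        have h5 : 8 / g ^ 2 * (g / 2) ^ 2 = 2 := by
          field_simp
          norm_num
        linarith
      have h6 := mul_le_mul_of_nonneg_left h1 (hP x)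
      have h7 := mul_le_mul_of_nonneg_left h2 (hQ x)
      have h8 := le_abs_self (P x - Q x)
      linarith
    · have h1 : -1 + 8 / g ^ 2 * (f x - b) ^ 2 ≥ -1 := by
        have : 0 ≤ 8 / g ^ 2 * (f x - b) ^ 2 := by positivity
        linarith
      have h2 : 1 - 8 / g ^ 2 * (f x - a) ^ 2 ≤ -1 := by
        have h3 : (g / 2) ^ 2 ≤ (a - f x) ^ 2 := by
          apply pow_le_pow_left₀ (by linarith)
          linarith
        have h4 : 8 / g ^ 2 * (g / 2) ^ 2 ≤ 8 / g ^ 2 * (a - f x) ^ 2 :=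
          mul_le_mul_of_nonneg_left h3 (by positivity)
        have h5 : 8 / g ^ 2 * (g / 2) ^ 2 = 2 := by
          field_simp
          norm_num
        have h6 : (a - f x) ^ 2 = (f x - a) ^ 2 := by ring
        rw [h6] at h4
        linarith
      have h6 := mul_le_mul_of_nonneg_left h2 (hP x)
      have h7 := mul_le_mul_of_nonneg_left h1 (hQ x)
      have h8 := neg_abs_le (P x - Q x)
      linarith
  have hsum := Finset.sum_le_sum fun x (_ : x ∈ (Finset.univ : Finset X)) => hpt x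
  have e : ∀ x, P x * (1 - 8 / g ^ 2 * (f x - a) ^ 2) - Q x * (-1 + 8 / g ^ 2 * (f x - b) ^ 2) =
      P x + Q x - 8 / g ^ 2 * (P x * (f x - a) ^ 2) - 8 / g ^ 2 * (Q x * (f x - b) ^ 2) := by
    intro x
    ring
  rw [Finset.sum_congr rfl fun x _ => e x, Finset.sum_sub_distrib, Finset.sum_sub_distrib,
    Finset.sum_add_distrib, ← Finset.mul_sum, ← Finset.mul_sum, hP1, hQ1] at hsum
  have h1 := mul_le_mul_of_nonneg_left hvP (show 0 ≤ 8 / g ^ 2 by positivity)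
  have h2 := mul_le_mul_of_nonneg_left hvQ (show 0 ≤ 8 / g ^ 2 by positivity)
  have h3 : 8 * v / g ^ 2 = 8 / g ^ 2 * v := by ring
  rw [h3]
  linarith

theorem CHB : CHB_stmt := by
  intro X _ P Q f g v hP hQ hP1 hQ1 hg hgap hvP hvQ
  rcases le_abs.1 hgap with h | h
  · exact CHB_aux P Q f g v hP hQ hP1 hQ1 hg h hvP hvQ
  · have := CHB_aux Q P f g v hQ hP hQ1 hP1 hg (by linarith) hvQ hvP
    rw [Finset.sum_congr rfl fun x _ => abs_sub_comm (Q x) (P x)] at this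
    exact this

end CWM
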