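import Pool.Agent.helper18.CWM.SpecB

/-!
# cwm:COA (project MP_7c3fb3_pr, spec by helper18)
-/

open Finset Filter Topology

namespace CWM

section COAaux
variable {V U : Type} [Fintype V] [DecidableEq V] [Fintype U] (D : Dyn V U)

/-- the word has not coalesced in the region `A` -/
def COA_nc (A : Finset V) (w : List (V × U)) : Prop :=
  ∃ σ τ : V → Bool, (∀ x, x ∉ A → σ x = τ x) ∧ fl D w σ ≠ fl D w τ

omit [Fintype V] [Fintype U] in
theorem COA_off (A : Finset V) (w : List (V × U)) (hw : ∀ a ∈ w, a.1 ∈ A) (x : V) (hx : x ∉ A)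
    (σ : V → Bool) : fl D w σ x = σ x := by
  induction w with
  | nil => rfl
  | cons a w ih =>
    show stp D a (fl D w σ) x = σ x
    unfold stp
    have hne : x ≠ a.1 := by
      intro h
      apply hx
      rw [h]
      exact hw a (List.mem_cons_self)
    rw [Function.update_of_ne hne]
    exact ih (fun b hb => hw b (List.mem_cons_of_mem _ hb))

omit [Fintype V] [Fintype U] in
theorem COA_sub (A : Finset V) (w w' : List (V × U)) (hw' : ∀ a ∈ w', a.1 ∈ A)
    (h : COA_nc D A (w ++ w')) : COA_nc D A w ∧ COA_nc D A w' := by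
  obtain ⟨σ, τ, h1, h2⟩ := h
  rw [fl_append, fl_append] at h2
  refine ⟨⟨fl D w' σ, fl D w' τ, ?_, h2⟩, ⟨σ, τ, h1, ?_⟩⟩
  · intro x hx
    rw [COA_off D A w' hw' x hx, COA_off D A w' hw' x hx]
    exact h1 x hx
  · intro h
    apply h2
    rw [h]

theorem COA_le_one (h0 : ∀ u, 0 ≤ D.nu u) (h1 : ∑ u, D.nu u = 1) (A : Finset V)
    (hA : A.Nonempty) (m : ℕ) : Ew D A m (fun w => ind (COA_nc D A w)) ≤ 1 := by
  have h := Ew_mono D h0 (S := A) (m := m) (F := fun w => ind (COA_nc D A w)) (G := fun _ => 1)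
    (fun _ _ _ => ind_le_one _)
  rw [Ew_const D h1 hA] at h
  exact h

theorem COA_nonneg (h0 : ∀ u, 0 ≤ D.nu u) (A : Finset V) (m : ℕ) :
    0 ≤ Ew D A m (fun w => ind (COA_nc D A w)) :=
  Ew_nonneg D h0 (fun _ _ _ => ind_nonneg _)

theorem COA_mul (h0 : ∀ u, 0 ≤ D.nu u) (A : Finset V) (m m' : ℕ) :
    Ew D A (m + m') (fun w => ind (COA_nc D A w)) ≤
      Ew D A m (fun w => ind (COA_nc D A w)) * Ew D A m' (fun w => ind (COA_nc D A w)) := by
  rw [Ew_append]
  have h1 : ∀ w : List (V × U), Ew D A m' (fun w' => ind (COA_nc D A (w ++ w'))) ≤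
      ind (COA_nc D A w) * Ew D A m' (fun w' => ind (COA_nc D A w')) := by
    intro w
    rw [← Ew_smul]
    apply Ew_mono D h0
    intro w' _ hw'
    rw [← ind_and]
    exact ind_mono (COA_sub D A w w' hw')
  have h2 : Ew D A m (fun w => Ew D A m' (fun w' => ind (COA_nc D A (w ++ w')))) ≤
      Ew D A m (fun w => ind (COA_nc D A w) * Ew D A m' (fun w' => ind (COA_nc D A w'))) :=
    Ew_mono D h0 (fun w _ _ => h1 w)
  refine h2.trans (le_of_eq ?_)
  have e : (fun w : List (V × U) => ind (COA_nc D A w) * Ew D A m' (fun w' => ind (COA_nc D A w'))) =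
      fun w => Ew D A m' (fun w' => ind (COA_nc D A w')) * ind (COA_nc D A w) := by
    funext w
    ring
  rw [e, Ew_smul]
  ring

omit [Fintype V] [DecidableEq V] in
theorem COA_single (h0 : ∀ u, 0 ≤ D.nu u) (S : Finset V) (c : ℝ) (hc : 0 ≤ c) (u0 : U)
    (hu : c ≤ D.nu u0) (l : List V) : (∀ x ∈ l, x ∈ S) → ∀ F : List (V × U) → ℝ,
    (∀ w, 0 ≤ F w) → c ^ l.length * F (l.map (fun x => (x, u0))) ≤ Ww D S l.length F := by
  induction l with
  | nil =>
    intro _ F hF
    show c ^ 0 * F [] ≤ F []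
    rw [pow_zero, one_mul]
  | cons y l ih =>
    intro hl F hF
    have hy : y ∈ S := hl y List.mem_cons_self
    have ih1 := ih (fun x hx => hl x (List.mem_cons_of_mem _ hx))
      (fun w => F ((y, u0) :: w)) (fun w => hF _)
    show c ^ (l.length + 1) * F ((y, u0) :: l.map (fun x => (x, u0))) ≤
      Ww D S (l.length + 1) F
    rw [Ww_succ]
    have hnn : ∀ a : V × U, 0 ≤ Ww D S l.length (fun w => F (a :: w)) :=
      fun a => Ww_nonneg D h0 (fun w _ _ => hF _)
    have h1 : D.nu u0 * Ww D S l.length (fun w => F ((y, u0) :: w)) ≤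
        ∑ u, D.nu u * Ww D S l.length (fun w => F ((y, u) :: w)) :=
      Finset.single_le_sum (f := fun u => D.nu u * Ww D S l.length (fun w => F ((y, u) :: w)))
        (fun u _ => mul_nonneg (h0 u) (hnn _)) (Finset.mem_univ u0)
    have h2 : ∑ u, D.nu u * Ww D S l.length (fun w => F ((y, u) :: w)) ≤
        Wa D S (fun a => Ww D S l.length (fun w => F (a :: w))) :=
      Finset.single_le_sum
        (f := fun x => ∑ u, D.nu u * Ww D S l.length (fun w => F ((x, u) :: w)))
        (fun x _ => Finset.sum_nonneg fun u _ => mul_nonneg (h0 u) (hnn _)) hy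
    have h3 : c * (c ^ l.length * F ((y, u0) :: l.map (fun x => (x, u0)))) ≤
        D.nu u0 * Ww D S l.length (fun w => F ((y, u0) :: w)) := by
      apply mul_le_mul hu ih1 (mul_nonneg (pow_nonneg hc _) (hF _)) (h0 u0)
    calc c ^ (l.length + 1) * F ((y, u0) :: l.map (fun x => (x, u0)))
        = c * (c ^ l.length * F ((y, u0) :: l.map (fun x => (x, u0)))) := by ring
      _ ≤ _ := h3
      _ ≤ _ := h1
      _ ≤ _ := h2

omit [Fintype V] [Fintype U] in
theorem COA_forced (u0 : U) (hu : ∀ x σ, D.up x u0 σ = false) (l : List V) (σ : V → Bool) :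
    ∀ x ∈ l, fl D (l.map (fun x => (x, u0))) σ x = false := by
  induction l with
  | nil =>
    intro x hx
    exact absurd hx List.not_mem_nil
  | cons y l ih =>
    intro x hx
    show stp D (y, u0) (fl D (l.map (fun x => (x, u0))) σ) x = false
    unfold stp
    by_cases hxy : x = y
    · subst hxy
      show Function.update (fl D (l.map (fun x => (x, u0))) σ) x
        (D.up x u0 (fl D (l.map (fun x => (x, u0))) σ)) x = false
      rw [Function.update_self]
      exact hu x _
    · show Function.update (fl D (l.map (fun x => (x, u0))) σ) y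
        (D.up y u0 (fl D (l.map (fun x => (x, u0))) σ)) x = false
      rw [Function.update_of_ne hxy]
      rcases List.mem_cons.mp hx with h | h
      · exact absurd h hxy
      · exact ih x h

theorem COA_k (h0 : ∀ u, 0 ≤ D.nu u) (h1 : ∑ u, D.nu u = 1) (c : ℝ) (hc : 0 < c)
    (hf : ∃ u, c ≤ D.nu u ∧ ∀ x σ, D.up x u σ = false) (A : Finset V) (hA : A.Nonempty) :
    Ew D A A.card (fun w => ind (COA_nc D A w)) ≤ 1 - (c / A.card) ^ A.card := by
  obtain ⟨u0, hu0, hu1⟩ := hf
  have e1 : (fun w : List (V × U) => ind (COA_nc D A w)) = fun w => 1 - ind (¬ COA_nc D A w) := by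
    funext w
    rw [ind_not']
    ring
  rw [e1, Ew_sub, Ew_const D h1 hA]
  have hcard : (0 : ℝ) < A.card := by exact_mod_cast Finset.card_pos.mpr hA
  have h2 := COA_single D h0 A c hc.le u0 hu0 A.toList
    (fun x hx => Finset.mem_toList.mp hx) (fun w => ind (¬ COA_nc D A w)) (fun w => ind_nonneg _)
  rw [Finset.length_toList] at h2
  have hcoal : ¬ COA_nc D A (A.toList.map (fun x => (x, u0))) := by
    rintro ⟨σ, τ, h3, h4⟩
    apply h4
    funext x
    by_cases hx : x ∈ A
    · rw [COA_forced D u0 hu1 A.toList σ x (Finset.mem_toList.mpr hx),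
        COA_forced D u0 hu1 A.toList τ x (Finset.mem_toList.mpr hx)]
    · have hw : ∀ a ∈ A.toList.map (fun x => (x, u0)), a.1 ∈ A := by
        intro a ha
        obtain ⟨z, hz, rfl⟩ := List.mem_map.mp ha
        exact Finset.mem_toList.mp hz
      rw [COA_off D A _ hw x hx, COA_off D A _ hw x hx]
      exact h3 x hx
  have h5 : ind (¬ COA_nc D A (A.toList.map (fun x => (x, u0)))) = 1 := ind_of hcoal
  have h6 : c ^ A.card ≤ Ww D A A.card (fun w => ind (¬ COA_nc D A w)) := by
    have h7 : c ^ A.card * ind (¬ COA_nc D A (A.toList.map (fun x => (x, u0)))) ≤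
      Ww D A A.card (fun w => ind (¬ COA_nc D A w)) := h2
    rw [h5, mul_one] at h7
    exact h7
  have h8 : (c / A.card) ^ A.card ≤ Ew D A A.card (fun w => ind (¬ COA_nc D A w)) := by
    unfold Ew
    rw [div_pow]
    exact div_le_div_of_nonneg_right h6 (by positivity)
  linarith

end COAaux

theorem COA : COA_stmt := by
  intro c0 k hc0 hk
  have hkR : (0 : ℝ) < k := by exact_mod_cast hk
  have hk1 : (1 : ℝ) ≤ k := by exact_mod_cast hk
  set c1 : ℝ := min c0 1 with hc1
  have hc1pos : 0 < c1 := lt_min hc0 one_pos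
  have hc1le : c1 ≤ 1 := min_le_right _ _
  have hc1le0 : c1 ≤ c0 := min_le_left _ _
  set κ : ℝ := (c1 / k) ^ k with hκ
  have hκpos : 0 < κ := by positivity
  have hκle : κ ≤ 1 := by
    apply pow_le_one₀ (by positivity)
    rw [div_le_one hkR]
    linarith
  -- the rate
  set r : ℝ := 1 - κ / (2 * k) with hr
  have hκ2 : κ / (2 * k) ≤ 1 / 2 := by
    rw [div_le_div_iff₀ (by positivity) (by norm_num)]
    nlinarith
  have hκ3 : 0 < κ / (2 * k) := by positivity
  have hr0 : 0 < r := by rw [hr]; linarith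
  have hr1 : r < 1 := by rw [hr]; linarith
  have hrk : 1 - κ / 2 ≤ r ^ k := by
    have hb := one_add_mul_le_pow (a := -(κ / (2 * k))) (by linarith) k
    have e : 1 + (k : ℝ) * -(κ / (2 * k)) = 1 - κ / 2 := by
      field_simp
      ring
    rw [e] at hb
    have e2 : 1 + -(κ / (2 * k)) = r := by rw [hr]; ring
    rw [e2] at hb
    exact hb
  refine ⟨(1 / r) ^ k, r, by positivity, hr0, hr1, ?_⟩
  intro V U _ _ _ D d hok hfrc A hA m
  obtain ⟨_, _, hff⟩ := hfrc
  have hAne : A.Nonempty := by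
    rw [← Finset.card_pos, hA]
    exact hk
  have hff1 : ∃ u, c1 ≤ D.nu u ∧ ∀ x σ, D.up x u σ = false := by
    obtain ⟨u, hu1, hu2⟩ := hff
    exact ⟨u, hc1le0.trans hu1, hu2⟩
  show Ew D A m (fun w => ind (COA_nc D A w)) ≤ (1 / r) ^ k * r ^ m
  have hpk : Ew D A k (fun w => ind (COA_nc D A w)) ≤ r ^ k := by
    have h := COA_k D hok.nu0 hok.nu1 c1 hc1pos hff1 A hAne
    rw [hA] at h
    have h2 : 1 - κ ≤ 1 - κ / 2 := by linarith
    exact h.trans (h2.trans hrk)
  -- multiples of `k`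
  have hmul : ∀ a b : ℕ, Ew D A (k * a + b) (fun w => ind (COA_nc D A w)) ≤ (r ^ k) ^ a := by
    intro a
    induction a with
    | zero =>
      intro b
      rw [pow_zero]
      exact COA_le_one D hok.nu0 hok.nu1 A hAne _
    | succ a ih =>
      intro b
      have e : k * (a + 1) + b = k + (k * a + b) := by ring
      rw [e, pow_succ']
      refine (COA_mul D hok.nu0 A k (k * a + b)).trans ?_
      exact mul_le_mul hpk (ih b) (COA_nonneg D hok.nu0 A _) (by positivity)
  have h1 := hmul (m / k) (m % k)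
  rw [Nat.div_add_mod] at h1
  refine h1.trans ?_
  have hmod : m % k ≤ k := (Nat.mod_lt m hk).le
  have h2 : r ^ m = (r ^ k) ^ (m / k) * r ^ (m % k) := by
    rw [← pow_mul, ← pow_add, Nat.div_add_mod]
  rw [h2]
  have h3 : r ^ k ≤ r ^ (m % k) := pow_le_pow_of_le_one hr0.le hr1.le hmod
  have h4 : (1 / r) ^ k * r ^ k = 1 := by
    rw [← mul_pow, one_div, inv_mul_cancel₀ hr0.ne', one_pow]
  have h5 : 1 ≤ (1 / r) ^ k * r ^ (m % k) := by
    have h7 : (1 / r) ^ k * r ^ k ≤ (1 / r) ^ k * r ^ (m % k) :=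
      mul_le_mul_of_nonneg_left h3 (by positivity)
    rw [h4] at h7
    exact h7
  have h6 : 0 ≤ (r ^ k) ^ (m / k) := by positivity
  calc (r ^ k) ^ (m / k) = (r ^ k) ^ (m / k) * 1 := by ring
    _ ≤ (r ^ k) ^ (m / k) * ((1 / r) ^ k * r ^ (m % k)) := mul_le_mul_of_nonneg_left h5 h6
    _ = (1 / r) ^ k * ((r ^ k) ^ (m / k) * r ^ (m % k)) := by ring

end CWM
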