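import Pool.Agent.helper18.CWM.SpecL

/-!
# Project cwm: row LBT (lower bound for the mixing time)
-/

open Finset Filter Topology

namespace CWM

section
variable {V U : Type} [Fintype V] [DecidableEq V] [Fintype U]

/-- integration against the law of the configuration -/
lemma LBT_push (D : Dyn V U) (S : Finset V) (m : ℕ) (σ : V → Bool) (F : (V → Bool) → ℝ) :
    ∑ η : V → Bool, Ew D S m (fun w => ind (fl D w σ = η)) * F η =
      Ew D S m (fun w => F (fl D w σ)) := by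
  have h1 : ∀ η ∈ (univ : Finset (V → Bool)), Ew D S m (fun w => ind (fl D w σ = η)) * F η =
      Ew D S m (fun w => F η * ind (fl D w σ = η)) := by
    intro η _
    rw [Ew_smul, mul_comm]
  rw [Finset.sum_congr rfl h1, ← Ew_sum]
  refine Ew_congr D fun w _ _ => ?_
  rw [Finset.sum_eq_single (fl D w σ)]
  · rw [ind_of rfl, mul_one]
  · intro η _ hη
    rw [ind_not (fun h => hη h.symm), mul_zero]
  · intro h
    exact absurd (Finset.mem_univ _) h

omit [Fintype U] in
lemma LBT_av (W F : (V → Bool) → ℝ) : ∑ η : V → Bool, W η / (∑ ξ, W ξ) * F η = av W F := by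
  unfold av
  rw [Finset.sum_div]
  exact Finset.sum_congr rfl fun η _ => by ring

/-- the difference of the mean numbers of plus spins -/
lemma LBT_gap (D : Dyn V U) (hm : ∀ (x : V) (u : U) (σ τ : V → Bool), σ ≤ τ → D.up x u σ ≤ D.up x u τ)
    (m : ℕ) : Ew D univ m (fun w => Cp (fl D w pl)) - Ew D univ m (fun w => Cp (fl D w mi)) =
      ∑ x, uu D univ m x := by
  rw [← Ew_sub]
  unfold uu
  rw [← Ew_sum]
  refine Ew_congr D fun w _ _ => ?_
  unfold Cp
  rw [← Finset.sum_sub_distrib]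
  refine Finset.sum_congr rfl fun x _ => ?_
  have h1 := fl_mono D hm w (mi_le (pl : V → Bool)) x
  cases h2 : fl D w pl x <;> cases h3 : fl D w mi x
  · rw [ind_not (by simp), ind_not (by simp)]; norm_num
  · rw [h2, h3] at h1
    have h4 := Bool.eq_true_of_true_le h1
    exact absurd h4 Bool.false_ne_true
  · rw [ind_of rfl, ind_not (by simp), ind_of (by simp)]; norm_num
  · rw [ind_of rfl, ind_not (by simp)]; norm_num

end

/-- lower bound for `T` -/
lemma LBT_T (N T : ℕ) (hN : 2 ≤ N) (h : (1 - 1 / (N : ℝ)) ^ T ≤ 1 / √(N : ℝ)) :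
    (N : ℝ) * Real.log N / 4 ≤ T := by
  have hN' : (2 : ℝ) ≤ N := by exact_mod_cast hN
  have hN0 : (0 : ℝ) < N := by linarith
  have hN1 : (0 : ℝ) < (N : ℝ) - 1 := by linarith
  have hlog : 0 ≤ Real.log N := Real.log_nonneg (by linarith)
  have hx : (0 : ℝ) < 1 - 1 / (N : ℝ) := by
    rw [sub_pos, div_lt_one hN0]; linarith
  have h1 := Real.log_le_log (pow_pos hx T) h
  have h1' : Real.log (1 / √(N : ℝ)) = -(Real.log N / 2) := by
    rw [one_div, Real.log_inv, Real.log_sqrt hN0.le]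
  rw [Real.log_pow, h1'] at h1
  have h2 := Real.one_sub_inv_le_log_of_pos hx
  have h3 : (1 : ℝ) - (1 - 1 / (N : ℝ))⁻¹ = - (1 / ((N : ℝ) - 1)) := by
    field_simp
    ring
  rw [h3] at h2
  have hT0 : (0 : ℝ) ≤ T := Nat.cast_nonneg T
  have h4 : -((T : ℝ) * (1 / ((N : ℝ) - 1))) ≤ -(Real.log N / 2) := by
    have h5 := mul_le_mul_of_nonneg_left h2 hT0
    rw [one_div] at h5 ⊢
    linarith
  have h6 : Real.log N / 2 ≤ (T : ℝ) / ((N : ℝ) - 1) := by
    have : (T : ℝ) * (1 / ((N : ℝ) - 1)) = (T : ℝ) / ((N : ℝ) - 1) := by ring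
    linarith
  rw [le_div_iff₀ hN1] at h6
  nlinarith

/-- the error term -/
lemma LBT_lim (d : ℕ) (M a ω : ℝ) (hM : 0 < M) (ha : 0 < a) (hω : 0 < ω) :
    ∃ N₀ : ℕ, 2 ≤ N₀ ∧ ∀ N : ℕ, N₀ ≤ N →
      M * Real.exp (-(2 * a * Real.log N)) * (1 + Real.log N) ^ d ≤ ω := by
  have h1 := Real.tendsto_pow_mul_exp_neg_atTop_nhds_zero d
  have h2 : Tendsto (fun N : ℕ => 2 * a * (1 + Real.log (N : ℝ))) atTop atTop :=
    Tendsto.const_mul_atTop (by linarith)
      (tendsto_atTop_add_const_left _ _ (Real.tendsto_log_atTop.comp tendsto_natCast_atTop_atTop))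
  have h3 := (h1.comp h2).const_mul (M * Real.exp (2 * a) / (2 * a) ^ d)
  rw [mul_zero] at h3
  obtain ⟨N₀, hN₀⟩ := (h3.eventually (gt_mem_nhds hω)).exists_forall_of_atTop
  refine ⟨max 2 N₀, le_max_left _ _, fun N hN => ?_⟩
  have h4 := hN₀ N ((le_max_right _ _).trans hN)
  have h5 : M * Real.exp (2 * a) / (2 * a) ^ d * (((fun x : ℝ => x ^ d * Real.exp (-x)) ∘
      fun N : ℕ => 2 * a * (1 + Real.log (N : ℝ))) N) =
      M * Real.exp (-(2 * a * Real.log N)) * (1 + Real.log N) ^ d := by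
    rw [Function.comp_apply]
    have h6 : Real.exp (-(2 * a * (1 + Real.log (N : ℝ)))) =
        Real.exp (-(2 * a * Real.log N)) / Real.exp (2 * a) := by
      rw [← Real.exp_sub]; congr 1; ring
    simp only [h6, mul_pow (2 * a)]
    have h7 : (2 * a) ^ d ≠ 0 := by positivity
    field_simp
  rw [h5] at h4
  exact h4.le

theorem LBT (hVAR : VAR_stmt) (hVRW : VRW_stmt) (hCHB : CHB_stmt) (hGB : GB_stmt) (hUM : UM_stmt)
    (hHOM : HOM_stmt) : LBT_stmt := by
  intro d A c ε ω hd hA hc hε hε1 hω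
  obtain ⟨C₁, hC₁, hV1⟩ := hVAR d A c hA hc
  obtain ⟨C₂, hC₂, hV2⟩ := hVRW d A c hA hc
  obtain ⟨N₀, hN₀, hlim⟩ := LBT_lim d (32 * (C₁ + C₂) * A ^ 2 * Real.exp (2 * c)) (c * ε / 4) ω
    (by positivity) (by positivity) hω
  refine ⟨N₀, ?_⟩
  intro V U _ _ _ D W hOk hHom hHB hDec hN x T K hlt hle hK
  have : Nonempty V := ⟨x⟩
  obtain ⟨hUM1, hUM2, hUM3⟩ := hUM V U D d hOk
  obtain ⟨-, -, hG3, -, -⟩ := hGB V U D d hOk hHom x
  set N := Fintype.card V with hNdef
  have hN2 : 2 ≤ N := hN₀.trans hN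
  have hNR : (2 : ℝ) ≤ N := by exact_mod_cast hN2
  have hNpos : (0 : ℝ) < N := by linarith
  have huniv : (univ : Finset V).Nonempty := ⟨x, Finset.mem_univ x⟩
  set L := Real.log (N : ℝ) with hL
  have hL0 : 0 < L := Real.log_pos (by linarith)
  have hT := LBT_T N T hN2 ((hUM3 x T).trans hle)
  have hTpos : (0 : ℝ) < T := lt_of_lt_of_le (by positivity) hT
  have hKT : K < T := by
    have h1 : (K : ℝ) < T := by nlinarith
    exact_mod_cast h1
  -- the disagreement probability at time `K`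
  have h1 := hlt (T - 1) (by omega)
  have h2 := hG3 K (T - 1 - K)
  rw [show T - 1 - K + K = T - 1 by omega] at h2
  have h3 := hDec x (T - 1 - K)
  set B := A * Real.exp (c - c * ε / 4 * L) with hB
  have hBpos : 0 < B := by positivity
  have h4 : GG D (T - 1 - K) x ≤ B := by
    refine h3.trans (mul_le_mul_of_nonneg_left (Real.exp_le_exp.2 ?_) hA.le)
    have h5 : ((T - 1 - K : ℕ) : ℝ) = (T : ℝ) - 1 - K := by
      rw [Nat.cast_sub (by omega), Nat.cast_sub (by omega), Nat.cast_one]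
    have h6 : ε / 4 * L - 1 ≤ ((T : ℝ) - 1 - K) / N := by
      rw [le_div_iff₀ hNpos]
      have h7 : ε * T - 1 ≤ (T : ℝ) - 1 - K := by linarith
      have h8 : ε * (N * L / 4) ≤ ε * T := mul_le_mul_of_nonneg_left hT hε.le
      nlinarith
    rw [h5]
    nlinarith
  set u := uu D univ K x with hu
  have hu0 : 0 ≤ u := (hUM2 univ x K huniv).1
  have h5 : 1 / √(N : ℝ) < B * u :=
    lt_of_lt_of_le h1 (h2.trans (mul_le_mul_of_nonneg_right h4 hu0))
  have hsq : 0 < √(N : ℝ) := Real.sqrt_pos.2 hNpos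
  have hupos : 0 < u := by
    rcases hu0.lt_or_eq with h | h
    · exact h
    · rw [← h, mul_zero] at h5
      exact absurd h5 (not_lt.2 (by positivity))
  -- the gap
  have hgap := LBT_gap D hOk.mono K
  have hsum : ∑ y, uu D univ K y = N * u := by
    rw [Finset.sum_congr rfl fun y _ => (hHOM V U D hHom K y x).1, Finset.sum_const,
      Finset.card_univ, nsmul_eq_mul]
  rw [hsum] at hgap
  set g := (N : ℝ) * u / 2 with hg
  have hgpos : 0 < g := by positivity
  set v := (C₁ + C₂) * N * (1 + L) ^ d with hv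
  have hvb : 8 * v / g ^ 2 ≤ ω := by
    have h6 := hlim N hN
    rw [← hL] at h6
    have h7 : (1 : ℝ) ≤ N * (B * u) ^ 2 := by
      have h8 : (1 / √(N : ℝ)) ^ 2 ≤ (B * u) ^ 2 := pow_le_pow_left₀ (by positivity) h5.le 2
      rw [div_pow, one_pow, Real.sq_sqrt hNpos.le, div_le_iff₀ hNpos] at h8
      linarith
    have h8 : B ^ 2 = A ^ 2 * Real.exp (2 * c) * Real.exp (-(2 * (c * ε / 4) * L)) := by
      rw [hB, mul_pow, ← Real.exp_nat_mul, mul_assoc, ← Real.exp_add]
      congr 2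
      push_cast
      ring
    rw [div_le_iff₀ (by positivity)]
    have h9 : 8 * v ≤ 8 * v * (N * (B * u) ^ 2) := le_mul_of_one_le_right (by positivity) h7
    have h10 : 8 * v * (N * (B * u) ^ 2) = (32 * (C₁ + C₂) * A ^ 2 * Real.exp (2 * c) *
        Real.exp (-(2 * (c * ε / 4) * L)) * (1 + L) ^ d) * g ^ 2 := by
      rw [mul_pow, h8, hv, hg]
      ring
    rw [h10] at h9
    exact h9.trans (mul_le_mul_of_nonneg_right h6 (by positivity))
  -- the laws
  have hWpos : 0 < ∑ ξ, W ξ := Finset.sum_pos (fun ξ _ => hHB.pos ξ) ⟨pl, Finset.mem_univ _⟩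
  have hQ0 : ∀ η : V → Bool, 0 ≤ W η / ∑ ξ, W ξ := fun η => (div_pos (hHB.pos η) hWpos).le
  have hQ1 : ∑ η : V → Bool, W η / ∑ ξ, W ξ = 1 := by
    rw [← Finset.sum_div, div_self hWpos.ne']
  have hC0 : (1 : ℝ) ≤ (1 + L) ^ d := one_le_pow₀ (by linarith)
  have hQv : ∑ η : V → Bool, W η / (∑ ξ, W ξ) * Cp η ^ 2 -
      (∑ η : V → Bool, W η / (∑ ξ, W ξ) * Cp η) ^ 2 ≤ v := by
    rw [LBT_av W (fun η => Cp η ^ 2), LBT_av W Cp]
    refine (hV2 V U D W hOk hHom hHB hDec).trans ?_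
    rw [hv]
    have : 0 ≤ C₁ * N * (1 + L) ^ d := by positivity
    linarith
  have key : ∀ σ : V → Bool, g ≤ |Ew D univ K (fun w => Cp (fl D w σ)) - av W Cp| →
      1 - ω ≤ (∑ η : V → Bool, |Ew D univ K (fun w => ind (fl D w σ = η)) - W η / ∑ ξ, W ξ|) / 2 := by
    intro σ hσ
    have hP0 : ∀ η : V → Bool, 0 ≤ Ew D univ K (fun w => ind (fl D w σ = η)) := fun η =>
      Ew_nonneg D hOk.nu0 fun _ _ _ => ind_nonneg _
    have hP1 : ∑ η : V → Bool, Ew D univ K (fun w => ind (fl D w σ = η)) = 1 := by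
      have h6 := LBT_push D univ K σ (fun _ => 1)
      simp only [mul_one] at h6
      rw [h6, Ew_const D hOk.nu1 huniv]
    have hPv : ∑ η : V → Bool, Ew D univ K (fun w => ind (fl D w σ = η)) * Cp η ^ 2 -
        (∑ η : V → Bool, Ew D univ K (fun w => ind (fl D w σ = η)) * Cp η) ^ 2 ≤ v := by
      rw [LBT_push D univ K σ (fun η => Cp η ^ 2), LBT_push D univ K σ Cp]
      refine (hV1 V U D hOk hHom hDec K σ).trans ?_
      rw [hv]
      have : 0 ≤ C₂ * N * (1 + L) ^ d := by positivity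
      linarith
    have h6 := hCHB (V → Bool) (fun η => Ew D univ K (fun w => ind (fl D w σ = η)))
      (fun η => W η / ∑ ξ, W ξ) Cp g v hP0 hQ0 hP1 hQ1 hgpos
      (by rw [LBT_push D univ K σ Cp, LBT_av W Cp]; exact hσ) hPv hQv
    linarith
  rcases le_total (Ew D univ K (fun w => Cp (fl D w pl)) - av W Cp) g with h6 | h6
  · refine ⟨mi, key mi ?_⟩
    rw [abs_sub_comm]
    refine le_trans ?_ (le_abs_self _)
    linarith
  · exact ⟨pl, key pl (h6.trans (le_abs_self _))⟩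

end CWM
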