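import Pool.Agent.helper18.CWM.SpecF
import Pool.Agent.helper18.CWM.LBT

/-!
# Project cwm: row CUT (weak mixing implies cutoff, assembly)
-/

open Finset Filter Topology

namespace CWM

lemma CUT_card (d n : ℕ) : Fintype.card (CU.Site d (n + 3)) = (n + 3) ^ d := by
  rw [Fintype.card_fun, ZMod.card, Fintype.card_fin]

theorem CUT (hM3 : M3_stmt) (hUB : UB_stmt) (hLBT : LBT_stmt) (hUPT : UPT_stmt) (hLPT : LPT_stmt) (hTOK : TOK_stmt)
    (hTHM : THM_stmt) (hTFR : TFR_stmt) (hTHB : THB_stmt) (hTGR : TGR_stmt) (hGB : GB_stmt) (hUM : UM_stmt) :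
    CUT_stmt := by
  intro d β h hd hβ hdl
  obtain ⟨C, hC, hdl⟩ := hdl
  obtain ⟨c0, hc0, hFr⟩ := hTFR d β h
  have hOk : ∀ n, (tD d (n + 3) β h).Ok d := fun n => hTOK d n β h hβ
  have hHom : ∀ n, (tD d (n + 3) β h).Hom := fun n => hTHM d n β h
  have hHB : ∀ n, HB (tD d (n + 3) β h) (CU.wt β h : CU.Conf d (n + 3) → ℝ) := fun n => hTHB d n β h hβ
  have hc01 : c0 ≤ 1 := by
    obtain ⟨_, ⟨u, hu, _⟩, _⟩ := hFr 0
    refine hu.trans ?_
    rw [← (hOk 0).nu1]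
    exact Finset.single_le_sum (f := fun u => (tD d (0 + 3) β h).nu u) (fun i _ => (hOk 0).nu0 i) (Finset.mem_univ u)
  obtain ⟨A, c, hA, hc, hD⟩ := hM3 d c0 C hd hc0 hC
  have hDec : ∀ n, Dec (tD d (n + 3) β h) A c := fun n x m =>
    hD _ _ (tD d (n + 3) β h) (CU.wt β h) (hOk n) (hFr n) (hHom n) (hHB n) (hdl n) x m
  have hN : ∀ n, n + 3 ≤ Fintype.card (CU.Site d (n + 3)) := by
    intro n
    rw [CUT_card]
    exact Nat.le_self_pow (by omega) _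
  have hN0 : ∀ n, (0 : ℝ) < Fintype.card (CU.Site d (n + 3)) := by
    intro n
    have := hN n
    exact_mod_cast (by omega : 0 < Fintype.card (CU.Site d (n + 3)))
  have hex : ∀ n, ∃ m, uu (tD d (n + 3) β h) univ m 0 ≤ 1 / √(Fintype.card (CU.Site d (n + 3)) : ℝ) := by
    intro n
    obtain ⟨_, _, _, _, hG5⟩ := hGB _ _ (tD d (n + 3) β h) d (hOk n) (hHom n) 0
    have hpos : 0 < 1 / √(Fintype.card (CU.Site d (n + 3)) : ℝ) := by
      have := hN0 n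
      positivity
    have ht : Tendsto (fun m : ℕ => A * Real.exp (-c * ((m : ℝ) / Fintype.card (CU.Site d (n + 3))))) atTop (𝓝 (A * 0)) := by
      apply Tendsto.const_mul
      apply Real.tendsto_exp_atBot.comp
      have h1 : Tendsto (fun m : ℕ => (m : ℝ) / Fintype.card (CU.Site d (n + 3))) atTop atTop :=
        tendsto_natCast_atTop_atTop.atTop_div_const (hN0 n)
      exact h1.const_mul_atTop_of_neg (by linarith)
    rw [mul_zero] at ht
    obtain ⟨m, hm⟩ := (ht.eventually (gt_mem_nhds hpos)).exists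
    exact ⟨m, ((hG5 m).trans (hDec n 0 m)).trans hm.le⟩
  classical
  let T : ℕ → ℕ := fun n => Nat.find (hex n)
  have hT1 : ∀ n, uu (tD d (n + 3) β h) univ (T n) 0 ≤ 1 / √(Fintype.card (CU.Site d (n + 3)) : ℝ) := fun n =>
    Nat.find_spec (hex n)
  have hT2 : ∀ n, ∀ m < T n, 1 / √(Fintype.card (CU.Site d (n + 3)) : ℝ) < uu (tD d (n + 3) β h) univ m 0 := by
    intro n m hm
    exact not_le.1 (Nat.find_min (hex n) hm)
  have hTlow : ∀ n : ℕ, (n : ℝ) / 4 ≤ T n := by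
    intro n
    have h1 := LBT_T (Fintype.card (CU.Site d (n + 3))) (T n) (by have := hN n; omega)
      (((hUM _ _ (tD d (n + 3) β h) d (hOk n)).2.2 0 (T n)).trans (hT1 n))
    refine le_trans ?_ h1
    have h2 : ((n : ℝ) + 3) ≤ Fintype.card (CU.Site d (n + 3)) := by exact_mod_cast hN n
    have h3 : 1 ≤ Real.log (Fintype.card (CU.Site d (n + 3)) : ℝ) := by
      rw [Real.le_log_iff_exp_le (hN0 n)]
      have := Real.exp_one_lt_d9
      have hn : (0 : ℝ) ≤ n := Nat.cast_nonneg n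
      linarith
    have hn : (0 : ℝ) ≤ n := Nat.cast_nonneg n
    nlinarith
  refine ⟨fun n => (T n : ℝ), ?_, ?_⟩
  · refine tendsto_atTop_mono hTlow ?_
    exact tendsto_natCast_atTop_atTop.atTop_div_const (by norm_num)
  intro ε hε hε1
  constructor
  · rw [Metric.tendsto_atTop]
    intro ω hω
    obtain ⟨N₀, h1⟩ := hLBT d A c ε (ω / 2) hd hA hc hε hε1 (by positivity)
    refine ⟨N₀, fun n hn => ?_⟩
    obtain ⟨p0, p1, p2⟩ := hLPT d n β h hβ ⌊(1 - ε) * (T n : ℝ)⌋₊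
    have hfl : ((⌊(1 - ε) * (T n : ℝ)⌋₊ : ℕ) : ℝ) ≤ (1 - ε) * T n :=
      Nat.floor_le (mul_nonneg (by linarith) (Nat.cast_nonneg _))
    obtain ⟨σ, hσ⟩ := h1 _ _ (tD d (n + 3) β h) (CU.wt β h) (hOk n) (hHom n) (hHB n) (hDec n)
      (by have := hN n; omega) 0 (T n) ⌊(1 - ε) * (T n : ℝ)⌋₊ (hT2 n) (hT1 n) hfl
    have h2 := hσ.trans (p2 σ)
    rw [Real.dist_eq, abs_lt]
    constructor <;> linarith
  · rw [Metric.tendsto_atTop]
    intro ω hω
    obtain ⟨N₀, h1⟩ := hUB d A c c0 ε (ω ^ 2 / 8) hd hA hc hc0 hc01 hε hε1 (by positivity)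
    refine ⟨N₀, fun n hn => ?_⟩
    obtain ⟨p0, p1, p2⟩ := hLPT d n β h hβ ⌊(1 + ε) * (T n : ℝ)⌋₊
    have hfl : (1 + ε) * (T n : ℝ) - 1 ≤ ((⌊(1 + ε) * (T n : ℝ)⌋₊ : ℕ) : ℝ) := (Nat.sub_one_lt_floor _).le
    have h2 := h1 _ _ (tD d (n + 3) β h) (hOk n) (hHom n) (hFr n) (hDec n) (fun x r => hTGR d n β h hd x r)
      (by have := hN n; omega) 0 (T n) ⌊(1 + ε) * (T n : ℝ)⌋₊ (hT2 n) (hT1 n) hfl
    have h3 := hUPT d n β h hβ ⌊(1 + ε) * (T n : ℝ)⌋₊
    have h4 : √(2 * gH (tD d (n + 3) β h) univ ⌊(1 + ε) * (T n : ℝ)⌋₊ univ) ≤ √((ω / 2) ^ 2) := by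
      apply Real.sqrt_le_sqrt
      nlinarith
    rw [Real.sqrt_sq (by positivity)] at h4
    rw [Real.dist_eq, abs_lt]
    constructor <;> linarith

theorem NZF (hCUT : CUT_stmt) (hSTAT : STAT_stmt) : NZF_stmt := by
  intro d β h hd hβ hh
  exact hCUT d β h hd hβ (hSTAT d β h hβ hh)

end CWM
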