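import Pool.Agent.helper18.CWM.SpecB

set_option autoImplicit false

/-! # Project cwm (MP_7c3fb3_pr), row DEV: lower deviations of the number of letters in a region -/

open Finset

namespace CWM

/-- `η²/2 ≤ η + (1 - η) log (1 - η)` -/
lemma DEV_log (η : ℝ) (h0 : 0 < η) (h1 : η < 1) :
    η ^ 2 / 2 ≤ η + (1 - η) * Real.log (1 - η) := by
  have hy : 0 < 1 - η := by linarith
  have hs : 0 ≤ -Real.log (1 - η) := by
    have := Real.log_nonpos hy.le (by linarith)
    linarith
  have h2 := Real.self_le_sinh_iff.2 hs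
  rw [Real.sinh_eq, neg_neg, Real.exp_neg, Real.exp_log hy] at h2
  have h3 : (1 - η) * (-Real.log (1 - η)) ≤ (1 - η) * (((1 - η)⁻¹ - (1 - η)) / 2) :=
    mul_le_mul_of_nonneg_left h2 hy.le
  have h4 : (1 - η) * (((1 - η)⁻¹ - (1 - η)) / 2) = (1 - (1 - η) ^ 2) / 2 := by
    field_simp
  rw [h4] at h3
  nlinarith

theorem DEV (hBIN : BIN_stmt) : DEV_stmt := by
  intro V U _ _ _ D R S h0 h1 hRS hS m η hη0 hη1
  have hb := (hBIN V U D R S h1 hRS hS m).1 (1 - η)
  have hScard : (0 : ℝ) < S.card := by exact_mod_cast Finset.card_pos.2 hS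
  set p : ℝ := (R.card : ℝ) / S.card with hp
  have hp0 : 0 ≤ p := by positivity
  have hp1 : p ≤ 1 := by
    rw [hp, div_le_one hScard]
    exact_mod_cast Finset.card_le_card hRS
  have hy : 0 < 1 - η := by linarith
  set x : ℝ := (1 - η) * (m * p) with hx
  have hlog : Real.log (1 - η) < 0 := Real.log_neg hy (by linarith)
  have hpt : Ew D S m (fun w => ind (((filt R w).length : ℝ) < x)) ≤
      Ew D S m (fun w => Real.exp (-(x * Real.log (1 - η))) * (1 - η) ^ (filt R w).length) := by
    refine Ew_mono D h0 fun w _ _ => ?_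
    have hpos : 0 ≤ Real.exp (-(x * Real.log (1 - η))) * (1 - η) ^ (filt R w).length := by positivity
    by_cases hlt : ((filt R w).length : ℝ) < x
    · rw [ind_of hlt]
      have e : (1 - η) ^ (filt R w).length
          = Real.exp (((filt R w).length : ℝ) * Real.log (1 - η)) := by
        rw [Real.exp_nat_mul, Real.exp_log hy]
      rw [e, ← Real.exp_add]
      refine Real.one_le_exp ?_
      nlinarith
    · rw [ind_not hlt]
      exact hpos
  refine hpt.trans ?_
  rw [Ew_smul, hb, show 1 - p + p * (1 - η) = 1 - p * η by ring]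
  have h2 : (1 - p * η) ^ m ≤ Real.exp (-(p * η)) ^ m := by
    refine pow_le_pow_left₀ ?_ ?_ m
    · nlinarith
    · have := Real.add_one_le_exp (-(p * η))
      linarith
  calc Real.exp (-(x * Real.log (1 - η))) * (1 - p * η) ^ m
      ≤ Real.exp (-(x * Real.log (1 - η))) * Real.exp (-(p * η)) ^ m :=
        mul_le_mul_of_nonneg_left h2 (Real.exp_pos _).le
    _ = Real.exp (-(m * p * (η + (1 - η) * Real.log (1 - η)))) := by
        rw [← Real.exp_nat_mul, ← Real.exp_add, hx]
        congr 1
        ring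
    _ ≤ Real.exp (-(η ^ 2 * (m * p) / 2)) := by
        apply Real.exp_le_exp.2
        have h3 := DEV_log η hη0 hη1
        have h4 : 0 ≤ (m : ℝ) * p := by positivity
        nlinarith

end CWM
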