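import Pool.Agent.helper23.CU.Model

/-!
# Project cwm (MP_7c3fb3_pr): cutoff for the Ising Glauber dynamics in every nonzero field.  Definitions.

A letter is a pair `(x, u)`: the site `x` is updated with the randomness `u`.  A word is a list of letters whose HEAD
is the LAST letter in time.
-/

open Finset

namespace CWM

/-- indicator of a proposition -/
noncomputable def ind (p : Prop) : ℝ := @ite ℝ p (Classical.dec p) 1 0

/-- data of a monotone dynamics on a finite graph: neighbours, distance, law of the randomness, new spin -/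
structure Dyn (V U : Type) where
  nb : V → Finset V
  ds : V → V → ℕ
  nu : U → ℝ
  up : V → U → (V → Bool) → Bool

/-- all plus -/
def pl {V : Type} : V → Bool := fun _ => true
/-- all minus -/
def mi {V : Type} : V → Bool := fun _ => false

section
variable {V U : Type} [Fintype V] [DecidableEq V] [Fintype U]

/-- ball -/
def Bl (D : Dyn V U) (x : V) (r : ℕ) : Finset V := univ.filter fun y => D.ds x y ≤ r

/-- `r`-neighbourhood of a set -/
def BS (D : Dyn V U) (A : Finset V) (r : ℕ) : Finset V := A.biUnion fun x => Bl D x r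

/-- standing assumptions; `d` is the dimension -/
structure Dyn.Ok (D : Dyn V U) (d : ℕ) : Prop where
  nu0 : ∀ u, 0 ≤ D.nu u
  nu1 : ∑ u, D.nu u = 1
  mono : ∀ (x : V) (u : U) (σ τ : V → Bool), σ ≤ τ → D.up x u σ ≤ D.up x u τ
  loc : ∀ (x : V) (u : U) (σ τ : V → Bool), (∀ y ∈ D.nb x, σ y = τ y) → D.up x u σ = D.up x u τ
  nbc : ∀ x, (D.nb x).card ≤ 2 * d
  nbd : ∀ x, ∀ y ∈ D.nb x, D.ds x y ≤ 1
  ds0 : ∀ x y, D.ds x y = 0 ↔ x = y
  dsc : ∀ x y, D.ds x y = D.ds y x
  dst : ∀ x y z, D.ds x z ≤ D.ds x y + D.ds y z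
  blc : ∀ (x : V) (r : ℕ), (Bl D x r).card ≤ (2 * r + 1) ^ d

/-- homogeneity: the automorphisms of the dynamics act transitively -/
def Dyn.Hom (D : Dyn V U) : Prop := ∀ x y : V, ∃ e : Equiv.Perm V, e x = y ∧
  ∀ (z : V) (u : U) (σ : V → Bool), D.up (e z) u σ = D.up z u (fun v => σ (e v))

/-- each spin value is forced with probability at least `c` -/
def Dyn.Frc (D : Dyn V U) (c : ℝ) : Prop := 0 < c ∧
  (∃ u, c ≤ D.nu u ∧ ∀ x σ, D.up x u σ = true) ∧ (∃ u, c ≤ D.nu u ∧ ∀ x σ, D.up x u σ = false)

/-- one step -/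
def stp (D : Dyn V U) (a : V × U) (σ : V → Bool) : V → Bool := Function.update σ a.1 (D.up a.1 a.2 σ)

/-- the flow of a word (head = last letter) -/
def fl (D : Dyn V U) : List (V × U) → (V → Bool) → (V → Bool)
  | [], σ => σ
  | a :: w, σ => stp D a (fl D w σ)

/-- letters with site in `R` -/
def filt (R : Finset V) (w : List (V × U)) : List (V × U) := w.filter fun a => decide (a.1 ∈ R)

/-- unnormalised sum over one letter with site in `S` -/
noncomputable def Wa (D : Dyn V U) (S : Finset V) (F : V × U → ℝ) : ℝ := ∑ x ∈ S, ∑ u, D.nu u * F (x, u)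

/-- unnormalised sum over words of length `m` with sites in `S` -/
noncomputable def Ww (D : Dyn V U) (S : Finset V) : ℕ → (List (V × U) → ℝ) → ℝ
  | 0, F => F []
  | m + 1, F => Wa D S fun a => Ww D S m fun w => F (a :: w)

/-- expectation over words of `m` letters, sites uniform in `S` -/
noncomputable def Ew (D : Dyn V U) (S : Finset V) (m : ℕ) (F : List (V × U) → ℝ) : ℝ :=
  Ww D S m F / (S.card : ℝ) ^ m

/-- ancestors (reading the word backwards in time, i.e. from the head) -/
def anc (D : Dyn V U) : List (V × U) → Finset V → Finset V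
  | [], A => A
  | a :: w, A => anc D w (if a.1 ∈ A then A ∪ D.nb a.1 else A)

/-- flip one spin -/
def flp (z : V) (σ : V → Bool) : V → Bool := Function.update σ z (!σ z)

/-- relevant variables of `σ ↦ fl w σ x` -/
noncomputable def supp (D : Dyn V U) (w : List (V × U)) (x : V) : Finset V := by
  classical exact univ.filter fun z => ∃ σ : V → Bool, fl D w (flp z σ) x ≠ fl D w σ x

/-- relevant variables of `σ ↦ fl w σ` on `A` -/
noncomputable def supS (D : Dyn V U) (w : List (V × U)) (A : Finset V) : Finset V := A.biUnion fun x => supp D w x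

/-- disagreement probability at `x` after `m` letters of `S` -/
noncomputable def uu (D : Dyn V U) (S : Finset V) (m : ℕ) (x : V) : ℝ :=
  Ew D S m fun w => ind (fl D w pl x ≠ fl D w mi x)

/-- mean size of the support -/
noncomputable def GG (D : Dyn V U) (m : ℕ) (x : V) : ℝ := Ew D univ m fun w => ((supp D w x).card : ℝ)

/-- configuration on `A`, minus elsewhere -/
def msk (A : Finset V) (σ : V → Bool) : V → Bool := fun x => if x ∈ A then σ x else false

/-- configuration `σ` on `A`, the constant `b` elsewhere -/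
def ext (A : Finset V) (b : Bool) (σ : V → Bool) : V → Bool := fun x => if x ∈ A then σ x else b

/-- law of the configuration on `A` after `m` letters of `S`, start `σ` -/
noncomputable def law (D : Dyn V U) (S : Finset V) (m : ℕ) (A : Finset V) (σ : V → Bool) : (V → Bool) → ℝ :=
  fun η => Ew D S m fun w => ind (msk A (fl D w σ) = η)

/-- squared Hellinger distance -/
noncomputable def hel {X : Type} [Fintype X] (P Q : X → ℝ) : ℝ := (1 / 2) * ∑ x, (√(P x) - √(Q x)) ^ 2

/-- worst pair of starts, squared Hellinger distance on `A` after `m` letters of `S` -/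
noncomputable def gH (D : Dyn V U) (S : Finset V) (m : ℕ) (A : Finset V) : ℝ :=
  ⨆ p : (V → Bool) × (V → Bool), hel (law D S m A p.1) (law D S m A p.2)

/-- Poissonised sum -/
noncomputable def Pz (D : Dyn V U) (B : Finset V) (t : ℝ) (a : ℕ) (F : List (V × U) → ℝ) : ℝ :=
  Real.exp (-t * B.card) * ∑ c ∈ range (a + 1), t ^ c / (c.factorial : ℝ) * Ww D B c F

/-- `y` is open for the word `w` at scale `l` -/
def Opn (D : Dyn V U) (l : ℕ) (w : List (V × U)) (y : V) : Prop :=
  fl D (filt (Bl D y l) w) pl y ≠ fl D (filt (Bl D y l) w) mi y ∨ ¬ anc D (filt (Bl D y l) w) {y} ⊆ Bl D y l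

/-- average with respect to the weight `W` -/
noncomputable def av (W : (V → Bool) → ℝ) (F : (V → Bool) → ℝ) : ℝ := (∑ σ, W σ * F σ) / ∑ σ, W σ

/-- the weight `W` conditioned to be equal to `b` off `A` -/
noncomputable def cw (W : (V → Bool) → ℝ) (A : Finset V) (b : Bool) : (V → Bool) → ℝ :=
  fun σ => W σ * ind (∀ x, x ∉ A → σ x = b)

/-- difference of the probabilities of plus at `x` with plus and minus outside of `A` -/
noncomputable def dl (W : (V → Bool) → ℝ) (A : Finset V) (x : V) : ℝ :=
  av (cw W A true) (fun σ => ind (σ x = true)) - av (cw W A false) fun σ => ind (σ x = true)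

/-- `W` is positive, log-supermodular and the updates of `D` are its heat bath -/
structure HB (D : Dyn V U) (W : (V → Bool) → ℝ) : Prop where
  pos : ∀ σ, 0 < W σ
  fkg : ∀ σ τ, W σ * W τ ≤ W (σ ⊓ τ) * W (σ ⊔ τ)
  rev : ∀ (x : V) (σ : V → Bool), (∑ u, D.nu u * ind (D.up x u σ = true)) * W (Function.update σ x false) =
    (1 - ∑ u, D.nu u * ind (D.up x u σ = true)) * W (Function.update σ x true)

end

/-! ## the torus -/

section torus
open CU

/-- number of plus neighbours of `x` -/
def pn {d n : ℕ} (x : Site d n) (σ : Conf d n) : ℕ :=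
  (univ.filter fun i : Fin d => σ (x + ev i) = true).card + (univ.filter fun i : Fin d => σ (x - ev i) = true).card

/-- heat bath probability of plus with `k` plus neighbours -/
noncomputable def hb (d : ℕ) (β h : ℝ) (k : ℕ) : ℝ := 1 / (1 + Real.exp (-2 * β * (2 * k - 2 * d) - 2 * h))

/-- law of the threshold -/
noncomputable def nuT (d : ℕ) (β h : ℝ) (u : Fin (2 * d + 2)) : ℝ :=
  (if u.val = 2 * d + 1 then 1 else hb d β h u.val) - (if u.val = 0 then 0 else hb d β h (u.val - 1))

/-- distance on the torus -/
def dsT {d n : ℕ} (x y : Site d n) : ℕ := univ.sup fun i : Fin d => ((x i - y i).valMinAbs).natAbs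

/-- the heat bath dynamics on the torus -/
noncomputable def tD (d n : ℕ) [NeZero n] (β h : ℝ) : Dyn (Site d n) (Fin (2 * d + 2)) where
  nb := fun x => (univ.image fun i : Fin d => x + ev i) ∪ univ.image fun i : Fin d => x - ev i
  ds := dsT
  nu := nuT d β h
  up := fun x u σ => decide (u.val ≤ pn x σ)

end torus

end CWM
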