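import Pool.Agent.helper18.CWM.SpecH

/-!
# Project cwm (MP_7c3fb3_pr), module EXC
-/

set_option autoImplicit false

open Finset Filter Topology

namespace CWM

section
variable {V U : Type} [Fintype V] [DecidableEq V] [Fintype U]

theorem EXC_idx (D : Dyn V U) (l r₂ : ℕ) (w : List (V × U)) (C : Finset V) :
    ∀ p : List (V × ℕ), Xp D l r₂ [w] C p → ∀ q ∈ p, q.2 = 0
  | [], _, q, hq => by simp at hq
  | a :: p, h, q, hq => by
    obtain ⟨h1, ⟨w', hw', _⟩, _, _⟩ := h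
    rcases List.mem_cons.1 hq with rfl | hq
    · cases hn : q.2 with
      | zero => rfl
      | succ n =>
        rw [hn] at hw'
        simp at hw'
    · exact EXC_idx D l r₂ w C p h1 q hq

theorem EXC_tail (D : Dyn V U) (l r₂ : ℕ) (ws : List (List (V × U))) (C : Finset V) :
    ∀ p : List (V × ℕ), Xp D l r₂ ws C p → ∀ k ≤ p.length, ∃ p', Xp D l r₂ ws C p' ∧ p'.length = k
  | [], h, k, hk => ⟨[], h, by
      have h0 : k ≤ 0 := hk
      have h1 : k = 0 := by omega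
      rw [h1]
      rfl⟩
  | a :: p, h, k, hk => by
    rcases Nat.lt_or_ge p.length k with h1 | h1
    · refine ⟨a :: p, h, ?_⟩
      rw [List.length_cons] at hk ⊢
      omega
    · exact EXC_tail D l r₂ ws C p h.1 k h1

theorem EXC_max (D : Dyn V U) (l r₂ : ℕ) (ws : List (List (V × U))) (C : Finset V) (s₁ : ℕ)
    (hno : ¬ ∃ p, Xp D l r₂ ws C p ∧ p.length = s₁) :
    ∃ T, Xp D l r₂ ws C T ∧ T.length < s₁ ∧ ∀ p, Xp D l r₂ ws C p → p.length ≤ T.length := by
  have hlt : ∀ p, Xp D l r₂ ws C p → p.length < s₁ := by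
    intro p hp
    by_contra hcon
    exact hno (EXC_tail D l r₂ ws C p hp s₁ (by omega))
  by_contra hcon
  push Not at hcon
  have key : ∀ n : ℕ, ∃ T, Xp D l r₂ ws C T ∧ n ≤ T.length := by
    intro n
    induction n with
    | zero => exact ⟨[], trivial, Nat.zero_le _⟩
    | succ n ih =>
      obtain ⟨T, hT, hn⟩ := ih
      obtain ⟨p, hp, h1⟩ := hcon T hT (hlt T hT)
      exact ⟨p, hp, by omega⟩
  obtain ⟨T, hT, hn⟩ := key s₁
  have := hlt T hT
  omega

theorem EXC_open (hCH : CH_stmt) (D : Dyn V U) (d : ℕ) (hok : D.Ok d) (l : ℕ)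
    (w : List (V × U)) (z : V) (hz : z ∈ supS D w univ) :
    ∃ y, Opn D l w y ∧ D.ds y z ≤ 2 * l + 1 := by
  unfold supS at hz
  obtain ⟨x, _, hx⟩ := mem_biUnion.1 hz
  obtain ⟨h1, y, h2, h3⟩ := hCH V U D d hok l w x z hx
  refine ⟨y, ?_, h3⟩
  rcases Relation.ReflTransGen.cases_tail h2 with h4 | ⟨c, _, h5⟩
  · rwa [h4]
  · exact h5.2.1

/-- one component is covered by few balls -/
theorem EXC_card (hCH : CH_stmt) (D : Dyn V U) (d : ℕ) (hok : D.Ok d) (l ρ s₁ : ℕ)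
    (w : List (V × U))
    (hno : ∀ y₀ : V, ¬ ∃ p, Xp D l (4 * ρ + 6 * l + 2) [w] {y₀} p ∧ p.length = s₁)
    (z₀ : V) (hz₀ : z₀ ∈ supS D w univ) (C : Finset V)
    (hC : ∀ z ∈ C, Relation.ReflTransGen
      (fun z z' => z ∈ supS D w univ ∧ z' ∈ supS D w univ ∧ D.ds z z' ≤ 4 * ρ) z₀ z) :
    C.card ≤ s₁ * (8 * l + 3) ^ d := by
  obtain ⟨y₀, ho₀, hd₀⟩ := EXC_open hCH D d hok l w z₀ hz₀
  obtain ⟨T, hT, hTs, hmax⟩ := EXC_max D l (4 * ρ + 6 * l + 2) [w] {y₀} s₁ (hno y₀)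
  have hidx := EXC_idx D l (4 * ρ + 6 * l + 2) w {y₀} T hT
  -- an open point which is reachable is close to `T`
  have app : ∀ y, Opn D l w y → (y = y₀ ∨ ∃ q ∈ T, D.ds q.1 y ≤ 4 * ρ + 6 * l + 2) →
      ∃ q ∈ T, D.ds q.1 y ≤ 2 * l := by
    intro y hy hr
    by_contra hcon
    push Not at hcon
    have h1 : Xp D l (4 * ρ + 6 * l + 2) [w] {y₀} ((y, 0) :: T) := by
      refine ⟨hT, ⟨w, rfl, hy⟩, fun q hq _ => hcon q hq, ?_⟩
      rcases hr with h2 | ⟨q, hq, h2⟩
      · left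
        exact ⟨rfl, by rw [h2]; exact mem_singleton_self _⟩
      · right
        exact ⟨q, hq, h2, Or.inl (hidx q hq).symm⟩
    have h2 := hmax _ h1
    rw [List.length_cons] at h2
    omega
  have key : ∀ z, Relation.ReflTransGen
      (fun z z' => z ∈ supS D w univ ∧ z' ∈ supS D w univ ∧ D.ds z z' ≤ 4 * ρ) z₀ z →
      ∃ y, D.ds y z ≤ 2 * l + 1 ∧ ∃ q ∈ T, D.ds q.1 y ≤ 2 * l := by
    intro z hz
    induction hz with
    | refl => exact ⟨y₀, hd₀, app y₀ ho₀ (Or.inl rfl)⟩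
    | tail _ hbc ih =>
      obtain ⟨y, hy, q, hq, hqy⟩ := ih
      rename_i b c _
      obtain ⟨y', ho', hd'⟩ := EXC_open hCH D d hok l w c hbc.2.1
      refine ⟨y', hd', app y' ho' (Or.inr ⟨q, hq, ?_⟩)⟩
      have h1 := hok.dst q.1 y y'
      have h2 := hok.dst y b y'
      have h3 := hok.dst b c y'
      have h4 := hok.dsc c y'
      have h5 := hbc.2.2
      omega
  have hsub : C ⊆ T.toFinset.biUnion (fun q => Bl D q.1 (4 * l + 1)) := by
    intro z hz
    obtain ⟨y, hy, q, hq, hqy⟩ := key z (hC z hz)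
    rw [mem_biUnion]
    refine ⟨q, List.mem_toFinset.2 hq, ?_⟩
    unfold Bl
    rw [mem_filter]
    have h1 := hok.dst q.1 y z
    exact ⟨mem_univ _, by omega⟩
  calc C.card ≤ (T.toFinset.biUnion (fun q => Bl D q.1 (4 * l + 1))).card := card_le_card hsub
    _ ≤ T.toFinset.card * (2 * (4 * l + 1) + 1) ^ d :=
      card_biUnion_le_card_mul _ _ _ (fun q _ => hok.blc q.1 (4 * l + 1))
    _ ≤ s₁ * (8 * l + 3) ^ d := by
      have h1 : 2 * (4 * l + 1) + 1 = 8 * l + 3 := by ring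
      rw [h1]
      exact Nat.mul_le_mul_right _ ((List.toFinset_card_le T).trans hTs.le)

end

/-- **EXC** -/
theorem EXC (hCH : CH_stmt) : EXC_stmt := by
  classical
  intro V U _ _ _ D d hok l ρ s₁ w _ hno
  let R : V → V → Prop :=
    fun z z' => z ∈ supS D w univ ∧ z' ∈ supS D w univ ∧ D.ds z z' ≤ 4 * ρ
  have hsymm : ∀ z z', R z z' → R z' z := fun z z' h => ⟨h.2.1, h.1, by rw [hok.dsc]; exact h.2.2⟩
  have hrev : ∀ z z', Relation.ReflTransGen R z z' → Relation.ReflTransGen R z' z := by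
    intro z z' h
    induction h with
    | refl => exact Relation.ReflTransGen.refl
    | tail _ h2 ih => exact Relation.ReflTransGen.head (hsymm _ _ h2) ih
  let cls : V → Finset V := fun z =>
    (supS D w univ).filter (fun z' => Relation.ReflTransGen R z z')
  have hself : ∀ z ∈ supS D w univ, z ∈ cls z := fun z hz =>
    mem_filter.2 ⟨hz, Relation.ReflTransGen.refl⟩
  refine ⟨((supS D w univ).image cls).toList, ?_, ?_, ?_⟩
  · intro C hC
    obtain ⟨z, hz, rfl⟩ := mem_image.1 (mem_toList.1 hC)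
    refine ⟨⟨z, hself z hz⟩, ?_⟩
    exact EXC_card hCH D d hok l ρ s₁ w hno z hz (cls z) (fun z' hz' => (mem_filter.1 hz').2)
  · apply List.Nodup.pairwise_of_forall_ne (nodup_toList _)
    intro C hC C' hC' hne x hx y hy
    obtain ⟨z, hz, rfl⟩ := mem_image.1 (mem_toList.1 hC)
    obtain ⟨z', hz', rfl⟩ := mem_image.1 (mem_toList.1 hC')
    by_contra hcon
    apply hne
    obtain ⟨hx1, hx2⟩ := mem_filter.1 hx
    obtain ⟨hy1, hy2⟩ := mem_filter.1 hy
    have h1 : Relation.ReflTransGen R z z' :=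
      (hx2.tail ⟨hx1, hy1, by omega⟩).trans (hrev _ _ hy2)
    ext v
    constructor
    · intro hv
      obtain ⟨hv1, hv2⟩ := mem_filter.1 hv
      exact mem_filter.2 ⟨hv1, (hrev _ _ h1).trans hv2⟩
    · intro hv
      obtain ⟨hv1, hv2⟩ := mem_filter.1 hv
      exact mem_filter.2 ⟨hv1, h1.trans hv2⟩
  · intro x
    constructor
    · intro hx
      exact ⟨cls x, mem_toList.2 (mem_image_of_mem _ hx), hself x hx⟩
    · rintro ⟨C, hC, hx⟩
      obtain ⟨z, hz, rfl⟩ := mem_image.1 (mem_toList.1 hC)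
      exact (mem_filter.1 hx).1

end CWM
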