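import Pool.Agent.helper18.CWM.SpecH

/-!
Row cwm:EXD (helper9).
-/

set_option autoImplicit false

open Finset Filter Topology

namespace CWM

theorem EXD_ite {V U : Type} [Fintype V] [DecidableEq V] [Fintype U] (D : Dyn V U) :
    ∀ (ws : List (List (V × U))) (A : Finset V) (k : ℕ) (w : List (V × U)), ws[k]? = some w →
      itS D (ws.take (k + 1)) A = supS D w (itS D (ws.take k) A)
  | [], _, _, _, h => by simp at h
  | v :: ws, A, 0, w, h => by
    have : v = w := by simpa using h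
    subst this
    rfl
  | v :: ws, A, k + 1, w, h => by
    have h' : ws[k]? = some w := by simpa using h
    exact EXD_ite D ws (supS D v A) k w h'

theorem EXD_near {V U : Type} [Fintype V] [DecidableEq V] [Fintype U] (D : Dyn V U) (d : ℕ) (hD : D.Ok d)
    (l r : ℕ) (ws : List (List (V × U))) (C : Finset V) :
    ∀ p : List (V × ℕ), Xp D l r ws C p → ∀ q ∈ p, ∃ c ∈ C, D.ds c q.1 ≤ p.length * r
  | [], _, q, hq => by simp at hq
  | a :: p, hp, q, hq => by
    have hlen : (a :: p).length * r = p.length * r + r := by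
      rw [List.length_cons]; ring
    rw [hlen]
    obtain ⟨hp1, -, -, hp4⟩ := hp
    rcases List.mem_cons.1 hq with rfl | hq
    · rcases hp4 with ⟨-, hC⟩ | ⟨q', hq', hd, -⟩
      · refine ⟨q.1, hC, ?_⟩
        rw [(hD.ds0 _ _).2 rfl]
        exact Nat.zero_le _
      · obtain ⟨c, hc, hcd⟩ := EXD_near D d hD l r ws C p hp1 q' hq'
        exact ⟨c, hc, (hD.dst c q'.1 q.1).trans (by omega)⟩
    · obtain ⟨c, hc, hcd⟩ := EXD_near D d hD l r ws C p hp1 q hq
      exact ⟨c, hc, by omega⟩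

/-- EXD -/
theorem EXD (hCH : CH_stmt) : EXD_stmt := by
  intro V U _ _ _ D d hD l J M ws C hJ hJ1 hM1 hno
  classical
  -- a maximal sequence
  have hex : ∃ n, ¬ ∃ p, Xp D l (4 * l + 1) ws C p ∧ p.length = n := ⟨_, hno⟩
  obtain ⟨T, hT, hTl, hTmax⟩ : ∃ T, Xp D l (4 * l + 1) ws C T ∧ T.length < J * M ∧
      ∀ a, ¬ Xp D l (4 * l + 1) ws C (a :: T) := by
    obtain ⟨n, h1, hmin⟩ : ∃ n, (¬ ∃ p, Xp D l (4 * l + 1) ws C p ∧ p.length = n) ∧
        ∀ m, m < n → ∃ p, Xp D l (4 * l + 1) ws C p ∧ p.length = m :=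
      ⟨Nat.find hex, Nat.find_spec hex, fun m hm => not_not.1 (Nat.find_min hex hm)⟩
    have h2 : n ≤ J * M := by
      by_contra hlt
      exact hno (hmin _ (by omega))
    have h3 : n ≠ 0 := by
      intro h0
      apply h1
      rw [h0]
      exact ⟨[], trivial, rfl⟩
    obtain ⟨T, hT, hl⟩ := hmin (n - 1) (by omega)
    refine ⟨T, hT, by omega, fun a ha => h1 ⟨a :: T, ha, ?_⟩⟩
    rw [List.length_cons]
    omega
  -- covered pairs
  have hcov : ∀ (y : V) (k : ℕ) (w : List (V × U)), ws[k]? = some w → Opn D l w y →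
      ((k = 0 ∧ y ∈ C) ∨ ∃ q ∈ T, D.ds q.1 y ≤ 4 * l + 1 ∧ (k = q.2 ∨ k = q.2 + 1)) →
      ∃ q ∈ T, q.2 = k ∧ D.ds q.1 y ≤ 2 * l := by
    intro y k w hw hO hroot
    by_contra hc
    push Not at hc
    exact hTmax (y, k) ⟨hT, ⟨w, hw, hO⟩, fun q hq hqk => hc q hq hqk, hroot⟩
  -- the iterated supports are near `T`
  have hnear : ∀ k < J, ∀ z ∈ itS D (ws.take (k + 1)) C, ∃ q ∈ T, q.2 = k ∧ D.ds q.1 z ≤ 4 * l + 1 := by
    intro k
    induction k with
    | zero =>
      intro hk z hz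
      obtain ⟨w, hw⟩ : ∃ w, ws[0]? = some w := ⟨ws[0], List.getElem?_eq_getElem (by omega)⟩
      rw [EXD_ite D ws C 0 w hw] at hz
      obtain ⟨x, hx, hzx⟩ := Finset.mem_biUnion.1 hz
      have hxC : x ∈ C := by simpa [itS] using hx
      obtain ⟨hO, y, hy, hyz⟩ := hCH V U D d hD l w x z hzx
      have h0 := hcov x 0 w hw hO (Or.inl ⟨rfl, hxC⟩)
      have h1 : ∃ q ∈ T, q.2 = 0 ∧ D.ds q.1 y ≤ 2 * l := by
        clear hyz hzx
        induction hy with
        | refl => exact h0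
        | @tail b e _ hbc ih =>
          obtain ⟨q, hq, hqk, hqd⟩ := ih
          refine hcov _ 0 w hw hbc.2.1 (Or.inr ⟨q, hq, ?_, Or.inl hqk.symm⟩)
          exact (hD.dst q.1 b e).trans (by have := hbc.2.2; omega)
      obtain ⟨q, hq, hqk, hqd⟩ := h1
      exact ⟨q, hq, hqk, (hD.dst q.1 y z).trans (by omega)⟩
    | succ k ih =>
      intro hk z hz
      obtain ⟨w, hw⟩ : ∃ w, ws[k + 1]? = some w := ⟨ws[k + 1], List.getElem?_eq_getElem (by omega)⟩
      rw [EXD_ite D ws C (k + 1) w hw] at hz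
      obtain ⟨x, hx, hzx⟩ := Finset.mem_biUnion.1 hz
      obtain ⟨q', hq', hqk', hqd'⟩ := ih (by omega) x hx
      obtain ⟨hO, y, hy, hyz⟩ := hCH V U D d hD l w x z hzx
      have h0 := hcov x (k + 1) w hw hO (Or.inr ⟨q', hq', hqd', Or.inr (by omega)⟩)
      have h1 : ∃ q ∈ T, q.2 = k + 1 ∧ D.ds q.1 y ≤ 2 * l := by
        clear hyz hzx
        induction hy with
        | refl => exact h0
        | @tail b e _ hbc ih =>
          obtain ⟨q, hq, hqk, hqd⟩ := ih
          refine hcov _ (k + 1) w hw hbc.2.1 (Or.inr ⟨q, hq, ?_, Or.inl hqk.symm⟩)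
          exact (hD.dst q.1 b e).trans (by have := hbc.2.2; omega)
      obtain ⟨q, hq, hqk, hqd⟩ := h1
      exact ⟨q, hq, hqk, (hD.dst q.1 y z).trans (by omega)⟩
  -- pigeonhole
  obtain ⟨k, hk, hcard⟩ : ∃ k ∈ range J, (T.toFinset.filter fun q => q.2 = k).card < M := by
    refine Finset.exists_card_fiber_lt_of_card_lt_mul ?_
    rw [card_range]
    exact (List.toFinset_card_le T).trans_lt hTl
  have hkJ : k < J := mem_range.1 hk
  refine ⟨k, hkJ, ?_, ?_⟩
  · have hsub : itS D (ws.take (k + 1)) C ⊆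
        (T.toFinset.filter fun q => q.2 = k).biUnion fun q => Bl D q.1 (4 * l + 1) := by
      intro z hz
      obtain ⟨q, hq, hqk, hqd⟩ := hnear k hkJ z hz
      exact mem_biUnion.2 ⟨q, mem_filter.2 ⟨List.mem_toFinset.2 hq, hqk⟩, (mem_Bl D).2 hqd⟩
    refine (card_le_card hsub).trans (card_biUnion_le.trans ?_)
    refine (sum_le_card_nsmul _ _ ((8 * l + 3) ^ d) fun q _ => ?_).trans ?_
    · have := hD.blc q.1 (4 * l + 1)
      rwa [show 2 * (4 * l + 1) + 1 = 8 * l + 3 by ring] at this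
    · rw [smul_eq_mul]
      exact Nat.mul_le_mul_right _ hcard.le
  · intro z hz
    obtain ⟨q, hq, hqk, hqd⟩ := hnear k hkJ z hz
    obtain ⟨c, hc, hcd⟩ := EXD_near D d hD l (4 * l + 1) ws C T hT q hq
    refine (mem_BS D).2 ⟨c, hc, (hD.dst c q.1 z).trans ?_⟩
    have h1 : T.length * (4 * l + 1) ≤ (J * M) * (4 * l + 1) := Nat.mul_le_mul_right _ hTl.le
    have h2 : (J * M + 1) * (4 * l + 1) = (J * M) * (4 * l + 1) + (4 * l + 1) := by ring
    omega

end CWM
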