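import Pool.Agent.helper18.CWM.SpecA

set_option autoImplicit false

open Finset Filter Topology

namespace CWM

theorem EXP_one {V : Type} [DecidableEq V] (P : Finset V) (x : V) (y : ℝ) :
    Real.exp (-y * sp P x) = 2 * Real.sinh y * (if x ∈ P then 0 else 1) + Real.exp (-y) := by
  unfold sp
  by_cases h : x ∈ P
  · rw [if_pos h, if_pos h]
    simp
  · rw [if_neg h, if_neg h, Real.sinh_eq]
    have : -y * -1 = y := by ring
    rw [this]
    ring

theorem EXP_nA {V : Type} [Fintype V] [DecidableEq V] (nb : V → Finset V) (D A : Finset V) (x : V)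
    (hx : x ∈ D) (hx' : x ∉ bd nb D A) : nA nb A x = 0 := by
  unfold nA
  have h : ¬ (nb x ∩ A).Nonempty := fun h => hx' (Finset.mem_filter.2 ⟨hx, h⟩)
  rw [Finset.not_nonempty_iff_eq_empty] at h
  rw [h]
  simp

/-- expansion of the boundary field -/
theorem EXP_prod {V : Type} [Fintype V] [DecidableEq V] (nb : V → Finset V) (β : ℝ)
    (D A P : Finset V) :
    Real.exp (∑ x ∈ D, -(β * nA nb A x) * sp P x) =
      ∑ A' ∈ (bd nb D A).powerset, ((∏ x ∈ A', 2 * Real.sinh (β * nA nb A x)) *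
        (if Disjoint A' P then 1 else 0)) * ∏ x ∈ bd nb D A \ A', Real.exp (-(β * nA nb A x)) := by
  have hsub : bd nb D A ⊆ D := Finset.filter_subset _ _
  have h1 : ∑ x ∈ D, -(β * nA nb A x) * sp P x = ∑ x ∈ bd nb D A, -(β * nA nb A x) * sp P x := by
    refine (Finset.sum_subset hsub ?_).symm
    intro x hx hx'
    rw [EXP_nA nb D A x hx hx']
    simp
  rw [h1, Real.exp_sum, Finset.prod_congr rfl fun x _ => EXP_one P x (β * nA nb A x),
    Finset.prod_add]
  refine Finset.sum_congr rfl fun A' _ => ?_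
  congr 1
  rw [Finset.prod_mul_distrib]
  congr 1
  by_cases h : Disjoint A' P
  · rw [if_pos h]
    refine Finset.prod_eq_one fun x hx => ?_
    rw [if_neg (Finset.disjoint_left.1 h hx)]
  · rw [if_neg h]
    rw [Finset.not_disjoint_iff] at h
    obtain ⟨x, h2, h3⟩ := h
    exact Finset.prod_eq_zero h2 (by rw [if_pos h3])

/-- splitting off the set `A'` of minus sites -/
theorem EXP_en {V : Type} [Fintype V] [DecidableEq V] (nb : V → Finset V)
    (hs : ∀ x y, y ∈ nb x ↔ x ∈ nb y) (D A' P : Finset V) (hA' : A' ⊆ D) (hP : Disjoint A' P) :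
    en nb D P = en nb (D \ A') P - ∑ x ∈ D \ A', nA nb A' x * sp P x +
      (1 / 2) * ∑ x ∈ A', nA nb A' x := by
  have hsp : ∀ x ∈ A', sp P x = -1 := fun x hx => by
    unfold sp
    rw [if_neg (Finset.disjoint_left.1 hP hx)]
  have hin : ∀ x, ∑ y ∈ nb x ∩ D, sp P y = ∑ y ∈ nb x ∩ (D \ A'), sp P y - nA nb A' x := by
    intro x
    have h1 : nb x ∩ D = (nb x ∩ (D \ A')) ∪ (nb x ∩ A') := by
      rw [← Finset.inter_union_distrib_left, Finset.sdiff_union_of_subset hA']
    have h2 : Disjoint (nb x ∩ (D \ A')) (nb x ∩ A') := by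
      rw [Finset.disjoint_left]
      intro y h3 h4
      exact (Finset.mem_sdiff.1 (Finset.mem_inter.1 h3).2).2 (Finset.mem_inter.1 h4).2
    rw [h1, Finset.sum_union h2, sub_eq_add_neg]
    congr 1
    rw [Finset.sum_congr rfl fun y hy => hsp y (Finset.mem_inter.1 hy).2, Finset.sum_const,
      nsmul_eq_mul]
    unfold nA
    ring
  have hcross : ∑ x ∈ A', ∑ y ∈ nb x ∩ (D \ A'), sp P y = ∑ y ∈ D \ A', nA nb A' y * sp P y := by
    have h1 : ∑ x ∈ A', ∑ y ∈ nb x ∩ (D \ A'), sp P y =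
        ∑ y ∈ D \ A', ∑ x ∈ nb y ∩ A', sp P y := by
      refine Finset.sum_comm' ?_
      intro x y
      rw [Finset.mem_inter, Finset.mem_inter]
      constructor
      · rintro ⟨h1, h2, h3⟩
        exact ⟨⟨(hs x y).1 h2, h1⟩, h3⟩
      · rintro ⟨⟨h1, h2⟩, h3⟩
        exact ⟨h2, (hs x y).2 h1, h3⟩
    rw [h1]
    refine Finset.sum_congr rfl fun y _ => ?_
    rw [Finset.sum_const, nsmul_eq_mul]
    rfl
  have h1 : ∀ x, ∑ y ∈ nb x ∩ D, sp P x * sp P y =
      sp P x * (∑ y ∈ nb x ∩ (D \ A'), sp P y - nA nb A' x) := by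
    intro x
    rw [← Finset.mul_sum, hin x]
  unfold en
  rw [Finset.sum_congr rfl fun x _ => h1 x, ← Finset.sum_sdiff hA']
  have h2 : ∑ x ∈ A', sp P x * (∑ y ∈ nb x ∩ (D \ A'), sp P y - nA nb A' x) =
      - ∑ y ∈ D \ A', nA nb A' y * sp P y + ∑ x ∈ A', nA nb A' x := by
    rw [← hcross, ← Finset.sum_neg_distrib, ← Finset.sum_add_distrib]
    refine Finset.sum_congr rfl fun x hx => ?_
    rw [hsp x hx]
    ring
  have h3 : ∑ x ∈ D \ A', sp P x * (∑ y ∈ nb x ∩ (D \ A'), sp P y - nA nb A' x) =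
      ∑ x ∈ D \ A', ∑ y ∈ nb x ∩ (D \ A'), sp P x * sp P y -
        ∑ y ∈ D \ A', nA nb A' y * sp P y := by
    rw [← Finset.sum_sub_distrib]
    refine Finset.sum_congr rfl fun x _ => ?_
    rw [← Finset.mul_sum]
    ring
  rw [h2, h3]
  ring

theorem EXP : EXP_stmt := by
  intro V _ _ nb hs β h D A F
  have hsub : bd nb D A ⊆ D := Finset.filter_subset _ _
  unfold ZF
  have h1 : ∀ P ∈ D.powerset,
      Real.exp (β * en nb D P + ∑ x ∈ D, (h - β * nA nb A x) * sp P x) * F P =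
      ∑ A' ∈ (bd nb D A).powerset, (((∏ x ∈ A', 2 * Real.sinh (β * nA nb A x)) *
        ∏ x ∈ bd nb D A \ A', Real.exp (-(β * nA nb A x))) *
        (if Disjoint A' P then Real.exp (β * en nb D P + ∑ x ∈ D, h * sp P x) * F P else 0)) := by
    intro P _
    have e1 : β * en nb D P + ∑ x ∈ D, (h - β * nA nb A x) * sp P x =
        (β * en nb D P + ∑ x ∈ D, h * sp P x) + ∑ x ∈ D, -(β * nA nb A x) * sp P x := by
      rw [add_assoc, ← Finset.sum_add_distrib]
      congr 1
      refine Finset.sum_congr rfl fun x _ => ?_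
      ring
    rw [e1, Real.exp_add, EXP_prod, Finset.mul_sum, Finset.sum_mul]
    refine Finset.sum_congr rfl fun A' _ => ?_
    by_cases hd : Disjoint A' P
    · rw [if_pos hd, if_pos hd]
      ring
    · rw [if_neg hd, if_neg hd]
      ring
  rw [Finset.sum_congr rfl h1, Finset.sum_comm]
  refine Finset.sum_congr rfl fun A' hA' => ?_
  have hA'' : A' ⊆ D := (Finset.mem_powerset.1 hA').trans hsub
  rw [← Finset.mul_sum, ← Finset.sum_filter]
  have h2 : D.powerset.filter (fun P => Disjoint A' P) = (D \ A').powerset := by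
    ext P
    rw [Finset.mem_filter, Finset.mem_powerset, Finset.mem_powerset]
    constructor
    · rintro ⟨h3, h4⟩ x hx
      exact Finset.mem_sdiff.2 ⟨h3 hx, fun h5 => Finset.disjoint_left.1 h4 h5 hx⟩
    · intro h3
      refine ⟨fun x hx => (Finset.mem_sdiff.1 (h3 hx)).1, ?_⟩
      rw [Finset.disjoint_left]
      intro x h4 h5
      exact (Finset.mem_sdiff.1 (h3 h5)).2 h4
  rw [h2]
  unfold cE
  have e3 : ∀ x : V, -(β * nA nb A x) = -β * nA nb A x := fun x => by ring
  simp only [e3]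
  rw [mul_assoc ((∏ x ∈ A', 2 * Real.sinh (β * nA nb A x)) *
    ∏ x ∈ bd nb D A \ A', Real.exp (-β * nA nb A x))]
  congr 1
  rw [Finset.mul_sum]
  refine Finset.sum_congr rfl fun P hP => ?_
  rw [Finset.mem_powerset] at hP
  have hd : Disjoint A' P := by
    rw [Finset.disjoint_left]
    intro x h4 h5
    exact (Finset.mem_sdiff.1 (hP h5)).2 h4
  rw [← mul_assoc, ← Real.exp_add]
  congr 2
  rw [EXP_en nb hs D A' P hA'' hd, ← Finset.sum_sdiff hA'']
  have h3 : ∑ x ∈ A', h * sp P x = -(h * A'.card) := by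
    have h4 : ∀ x ∈ A', h * sp P x = -h := fun x hx => by
      unfold sp
      rw [if_neg (Finset.disjoint_left.1 hd hx)]
      ring
    rw [Finset.sum_congr rfl h4, Finset.sum_const, nsmul_eq_mul]
    ring
  have h4 : ∑ x ∈ D \ A', (h - β * nA nb A' x) * sp P x =
      ∑ x ∈ D \ A', h * sp P x - β * ∑ x ∈ D \ A', nA nb A' x * sp P x := by
    rw [Finset.mul_sum, ← Finset.sum_sub_distrib]
    refine Finset.sum_congr rfl fun x _ => ?_
    ring
  rw [h3, h4]
  ring

end CWM
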