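import Pool.Agent.helper18.CWM.SpecH

/-!
# Project cwm (MP_7c3fb3_pr), module FAC
-/

set_option autoImplicit false

open Finset Filter Topology

namespace CWM

theorem FAC_key (a : ℕ) : Real.exp 1 * (a : ℝ) ^ (a + 1) ≤ ((a : ℝ) + 1) ^ (a + 1) := by
  have ha : (0 : ℝ) < (a : ℝ) + 1 := by positivity
  have h1 := Real.add_one_le_exp (-(1 / ((a : ℝ) + 1)))
  have h2 : -(1 / ((a : ℝ) + 1)) + 1 = (a : ℝ) / ((a : ℝ) + 1) := by
    field_simp
    ring
  rw [h2] at h1
  have h3 := pow_le_pow_left₀ (by positivity) h1 (a + 1)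
  have h4 : Real.exp (-(1 / ((a : ℝ) + 1))) ^ (a + 1) = (Real.exp 1)⁻¹ := by
    rw [← Real.exp_nat_mul, ← Real.exp_neg]
    congr 1
    push_cast
    field_simp
  rw [h4, div_pow, div_le_iff₀ (by positivity)] at h3
  have h5 := mul_le_mul_of_nonneg_left h3 (Real.exp_pos 1).le
  rwa [← mul_assoc, mul_inv_cancel₀ (Real.exp_pos 1).ne', one_mul] at h5

/-- **FAC** -/
theorem FAC : FAC_stmt := by
  intro a ha
  induction a, ha using Nat.le_induction with
  | base => simp
  | succ a ha ih =>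
    have h1 := FAC_key a
    rw [Nat.factorial_succ]
    push_cast
    rw [Real.exp_add]
    have h2 : ((a : ℝ) + 1) * (a.factorial : ℝ) * (Real.exp a * Real.exp 1) =
        ((a : ℝ) + 1) * Real.exp 1 * ((a.factorial : ℝ) * Real.exp a) := by ring
    rw [h2]
    have h3 : ((a : ℝ) + 1) * Real.exp 1 * ((a.factorial : ℝ) * Real.exp a) ≤
        ((a : ℝ) + 1) * Real.exp 1 * (Real.exp 1 * a * (a : ℝ) ^ a) :=
      mul_le_mul_of_nonneg_left ih (by positivity)
    refine h3.trans ?_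
    have h4 : ((a : ℝ) + 1) * Real.exp 1 * (Real.exp 1 * a * (a : ℝ) ^ a) =
        ((a : ℝ) + 1) * Real.exp 1 * (Real.exp 1 * (a : ℝ) ^ (a + 1)) := by ring
    rw [h4]
    refine (mul_le_mul_of_nonneg_left h1 (by positivity)).trans (le_of_eq ?_)
    ring

end CWM
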