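import Pool.Agent.helper18.CWM.SpecH

set_option autoImplicit false

/-! Row cwm:FIA (helper98): stage 2 for one component. -/

open Finset

namespace CWM

section
variable {V U : Type} [Fintype V] [DecidableEq V] [Fintype U] (D : Dyn V U)

omit [Fintype V] [DecidableEq V] in
lemma FIA_Es_mono (h0 : ∀ u, 0 ≤ D.nu u) (S : Finset V) (a J : ℕ)
    (F G : List (List (V × U)) → ℝ) (h : ∀ ws, ws.length = J → F ws ≤ G ws) :
    Es D S a J F ≤ Es D S a J G := by
  induction J generalizing F G with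
  | zero => exact h [] rfl
  | succ J ih =>
    refine Ew_mono D h0 fun w _ _ => ih _ _ fun ws hws => h (w :: ws) (by simp [hws])

omit [Fintype U] in
lemma FIA_NG (good : Finset V → Prop) (ws : List (List (V × U))) (A : Finset V)
    (h : NG D good ws A) (k : ℕ) (hk : k < ws.length) : ¬ good (itS D (ws.take (k + 1)) A) := by
  induction ws generalizing A k with
  | nil => simp at hk
  | cons w ws ih =>
    obtain ⟨h1, h2⟩ := h
    cases k with
    | zero =>
      show ¬ good (itS D (List.take 1 (w :: ws)) A)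
      simpa [itS] using h1
    | succ k =>
      have := ih (supS D w A) h2 k (by simpa using hk)
      show ¬ good (itS D (List.take (k + 1 + 1) (w :: ws)) A)
      rw [List.take_succ_cons]
      exact this

end

theorem FIA (hDEV : DEV_stmt) (hHG : HG_stmt) (hS2A : S2A_stmt) (hEXD : EXD_stmt) (hPRX : PRX_stmt)
    (hFIN : FIN_stmt) : FIA_stmt := by
  intro V U _ _ _ D d c0 hD hF hc1 hGrw τ J M ρ c₁ m q η θ ub hτ hJ hM hq hub0 hPz hρ hN hη hη1 hθ
    hθ1 hvv hub C hC hCc
  have h0 := hD.nu0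
  have h1 := hD.nu1
  have hc0 : 0 < c0 := hF.1
  set l : ℕ := (8 * d + 2) * τ with hl
  set R : Finset V := BS D C (2 * ρ) with hR
  obtain ⟨x₀, hx₀⟩ := hC
  have hRsub : ∀ (y : V) (r : ℕ), y ∈ BS D C r → ∀ s : ℕ, r + s ≤ 2 * ρ → Bl D y s ⊆ R := by
    intro y r hy s hrs z hz
    rw [mem_BS] at hy
    obtain ⟨x, hx, hxy⟩ := hy
    rw [mem_Bl] at hz
    rw [hR, mem_BS]
    exact ⟨x, hx, (hD.dst x y z).trans (by omega)⟩
  have hself : ∀ x : V, D.ds x x = 0 := fun x => (hD.ds0 x x).2 rfl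
  have hRn : R.Nonempty := ⟨x₀, by rw [hR, mem_BS]; exact ⟨x₀, hx₀, by rw [hself]; omega⟩⟩
  have hRc0 : 0 < R.card := Finset.card_pos.2 hRn
  have hRr : (0 : ℝ) < R.card := by exact_mod_cast hRc0
  have hN0 : 0 < Fintype.card V := Fintype.card_pos_iff.2 ⟨x₀⟩
  have hNr : (0 : ℝ) < Fintype.card V := by exact_mod_cast hN0
  have hRup : R.card ≤ c₁ * (4 * ρ + 1) ^ d := by
    rw [hR]
    unfold BS
    refine Finset.card_biUnion_le.trans ?_
    refine (Finset.sum_le_card_nsmul C _ ((4 * ρ + 1) ^ d) fun x _ => ?_).trans ?_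
    · have := hD.blc x (2 * ρ)
      rwa [show 2 * (2 * ρ) + 1 = 4 * ρ + 1 by ring] at this
    · rw [smul_eq_mul]
      exact Nat.mul_le_mul_right _ hCc
  have hRlow : 2 * ρ ≤ R.card := by
    refine (hGrw x₀ (2 * ρ) hN).trans (Finset.card_le_card ?_)
    intro z hz
    rw [mem_Bl] at hz
    rw [hR, mem_BS]
    exact ⟨x₀, hx₀, hz⟩
  set c : ℕ := ⌊θ * R.card⌋₊ with hc
  have hθR : 0 ≤ θ * R.card := by nlinarith
  have hc_le : (c : ℝ) ≤ θ * R.card := Nat.floor_le hθR
  have hc_lt : θ * R.card < c + 1 := Nat.lt_floor_add_one _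
  set a : ℕ := τ * R.card with ha
  set x : ℝ := (1 - η) * (m * ((R.card : ℝ) / (univ : Finset V).card)) with hx
  have hcv : ((univ : Finset V).card : ℝ) = Fintype.card V := by rw [Finset.card_univ]
  have hkx : ((J * a + c : ℕ) : ℝ) ≤ x := by
    have e : x = (J * τ + θ) * R.card := by
      rw [hx, hcv, hθ]
      field_simp
      ring
    rw [e, ha]
    push_cast
    nlinarith
  -- step 1
  have hG := hHG V U D d hD R hRn
  have hstep1 : Ew D univ m (fun w => gH D R (filt R w).length C) ≤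
      Real.exp (-(η ^ 2 * (m * (2 * ρ) / Fintype.card V) / 2)) + gH D R (J * a + c) C := by
    have e1 : Ew D univ m (fun w => gH D R (filt R w).length C) ≤
        Ew D univ m (fun w => ind (((filt R w).length : ℝ) < x) + gH D R (J * a + c) C) := by
      refine Ew_mono D h0 fun w _ _ => ?_
      by_cases hw : ((filt R w).length : ℝ) < x
      · rw [ind_of hw]
        linarith [(hG.2.1 (filt R w).length C).2.1, (hG.2.1 (J * a + c) C).1]
      · rw [ind_not hw, zero_add]
        refine hG.2.2.1 _ _ C ?_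
        have : ((J * a + c : ℕ) : ℝ) ≤ (filt R w).length := hkx.trans (not_lt.1 hw)
        exact_mod_cast this
    rw [Ew_add, Ew_const D h1 ⟨x₀, mem_univ _⟩] at e1
    have e2 := hDEV V U D R univ h0 h1 (subset_univ _) ⟨x₀, mem_univ _⟩ m η hη hη1
    have e3 : Real.exp (-(η ^ 2 * (m * ((R.card : ℝ) / (univ : Finset V).card)) / 2)) ≤
        Real.exp (-(η ^ 2 * (m * (2 * ρ) / Fintype.card V) / 2)) := by
      rw [Real.exp_le_exp, hcv]
      have e4 : (m : ℝ) * (2 * ρ) / Fintype.card V ≤ m * ((R.card : ℝ) / Fintype.card V) := by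
        rw [mul_div_assoc]
        refine mul_le_mul_of_nonneg_left ?_ (Nat.cast_nonneg _)
        refine div_le_div_of_nonneg_right ?_ hNr.le
        exact_mod_cast hRlow
      have e5 := mul_le_mul_of_nonneg_left e4 (sq_nonneg η)
      linarith
    linarith
  -- step 2
  set good : Finset V → Prop := fun A => A.card ≤ vv d τ M ∧ A ⊆ BS D C ((J * M + 1) * (4 * l + 1))
    with hgood
  have hgb : ∀ A, good A → gH D R c A ≤ bb d τ M c0 ub := by
    intro A hA
    obtain ⟨hA1, hA2⟩ := hA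
    have hball : ∀ y ∈ A, Bl D y ρ ⊆ R := fun y hy => hRsub y _ (hA2 hy) ρ (by omega)
    have hAR : A ⊆ R := fun y hy => hball y hy (by rw [mem_Bl, hself]; omega)
    have hexp : Real.exp (-((c : ℝ) / R.card)) ≤ Real.exp (-(θ - 1)) := by
      rw [Real.exp_le_exp, neg_le_neg_iff, le_div_iff₀ hRr]
      have : (1 : ℝ) ≤ R.card := by exact_mod_cast hRc0
      nlinarith
    have hA1r : (A.card : ℝ) ≤ vv d τ M := by exact_mod_cast hA1
    have hfin := hFIN V U D d c0 hD hF R A c hRn hAR (by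
      refine le_trans ?_ hvv
      exact mul_le_mul hA1r hexp (Real.exp_pos _).le (Nat.cast_nonneg _))
    refine hfin.trans ?_
    unfold bb
    have hinv : 1 ≤ c0⁻¹ := (one_le_inv₀ hc0).2 hc1
    have hsum : ∑ y ∈ A, uu D R c y ≤ vv d τ M * ub := by
      calc ∑ y ∈ A, uu D R c y ≤ ∑ _y ∈ A, ub :=
            Finset.sum_le_sum fun y hy => hub R y c (hball y hy) hc_lt.le
        _ = A.card * ub := by rw [Finset.sum_const, nsmul_eq_mul]
        _ ≤ vv d τ M * ub := mul_le_mul_of_nonneg_right hA1r hub0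
    have hsum0 : 0 ≤ ∑ y ∈ A, uu D R c y :=
      Finset.sum_nonneg fun y _ => Ew_nonneg D h0 fun _ _ _ => ind_nonneg _
    exact mul_le_mul (pow_le_pow_right₀ hinv hA1) (pow_le_pow_left₀ hsum0 hsum 2) (sq_nonneg _)
      (by positivity)
  have hbb0 : 0 ≤ bb d τ M c0 ub := by
    unfold bb
    positivity
  have hs2 := hS2A V U D d hD R good a c J (bb d τ M c0 ub) hRn hbb0 hgb C
  -- step 3
  have hNG : Es D R a J (fun ws => ind (NG D good ws C)) ≤
      Es D R a J (fun ws => ind (∃ p, Xp D l (4 * l + 1) ws C p ∧ p.length = J * M)) := by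
    refine FIA_Es_mono D h0 R a J _ _ fun ws hws => ind_mono fun hng => ?_
    by_contra hcon
    obtain ⟨k, hk, hk1, hk2⟩ := hEXD V U D d hD l J M ws C hws hJ hM hcon
    exact FIA_NG D good ws C hng k (by omega) ⟨hk1, hk2⟩
  have hprx := hPRX V U D d hD R C τ J (J * M) l (4 * l + 1) q hRn hτ hq (by
    intro y hy
    refine ⟨hRsub y _ hy l ?_, hPz y _⟩
    have : J * M * (4 * l + 1) + (4 * l + 1) ≤ ρ := by
      calc J * M * (4 * l + 1) + (4 * l + 1) = (J * M + 1) * (4 * l + 1) := by ring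
        _ ≤ ρ := hρ
    omega)
  have hPP : ((C.card : ℝ) + 2 * (J * M : ℕ) * (2 * (4 * l + 1 : ℕ) + 1) ^ d) ^ (J * M) *
      (Real.exp 1 * (τ * R.card)) ^ J * q ^ (J * M) ≤ PP d τ J M ρ c₁ q := by
    unfold PP
    have e1 : (C.card : ℝ) + 2 * (J * M : ℕ) * (2 * (4 * l + 1 : ℕ) + 1) ^ d ≤
        (c₁ : ℝ) + 2 * (J * M) * (8 * ((8 * d + 2) * τ) + 3) ^ d := by
      have e2 : (2 * ((4 * l + 1 : ℕ) : ℝ) + 1) = 8 * ((8 * d + 2) * τ) + 3 := by
        rw [hl]
        push_cast
        ring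
      rw [e2]
      push_cast
      have : (C.card : ℝ) ≤ c₁ := by exact_mod_cast hCc
      linarith
    have e3 : Real.exp 1 * ((τ : ℝ) * R.card) ≤ Real.exp 1 * (τ * (c₁ * (4 * ρ + 1) ^ d)) := by
      refine mul_le_mul_of_nonneg_left ?_ (Real.exp_pos _).le
      refine mul_le_mul_of_nonneg_left ?_ (Nat.cast_nonneg _)
      exact_mod_cast hRup
    refine mul_le_mul_of_nonneg_right ?_ (pow_nonneg hq _)
    exact mul_le_mul (pow_le_pow_left₀ (by positivity) e1 _) (pow_le_pow_left₀ (by positivity) e3 _)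
      (by positivity) (by positivity)
  have hfinal : gH D R (J * a + c) C ≤ bb d τ M c0 ub + PP d τ J M ρ c₁ q :=
    hs2.trans (by linarith [hNG.trans (hprx.trans hPP)])
  linarith

end CWM
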