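import Pool.Agent.helper18.CWM.SpecH

/-!
# Project cwm (MP_7c3fb3_pr), module FIB: the total bound
-/

open Finset Filter Topology

namespace CWM

/-- a list of nonempty sets which are far from each other has at most `|V|` members -/
lemma FIB_len {V U : Type} [Fintype V] [DecidableEq V] [Fintype U] (D : Dyn V U) (d : ℕ) (hD : D.Ok d)
    (hV : Nonempty V) (ρ : ℕ) (L : List (Finset V)) (h1 : ∀ C ∈ L, C.Nonempty)
    (h2 : L.Pairwise (fun C C' => ∀ x ∈ C, ∀ y ∈ C', 4 * ρ < D.ds x y)) : L.length ≤ Fintype.card V := by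
  classical
  let f : Finset V → V := fun C => Classical.epsilon (fun x => x ∈ C)
  have hf : ∀ C ∈ L, f C ∈ C := fun C hC => Classical.epsilon_spec (h1 C hC)
  have h3 : (L.map f).Nodup := by
    unfold List.Nodup
    rw [List.pairwise_map]
    refine List.Pairwise.imp_of_mem ?_ h2
    intro C C' hC hC' h4 h5
    have h6 := h4 (f C) (hf C hC) (f C') (hf C' hC')
    rw [← h5, (hD.ds0 _ _).2 rfl] at h6
    omega
  have h4 := h3.length_le_card
  rwa [List.length_map] at h4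

lemma FIB_sum {V U : Type} [Fintype V] [DecidableEq V] [Fintype U] (D : Dyn V U) (m ρ : ℕ) (E : ℝ)
    (L : List (Finset V))
    (h : ∀ C ∈ L, Ew D univ m (fun w => gH D (BS D C (2 * ρ)) (filt (BS D C (2 * ρ)) w).length C) ≤ E) :
    ((L.map fun C => (BS D C (2 * ρ), C)).map fun p => Ew D univ m fun w => gH D p.1 (filt p.1 w).length p.2).sum ≤
      L.length * E := by
  induction L with
  | nil => simp
  | cons C L ih =>
    simp only [List.map_cons, List.sum_cons, List.length_cons]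
    have h1 := h C (by simp)
    have h2 := ih (fun C' hC' => h C' (by simp [hC']))
    push_cast
    linarith

lemma FIB_stage {V U : Type} [Fintype V] [DecidableEq V] [Fintype U] (D : Dyn V U) (d : ℕ) (hD : D.Ok d)
    (hI2 : I2_stmt) (hEXC : EXC_stmt) (hV : Nonempty V) (l ρ s₁ m : ℕ) (hs : 1 ≤ s₁) (E : ℝ) (hE0 : 0 ≤ E)
    (hfia : ∀ C : Finset V, C.Nonempty → C.card ≤ s₁ * (8 * l + 3) ^ d →
      Ew D univ m (fun w => gH D (BS D C (2 * ρ)) (filt (BS D C (2 * ρ)) w).length C) ≤ E)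
    (w : List (V × U)) (hw : ∀ y₀ : V, ¬ ∃ p, Xp D l (4 * ρ + 6 * l + 2) [w] {y₀} p ∧ p.length = s₁) :
    gH D univ m (supS D w univ) ≤ 3 * (2 * (Fintype.card V * ((1 / 2) ^ (2 * ρ + 1) *
      Real.exp (4 * d * (m / Fintype.card V)))) + Fintype.card V * E) := by
  classical
  obtain ⟨L, h1, h2, h3⟩ := hEXC V U D d hD l ρ s₁ w hs hw
  have h4 := hI2 V U D d hD (L.map fun C => (BS D C (2 * ρ), C)) (2 * ρ) (supS D w univ) ?_ ?_ ?_ hV m
  · refine h4.trans ?_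
    have h5 := FIB_sum D m ρ E L (fun C hC => hfia C (h1 C hC).1 (h1 C hC).2)
    have h6 : (L.length : ℝ) ≤ Fintype.card V := by
      exact_mod_cast FIB_len D d hD hV ρ L (fun C hC => (h1 C hC).1) h2
    have h7 : ((supS D w univ).card : ℝ) ≤ Fintype.card V := by
      exact_mod_cast Finset.card_le_univ _
    have h8 : (L.length : ℝ) * E ≤ Fintype.card V * E := mul_le_mul_of_nonneg_right h6 hE0
    have h9 : ((supS D w univ).card : ℝ) * ((1 / 2) ^ (2 * ρ + 1) * Real.exp (4 * d * (m / Fintype.card V))) ≤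
        Fintype.card V * ((1 / 2) ^ (2 * ρ + 1) * Real.exp (4 * d * (m / Fintype.card V))) :=
      mul_le_mul_of_nonneg_right h7 (by positivity)
    linarith
  · intro p hp
    obtain ⟨C, hC, rfl⟩ := List.mem_map.1 hp
    exact ⟨Finset.Subset.refl _, (h1 C hC).1⟩
  · rw [List.pairwise_map]
    refine List.Pairwise.imp ?_ h2
    intro C C' h5
    show Disjoint (BS D C (2 * ρ)) (BS D C' (2 * ρ))
    rw [Finset.disjoint_left]
    intro z hz hz'
    obtain ⟨x, hx, hxz⟩ := (mem_BS D).1 hz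
    obtain ⟨y, hy, hyz⟩ := (mem_BS D).1 hz'
    have h6 := h5 x hx y hy
    have h7 := hD.dst x z y
    rw [hD.dsc z y] at h7
    omega
  · intro x
    rw [h3 x]
    constructor
    · rintro ⟨C, hC, hx⟩
      exact ⟨(BS D C (2 * ρ), C), List.mem_map.2 ⟨C, hC, rfl⟩, hx⟩
    · rintro ⟨p, hp, hx⟩
      obtain ⟨C, hC, rfl⟩ := List.mem_map.1 hp
      exact ⟨C, hC, hx⟩

theorem FIB (hHG : HG_stmt) (hI2 : I2_stmt) (hFIA : FIA_stmt) (hEXC : EXC_stmt) (hPRX : PRX_stmt) : FIB_stmt := by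
  intro V U _ _ _ D d c0 hD hF hc0 hG hV τ J M ρ s₁ m q η θ ub hτ hJ hM hs hq hub hPz hρ hρN hη hη1 hθ hθ1 hvv huu
  classical
  have hne : (univ : Finset V).Nonempty := Finset.univ_nonempty
  obtain ⟨hg1, hg2, hg3, hg4, hg5⟩ := hHG V U D d hD univ hne
  obtain ⟨E, hE⟩ : ∃ E : ℝ, E = Real.exp (-(η ^ 2 * (m * (2 * ρ) / Fintype.card V) / 2)) +
        PP d τ J M ρ (s₁ * (8 * ((8 * d + 2) * τ) + 3) ^ d) q + bb d τ M c0 ub := ⟨_, rfl⟩
  have hc0' : 0 < c0 := hF.1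
  have hE0 : 0 ≤ E := by
    rw [hE]
    unfold PP bb
    positivity
  have hfia : ∀ C : Finset V, C.Nonempty → C.card ≤ s₁ * (8 * ((8 * d + 2) * τ) + 3) ^ d →
      Ew D univ m (fun w => gH D (BS D C (2 * ρ)) (filt (BS D C (2 * ρ)) w).length C) ≤ E := by
    intro C hC1 hC2
    rw [hE]
    exact hFIA V U D d c0 hD hF hc0 hG τ J M ρ _ m q η θ ub hτ hJ hM hq hub hPz hρ hρN hη hη1 hθ hθ1 hvv huu C hC1 hC2
  rw [← hE]
  obtain ⟨B, hB⟩ : ∃ B : ℝ, B = 3 * (2 * (Fintype.card V * ((1 / 2) ^ (2 * ρ + 1) *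
      Real.exp (4 * d * (m / Fintype.card V)))) + Fintype.card V * E) := ⟨_, rfl⟩
  rw [← hB]
  have hB0 : 0 ≤ B := by rw [hB]; positivity
  have hpt : ∀ w : List (V × U), gH D univ m (supS D w univ) ≤
      (∑ y₀ : V, ind (∃ p, Xp D ((8 * d + 2) * τ) (4 * ρ + 6 * ((8 * d + 2) * τ) + 2) [w] {y₀} p ∧ p.length = s₁)) + B := by
    intro w
    by_cases hw : ∀ y₀ : V, ¬ ∃ p, Xp D ((8 * d + 2) * τ) (4 * ρ + 6 * ((8 * d + 2) * τ) + 2) [w] {y₀} p ∧ p.length = s₁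
    · have h1 := FIB_stage D d hD hI2 hEXC hV ((8 * d + 2) * τ) ρ s₁ m hs E hE0 hfia w hw
      rw [← hB] at h1
      have h2 : 0 ≤ ∑ y₀ : V, ind (∃ p, Xp D ((8 * d + 2) * τ) (4 * ρ + 6 * ((8 * d + 2) * τ) + 2) [w] {y₀} p ∧ p.length = s₁) :=
        Finset.sum_nonneg fun _ _ => ind_nonneg _
      linarith
    · push Not at hw
      obtain ⟨y₀, hy₀⟩ := hw
      have h1 := (hg2 m (supS D w univ)).2.1
      have h2 : ind (∃ p, Xp D ((8 * d + 2) * τ) (4 * ρ + 6 * ((8 * d + 2) * τ) + 2) [w] {y₀} p ∧ p.length = s₁) ≤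
          ∑ y₀ : V, ind (∃ p, Xp D ((8 * d + 2) * τ) (4 * ρ + 6 * ((8 * d + 2) * τ) + 2) [w] {y₀} p ∧ p.length = s₁) :=
        Finset.single_le_sum (f := fun y₀ : V => ind (∃ p, Xp D ((8 * d + 2) * τ) (4 * ρ + 6 * ((8 * d + 2) * τ) + 2) [w] {y₀} p ∧ p.length = s₁))
          (fun _ _ => ind_nonneg _) (Finset.mem_univ y₀)
      rw [ind_of hy₀] at h2
      linarith
  have h1 := hg4 (τ * Fintype.card V) m univ
  refine h1.trans ((Ew_mono D hD.nu0 fun w _ _ => hpt w).trans ?_)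
  rw [Ew_add, Ew_const D hD.nu1 hne, Ew_sum]
  have h2 : ∀ y₀ : V, Ew D univ (τ * Fintype.card V) (fun w =>
      ind (∃ p, Xp D ((8 * d + 2) * τ) (4 * ρ + 6 * ((8 * d + 2) * τ) + 2) [w] {y₀} p ∧ p.length = s₁)) ≤
      (1 + 2 * s₁ * (2 * (4 * ρ + 6 * ((8 * d + 2) * τ) + 2) + 1) ^ d) ^ s₁ *
      (Real.exp 1 * (τ * Fintype.card V)) * q ^ s₁ := by
    intro y₀
    have h3 := hPRX V U D d hD univ {y₀} τ 1 s₁ ((8 * d + 2) * τ) (4 * ρ + 6 * ((8 * d + 2) * τ) + 2) q hne hτ hq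
      (fun y _ => ⟨Finset.subset_univ _, hPz y _⟩)
    rw [Finset.card_univ, Finset.card_singleton, pow_one] at h3
    push_cast at h3
    exact h3
  have h3 := Finset.sum_le_sum (s := (univ : Finset V)) fun y₀ _ => h2 y₀
  rw [Finset.sum_const, Finset.card_univ, nsmul_eq_mul] at h3
  linarith

end CWM
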