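import Pool.Agent.helper18.CWM.SpecH

set_option autoImplicit false

/-! Row cwm:FIN (helper98): bound for `gH` after many letters. -/

open Finset

namespace CWM

lemma FIN_ind2 {X : Type} [Fintype X] (a b : X) :
    ∑ η : X, |ind (a = η) - ind (b = η)| ≤ 2 * ind (a ≠ b) := by
  classical
  by_cases h : a = b
  · rw [h]
    simp [ind]
  · rw [ind_of h]
    have h1 : ∀ c : X, ∑ η : X, ind (c = η) = 1 := by
      intro c
      rw [Finset.sum_eq_single c (fun b _ hb => ind_not (fun h => hb h.symm))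
        (fun h => absurd (mem_univ _) h), ind_of rfl]
    calc ∑ η : X, |ind (a = η) - ind (b = η)| ≤ ∑ η : X, (ind (a = η) + ind (b = η)) := by
          refine Finset.sum_le_sum fun η _ => ?_
          rw [abs_le]
          constructor
          · linarith [ind_nonneg (a = η), ind_nonneg (b = η)]
          · linarith [ind_nonneg (a = η), ind_nonneg (b = η)]
      _ = 2 * 1 := by
          rw [Finset.sum_add_distrib, h1, h1]
          norm_num

section
variable {V U : Type} [Fintype V] [DecidableEq V] [Fintype U] (D : Dyn V U)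

omit [Fintype V] [DecidableEq V] in
lemma FIN_abs (h0 : ∀ u, 0 ≤ D.nu u) (S : Finset V) (m : ℕ) (F : List (V × U) → ℝ) :
    |Ew D S m F| ≤ Ew D S m fun w => |F w| := by
  rw [abs_le]
  constructor
  · have h : Ew D S m (fun w => (-1) * |F w|) ≤ Ew D S m F :=
      Ew_mono D h0 fun w _ _ => by linarith [neg_abs_le (F w)]
    rw [Ew_smul] at h
    linarith
  · exact Ew_mono D h0 fun w _ _ => le_abs_self _

omit [Fintype V] [Fintype U] in
lemma FIN_cpl (hm : ∀ (x : V) (u : U) (σ τ : V → Bool), σ ≤ τ → D.up x u σ ≤ D.up x u τ)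
    (w : List (V × U)) (σ : V → Bool) (y : V) (h : fl D w pl y = fl D w mi y) :
    fl D w σ y = fl D w pl y := by
  refine le_antisymm (fl_mono D hm w (le_pl σ) y) ?_
  rw [h]
  exact fl_mono D hm w (mi_le σ) y

end

theorem FIN (hFNP : FNP_stmt) (hHE2 : HE2_stmt) (hHG : HG_stmt) : FIN_stmt := by
  intro V U _ _ _ D d c0 hD hF R A c hR hAR hsm
  have h0 := hD.nu0
  have hc0 : 0 < c0 := hF.1
  have hck : (0 : ℝ) < c0 ^ A.card := pow_pos hc0 _
  have hG := hHG V U D d hD R hR
  refine (hG.1 c A).2 _ fun σ σ' => ?_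
  classical
  set Y : Finset (V → Bool) := univ.filter fun η => ∀ x, x ∉ A → η x = false with hYd
  have hlow : ∀ (σ : V → Bool), ∀ η ∈ Y, c0 ^ A.card / 2 ≤ law D R c A σ η := by
    intro σ η hη
    rw [hYd, mem_filter] at hη
    have h1 := hFNP V U D d c0 hD hF R A c σ η hR hAR
    have h2 : c0 ^ A.card / 2 ≤ c0 ^ A.card * (1 - A.card * Real.exp (-(c / R.card))) := by
      nlinarith
    refine h2.trans (h1.trans ?_)
    unfold law
    refine Ew_mono D h0 fun w _ _ => ind_mono fun hw => ?_
    funext x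
    unfold msk
    by_cases hx : x ∈ A
    · rw [if_pos hx, hw x hx]
    · rw [if_neg hx, hη.2 x hx]
  have hzero : ∀ (σ : V → Bool) (η : V → Bool), η ∉ Y → law D R c A σ η = 0 := by
    intro σ η hη
    unfold law
    have hn : ∀ w : List (V × U), ind (msk A (fl D w σ) = η) = 0 := by
      intro w
      refine ind_not fun h => hη ?_
      rw [hYd, mem_filter]
      refine ⟨mem_univ _, fun x hx => ?_⟩
      rw [← h]
      unfold msk
      rw [if_neg hx]
    simp_rw [hn]
    have := Ew_smul D R c 0 (fun _ => (0 : ℝ))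
    simpa using this
  have hsum : ∑ η : V → Bool, |law D R c A σ η - law D R c A σ' η| ≤
      2 * ∑ y ∈ A, uu D R c y := by
    calc ∑ η : V → Bool, |law D R c A σ η - law D R c A σ' η|
        ≤ ∑ η : V → Bool, Ew D R c fun w =>
          |ind (msk A (fl D w σ) = η) - ind (msk A (fl D w σ') = η)| := by
          refine Finset.sum_le_sum fun η _ => ?_
          unfold law
          rw [← Ew_sub]
          exact FIN_abs D h0 _ _ _
      _ = Ew D R c fun w => ∑ η : V → Bool,
          |ind (msk A (fl D w σ) = η) - ind (msk A (fl D w σ') = η)| := by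
          rw [Ew_sum]
      _ ≤ Ew D R c fun w => 2 * ∑ y ∈ A, ind (fl D w pl y ≠ fl D w mi y) := by
          refine Ew_mono D h0 fun w _ _ => (FIN_ind2 _ _).trans ?_
          refine mul_le_mul_of_nonneg_left ?_ (by norm_num)
          refine le_trans (ind_mono (q := ∃ y ∈ A, fl D w pl y ≠ fl D w mi y) fun hne => ?_)
            (ind_exists_le A _)
          by_contra hcon
          push Not at hcon
          apply hne
          funext x
          unfold msk
          by_cases hx : x ∈ A
          · rw [if_pos hx, if_pos hx, FIN_cpl D hD.mono w σ x (hcon x hx),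
              FIN_cpl D hD.mono w σ' x (hcon x hx)]
          · rw [if_neg hx, if_neg hx]
      _ = 2 * ∑ y ∈ A, uu D R c y := by
          rw [Ew_smul, Ew_sum]
          rfl
  have h4 := hHE2.2.2.2 (V → Bool) (law D R c A σ) (law D R c A σ') Y (c0 ^ A.card / 2)
    (by positivity) (fun η hη => ⟨hlow σ η hη, hlow σ' η hη⟩)
    (fun η hη => ⟨hzero σ η hη, hzero σ' η hη⟩)
  refine h4.trans ?_
  have hs0 : 0 ≤ ∑ η : V → Bool, |law D R c A σ η - law D R c A σ' η| :=
    Finset.sum_nonneg fun _ _ => abs_nonneg _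
  have h5 : (∑ η : V → Bool, |law D R c A σ η - law D R c A σ' η|) ^ 2 ≤
      (2 * ∑ y ∈ A, uu D R c y) ^ 2 := pow_le_pow_left₀ hs0 hsum 2
  have h6 : 1 / (8 * (c0 ^ A.card / 2)) = (c0⁻¹) ^ A.card / 4 := by
    rw [inv_pow]
    field_simp
    norm_num
  rw [h6]
  have h7 : (0 : ℝ) ≤ (c0⁻¹) ^ A.card / 4 := by positivity
  calc (c0⁻¹) ^ A.card / 4 * (∑ η : V → Bool, |law D R c A σ η - law D R c A σ' η|) ^ 2
      ≤ (c0⁻¹) ^ A.card / 4 * (2 * ∑ y ∈ A, uu D R c y) ^ 2 := mul_le_mul_of_nonneg_left h5 h7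
    _ = (c0⁻¹) ^ A.card * (∑ y ∈ A, uu D R c y) ^ 2 := by ring

end CWM
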