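import Pool.Agent.helper18.CWM.SpecB

/-!
# Project cwm (MP_7c3fb3_pr), module FKG
-/

open Finset Filter Topology

namespace CWM

/-- the inequality of Fortuin, Kasteleyn and Ginibre for monotone functions of any sign -/
theorem FKG_core {V : Type} [Fintype V] [DecidableEq V] (W F G : (V → Bool) → ℝ)
    (hpos : ∀ σ, 0 < W σ) (hfkg : ∀ σ τ, W σ * W τ ≤ W (σ ⊓ τ) * W (σ ⊔ τ))
    (hF : Monotone F) (hG : Monotone G) :
    (∑ σ, W σ * F σ) * ∑ σ, W σ * G σ ≤ (∑ σ, W σ) * ∑ σ, W σ * (F σ * G σ) := by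
  have hmi : ∀ σ : V → Bool, mi ≤ σ := fun σ => mi_le σ
  have h := fkg (μ := W) (f := fun σ => F σ - F mi) (g := fun σ => G σ - G mi)
    (fun σ => (hpos σ).le) (fun σ => sub_nonneg.mpr (hF (hmi σ)))
    (fun σ => sub_nonneg.mpr (hG (hmi σ)))
    (fun σ τ hst => sub_le_sub_right (hF hst) _) (fun σ τ hst => sub_le_sub_right (hG hst) _) hfkg
  have e1 : ∑ σ, W σ * (F σ - F mi) = ∑ σ, W σ * F σ - F mi * ∑ σ, W σ := by
    rw [mul_sum, ← sum_sub_distrib]
    exact sum_congr rfl fun σ _ => by ring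
  have e2 : ∑ σ, W σ * (G σ - G mi) = ∑ σ, W σ * G σ - G mi * ∑ σ, W σ := by
    rw [mul_sum, ← sum_sub_distrib]
    exact sum_congr rfl fun σ _ => by ring
  have e3 : ∑ σ, W σ * ((F σ - F mi) * (G σ - G mi)) = ∑ σ, W σ * (F σ * G σ)
      - G mi * ∑ σ, W σ * F σ - F mi * ∑ σ, W σ * G σ + F mi * G mi * ∑ σ, W σ := by
    rw [mul_sum, mul_sum, mul_sum, ← sum_sub_distrib, ← sum_sub_distrib, ← sum_add_distrib]
    exact sum_congr rfl fun σ _ => by ring
  rw [e1, e2, e3] at h
  nlinarith [h]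

theorem FKG : FKG_stmt := by
  intro V U _ _ _ D W hHB A F hF
  have hpos := hHB.pos
  have hZ : 0 < ∑ σ, W σ := sum_pos (fun σ _ => hpos σ) ⟨mi, mem_univ _⟩
  have hcw : ∀ b : Bool, 0 < ∑ σ, cw W A b σ := by
    intro b
    apply sum_pos'
    · intro σ _
      exact mul_nonneg (hpos σ).le (ind_nonneg _)
    · refine ⟨fun _ => b, mem_univ _, ?_⟩
      unfold cw
      rw [ind_of (fun x _ => rfl), mul_one]
      exact hpos _
  have hmulF : ∀ b : Bool, ∑ σ, cw W A b σ * F σ =
      ∑ σ, W σ * (F σ * ind (∀ x, x ∉ A → σ x = b)) := by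
    intro b
    exact sum_congr rfl fun σ _ => by unfold cw; ring
  constructor
  · -- minus off A
    have hG : Monotone fun σ : V → Bool => -ind (∀ x, x ∉ A → σ x = false) := by
      intro σ τ hst
      apply neg_le_neg
      apply ind_mono
      intro h x hx
      have h1 := hst x
      rw [h x hx] at h1
      exact le_antisymm h1 (Bool.false_le _)
    have h := FKG_core W F _ hpos hHB.fkg hF hG
    have e1 : ∑ σ, W σ * -ind (∀ x, x ∉ A → σ x = false) = -∑ σ, cw W A false σ := by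
      rw [← sum_neg_distrib]
      exact sum_congr rfl fun σ _ => by unfold cw; ring
    have e2 : ∑ σ, W σ * (F σ * -ind (∀ x, x ∉ A → σ x = false)) =
        -∑ σ, cw W A false σ * F σ := by
      rw [← sum_neg_distrib]
      exact sum_congr rfl fun σ _ => by unfold cw; ring
    rw [e1, e2] at h
    unfold av
    rw [div_le_div_iff₀ (hcw false) hZ]
    nlinarith [h]
  · have hG : Monotone fun σ : V → Bool => ind (∀ x, x ∉ A → σ x = true) := by
      intro σ τ hst
      apply ind_mono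
      intro h x hx
      have h1 := hst x
      rw [h x hx] at h1
      exact le_antisymm (Bool.le_true _) h1
    have h := FKG_core W F _ hpos hHB.fkg hF hG
    have e1 : ∑ σ, W σ * ind (∀ x, x ∉ A → σ x = true) = ∑ σ, cw W A true σ := rfl
    rw [e1, ← hmulF true] at h
    unfold av
    rw [div_le_div_iff₀ hZ (hcw true)]
    nlinarith [h]

end CWM
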