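import Pool.Agent.helper18.CWM.SpecA

set_option autoImplicit false

open Finset Filter Topology

namespace CWM

/-- the flip of all spins -/
def FLT_e (V : Type) : Equiv.Perm (V → Bool) where
  toFun := fun σ x => !σ x
  invFun := fun σ x => !σ x
  left_inv := fun σ => by funext x; simp
  right_inv := fun σ => by funext x; simp

theorem FLT_sg (b : Bool) : CU.sg (!b) = - CU.sg b := by
  cases b <;> simp [CU.sg]

theorem FLT_wt {d n : ℕ} [NeZero n] (β h : ℝ) (σ : CU.Conf d n) :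
    CU.wt β h (FLT_e _ σ) = CU.wt β (-h) σ := by
  unfold CU.wt
  congr 1
  have h1 : ∀ x, CU.sg (FLT_e _ σ x) = - CU.sg (σ x) := fun x => FLT_sg (σ x)
  simp only [h1, neg_mul_neg, Finset.sum_neg_distrib]
  ring

theorem FLT_num {d n : ℕ} [NeZero n] (β h : ℝ) (A : Finset (CU.Site d n)) (b : Bool)
    (F : CU.Conf d n → ℝ) :
    ∑ σ, cw (CU.wt β h : CU.Conf d n → ℝ) A b σ * F σ =
      ∑ σ, cw (CU.wt β (-h) : CU.Conf d n → ℝ) A (!b) σ * F (FLT_e _ σ) := by
  rw [← Equiv.sum_comp (FLT_e (CU.Site d n))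
    (fun σ => cw (CU.wt β h : CU.Conf d n → ℝ) A b σ * F σ)]
  refine Finset.sum_congr rfl fun σ _ => ?_
  congr 1
  unfold cw
  rw [FLT_wt]
  congr 1
  apply ind_congr
  refine forall_congr' fun x => ?_
  refine imp_congr Iff.rfl ?_
  show (!σ x) = b ↔ σ x = !b
  cases σ x <;> cases b <;> simp

theorem FLT_pos {d n : ℕ} [NeZero n] (β h : ℝ) (A : Finset (CU.Site d n)) (b : Bool) :
    0 < ∑ σ, cw (CU.wt β h : CU.Conf d n → ℝ) A b σ := by
  refine Finset.sum_pos' (fun σ _ => ?_) ⟨fun _ => b, Finset.mem_univ _, ?_⟩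
  · unfold cw CU.wt
    exact mul_nonneg (Real.exp_pos _).le (ind_nonneg _)
  · unfold cw
    rw [ind_of (fun _ _ => rfl), mul_one]
    exact Real.exp_pos _

theorem FLT_av {d n : ℕ} [NeZero n] (β h : ℝ) (A : Finset (CU.Site d n)) (b : Bool)
    (x : CU.Site d n) :
    av (cw (CU.wt β h : CU.Conf d n → ℝ) A b) (fun σ => ind (σ x = true)) =
      1 - av (cw (CU.wt β (-h) : CU.Conf d n → ℝ) A (!b)) (fun σ => ind (σ x = true)) := by
  unfold av
  have h1 := FLT_num β h A b (fun σ => ind (σ x = true))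
  have h2 := FLT_num β h A b (fun _ => 1)
  simp only [mul_one] at h2
  rw [h1, h2]
  have hpos := FLT_pos β (-h) A (!b)
  have h3 : ∀ σ : CU.Conf d n, ind (FLT_e _ σ x = true) = 1 - ind (σ x = true) := by
    intro σ
    rw [← ind_not']
    apply ind_congr
    show (!σ x) = true ↔ ¬ (σ x = true)
    cases σ x <;> simp
  simp only [h3, mul_sub, mul_one, Finset.sum_sub_distrib]
  rw [sub_div, div_self hpos.ne']

theorem FLT : FLT_stmt := by
  intro d n β h A x
  unfold dl
  rw [FLT_av β h A true x, FLT_av β h A false x]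
  show 1 - av (cw (CU.wt β (-h) : CU.Conf d (n + 3) → ℝ) A false) (fun σ => ind (σ x = true)) -
    (1 - av (cw (CU.wt β (-h) : CU.Conf d (n + 3) → ℝ) A true) (fun σ => ind (σ x = true))) = _
  ring

end CWM
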