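import Pool.Agent.helper18.CWM.SpecH

/-!
Row cwm:FNP (helper9).
-/

set_option autoImplicit false

open Finset Filter Topology

namespace CWM

theorem FNP_ne {V U : Type} [DecidableEq V] (D : Dyn V U) (x : V) (u : U) (w : List (V × U))
    (σ : V → Bool) {y : V} (h : y ≠ x) : fl D ((x, u) :: w) σ y = fl D w σ y := by
  show Function.update (fl D w σ) x (D.up x u (fl D w σ)) y = fl D w σ y
  rw [Function.update_of_ne h]

theorem FNP_self {V U : Type} [DecidableEq V] (D : Dyn V U) (x : V) (u : U) (w : List (V × U))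
    (σ : V → Bool) : fl D ((x, u) :: w) σ x = D.up x u (fl D w σ) := by
  show Function.update (fl D w σ) x (D.up x u (fl D w σ)) x = _
  rw [Function.update_self]

theorem FNP_ind {V U : Type} [Fintype V] [DecidableEq V] [Fintype U] (D : Dyn V U) (d : ℕ) (c0 : ℝ) (hD : D.Ok d)
    (hF : D.Frc c0) (R : Finset V) (hR : R.Nonempty) (σ η : V → Bool) :
    ∀ (m : ℕ) (A : Finset V), A ⊆ R →
      c0 ^ A.card * (1 - A.card * (1 - 1 / (R.card : ℝ)) ^ m) ≤ Ew D R m fun w => ind (∀ x ∈ A, fl D w σ x = η x) := by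
  have hr : (0 : ℝ) < R.card := by exact_mod_cast Finset.card_pos.2 hR
  have hc0 : 0 < c0 := hF.1
  intro m
  induction m with
  | zero =>
    intro A hA
    rw [Ew_zero, pow_zero, mul_one]
    rcases Nat.eq_zero_or_pos A.card with h0 | h0
    · rw [Finset.card_eq_zero] at h0
      subst h0
      rw [ind_of (by simp)]
      simp
    · have h1 : (1 : ℝ) ≤ A.card := by exact_mod_cast h0
      have h2 : 0 < c0 ^ A.card := by positivity
      have h3 : c0 ^ A.card * (1 - A.card) ≤ 0 := mul_nonpos_of_nonneg_of_nonpos h2.le (by linarith)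
      exact h3.trans (ind_nonneg _)
  | succ m ih =>
    intro A hA
    set q : ℝ := (1 - 1 / (R.card : ℝ)) ^ m with hq
    set k : ℝ := (A.card : ℝ) with hk
    -- lower bound for every site
    have hout : ∀ x ∈ R \ A, c0 ^ A.card * (1 - k * q) ≤
        ∑ u, D.nu u * Ew D R m (fun w => ind (∀ y ∈ A, fl D ((x, u) :: w) σ y = η y)) := by
      intro x hx
      have h1 : ∀ u, (Ew D R m fun w => ind (∀ y ∈ A, fl D ((x, u) :: w) σ y = η y)) =
          Ew D R m fun w => ind (∀ y ∈ A, fl D w σ y = η y) := by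
        intro u
        refine Ew_congr D fun w _ _ => ind_congr ?_
        refine forall₂_congr fun y hy => ?_
        rw [FNP_ne D x u w σ (fun h => (Finset.mem_sdiff.1 hx).2 (h ▸ hy))]
      simp_rw [h1]
      rw [← Finset.sum_mul, hD.nu1, one_mul]
      exact ih A hA
    have hin : ∀ x ∈ A, c0 ^ A.card * (1 - (k - 1) * q) ≤
        ∑ u, D.nu u * Ew D R m (fun w => ind (∀ y ∈ A, fl D ((x, u) :: w) σ y = η y)) := by
      intro x hx
      obtain ⟨u, hu, hup⟩ : ∃ u, c0 ≤ D.nu u ∧ ∀ τ, D.up x u τ = η x := by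
        obtain ⟨-, ⟨u, hu, h1⟩, ⟨v, hv, h2⟩⟩ := hF
        cases h : η x with
        | true => exact ⟨u, hu, fun τ => h1 x τ⟩
        | false => exact ⟨v, hv, fun τ => h2 x τ⟩
      have h1 : (Ew D R m fun w => ind (∀ y ∈ A, fl D ((x, u) :: w) σ y = η y)) =
          Ew D R m fun w => ind (∀ y ∈ A.erase x, fl D w σ y = η y) := by
        refine Ew_congr D fun w _ _ => ind_congr ?_
        constructor
        · intro h y hy
          have := h y (Finset.mem_of_mem_erase hy)
          rwa [FNP_ne D x u w σ (Finset.ne_of_mem_erase hy)] at this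
        · intro h y hy
          by_cases hyx : y = x
          · subst hyx
            rw [FNP_self, hup]
          · rw [FNP_ne D x u w σ hyx]
            exact h y (Finset.mem_erase.2 ⟨hyx, hy⟩)
      have hcard : A.card = (A.erase x).card + 1 := (Finset.card_erase_add_one hx).symm
      have h2 := ih (A.erase x) ((Finset.erase_subset x A).trans hA)
      have h3 : ((A.erase x).card : ℝ) = k - 1 := by
        rw [hk, hcard]
        push_cast
        ring
      rw [h3] at h2
      have hE0 : 0 ≤ Ew D R m fun w => ind (∀ y ∈ A.erase x, fl D w σ y = η y) :=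
        Ew_nonneg D hD.nu0 fun w _ _ => ind_nonneg _
      have h4 : D.nu u * Ew D R m (fun w => ind (∀ y ∈ A, fl D ((x, u) :: w) σ y = η y)) ≤
          ∑ u, D.nu u * Ew D R m (fun w => ind (∀ y ∈ A, fl D ((x, u) :: w) σ y = η y)) :=
        Finset.single_le_sum (f := fun u => D.nu u * Ew D R m (fun w => ind (∀ y ∈ A, fl D ((x, u) :: w) σ y = η y)))
          (fun v _ => mul_nonneg (hD.nu0 v) (Ew_nonneg D hD.nu0 fun w _ _ => ind_nonneg _)) (Finset.mem_univ u)
      refine le_trans ?_ h4
      rw [h1, hcard, pow_succ]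
      calc c0 ^ (A.erase x).card * c0 * (1 - (k - 1) * q) = c0 * (c0 ^ (A.erase x).card * (1 - (k - 1) * q)) := by ring
        _ ≤ c0 * Ew D R m (fun w => ind (∀ y ∈ A.erase x, fl D w σ y = η y)) := mul_le_mul_of_nonneg_left h2 hc0.le
        _ ≤ D.nu u * Ew D R m (fun w => ind (∀ y ∈ A.erase x, fl D w σ y = η y)) :=
            mul_le_mul_of_nonneg_right hu hE0
    rw [Ew_succ, le_div_iff₀ hr]
    have hW : Wa D R (fun a => Ew D R m fun w => ind (∀ y ∈ A, fl D (a :: w) σ y = η y)) =
        ∑ x ∈ R \ A, ∑ u, D.nu u * Ew D R m (fun w => ind (∀ y ∈ A, fl D ((x, u) :: w) σ y = η y)) +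
        ∑ x ∈ A, ∑ u, D.nu u * Ew D R m (fun w => ind (∀ y ∈ A, fl D ((x, u) :: w) σ y = η y)) := by
      unfold Wa
      rw [Finset.sum_sdiff hA]
    rw [hW]
    have h1 := Finset.sum_le_sum hout
    have h2 := Finset.sum_le_sum hin
    rw [Finset.sum_const, nsmul_eq_mul] at h1 h2
    have h3 : ((R \ A).card : ℝ) = R.card - k := by
      rw [Finset.cast_card_sdiff hA]
    rw [h3] at h1
    have h5 : c0 ^ A.card * (1 - k * (1 - 1 / (R.card : ℝ)) ^ (m + 1)) * R.card =
        ((R.card : ℝ) - k) * (c0 ^ A.card * (1 - k * q)) + k * (c0 ^ A.card * (1 - (k - 1) * q)) := by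
      rw [pow_succ, ← hq]
      have h6 : (1 - 1 / (R.card : ℝ)) * R.card = R.card - 1 := by
        field_simp
      calc c0 ^ A.card * (1 - k * (q * (1 - 1 / (R.card : ℝ)))) * R.card
          = c0 ^ A.card * (R.card - k * q * ((1 - 1 / (R.card : ℝ)) * R.card)) := by ring
        _ = c0 ^ A.card * (R.card - k * q * (R.card - 1)) := by rw [h6]
        _ = _ := by ring
    rw [h5]
    exact add_le_add h1 h2

/-- FNP -/
theorem FNP : FNP_stmt := by
  intro V U _ _ _ D d c0 hD hF R A m σ η hR hA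
  have hr : (0 : ℝ) < R.card := by exact_mod_cast Finset.card_pos.2 hR
  have hr1 : (1 : ℝ) ≤ R.card := by exact_mod_cast Finset.card_pos.2 hR
  refine le_trans ?_ (FNP_ind D d c0 hD hF R hR σ η m A hA)
  refine mul_le_mul_of_nonneg_left ?_ (pow_nonneg hF.1.le _)
  have h0 : 0 ≤ 1 - 1 / (R.card : ℝ) := by
    have : 1 / (R.card : ℝ) ≤ 1 := (div_le_one hr).2 hr1
    linarith
  have h1 : (1 - 1 / (R.card : ℝ)) ^ m ≤ Real.exp (-(m / R.card)) := by
    calc (1 - 1 / (R.card : ℝ)) ^ m ≤ (Real.exp (-(1 / (R.card : ℝ)))) ^ m :=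
          pow_le_pow_left₀ h0 (Real.one_sub_le_exp_neg _) m
      _ = Real.exp (-(m / R.card)) := by
          rw [← Real.exp_nat_mul]
          congr 1
          ring
  have h2 : (A.card : ℝ) * (1 - 1 / (R.card : ℝ)) ^ m ≤ A.card * Real.exp (-(m / R.card)) :=
    mul_le_mul_of_nonneg_left h1 (Nat.cast_nonneg _)
  linarith

end CWM
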