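import Pool.Agent.helper18.CWM.SpecA

/-! # Row cwm:G2 (Ginibre's inequality) -/

open Finset Filter Topology

namespace CWM

section
variable {V : Type} [Fintype V] [DecidableEq V]

/-- exponents of one factor -/
def G2_dl (x : V) (i : Fin 2) (z : V) (l : Fin 2) : ℕ := if z = x ∧ l = i then 1 else 0

/-- the two functions `s + s'`, `s - s'` -/
noncomputable def G2_e (i : Fin 2) (b : Bool × Bool) : ℝ :=
  if i = 0 then CU.sg b.1 + CU.sg b.2 else CU.sg b.1 - CU.sg b.2

theorem G2_mono1 (σ : V → Bool × Bool) (x : V) (i : Fin 2) :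
    (∏ z, ∏ l, G2_e l (σ z) ^ G2_dl x i z l) = G2_e i (σ x) := by
  have h : ∀ z, (∏ l, G2_e l (σ z) ^ G2_dl x i z l) = if z = x then G2_e i (σ x) else 1 := by
    intro z
    by_cases hz : z = x
    · subst hz
      rw [if_pos rfl, Finset.prod_eq_single i]
      · simp [G2_dl]
      · intro l _ hl
        simp [G2_dl, hl]
      · intro h
        exact absurd (Finset.mem_univ i) h
    · rw [if_neg hz]
      apply Finset.prod_eq_one
      intro l _
      simp [G2_dl, hz]
  rw [Finset.prod_congr rfl fun z _ => h z, Finset.prod_ite_eq' Finset.univ x]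
  simp

theorem G2_mono2 (σ : V → Bool × Bool) (x y : V) (i l : Fin 2) :
    (∏ z, ∏ r, G2_e r (σ z) ^ (G2_dl x i z r + G2_dl y l z r)) = G2_e i (σ x) * G2_e l (σ y) := by
  rw [← G2_mono1 σ x i, ← G2_mono1 σ y l, ← Finset.prod_mul_distrib]
  refine Finset.prod_congr rfl fun z _ => ?_
  rw [← Finset.prod_mul_distrib]
  exact Finset.prod_congr rfl fun r _ => pow_add _ _ _

end

theorem G2_two (n : ℕ) : (0 : ℝ) ≤ 2 ^ n + (-2) ^ n := by
  have h : |(-2 : ℝ) ^ n| = 2 ^ n := by rw [abs_pow]; norm_num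
  have := neg_abs_le ((-2 : ℝ) ^ n)
  rw [h] at this
  linarith

theorem G2_pos (a : Fin 2 → ℕ) : 0 ≤ ∑ b, ∏ i, G2_e i b ^ a i := by
  have h : ∑ b, ∏ i, G2_e i b ^ a i =
      0 ^ a 1 * ((2 : ℝ) ^ a 0 + (-2) ^ a 0) + 0 ^ a 0 * ((2 : ℝ) ^ a 1 + (-2) ^ a 1) := by
    rw [Fintype.sum_prod_type]
    simp only [Fintype.sum_bool, Fin.prod_univ_two, G2_e, CU.sg]
    norm_num
    ring
  rw [h]
  have h0 := G2_two (a 0)
  have h1 := G2_two (a 1)
  positivity

theorem G2 (hPL : PL_stmt) : G2_stmt := by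
  intro V _ _ K K' g g' hK hg x
  have key0 := hPL V (Bool × Bool) ((V × V × Fin 2 × Fin 2) ⊕ (V × Fin 2)) 2 G2_e G2_pos
    (Sum.elim (fun p => if p.2.2.1 = p.2.2.2 then (K p.1 p.2.1 + K' p.1 p.2.1) / 4 else
      (K p.1 p.2.1 - K' p.1 p.2.1) / 4)
      (fun p => if p.2 = 0 then (g p.1 + g' p.1) / 2 else (g p.1 - g' p.1) / 2))
    (Sum.elim (fun p z r => G2_dl p.1 p.2.2.1 z r + G2_dl p.2.1 p.2.2.2 z r)
      (fun p => G2_dl p.1 p.2)) ?_ (G2_dl x 1)
  · have hH : ∀ σ : V → Bool × Bool,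
        (∑ j : (V × V × Fin 2 × Fin 2) ⊕ (V × Fin 2),
          Sum.elim (fun p : V × V × Fin 2 × Fin 2 =>
            if p.2.2.1 = p.2.2.2 then (K p.1 p.2.1 + K' p.1 p.2.1) / 4 else
            (K p.1 p.2.1 - K' p.1 p.2.1) / 4)
            (fun p : V × Fin 2 => if p.2 = 0 then (g p.1 + g' p.1) / 2 else (g p.1 - g' p.1) / 2) j *
          ∏ z, ∏ i, G2_e i (σ z) ^
            Sum.elim (fun (p : V × V × Fin 2 × Fin 2) z r =>
              G2_dl p.1 p.2.2.1 z r + G2_dl p.2.1 p.2.2.2 z r)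
              (fun p : V × Fin 2 => G2_dl p.1 p.2) j z i) =
        HH K g (fun z => (σ z).1) + HH K' g' (fun z => (σ z).2) := by
      intro σ
      rw [Fintype.sum_sum_type]
      simp only [Sum.elim_inl, Sum.elim_inr]
      simp only [G2_mono1, G2_mono2]
      unfold HH
      have e1 : (∑ p : V × V × Fin 2 × Fin 2,
          (if p.2.2.1 = p.2.2.2 then (K p.1 p.2.1 + K' p.1 p.2.1) / 4 else
            (K p.1 p.2.1 - K' p.1 p.2.1) / 4) * (G2_e p.2.2.1 (σ p.1) * G2_e p.2.2.2 (σ p.2.1))) =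
          (∑ x, ∑ y, K x y * (CU.sg (σ x).1 * CU.sg (σ y).1)) +
          ∑ x, ∑ y, K' x y * (CU.sg (σ x).2 * CU.sg (σ y).2) := by
        rw [← Finset.sum_add_distrib, Fintype.sum_prod_type]
        refine Finset.sum_congr rfl fun x _ => ?_
        rw [← Finset.sum_add_distrib, Fintype.sum_prod_type]
        refine Finset.sum_congr rfl fun y _ => ?_
        rw [Fintype.sum_prod_type]
        simp only [Fin.sum_univ_two, G2_e]
        simp
        ring
      have e2 : (∑ p : V × Fin 2,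
          (if p.2 = 0 then (g p.1 + g' p.1) / 2 else (g p.1 - g' p.1) / 2) * G2_e p.2 (σ p.1)) =
          (∑ x, g x * CU.sg (σ x).1) + ∑ x, g' x * CU.sg (σ x).2 := by
        rw [← Finset.sum_add_distrib, Fintype.sum_prod_type]
        refine Finset.sum_congr rfl fun x _ => ?_
        simp only [Fin.sum_univ_two, G2_e]
        simp
        ring
      rw [e1, e2]
      ring
    simp only [hH, G2_mono1] at key0
    have key : 0 ≤ ∑ p : (V → Bool) × (V → Bool),
        (CU.sg (p.1 x) - CU.sg (p.2 x)) * Real.exp (HH K g p.1 + HH K' g' p.2) := by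
      rw [← Equiv.sum_comp (Equiv.arrowProdEquivProdArrow V (fun _ => Bool) (fun _ => Bool))]
      refine key0.trans_eq (Finset.sum_congr rfl fun σ _ => ?_)
      rfl
    have e : (∑ p : (V → Bool) × (V → Bool),
        (CU.sg (p.1 x) - CU.sg (p.2 x)) * Real.exp (HH K g p.1 + HH K' g' p.2)) =
        (∑ σ : V → Bool, Real.exp (HH K g σ) * CU.sg (σ x)) * (∑ σ : V → Bool, Real.exp (HH K' g' σ)) -
        (∑ σ : V → Bool, Real.exp (HH K' g' σ) * CU.sg (σ x)) * ∑ σ : V → Bool, Real.exp (HH K g σ) := by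
      rw [Fintype.sum_prod_type, Finset.sum_mul_sum, mul_comm
        (∑ σ : V → Bool, Real.exp (HH K' g' σ) * CU.sg (σ x)), Finset.sum_mul_sum,
        ← Finset.sum_sub_distrib]
      refine Finset.sum_congr rfl fun σ _ => ?_
      rw [← Finset.sum_sub_distrib]
      refine Finset.sum_congr rfl fun σ' _ => ?_
      rw [Real.exp_add]
      ring
    rw [e] at key
    unfold mgG
    have hZ : 0 < ∑ σ : V → Bool, Real.exp (HH K g σ) :=
      Finset.sum_pos (fun σ _ => Real.exp_pos _) Finset.univ_nonempty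
    have hZ' : 0 < ∑ σ : V → Bool, Real.exp (HH K' g' σ) :=
      Finset.sum_pos (fun σ _ => Real.exp_pos _) Finset.univ_nonempty
    rw [div_le_div_iff₀ hZ' hZ]
    linarith
  · intro j
    rcases j with p | p
    · have := abs_le.1 (hK p.1 p.2.1)
      simp only [Sum.elim_inl]
      split_ifs
      · linarith [this.1]
      · linarith [this.2]
    · have := abs_le.1 (hg p.1)
      simp only [Sum.elim_inr]
      split_ifs
      · linarith [this.1]
      · linarith [this.2]

end CWM
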