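import Pool.Agent.helper18.CWM.SpecA

/-!
# Project cwm (MP_7c3fb3_pr), module G4: the four-copy inequality
-/

open Finset Filter Topology

namespace CWM

/-- four spins -/
abbrev G4_B : Type := Bool × Bool × Bool × Bool

/-- the four rotated spins -/
noncomputable def G4_e (i : Fin 4) (b : G4_B) : ℝ :=
  if i = 0 then (CU.sg b.1 + CU.sg b.2.1 + CU.sg b.2.2.1 + CU.sg b.2.2.2) / 2 else
  if i = 1 then -(CU.sg b.1 + CU.sg b.2.1 - CU.sg b.2.2.1 - CU.sg b.2.2.2) / 2 else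
  if i = 2 then (CU.sg b.1 - CU.sg b.2.1 + CU.sg b.2.2.1 - CU.sg b.2.2.2) / 2 else
  (CU.sg b.1 - CU.sg b.2.1 - CU.sg b.2.2.1 + CU.sg b.2.2.2) / 2

lemma G4_e0 (b : G4_B) : G4_e 0 b = (CU.sg b.1 + CU.sg b.2.1 + CU.sg b.2.2.1 + CU.sg b.2.2.2) / 2 := by
  simp [G4_e]

lemma G4_e1 (b : G4_B) : G4_e 1 b = -(CU.sg b.1 + CU.sg b.2.1 - CU.sg b.2.2.1 - CU.sg b.2.2.2) / 2 := by
  simp [G4_e]

lemma G4_e2 (b : G4_B) : G4_e 2 b = (CU.sg b.1 - CU.sg b.2.1 + CU.sg b.2.2.1 - CU.sg b.2.2.2) / 2 := by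
  simp [G4_e]

lemma G4_e3 (b : G4_B) : G4_e 3 b = (CU.sg b.1 - CU.sg b.2.1 - CU.sg b.2.2.1 + CU.sg b.2.2.2) / 2 := by
  simp [G4_e]

lemma G4_sgt : CU.sg true = 1 := by simp [CU.sg]
lemma G4_sgf : CU.sg false = -1 := by simp [CU.sg]

lemma G4_num (k : ℕ) : ((-2 : ℝ)) ^ k = (-1) ^ k * 2 ^ k := by
  rw [← mul_pow]; norm_num

lemma G4_pos (a : Fin 4 → ℕ) : 0 ≤ ∑ b : G4_B, ∏ i, G4_e i b ^ a i := by
  simp only [Fin.prod_univ_four, Fintype.sum_prod_type, Fintype.sum_bool, G4_e0, G4_e1, G4_e2, G4_e3,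
    G4_sgt, G4_sgf]
  norm_num
  simp only [G4_num]
  generalize a 0 = k0
  generalize a 1 = k1
  generalize a 2 = k2
  generalize a 3 = k3
  have hq : ∀ k : ℕ, ((-1 : ℝ)) ^ k = 1 ∨ ((-1 : ℝ)) ^ k = -1 := fun k => neg_one_pow_eq_or ℝ k
  have h0 : 0 ≤ (0 : ℝ) ^ k0 := by positivity
  have h1 : 0 ≤ (0 : ℝ) ^ k1 := by positivity
  have h2 : 0 ≤ (0 : ℝ) ^ k2 := by positivity
  have h3 : 0 ≤ (0 : ℝ) ^ k3 := by positivity
  have p0 : 0 ≤ (2 : ℝ) ^ k0 := by positivity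
  have p1 : 0 ≤ (2 : ℝ) ^ k1 := by positivity
  have p2 : 0 ≤ (2 : ℝ) ^ k2 := by positivity
  have p3 : 0 ≤ (2 : ℝ) ^ k3 := by positivity
  rcases hq k0 with e0 | e0 <;> rcases hq k1 with e1 | e1 <;> rcases hq k2 with e2 | e2 <;>
    rcases hq k3 with e3 | e3 <;> rw [e0, e1, e2, e3] <;> ring_nf <;> positivity

lemma G4_prod1 {ι : Type} [Fintype ι] [DecidableEq ι] (F : ι → ℝ) (i : ι) (n : ℕ) :
    ∏ j, F j ^ (if j = i then n else 0) = F i ^ n := by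
  rw [Finset.prod_eq_single i]
  · simp
  · intro j _ hj; simp [hj]
  · intro h; exact absurd (Finset.mem_univ i) h

section
variable {V : Type} [Fintype V] [DecidableEq V]

lemma G4_mon2 (σ : V → G4_B) (x y : V) (i : Fin 4) :
    ∏ z, ∏ j, G4_e j (σ z) ^ (if j = i then (if z = x then 1 else 0) + (if z = y then 1 else 0) else 0) =
      G4_e i (σ x) * G4_e i (σ y) := by
  have h : ∀ z, ∏ j, G4_e j (σ z) ^ (if j = i then (if z = x then 1 else 0) + (if z = y then 1 else 0) else 0) =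
      G4_e i (σ z) ^ (if z = x then 1 else 0) * G4_e i (σ z) ^ (if z = y then 1 else 0) := by
    intro z
    rw [G4_prod1 (fun j => G4_e j (σ z)) i, pow_add]
  rw [Finset.prod_congr rfl fun z _ => h z, Finset.prod_mul_distrib,
    G4_prod1 (fun z => G4_e i (σ z)) x 1, G4_prod1 (fun z => G4_e i (σ z)) y 1, pow_one, pow_one]

lemma G4_mon1 (σ : V → G4_B) (x : V) (i : Fin 4) :
    ∏ z, ∏ j, G4_e j (σ z) ^ (if j = i then (if z = x then 1 else 0) else 0) = G4_e i (σ x) := by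
  have h : ∀ z, ∏ j, G4_e j (σ z) ^ (if j = i then (if z = x then 1 else 0) else 0) =
      G4_e i (σ z) ^ (if z = x then 1 else 0) := by
    intro z
    rw [G4_prod1 (fun j => G4_e j (σ z)) i]
  rw [Finset.prod_congr rfl fun z _ => h z, G4_prod1 (fun z => G4_e i (σ z)) x 1, pow_one]

/-- the exponents -/
def G4_m : ((V × V) × Fin 4) ⊕ (V × Fin 3) → V → Fin 4 → ℕ
  | Sum.inl p => fun z j => if j = p.2 then (if z = p.1.1 then 1 else 0) + (if z = p.1.2 then 1 else 0) else 0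
  | Sum.inr p => fun z j => if j = (![0, 2, 3] : Fin 3 → Fin 4) p.2 then (if z = p.1 then 1 else 0) else 0

omit [Fintype V] [DecidableEq V] in
/-- the coefficients -/
def G4_c (K : V → V → ℝ) (g s : V → ℝ) : ((V × V) × Fin 4) ⊕ (V × Fin 3) → ℝ
  | Sum.inl p => K p.1.1 p.1.2
  | Sum.inr p => if p.2 = 0 then 2 * g p.1 else s p.1

lemma G4_energy (K : V → V → ℝ) (g s : V → ℝ) (σ : V → G4_B) :
    ∑ j, G4_c K g s j * ∏ z, ∏ i, G4_e i (σ z) ^ G4_m j z i =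
      HH K (fun y => g y + s y) (fun v => (σ v).1) + HH K (fun y => g y - s y) (fun v => (σ v).2.1) +
        HH K g (fun v => (σ v).2.2.1) + HH K g (fun v => (σ v).2.2.2) := by
  rw [Fintype.sum_sum_type]
  have h1 : ∀ p : (V × V) × Fin 4, G4_c K g s (Sum.inl p) * ∏ z, ∏ i, G4_e i (σ z) ^ G4_m (Sum.inl p) z i =
      K p.1.1 p.1.2 * (G4_e p.2 (σ p.1.1) * G4_e p.2 (σ p.1.2)) := by
    intro p
    show K p.1.1 p.1.2 * _ = _
    congr 1
    exact G4_mon2 σ p.1.1 p.1.2 p.2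
  have h2 : ∀ p : V × Fin 3, G4_c K g s (Sum.inr p) * ∏ z, ∏ i, G4_e i (σ z) ^ G4_m (Sum.inr p) z i =
      (if p.2 = 0 then 2 * g p.1 else s p.1) * G4_e ((![0, 2, 3] : Fin 3 → Fin 4) p.2) (σ p.1) := by
    intro p
    show (if p.2 = 0 then 2 * g p.1 else s p.1) * _ = _
    congr 1
    exact G4_mon1 σ p.1 _
  rw [Finset.sum_congr rfl fun p _ => h1 p, Finset.sum_congr rfl fun p _ => h2 p]
  simp only [Fintype.sum_prod_type, Fin.sum_univ_four]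
  unfold HH
  have h3 : ∀ x : V,
      (if (0 : Fin 3) = 0 then 2 * g x else s x) * G4_e ((![0, 2, 3] : Fin 3 → Fin 4) 0) (σ x) +
      (if (1 : Fin 3) = 0 then 2 * g x else s x) * G4_e ((![0, 2, 3] : Fin 3 → Fin 4) 1) (σ x) +
      (if (2 : Fin 3) = 0 then 2 * g x else s x) * G4_e ((![0, 2, 3] : Fin 3 → Fin 4) 2) (σ x) =
      (g x + s x) * CU.sg (σ x).1 + (g x - s x) * CU.sg (σ x).2.1 + g x * CU.sg (σ x).2.2.1 +
        g x * CU.sg (σ x).2.2.2 := by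
    intro x
    have a0 : (![0, 2, 3] : Fin 3 → Fin 4) 0 = 0 := rfl
    have a1 : (![0, 2, 3] : Fin 3 → Fin 4) 1 = 2 := rfl
    have a2 : (![0, 2, 3] : Fin 3 → Fin 4) 2 = 3 := rfl
    rw [a0, a1, a2, G4_e0, G4_e2, G4_e3, if_pos rfl, if_neg (by decide), if_neg (by decide)]
    ring
  have h5 : ∀ x : V, ∑ y : Fin 3, (if y = 0 then 2 * g x else s x) * G4_e ((![0, 2, 3] : Fin 3 → Fin 4) y) (σ x) =
      (g x + s x) * CU.sg (σ x).1 + (g x - s x) * CU.sg (σ x).2.1 + g x * CU.sg (σ x).2.2.1 +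
        g x * CU.sg (σ x).2.2.2 := by
    intro x
    rw [Fin.sum_univ_three]
    exact h3 x
  rw [Finset.sum_congr rfl fun x _ => h5 x]
  have h4 : ∀ x y : V,
      K x y * (G4_e 0 (σ x) * G4_e 0 (σ y)) + K x y * (G4_e 1 (σ x) * G4_e 1 (σ y)) +
      K x y * (G4_e 2 (σ x) * G4_e 2 (σ y)) + K x y * (G4_e 3 (σ x) * G4_e 3 (σ y)) =
      K x y * (CU.sg (σ x).1 * CU.sg (σ y).1) + K x y * (CU.sg (σ x).2.1 * CU.sg (σ y).2.1) +
        K x y * (CU.sg (σ x).2.2.1 * CU.sg (σ y).2.2.1) + K x y * (CU.sg (σ x).2.2.2 * CU.sg (σ y).2.2.2) := by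
    intro x y
    simp only [G4_e0, G4_e1, G4_e2, G4_e3]
    ring
  rw [Finset.sum_congr rfl fun x _ => Finset.sum_congr rfl fun y _ => h4 x y]
  simp only [Finset.sum_add_distrib]
  ring

/-- four configurations as one -/
def G4_eq : (V → G4_B) ≃ (V → Bool) × (V → Bool) × (V → Bool) × (V → Bool) where
  toFun σ := (fun v => (σ v).1, fun v => (σ v).2.1, fun v => (σ v).2.2.1, fun v => (σ v).2.2.2)
  invFun p := fun v => (p.1 v, p.2.1 v, p.2.2.1 v, p.2.2.2 v)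
  left_inv _ := rfl
  right_inv _ := rfl

lemma G4_sum (E1 E2 E3 E4 : (V → Bool) → ℝ) :
    ∑ σ : V → G4_B, E1 (fun v => (σ v).1) * E2 (fun v => (σ v).2.1) * E3 (fun v => (σ v).2.2.1) *
      E4 (fun v => (σ v).2.2.2) = (∑ σ, E1 σ) * (∑ σ, E2 σ) * (∑ σ, E3 σ) * (∑ σ, E4 σ) := by
  rw [← Equiv.sum_comp (G4_eq (V := V)).symm]
  show ∑ p : (V → Bool) × (V → Bool) × (V → Bool) × (V → Bool), E1 p.1 * E2 p.2.1 * E3 p.2.2.1 * E4 p.2.2.2 = _
  simp only [Fintype.sum_prod_type]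
  simp only [← Finset.mul_sum, ← Finset.sum_mul]

end

theorem G4 (hPL : PL_stmt) : G4_stmt := by
  intro V _ _ K g s hK hg hs x
  have h := hPL V G4_B (((V × V) × Fin 4) ⊕ (V × Fin 3)) 4 G4_e G4_pos (G4_c K g s) G4_m ?_
    (fun z j => if j = 1 then (if z = x then 1 else 0) else 0)
  swap
  · rintro (p | p)
    · exact hK _ _
    · show 0 ≤ (if p.2 = 0 then 2 * g p.1 else s p.1)
      split_ifs
      · linarith [hg p.1]
      · exact hs p.1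
  simp only [G4_mon1, G4_energy] at h
  set E1 : (V → Bool) → ℝ := fun σ => Real.exp (HH K (fun y => g y + s y) σ) with hE1
  set E2 : (V → Bool) → ℝ := fun σ => Real.exp (HH K (fun y => g y - s y) σ) with hE2
  set E : (V → Bool) → ℝ := fun σ => Real.exp (HH K g σ) with hE
  set S : (V → Bool) → ℝ := fun σ => CU.sg (σ x) with hS
  have h2 : ∀ σ : V → G4_B, G4_e 1 (σ x) * Real.exp (HH K (fun y => g y + s y) (fun v => (σ v).1) +
      HH K (fun y => g y - s y) (fun v => (σ v).2.1) + HH K g (fun v => (σ v).2.2.1) +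
      HH K g (fun v => (σ v).2.2.2)) =
      (-1 / 2) * ((E1 (fun v => (σ v).1) * S (fun v => (σ v).1)) * E2 (fun v => (σ v).2.1) *
        E (fun v => (σ v).2.2.1) * E (fun v => (σ v).2.2.2)) +
      (-1 / 2) * (E1 (fun v => (σ v).1) * (E2 (fun v => (σ v).2.1) * S (fun v => (σ v).2.1)) *
        E (fun v => (σ v).2.2.1) * E (fun v => (σ v).2.2.2)) +
      (1 / 2) * (E1 (fun v => (σ v).1) * E2 (fun v => (σ v).2.1) *
        (E (fun v => (σ v).2.2.1) * S (fun v => (σ v).2.2.1)) * E (fun v => (σ v).2.2.2)) +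
      (1 / 2) * (E1 (fun v => (σ v).1) * E2 (fun v => (σ v).2.1) *
        E (fun v => (σ v).2.2.1) * (E (fun v => (σ v).2.2.2) * S (fun v => (σ v).2.2.2))) := by
    intro σ
    rw [Real.exp_add, Real.exp_add, Real.exp_add, G4_e1]
    simp only [hE1, hE2, hE, hS]
    ring
  rw [Finset.sum_congr rfl fun σ _ => h2 σ] at h
  simp only [Finset.sum_add_distrib, ← Finset.mul_sum] at h
  rw [G4_sum (fun σ => E1 σ * S σ) E2 E E, G4_sum E1 (fun σ => E2 σ * S σ) E E,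
    G4_sum E1 E2 (fun σ => E σ * S σ) E, G4_sum E1 E2 E (fun σ => E σ * S σ)] at h
  have p1 : 0 < ∑ σ, E1 σ := Finset.sum_pos (fun σ _ => Real.exp_pos _) Finset.univ_nonempty
  have p2 : 0 < ∑ σ, E2 σ := Finset.sum_pos (fun σ _ => Real.exp_pos _) Finset.univ_nonempty
  have p : 0 < ∑ σ, E σ := Finset.sum_pos (fun σ _ => Real.exp_pos _) Finset.univ_nonempty
  show (∑ σ, E1 σ * S σ) / (∑ σ, E1 σ) + (∑ σ, E2 σ * S σ) / (∑ σ, E2 σ) ≤
    2 * ((∑ σ, E σ * S σ) / ∑ σ, E σ)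
  set Z1 := ∑ σ, E1 σ
  set Z2 := ∑ σ, E2 σ
  set Z := ∑ σ, E σ
  set A1 := ∑ σ, E1 σ * S σ
  set A2 := ∑ σ, E2 σ * S σ
  set A := ∑ σ, E σ * S σ
  have e : 2 * (A / Z) - (A1 / Z1 + A2 / Z2) =
      (2 / (Z1 * Z2 * Z * Z)) * (-1 / 2 * (A1 * Z2 * Z * Z) + -1 / 2 * (Z1 * A2 * Z * Z) +
        1 / 2 * (Z1 * Z2 * A * Z) + 1 / 2 * (Z1 * Z2 * Z * A)) := by
    field_simp
    ring
  have e2 : 0 ≤ 2 * (A / Z) - (A1 / Z1 + A2 / Z2) := by
    rw [e]
    exact mul_nonneg (by positivity) h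
  linarith

end CWM
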