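import Pool.Agent.helper18.CWM.SpecA

/-!
# cwm:GEO (MP_7c3fb3_pr), geometric decay of the layers of the exploration
-/

open Finset

namespace CWM

theorem GEO_seq (a : ℕ → ℝ) (κ : ℝ) (hκ : 0 ≤ κ)
    (h : ∀ k K : ℕ, ∑ i ∈ range K, a (k + (i + 1)) ≤ κ * a k) :
    ∀ k K : ℕ, ∑ i ∈ range K, a (k + (i + 1)) ≤ κ * (κ / (1 + κ)) ^ k * a 0 := by
  intro k
  induction k with
  | zero =>
    intro K
    have := h 0 K
    simpa using this
  | succ k ih =>
    intro K
    have h1 := ih (K + 1)
    have h2 := h (k + 1) K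
    rw [Finset.sum_range_succ'] at h1
    have e : ∀ i ∈ range K, a (k + (i + 1 + 1)) = a (k + 1 + (i + 1)) := by
      intro i _
      congr 1
      omega
    rw [Finset.sum_congr rfl e] at h1
    have hp : 0 < 1 + κ := by linarith
    set T := ∑ i ∈ range K, a (k + 1 + (i + 1)) with hT
    have h1' : T + a (k + 1) ≤ κ * (κ / (1 + κ)) ^ k * a 0 := by simpa using h1
    have h3 : (1 + κ) * T ≤ κ * (κ * (κ / (1 + κ)) ^ k * a 0) := by
      have h4 := mul_le_mul_of_nonneg_left h1' hκ
      nlinarith [h4, h2]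
    have h5 : T ≤ κ * (κ * (κ / (1 + κ)) ^ k * a 0) / (1 + κ) := by
      rw [le_div_iff₀ hp]
      linarith
    have h6 : κ * (κ * (κ / (1 + κ)) ^ k * a 0) / (1 + κ) = κ * (κ / (1 + κ)) ^ (k + 1) * a 0 := by
      rw [pow_succ]
      ring
    linarith [h6]

section
variable {V : Type} [DecidableEq V]

theorem GEO_TE_mono (nb : V → Finset V) (β h : ℝ) (hZ : ∀ D A : Finset V, 0 < ZA nb β h D A)
    (hc : ∀ D A A' : Finset V, 0 ≤ cE nb β h D A A') (F G : Finset V → Finset V → ℝ)
    (hFG : ∀ D A, F D A ≤ G D A) (D A : Finset V) : TE nb β h F D A ≤ TE nb β h G D A := by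
  unfold TE
  apply div_le_div_of_nonneg_right _ (hZ D A).le
  apply Finset.sum_le_sum
  intro A' _
  exact mul_le_mul_of_nonneg_left (hFG _ _) (mul_nonneg (hc _ _ _) (hZ _ _).le)

theorem GEO_TE_sum (nb : V → Finset V) (β h : ℝ) (K : ℕ) (F : ℕ → Finset V → Finset V → ℝ)
    (D A : Finset V) : TE nb β h (fun D A => ∑ i ∈ range K, F i D A) D A =
      ∑ i ∈ range K, TE nb β h (F i) D A := by
  unfold TE
  rw [← Finset.sum_div, Finset.sum_comm]
  congr 1
  apply Finset.sum_congr rfl
  intro A' _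
  rw [Finset.mul_sum]

theorem GEO_TE_mul (nb : V → Finset V) (β h c : ℝ) (F : Finset V → Finset V → ℝ)
    (D A : Finset V) : TE nb β h (fun D A => c * F D A) D A = c * TE nb β h F D A := by
  unfold TE
  rw [← mul_div_assoc, Finset.mul_sum]
  congr 1
  apply Finset.sum_congr rfl
  intro A' _
  ring

theorem GEO_TE_nonneg (nb : V → Finset V) (β h : ℝ) (hZ : ∀ D A : Finset V, 0 < ZA nb β h D A)
    (hc : ∀ D A A' : Finset V, 0 ≤ cE nb β h D A A') (F : Finset V → Finset V → ℝ)
    (hF : ∀ D A, 0 ≤ F D A) (D A : Finset V) : 0 ≤ TE nb β h F D A := by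
  unfold TE
  apply div_nonneg _ (hZ D A).le
  apply Finset.sum_nonneg
  intro A' _
  exact mul_nonneg (mul_nonneg (hc _ _ _) (hZ _ _).le) (hF _ _)

end

theorem GEO (hJEN : JEN_stmt) (hZLE : ZLE_stmt) : GEO_stmt := by
  intro V _ _ nb d hs hd β h hβ hh k D A
  have hZ : ∀ D A : Finset V, 0 < ZA nb β h D A := fun D A => (hZLE V nb d hs hd β h hβ hh.le D A).1
  have hc : ∀ D A A' : Finset V, 0 ≤ cE nb β h D A A' := fun D A A' =>
    (hZLE V nb d hs hd β h hβ hh.le D A).2.2.1 A'
  have hnn : ∀ k : ℕ, ∀ D A : Finset V, 0 ≤ sk nb β h k D A := by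
    intro k
    induction k with
    | zero =>
      intro D A
      simp [sk]
    | succ k ih =>
      intro D A
      exact GEO_TE_nonneg nb β h hZ hc _ ih D A
  have hκ : 0 ≤ 2 * d * β / h := by positivity
  have key : ∀ k K : ℕ, ∀ D A : Finset V, ∑ i ∈ range K, sk nb β h (k + (i + 1)) D A ≤
      (2 * d * β / h) * sk nb β h k D A := by
    intro k
    induction k with
    | zero =>
      intro K D A
      have h1 := hJEN V nb d hs hd β h hβ hh K D A
      have e : ∑ i ∈ range K, sk nb β h (0 + (i + 1)) D A = ∑ j ∈ range K, sk nb β h (j + 1) D A := by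
        apply Finset.sum_congr rfl
        intro i _
        rw [Nat.zero_add]
      rw [e]
      have e2 : sk nb β h 0 D A = (A.card : ℝ) := rfl
      rw [e2, div_mul_eq_mul_div, le_div_iff₀ hh]
      linarith
    | succ k ih =>
      intro K D A
      have e : ∑ i ∈ range K, sk nb β h (k + 1 + (i + 1)) D A =
          ∑ i ∈ range K, TE nb β h (sk nb β h (k + (i + 1))) D A := by
        apply Finset.sum_congr rfl
        intro i _
        have : k + 1 + (i + 1) = (k + (i + 1)) + 1 := by omega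
        rw [this]
        rfl
      rw [e, ← GEO_TE_sum nb β h K (fun i => sk nb β h (k + (i + 1))) D A]
      have e3 : sk nb β h (k + 1) D A = TE nb β h (sk nb β h k) D A := rfl
      rw [e3, ← GEO_TE_mul]
      exact GEO_TE_mono nb β h hZ hc _ _ (fun D A => ih K D A) D A
  refine ⟨hnn k D A, ?_⟩
  have h1 := GEO_seq (fun j => sk nb β h j D A) (2 * d * β / h) hκ (fun k K => key k K D A) k 1
  have e4 : sk nb β h 0 D A = (A.card : ℝ) := rfl
  simpa [e4] using h1

end CWM
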