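import Pool.Agent.helper18.CWM.SpecA

/-!
# Project cwm, module GIN: monotonicity in the volume, the inequality for opposite fields
-/

open Finset Filter Topology

namespace CWM

lemma GIN_abs {V : Type} [Fintype V] [DecidableEq V] (nb : V → Finset V) (β : ℝ) (D : Finset V) (g : V → ℝ) (x : V) :
    |mg nb β D g x| ≤ 1 := by
  unfold mg ZF
  have hpos : 0 < ∑ P ∈ D.powerset, Real.exp (β * en nb D P + ∑ y ∈ D, g y * sp P y) * 1 :=
    Finset.sum_pos (fun P _ => by positivity) ⟨∅, Finset.empty_mem_powerset D⟩
  rw [abs_div, abs_of_pos hpos, div_le_one hpos]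
  refine le_trans (Finset.abs_sum_le_sum_abs _ _) (Finset.sum_le_sum fun P _ => ?_)
  rw [abs_mul, abs_of_pos (Real.exp_pos _)]
  refine mul_le_mul_of_nonneg_left ?_ (Real.exp_pos _).le
  have hs : |sp P x| ≤ 1 := by
    unfold sp
    split_ifs <;> simp
  exact hs

theorem GIN (hG2 : G2_stmt) (hG4 : G4_stmt) (hBRA : BRA_stmt) : GIN_stmt := by
  intro V _ _ nb β h hβ hh
  refine ⟨?_, ?_, fun D g x => GIN_abs nb β D g x⟩
  · intro D D' x hDD hx
    rw [hBRA V nb β D' (fun _ => h) x hx, hBRA V nb β D (fun _ => h) x (hDD hx)]
    refine hG2 V _ _ _ _ ?_ ?_ x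
    · intro a b
      by_cases hab : a ∈ D' ∧ b ∈ nb a ∩ D'
      · have hab' : a ∈ D ∧ b ∈ nb a ∩ D :=
          ⟨hDD hab.1, Finset.mem_inter.2 ⟨(Finset.mem_inter.1 hab.2).1, hDD (Finset.mem_inter.1 hab.2).2⟩⟩
        simp only [if_pos hab, if_pos hab']
        rw [abs_of_nonneg (by linarith)]
      · simp only [if_neg hab, abs_zero]
        split_ifs
        · linarith
        · exact le_refl 0
    · intro a
      by_cases ha : a ∈ D'
      · simp only [if_pos ha, if_pos (hDD ha)]
        rw [abs_of_nonneg hh]
      · simp only [if_neg ha, abs_zero]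
        split_ifs
        · exact hh
        · exact le_refl 0
  · intro D s x hs hx
    rw [hBRA V nb β D (fun y => h + s y) x hx, hBRA V nb β D (fun y => h - s y) x hx,
      hBRA V nb β D (fun _ => h) x hx]
    have key := hG4 V (fun x y => if x ∈ D ∧ y ∈ nb x ∩ D then β / 2 else 0) (fun y => if y ∈ D then h else 0)
      (fun y => if y ∈ D then s y else 0) (by
        intro a b
        split_ifs
        · linarith
        · exact le_refl 0) (by
        intro a
        split_ifs
        · exact hh
        · exact le_refl 0) (by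
        intro a
        split_ifs
        · exact hs a
        · exact le_refl 0) x
    have e1 : (fun y => (if y ∈ D then h else 0) + if y ∈ D then s y else 0) =
        fun y => if y ∈ D then h + s y else 0 := by
      funext y
      by_cases hy : y ∈ D
      · simp [hy]
      · simp [hy]
    have e2 : (fun y => (if y ∈ D then h else 0) - if y ∈ D then s y else 0) =
        fun y => if y ∈ D then h - s y else 0 := by
      funext y
      by_cases hy : y ∈ D
      · simp [hy]
      · simp [hy]
    simp only [e1, e2] at key
    exact key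

end CWM
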