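import Pool.Agent.helper18.CWM.SpecH

/-! Project cwm, row HE1 (helper17) -/

open Finset Filter Topology

namespace CWM

theorem HE1_sq (a b : ℝ) (ha : 0 ≤ a) (hb : 0 ≤ b) : (√a - √b) ^ 2 = a + b - 2 * (√a * √b) := by
  have h1 : √a ^ 2 = a := Real.sq_sqrt ha
  have h2 : √b ^ 2 = b := Real.sq_sqrt hb
  linear_combination h1 + h2

theorem HE1_key {ι : Type} (s : Finset ι) (p q : ι → ℝ) (hp : ∀ i, 0 ≤ p i) (hq : ∀ i, 0 ≤ q i) :
    (√(∑ i ∈ s, p i) - √(∑ i ∈ s, q i)) ^ 2 ≤ ∑ i ∈ s, (√(p i) - √(q i)) ^ 2 := by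
  rw [HE1_sq _ _ (Finset.sum_nonneg fun i _ => hp i) (Finset.sum_nonneg fun i _ => hq i)]
  have h : ∑ i ∈ s, (√(p i) - √(q i)) ^ 2 = ∑ i ∈ s, p i + ∑ i ∈ s, q i - 2 * ∑ i ∈ s, √(p i) * √(q i) := by
    rw [Finset.mul_sum, ← Finset.sum_add_distrib, ← Finset.sum_sub_distrib]
    exact Finset.sum_congr rfl fun i _ => HE1_sq _ _ (hp i) (hq i)
  rw [h]
  have hcs := Real.sum_sqrt_mul_sqrt_le s hp hq
  linarith

theorem HE1_ind_nonneg (p : Prop) : 0 ≤ ind p := by
  unfold ind; split_ifs <;> norm_num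

theorem HE1_sqrt_ind (a b : ℝ) (p : Prop) : (√(a * ind p) - √(b * ind p)) ^ 2 = (√a - √b) ^ 2 * ind p := by
  unfold ind; split_ifs <;> simp

theorem HE1_sum_ind {Y : Type} [Fintype Y] (y0 : Y) : ∑ y : Y, ind (y0 = y) = 1 := by
  classical
  have h : ∀ y : Y, ind (y0 = y) = if y0 = y then (1 : ℝ) else 0 := by
    intro y; unfold ind; split_ifs <;> rfl
  simp [h]

theorem HE1 : HE1_stmt := by
  refine ⟨?_, ?_, ?_, ?_⟩
  · intro X ι _ s P Q hP hQ
    unfold hel
    rw [← Finset.mul_sum, Finset.sum_comm]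
    refine mul_le_mul_of_nonneg_left (Finset.sum_le_sum fun x _ => ?_) (by norm_num)
    exact HE1_key s (fun i => P i x) (fun i => Q i x) (fun i => hP i x) (fun i => hQ i x)
  · intro X _ P Q c hc
    unfold hel
    have h : ∀ x, (√(c * P x) - √(c * Q x)) ^ 2 = c * (√(P x) - √(Q x)) ^ 2 := by
      intro x
      rw [Real.sqrt_mul hc, Real.sqrt_mul hc]
      have hc2 : √c ^ 2 = c := Real.sq_sqrt hc
      calc (√c * √(P x) - √c * √(Q x)) ^ 2 = √c ^ 2 * (√(P x) - √(Q x)) ^ 2 := by ring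
        _ = _ := by rw [hc2]
    simp only [h]
    rw [← Finset.mul_sum]; ring
  · intro X Y _ _ f P Q hP hQ
    unfold hel
    refine mul_le_mul_of_nonneg_left ?_ (by norm_num)
    calc ∑ y, (√(pus f P y) - √(pus f Q y)) ^ 2 ≤ ∑ y, ∑ x, (√(P x) - √(Q x)) ^ 2 * ind (f x = y) := by
          refine Finset.sum_le_sum fun y _ => ?_
          unfold pus
          refine (HE1_key univ (fun x => P x * ind (f x = y)) (fun x => Q x * ind (f x = y))
            (fun x => mul_nonneg (hP x) (HE1_ind_nonneg _)) (fun x => mul_nonneg (hQ x) (HE1_ind_nonneg _))).trans ?_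
          exact le_of_eq (Finset.sum_congr rfl fun x _ => HE1_sqrt_ind _ _ _)
      _ = ∑ x, (√(P x) - √(Q x)) ^ 2 := by
          rw [Finset.sum_comm]
          refine Finset.sum_congr rfl fun x _ => ?_
          rw [← Finset.mul_sum, HE1_sum_ind, mul_one]
  · intro X _ P Q hP hQ
    unfold hel
    refine ⟨mul_nonneg (by norm_num) (Finset.sum_nonneg fun x _ => sq_nonneg _), ?_, ?_⟩
    · rw [Finset.sum_div, Finset.mul_sum]
      refine Finset.sum_le_sum fun x _ => ?_
      have h : (√(P x) - √(Q x)) ^ 2 ≤ |P x - Q x| := by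
        have hf : P x - Q x = (√(P x) - √(Q x)) * (√(P x) + √(Q x)) := by
          have h1 : √(P x) ^ 2 = P x := Real.sq_sqrt (hP x)
          have h2 : √(Q x) ^ 2 = Q x := Real.sq_sqrt (hQ x)
          linear_combination h2 - h1
        rw [hf, abs_mul, ← sq_abs, sq]
        have ha : 0 ≤ √(P x) := Real.sqrt_nonneg _
        have hb : 0 ≤ √(Q x) := Real.sqrt_nonneg _
        refine mul_le_mul_of_nonneg_left ?_ (abs_nonneg _)
        rw [abs_of_nonneg (add_nonneg ha hb)]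
        rw [abs_le]; constructor <;> linarith
      linarith
    · rw [← Finset.sum_add_distrib, Finset.sum_div, Finset.mul_sum]
      refine Finset.sum_le_sum fun x _ => ?_
      rw [HE1_sq _ _ (hP x) (hQ x)]
      have := mul_nonneg (Real.sqrt_nonneg (P x)) (Real.sqrt_nonneg (Q x))
      linarith

end CWM
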