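import Pool.Agent.helper18.CWM.SpecH

set_option autoImplicit false

/-! Row cwm:HE2 (helper98): Hellinger distance, second part. -/

open Finset

namespace CWM

lemma HE2_sq {p q : ℝ} (hp : 0 ≤ p) (hq : 0 ≤ q) :
    (√p - √q) ^ 2 = p + q - 2 * (√p * √q) := by
  have h1 := Real.sq_sqrt hp
  have h2 := Real.sq_sqrt hq
  nlinarith [h1, h2]

lemma HE2_hel {X : Type} [Fintype X] {P Q : X → ℝ} {a : ℝ} (hP : ∀ x, 0 ≤ P x) (hQ : ∀ x, 0 ≤ Q x)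
    (h1 : ∑ x, P x = a) (h2 : ∑ x, Q x = a) : hel P Q = a - ∑ x, √(P x) * √(Q x) := by
  unfold hel
  have e : ∑ x, (√(P x) - √(Q x)) ^ 2 = ∑ x, P x + ∑ x, Q x - 2 * ∑ x, √(P x) * √(Q x) := by
    rw [Finset.mul_sum, ← Finset.sum_add_distrib, ← Finset.sum_sub_distrib]
    exact Finset.sum_congr rfl fun x _ => HE2_sq (hP x) (hQ x)
  rw [e, h1, h2]
  ring

lemma HE2_nn {X : Type} [Fintype X] (P Q : X → ℝ) : 0 ≤ hel P Q := by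
  unfold hel
  have : 0 ≤ ∑ x, (√(P x) - √(Q x)) ^ 2 := Finset.sum_nonneg fun x _ => sq_nonneg _
  linarith

lemma HE2_1 {X Y : Type} [Fintype X] [Fintype Y] (P1 Q1 : X → ℝ) (P2 Q2 : Y → ℝ) (a b : ℝ)
    (hP1 : ∀ x, 0 ≤ P1 x) (hQ1 : ∀ x, 0 ≤ Q1 x) (hP2 : ∀ x, 0 ≤ P2 x) (hQ2 : ∀ x, 0 ≤ Q2 x)
    (h1 : ∑ x, P1 x = a) (h2 : ∑ x, Q1 x = a) (h3 : ∑ y, P2 y = b) (h4 : ∑ y, Q2 y = b) :
    hel (fun z : X × Y => P1 z.1 * P2 z.2) (fun z : X × Y => Q1 z.1 * Q2 z.2) ≤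
      b * hel P1 Q1 + a * hel P2 Q2 := by
  have e1 : ∑ z : X × Y, P1 z.1 * P2 z.2 = a * b := by
    rw [← h1, ← h3, Finset.sum_mul_sum, ← Finset.univ_product_univ, Finset.sum_product]
  have e2 : ∑ z : X × Y, Q1 z.1 * Q2 z.2 = a * b := by
    rw [← h2, ← h4, Finset.sum_mul_sum, ← Finset.univ_product_univ, Finset.sum_product]
  have e3 : ∑ z : X × Y, √(P1 z.1 * P2 z.2) * √(Q1 z.1 * Q2 z.2) =
      (∑ x, √(P1 x) * √(Q1 x)) * ∑ y, √(P2 y) * √(Q2 y) := by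
    rw [Finset.sum_mul_sum, ← Finset.univ_product_univ, Finset.sum_product]
    refine Finset.sum_congr rfl fun x _ => Finset.sum_congr rfl fun y _ => ?_
    rw [Real.sqrt_mul (hP1 x), Real.sqrt_mul (hQ1 x)]
    ring
  rw [HE2_hel (fun z => mul_nonneg (hP1 _) (hP2 _)) (fun z => mul_nonneg (hQ1 _) (hQ2 _)) e1 e2, e3]
  have g1 := HE2_hel hP1 hQ1 h1 h2
  have g2 := HE2_hel hP2 hQ2 h3 h4
  have n1 := HE2_nn P1 Q1
  have n2 := HE2_nn P2 Q2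
  have k1 : (∑ x, √(P1 x) * √(Q1 x)) = a - hel P1 Q1 := by linarith
  have k2 : (∑ y, √(P2 y) * √(Q2 y)) = b - hel P2 Q2 := by linarith
  rw [k1, k2]
  nlinarith [mul_nonneg n1 n2]

lemma HE2_2 {X : Type} [Fintype X] (P Q : X → ℝ) (hP : ∀ x, 0 ≤ P x) (hQ : ∀ x, 0 ≤ Q x)
    (h1 : ∑ x, P x = 1) (h2 : ∑ x, Q x = 1) :
    ((∑ x, |P x - Q x|) / 2) ^ 2 ≤ 2 * hel P Q := by
  have e1 : ∑ x, |P x - Q x| = ∑ x, |√(P x) - √(Q x)| * (√(P x) + √(Q x)) := by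
    refine Finset.sum_congr rfl fun x _ => ?_
    have h : P x - Q x = (√(P x) - √(Q x)) * (√(P x) + √(Q x)) := by
      nlinarith [Real.sq_sqrt (hP x), Real.sq_sqrt (hQ x)]
    rw [h, abs_mul, abs_of_nonneg (add_nonneg (Real.sqrt_nonneg _) (Real.sqrt_nonneg _))]
  have e2 := Finset.sum_mul_sq_le_sq_mul_sq univ (fun x => |√(P x) - √(Q x)|)
    (fun x => √(P x) + √(Q x))
  have e3 : ∑ x, |√(P x) - √(Q x)| ^ 2 = 2 * hel P Q := by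
    unfold hel
    rw [show (2 : ℝ) * ((1 / 2) * ∑ x, (√(P x) - √(Q x)) ^ 2) = ∑ x, (√(P x) - √(Q x)) ^ 2 by ring]
    exact Finset.sum_congr rfl fun x _ => sq_abs _
  have e4 : ∑ x, (√(P x) + √(Q x)) ^ 2 ≤ 4 := by
    calc ∑ x, (√(P x) + √(Q x)) ^ 2 ≤ ∑ x, 2 * (P x + Q x) := by
          refine Finset.sum_le_sum fun x _ => ?_
          nlinarith [Real.sq_sqrt (hP x), Real.sq_sqrt (hQ x), sq_nonneg (√(P x) - √(Q x))]
      _ = 4 := by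
          rw [← Finset.mul_sum, Finset.sum_add_distrib, h1, h2]
          norm_num
  rw [← e1, e3] at e2
  have n1 := HE2_nn P Q
  have e5 : (2 * hel P Q) * ∑ x, (√(P x) + √(Q x)) ^ 2 ≤ (2 * hel P Q) * 4 :=
    mul_le_mul_of_nonneg_left e4 (by linarith)
  nlinarith

lemma HE2_3 {X : Type} [Fintype X] (P P' Q' Q : X → ℝ) :
    hel P Q ≤ 3 * (hel P P' + hel P' Q' + hel Q' Q) := by
  unfold hel
  have e : ∑ x, (√(P x) - √(Q x)) ^ 2 ≤ 3 * (∑ x, (√(P x) - √(P' x)) ^ 2 +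
      ∑ x, (√(P' x) - √(Q' x)) ^ 2 + ∑ x, (√(Q' x) - √(Q x)) ^ 2) := by
    rw [← Finset.sum_add_distrib, ← Finset.sum_add_distrib, Finset.mul_sum]
    refine Finset.sum_le_sum fun x _ => ?_
    nlinarith [sq_nonneg ((√(P x) - √(P' x)) - (√(P' x) - √(Q' x))),
      sq_nonneg ((√(P' x) - √(Q' x)) - (√(Q' x) - √(Q x))),
      sq_nonneg ((√(P x) - √(P' x)) - (√(Q' x) - √(Q x)))]
  linarith

lemma HE2_4 {X : Type} [Fintype X] (P Q : X → ℝ) (Y : Finset X) (q : ℝ) (hq : 0 < q)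
    (hY : ∀ x ∈ Y, q ≤ P x ∧ q ≤ Q x) (hY' : ∀ x, x ∉ Y → P x = 0 ∧ Q x = 0) :
    hel P Q ≤ 1 / (8 * q) * (∑ x, |P x - Q x|) ^ 2 := by
  have e1 : ∀ x, (√(P x) - √(Q x)) ^ 2 ≤ 1 / (4 * q) * |P x - Q x| ^ 2 := by
    intro x
    by_cases hx : x ∈ Y
    · obtain ⟨h1, h2⟩ := hY x hx
      have hP : 0 ≤ P x := hq.le.trans h1
      have hQ : 0 ≤ Q x := hq.le.trans h2
      have h : P x - Q x = (√(P x) - √(Q x)) * (√(P x) + √(Q x)) := by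
        nlinarith [Real.sq_sqrt hP, Real.sq_sqrt hQ]
      have s1 : √q ≤ √(P x) := Real.sqrt_le_sqrt h1
      have s2 : √q ≤ √(Q x) := Real.sqrt_le_sqrt h2
      have s0 : 0 ≤ √q := Real.sqrt_nonneg _
      have s3 : 4 * q ≤ (√(P x) + √(Q x)) ^ 2 := by
        have := Real.sq_sqrt hq.le
        nlinarith
      rw [sq_abs, h, mul_pow, div_mul_eq_mul_div, one_mul, le_div_iff₀ (by linarith)]
      exact mul_le_mul_of_nonneg_left s3 (sq_nonneg _)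
    · obtain ⟨h1, h2⟩ := hY' x hx
      rw [h1, h2]
      simp
  have e2 : ∑ x, |P x - Q x| ^ 2 ≤ (∑ x, |P x - Q x|) ^ 2 :=
    Finset.sum_sq_le_sq_sum_of_nonneg fun x _ => abs_nonneg _
  have e3 : ∑ x, (√(P x) - √(Q x)) ^ 2 ≤ 1 / (4 * q) * ∑ x, |P x - Q x| ^ 2 := by
    rw [Finset.mul_sum]
    exact Finset.sum_le_sum fun x _ => e1 x
  unfold hel
  have hq4 : (0 : ℝ) ≤ 1 / (4 * q) := by positivity
  have e4 := mul_le_mul_of_nonneg_left e2 hq4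
  have e5 : 1 / (8 * q) * (∑ x, |P x - Q x|) ^ 2 =
      1 / 2 * (1 / (4 * q) * (∑ x, |P x - Q x|) ^ 2) := by
    field_simp
    ring
  rw [e5]
  linarith

theorem HE2 : HE2_stmt :=
  ⟨fun _ _ _ _ P1 Q1 P2 Q2 a b h1 h2 h3 h4 h5 h6 h7 h8 =>
      HE2_1 P1 Q1 P2 Q2 a b h1 h2 h3 h4 h5 h6 h7 h8,
    fun _ _ P Q h1 h2 h3 h4 => HE2_2 P Q h1 h2 h3 h4,
    fun _ _ P P' Q' Q => HE2_3 P P' Q' Q,
    fun _ _ P Q Y q h1 h2 h3 => HE2_4 P Q Y q h1 h2 h3⟩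

end CWM
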