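import Pool.Agent.helper18.CWM.SpecH

/-!
# Project cwm: row HEW
-/

open Finset Filter Topology

namespace CWM

theorem HEW (hHE1 : HE1_stmt) : HEW_stmt := by
  intro V U _ _ _ D h0 X _ S m P Q hP hQ
  obtain ⟨e1, e2, _, _⟩ := hHE1
  have key : ∀ (m : ℕ) (P Q : List (V × U) → X → ℝ), (∀ w x, 0 ≤ P w x) → (∀ w x, 0 ≤ Q w x) →
      hel (fun x => Ww D S m fun w => P w x) (fun x => Ww D S m fun w => Q w x) ≤
        Ww D S m (fun w => hel (P w) (Q w)) := by
    intro m
    induction m with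
    | zero => intro P Q _ _; exact le_rfl
    | succ m ih =>
      intro P Q hP hQ
      have hs : ∀ F : List (V × U) → X → ℝ, (fun x => Ww D S (m + 1) fun w => F w x) =
          fun x => ∑ i ∈ S ×ˢ (univ : Finset U), D.nu i.2 * Ww D S m fun w => F (i :: w) x := by
        intro F
        funext x
        rw [Ww_succ, Finset.sum_product]
        rfl
      rw [hs P, hs Q]
      refine (e1 X (V × U) (S ×ˢ univ) (fun i x => D.nu i.2 * Ww D S m fun w => P (i :: w) x)
        (fun i x => D.nu i.2 * Ww D S m fun w => Q (i :: w) x)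
        (fun i x => mul_nonneg (h0 _) (Ww_nonneg D h0 fun w _ _ => hP _ _))
        (fun i x => mul_nonneg (h0 _) (Ww_nonneg D h0 fun w _ _ => hQ _ _))).trans ?_
      rw [Ww_succ]
      have : Wa D S (fun a => Ww D S m fun w => hel (P (a :: w)) (Q (a :: w))) =
          ∑ i ∈ S ×ˢ (univ : Finset U), D.nu i.2 * Ww D S m fun w => hel (P (i :: w)) (Q (i :: w)) := by
        rw [Finset.sum_product]; rfl
      rw [this]
      refine Finset.sum_le_sum fun i _ => ?_
      rw [e2 X _ _ (D.nu i.2) (h0 _)]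
      exact mul_le_mul_of_nonneg_left (ih _ _ (fun w x => hP _ _) fun w x => hQ _ _) (h0 _)
  refine ⟨key m P Q hP hQ, ?_⟩
  have hE : ∀ F : List (V × U) → ℝ, Ew D S m F = ((S.card : ℝ) ^ m)⁻¹ * Ww D S m F := by
    intro F; unfold Ew; ring
  have hc : 0 ≤ ((S.card : ℝ) ^ m)⁻¹ := by positivity
  simp_rw [hE]
  rw [e2 X _ _ _ hc]
  exact mul_le_mul_of_nonneg_left (key m P Q hP hQ) hc

end CWM
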