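import Pool.Agent.helper18.CWM.SpecH

set_option autoImplicit false

/-! Row cwm:HG (helper98): basic properties of `gH`. -/

open Finset

namespace CWM

section
variable {V U : Type} [Fintype V] [DecidableEq V] [Fintype U] (D : Dyn V U)

lemma HG_sum_ind {X : Type} [Fintype X] (ξ : X) : ∑ η : X, ind (ξ = η) = 1 := by
  classical
  rw [Finset.sum_eq_single ξ (fun b _ hb => ind_not (fun h => hb h.symm))
    (fun h => absurd (mem_univ _) h), ind_of rfl]

lemma HG_hel_nn {X : Type} [Fintype X] (P Q : X → ℝ) : 0 ≤ hel P Q := by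
  unfold hel
  have : 0 ≤ ∑ x, (√(P x) - √(Q x)) ^ 2 := Finset.sum_nonneg fun x _ => sq_nonneg _
  linarith

lemma HG_le (S : Finset V) (m : ℕ) (A : Finset V) (σ σ' : V → Bool) :
    hel (law D S m A σ) (law D S m A σ') ≤ gH D S m A := by
  unfold gH
  exact le_ciSup (f := fun p : (V → Bool) × (V → Bool) => hel (law D S m A p.1) (law D S m A p.2))
    (Set.finite_range _).bddAbove (σ, σ')

lemma HG_sup (S : Finset V) (m : ℕ) (A : Finset V) (b : ℝ)
    (h : ∀ σ σ' : V → Bool, hel (law D S m A σ) (law D S m A σ') ≤ b) : gH D S m A ≤ b := by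
  unfold gH
  exact ciSup_le fun p => h p.1 p.2

lemma HG_law (h0 : ∀ u, 0 ≤ D.nu u) (h1 : ∑ u, D.nu u = 1) (S : Finset V) (hS : S.Nonempty)
    (m : ℕ) (A : Finset V) (σ : V → Bool) :
    (∀ η, 0 ≤ law D S m A σ η) ∧ ∑ η, law D S m A σ η = 1 := by
  refine ⟨fun η => Ew_nonneg D h0 fun w _ _ => ind_nonneg _, ?_⟩
  unfold law
  rw [← Ew_sum]
  have : ∀ w : List (V × U), ∑ η : V → Bool, ind (msk A (fl D w σ) = η) = 1 :=
    fun w => HG_sum_ind _
  simp_rw [this]
  exact Ew_const D h1 hS m 1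

omit [Fintype V] in
lemma HG_split (S : Finset V) (m j : ℕ) (A : Finset V) (σ : V → Bool) :
    law D S (m + j) A σ = fun η => Ew D S j fun w' => law D S m A (fl D w' σ) η := by
  funext η
  unfold law
  rw [Ew_append, Ew_comm]
  refine Ew_congr D fun w' _ _ => Ew_congr D fun w _ _ => ?_
  rw [fl_append]

lemma HG_pus (hSUP : ∀ (w : List (V × U)) (x : V) (σ τ : V → Bool),
      (∀ z ∈ supp D w x, σ z = τ z) → fl D w σ x = fl D w τ x)
    (S : Finset V) (s m : ℕ) (A : Finset V) (σ : V → Bool) :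
    law D S (s + m) A σ = fun η => Ew D S s fun w =>
      pus (fun ζ => msk A (fl D w ζ)) (law D S m (supS D w A) σ) η := by
  funext η
  unfold law pus
  rw [Ew_append]
  refine Ew_congr D fun w _ _ => ?_
  have e1 : ∀ ζ : V → Bool, (Ew D S m fun w' => ind (msk (supS D w A) (fl D w' σ) = ζ)) *
      ind (msk A (fl D w ζ) = η) = Ew D S m fun w' => ind (msk A (fl D w ζ) = η) *
        ind (msk (supS D w A) (fl D w' σ) = ζ) := by
    intro ζ
    rw [Ew_smul, mul_comm]
  simp_rw [e1]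
  rw [← Ew_sum]
  refine Ew_congr D fun w' _ _ => ?_
  rw [fl_append]
  have e2 : ∀ ζ : V → Bool, ζ ≠ msk (supS D w A) (fl D w' σ) →
      ind (msk A (fl D w ζ) = η) * ind (msk (supS D w A) (fl D w' σ) = ζ) = 0 := by
    intro ζ hζ
    rw [ind_not (p := msk (supS D w A) (fl D w' σ) = ζ) (fun h => hζ h.symm), mul_zero]
  rw [Finset.sum_eq_single (msk (supS D w A) (fl D w' σ)) (fun ζ _ h => e2 ζ h)
    (fun h => absurd (mem_univ _) h), ind_of rfl, mul_one]
  have e3 : msk A (fl D w (fl D w' σ)) = msk A (fl D w (msk (supS D w A) (fl D w' σ))) := by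
    funext x
    unfold msk
    by_cases hx : x ∈ A
    · rw [if_pos hx, if_pos hx]
      refine hSUP w x _ _ fun z hz => ?_
      have hz' : z ∈ supS D w A := Finset.mem_biUnion.2 ⟨x, hx, hz⟩
      rw [if_pos hz']
    · rw [if_neg hx, if_neg hx]
  rw [e3]

end

theorem HG (hHE1 : HE1_stmt) (hHEW : HEW_stmt) (hSUP : SUP_stmt) : HG_stmt := by
  intro V U _ _ _ D d hD S hS
  have h0 := hD.nu0
  have h1 := hD.nu1
  obtain ⟨_, _, hdp, hmass⟩ := hHE1
  have hlaw : ∀ (m : ℕ) (A : Finset V) (σ : V → Bool),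
      (∀ η, 0 ≤ law D S m A σ η) ∧ ∑ η, law D S m A σ η = 1 :=
    fun m A σ => HG_law D h0 h1 S hS m A σ
  have hnn : ∀ (m : ℕ) (A : Finset V), 0 ≤ gH D S m A := fun m A =>
    (HG_hel_nn _ _).trans (HG_le D S m A pl pl)
  refine ⟨fun m A => ⟨HG_le D S m A, HG_sup D S m A⟩, fun m A => ⟨hnn m A, ?_, hlaw m A⟩,
    fun m k A hmk => ?_, fun s m A => ?_, fun m => ?_⟩
  · refine HG_sup D S m A 1 fun σ σ' => ?_
    have := (hmass (V → Bool) (law D S m A σ) (law D S m A σ') (hlaw m A σ).1 (hlaw m A σ').1).2.2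
    rw [(hlaw m A σ).2, (hlaw m A σ').2] at this
    linarith
  · obtain ⟨j, rfl⟩ := Nat.exists_eq_add_of_le hmk
    refine HG_sup D S _ A _ fun σ σ' => ?_
    rw [HG_split, HG_split]
    refine ((hHEW V U D h0 (V → Bool) S j (fun w' => law D S m A (fl D w' σ))
      (fun w' => law D S m A (fl D w' σ')) (fun w x => (hlaw m A _).1 x)
      (fun w x => (hlaw m A _).1 x)).2).trans ?_
    refine (Ew_mono D h0 (G := fun _ => gH D S m A) fun w _ _ => HG_le D S m A _ _).trans ?_
    rw [Ew_const D h1 hS]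
  · refine HG_sup D S _ A _ fun σ σ' => ?_
    have hs := (hSUP V U D d hD).1
    rw [HG_pus D hs, HG_pus D hs]
    have hp : ∀ (w : List (V × U)) (σ η : V → Bool),
        0 ≤ pus (fun ζ => msk A (fl D w ζ)) (law D S m (supS D w A) σ) η := by
      intro w σ η
      unfold pus
      exact Finset.sum_nonneg fun ζ _ => mul_nonneg ((hlaw m _ σ).1 ζ) (ind_nonneg _)
    refine ((hHEW V U D h0 (V → Bool) S s
      (fun w => pus (fun ζ => msk A (fl D w ζ)) (law D S m (supS D w A) σ))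
      (fun w => pus (fun ζ => msk A (fl D w ζ)) (law D S m (supS D w A) σ'))
      (fun w x => hp w σ x) (fun w x => hp w σ' x)).2).trans ?_
    refine Ew_mono D h0 fun w _ _ => ?_
    exact (hdp (V → Bool) (V → Bool) _ _ _ (hlaw m _ σ).1 (hlaw m _ σ').1).trans
      (HG_le D S m _ _ _)
  · refine le_antisymm (HG_sup D S m ∅ 0 fun σ σ' => ?_) (hnn m ∅)
    have e : ∀ σ : V → Bool, law D S m ∅ σ = law D S m ∅ pl := by
      intro σ
      funext η
      unfold law
      refine Ew_congr D fun w _ _ => ?_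
      have : msk (∅ : Finset V) (fl D w σ) = msk ∅ (fl D w pl) := by
        funext x
        simp [msk]
      rw [this]
    rw [e σ, e σ']
    unfold hel
    simp

end CWM
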