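import Pool.Agent.helper18.CWM.SpecB

/-!
# Project cwm: row HOM (homogeneity)
-/

open Finset

namespace CWM

section
variable {V U : Type} [Fintype V] [DecidableEq V] [Fintype U] (D : Dyn V U)

/-- relabelled letter -/
def HOM_r (e : Equiv.Perm V) (a : V × U) : V × U := (e a.1, a.2)

omit [DecidableEq V] in
lemma HOM_Wa (e : Equiv.Perm V) (F : V × U → ℝ) :
    Wa D univ F = Wa D univ (fun a => F (HOM_r e a)) := by
  unfold Wa HOM_r
  exact (Equiv.sum_comp e (fun x => ∑ u, D.nu u * F (x, u))).symm

omit [DecidableEq V] in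
lemma HOM_Ww (e : Equiv.Perm V) (m : ℕ) : ∀ F : List (V × U) → ℝ,
    Ww D univ m F = Ww D univ m (fun w => F (w.map (HOM_r e))) := by
  induction m with
  | zero => intro F; rfl
  | succ m ih =>
    intro F
    rw [Ww_succ, Ww_succ]
    have h1 : (fun a => Ww D univ m fun w => F (a :: w)) =
        fun a => Ww D univ m fun w => F (a :: w.map (HOM_r e)) := by
      funext a
      exact ih (fun w => F (a :: w))
    rw [h1, HOM_Wa D e]
    rfl

omit [Fintype V] [Fintype U] in
lemma HOM_fl (e : Equiv.Perm V)
    (he : ∀ (z : V) (u : U) (σ : V → Bool), D.up (e z) u σ = D.up z u (fun v => σ (e v)))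
    (w : List (V × U)) (σ : V → Bool) :
    (fun x => fl D (w.map (HOM_r e)) σ (e x)) = fl D w (fun v => σ (e v)) := by
  induction w with
  | nil => rfl
  | cons a w ih =>
    funext x
    show stp D (HOM_r e a) (fl D (w.map (HOM_r e)) σ) (e x) = stp D a (fl D w (fun v => σ (e v))) x
    rw [← ih]
    unfold stp HOM_r
    simp only
    by_cases hx : x = a.1
    · rw [hx, Function.update_self, Function.update_self, he]
    · rw [Function.update_of_ne (fun h => hx (e.injective h)), Function.update_of_ne hx]

omit [Fintype U] in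
lemma HOM_supp (e : Equiv.Perm V)
    (he : ∀ (z : V) (u : U) (σ : V → Bool), D.up (e z) u σ = D.up z u (fun v => σ (e v)))
    (w : List (V × U)) (x : V) :
    (supp D (w.map (HOM_r e)) (e x)).card = (supp D w x).card := by
  have h1 : supp D (w.map (HOM_r e)) (e x) = (supp D w x).map e.toEmbedding := by
    ext z
    rw [Finset.mem_map]
    unfold supp
    simp only [Finset.mem_filter, Finset.mem_univ, true_and, Equiv.coe_toEmbedding]
    have hfl : ∀ σ : V → Bool, fl D (w.map (HOM_r e)) σ (e x) = fl D w (fun v => σ (e v)) x :=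
      fun σ => congrFun (HOM_fl D e he w σ) x
    have hflp : ∀ (y : V) (σ : V → Bool),
        (fun v => flp (e y) σ (e v)) = flp y (fun v => σ (e v)) := by
      intro y σ
      funext v
      unfold flp
      by_cases hv : v = y
      · rw [hv, Function.update_self, Function.update_self]
      · rw [Function.update_of_ne (fun h => hv (e.injective h)), Function.update_of_ne hv]
    constructor
    · rintro ⟨σ, hσ⟩
      refine ⟨e.symm z, ⟨fun v => σ (e v), ?_⟩, e.apply_symm_apply z⟩
      rw [hfl, hfl] at hσ
      rw [← hflp (e.symm z) σ, e.apply_symm_apply]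
      exact hσ
    · rintro ⟨y, ⟨τ, hτ⟩, rfl⟩
      refine ⟨fun v => τ (e.symm v), ?_⟩
      rw [hfl, hfl, hflp]
      have h2 : (fun v => (fun v => τ (e.symm v)) (e v)) = τ := by
        funext v
        simp
      simp only at h2 ⊢
      rw [h2]
      exact hτ
  rw [h1, Finset.card_map]

end

/-- **HOM**. -/
theorem HOM : HOM_stmt := by
  intro V U _ _ _ D hD m x y
  obtain ⟨e, hxy, he⟩ := hD x y
  have hfl : ∀ (w : List (V × U)) (σ : V → Bool) (x : V),
      fl D (w.map (HOM_r e)) σ (e x) = fl D w (fun v => σ (e v)) x :=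
    fun w σ x => congrFun (HOM_fl D e he w σ) x
  constructor
  · unfold uu Ew
    congr 1
    rw [HOM_Ww D e m (fun w => ind (fl D w pl y ≠ fl D w mi y))]
    refine Ww_congr D (fun w _ _ => ?_)
    rw [← hxy, hfl, hfl]
    rfl
  · unfold GG Ew
    congr 1
    rw [HOM_Ww D e m (fun w => ((supp D w y).card : ℝ))]
    refine Ww_congr D (fun w _ _ => ?_)
    rw [← hxy, HOM_supp D e he]

end CWM
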