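import Pool.Agent.helper18.CWM.SpecH

/-!
# Project cwm, module I2: the law on a union of separated sets
-/

open Finset Filter Topology

namespace CWM

section
variable {V U : Type} [Fintype V] [DecidableEq V] [Fintype U]

omit [Fintype V] [DecidableEq V] in
lemma I2_abs (D : Dyn V U) (h0 : ∀ u, 0 ≤ D.nu u) (S : Finset V) (m : ℕ) (F : List (V × U) → ℝ) :
    |Ew D S m F| ≤ Ew D S m fun w => |F w| := by
  rw [abs_le]
  constructor
  · have h1 : Ew D S m (fun w => (-1) * |F w|) ≤ Ew D S m F :=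
      Ew_mono D h0 fun w _ _ => by linarith [neg_abs_le (F w)]
    rw [Ew_smul] at h1
    linarith
  · exact Ew_mono D h0 fun w _ _ => le_abs_self (F w)

lemma I2_psi (D : Dyn V U) {d : ℕ} (hD : D.Ok d) (hANC : ANC_stmt) (w : List (V × U)) (σ : V → Bool) (ρ : ℕ)
    (x : V) (hx : anc D w {x} ⊆ Bl D x ρ) :
    ∀ L : List (Finset V × Finset V), (∀ p ∈ L, BS D p.2 ρ ⊆ p.1) →
      ((∃ p ∈ L, x ∈ p.2) → psi D L w σ x = fl D w σ x) ∧ ((¬ ∃ p ∈ L, x ∈ p.2) → psi D L w σ x = false) := by
  intro L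
  induction L with
  | nil =>
    intro _
    refine ⟨fun ⟨p, hp, _⟩ => by simp at hp, fun _ => rfl⟩
  | cons q L ih =>
    intro hL
    have ih' := ih fun p hp => hL p (List.mem_cons_of_mem _ hp)
    have hq := hL q List.mem_cons_self
    have hpsi : psi D (q :: L) w σ x = if x ∈ q.2 then fl D (filt q.1 w) σ x else psi D L w σ x := rfl
    rw [hpsi]
    by_cases hxq : x ∈ q.2
    · rw [if_pos hxq]
      refine ⟨fun _ => ?_, fun h => (h ⟨q, List.mem_cons_self, hxq⟩).elim⟩
      obtain ⟨_, h2, _, _, _, _, h7⟩ := hANC V U D d hD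
      have hB : Bl D x ρ ⊆ q.1 := by
        intro y hy
        exact hq ((mem_BS D).2 ⟨x, hxq, (mem_Bl D).1 hy⟩)
      have hsub : ({x} : Finset V) ⊆ q.1 := fun y hy => hB (hx (h2 w {x} hy))
      exact ((h7 q.1 {x} w hsub (hx.trans hB)).2 σ x (mem_singleton_self x)).symm
    · rw [if_neg hxq]
      constructor
      · rintro ⟨p, hp, hxp⟩
        rcases List.mem_cons.1 hp with rfl | hp
        · exact (hxq hxp).elim
        · exact ih'.1 ⟨p, hp, hxp⟩
      · intro h
        exact ih'.2 fun ⟨p, hp, hxp⟩ => h ⟨p, List.mem_cons_of_mem _ hp, hxp⟩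

lemma I2_msk (D : Dyn V U) {d : ℕ} (hD : D.Ok d) (hANC : ANC_stmt) (w : List (V × U)) (σ : V → Bool) (ρ : ℕ)
    (L : List (Finset V × Finset V)) (hL : ∀ p ∈ L, BS D p.2 ρ ⊆ p.1) (A : Finset V)
    (hA : ∀ x, x ∈ A ↔ ∃ p ∈ L, x ∈ p.2) (hx : ∀ x ∈ A, anc D w {x} ⊆ Bl D x ρ) :
    msk A (fl D w σ) = psi D L w σ := by
  funext x
  by_cases hxA : x ∈ A
  · rw [(I2_psi D hD hANC w σ ρ x (hx x hxA) L hL).1 ((hA x).1 hxA)]
    unfold msk
    rw [if_pos hxA]
  · have h1 : ∀ L : List (Finset V × Finset V), (¬ ∃ p ∈ L, x ∈ p.2) → psi D L w σ x = false := by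
      intro L
      induction L with
      | nil => intro _; rfl
      | cons q L ih =>
        intro h
        have hpsi : psi D (q :: L) w σ x = if x ∈ q.2 then fl D (filt q.1 w) σ x else psi D L w σ x := rfl
        rw [hpsi, if_neg fun hq => h ⟨q, List.mem_cons_self, hq⟩]
        exact ih fun ⟨p, hp, hxp⟩ => h ⟨p, List.mem_cons_of_mem _ hp, hxp⟩
    rw [h1 L fun h => hxA ((hA x).2 h)]
    unfold msk
    rw [if_neg hxA]

/-- two laws which coincide on an event -/
lemma I2_couple (D : Dyn V U) (h0 : ∀ u, 0 ≤ D.nu u) (hHE1 : HE1_stmt) (S : Finset V) (m : ℕ)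
    (f g : List (V × U) → V → Bool) (b : ℝ) (hb : Ew D S m (fun w => ind (f w ≠ g w)) ≤ b) :
    hel (fun η => Ew D S m fun w => ind (f w = η)) (fun η => Ew D S m fun w => ind (g w = η)) ≤ b := by
  have hp : ∀ (f : List (V × U) → V → Bool) (η : V → Bool), 0 ≤ Ew D S m fun w => ind (f w = η) :=
    fun f η => Ew_nonneg D h0 fun w _ _ => ind_nonneg _
  have h1 := (hHE1.2.2.2 (V → Bool) (fun η => Ew D S m fun w => ind (f w = η))
    (fun η => Ew D S m fun w => ind (g w = η)) (hp f) (hp g)).2.1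
  refine h1.trans ?_
  have h2 : ∀ η : V → Bool, |(Ew D S m fun w => ind (f w = η)) - Ew D S m fun w => ind (g w = η)| ≤
      Ew D S m fun w => |ind (f w = η) - ind (g w = η)| := by
    intro η
    rw [← Ew_sub]
    exact I2_abs D h0 S m _
  have h3 : ∑ η : V → Bool, |(Ew D S m fun w => ind (f w = η)) - Ew D S m fun w => ind (g w = η)| ≤
      2 * Ew D S m fun w => ind (f w ≠ g w) := by
    refine (Finset.sum_le_sum fun η _ => h2 η).trans ?_
    rw [← Ew_sum, ← Ew_smul]
    refine Ew_mono D h0 fun w _ _ => ?_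
    by_cases hfg : f w = g w
    · rw [hfg]
      simp only [sub_self, abs_zero, Finset.sum_const_zero]
      have := ind_nonneg (g w ≠ g w)
      linarith
    · rw [ind_of hfg]
      have h4 : ∀ η : V → Bool, |ind (f w = η) - ind (g w = η)| ≤ ind (f w = η) + ind (g w = η) := by
        intro η
        rw [abs_le]
        have a1 := ind_nonneg (f w = η)
        have a2 := ind_nonneg (g w = η)
        constructor <;> linarith
      refine (Finset.sum_le_sum fun η _ => h4 η).trans ?_
      rw [Finset.sum_add_distrib]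
      have h5 : ∀ ζ : V → Bool, ∑ η : V → Bool, ind (ζ = η) = 1 := by
        intro ζ
        rw [Finset.sum_eq_single ζ]
        · exact ind_of rfl
        · intro η _ hη
          exact ind_not fun h => hη h.symm
        · intro h
          exact (h (Finset.mem_univ ζ)).elim
      rw [h5, h5]
      norm_num
  linarith

end

theorem I2 (hI2A : I2A_stmt) (hHE1 : HE1_stmt) (hHE2 : HE2_stmt) (hHG : HG_stmt) (hANC : ANC_stmt)
    (hTL : TL_stmt) : I2_stmt := by
  intro V U _ _ _ D d hD L ρ A hL hLp hA hV m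
  have hne : (univ : Finset V).Nonempty := univ_nonempty
  set t : ℝ := (1 / 2) ^ (ρ + 1) * Real.exp (4 * d * (m / Fintype.card V)) with ht
  have hTL4 := (hTL V U D d hD).2.2.2
  have hL1 : ∀ p ∈ L, BS D p.2 ρ ⊆ p.1 := fun p hp => (hL p hp).1
  -- the probability that some ancestry leaves its ball
  have hbad : ∀ σ : V → Bool, Ew D univ m (fun w => ind (msk A (fl D w σ) ≠ psi D L w σ)) ≤ A.card * t := by
    intro σ
    have h1 : Ew D univ m (fun w => ind (msk A (fl D w σ) ≠ psi D L w σ)) ≤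
        Ew D univ m (fun w => ∑ x ∈ A, ind (¬ anc D w {x} ⊆ Bl D x ρ)) := by
      refine Ew_mono D hD.nu0 fun w _ _ => ?_
      refine le_trans ?_ (ind_exists_le A fun x => ¬ anc D w {x} ⊆ Bl D x ρ)
      refine ind_mono fun h => ?_
      by_contra h'
      push Not at h'
      exact h (I2_msk D hD hANC w σ ρ L hL1 A hA h')
    refine h1.trans ?_
    rw [Ew_sum]
    have h2 : ∀ x ∈ A, Ew D univ m (fun w => ind (¬ anc D w {x} ⊆ Bl D x ρ)) ≤ t := by
      intro x _
      have := hTL4 univ x m ρ hne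
      rw [Finset.card_univ] at this
      exact this
    refine (Finset.sum_le_sum h2).trans ?_
    rw [Finset.sum_const, nsmul_eq_mul]
  refine ((hHG V U D d hD univ hne).1 m A).2 _ fun σ σ' => ?_
  have hE2 := hHE2.2.2.1 (V → Bool) (law D univ m A σ) (fun η => Ew D univ m fun w => ind (psi D L w σ = η))
    (fun η => Ew D univ m fun w => ind (psi D L w σ' = η)) (law D univ m A σ')
  refine hE2.trans ?_
  refine mul_le_mul_of_nonneg_left ?_ (by norm_num)
  have g1 : hel (law D univ m A σ) (fun η => Ew D univ m fun w => ind (psi D L w σ = η)) ≤ A.card * t :=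
    I2_couple D hD.nu0 hHE1 univ m (fun w => msk A (fl D w σ)) (fun w => psi D L w σ) _ (hbad σ)
  have g2 : hel (fun η => Ew D univ m fun w => ind (psi D L w σ' = η)) (law D univ m A σ') ≤ A.card * t := by
    refine I2_couple D hD.nu0 hHE1 univ m (fun w => psi D L w σ') (fun w => msk A (fl D w σ')) _ ?_
    refine le_trans ?_ (hbad σ')
    exact Ew_mono D hD.nu0 fun w _ _ => ind_mono fun h => Ne.symm h
  have g3 : hel (fun η => Ew D univ m fun w => ind (psi D L w σ = η))
      (fun η => Ew D univ m fun w => ind (psi D L w σ' = η)) ≤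
      (L.map fun p => Ew D univ m fun w => gH D p.1 (filt p.1 w).length p.2).sum := by
    have hc : (0 : ℝ) ≤ (((univ : Finset V).card : ℝ) ^ m)⁻¹ := by positivity
    have e1 : ∀ σ : V → Bool, (fun η => Ew D univ m fun w => ind (psi D L w σ = η)) =
        fun η => (((univ : Finset V).card : ℝ) ^ m)⁻¹ * Ww D univ m fun w => ind (psi D L w σ = η) := by
      intro σ
      funext η
      unfold Ew
      rw [div_eq_inv_mul]
    rw [e1, e1, hHE1.2.1 (V → Bool) _ _ _ hc]
    have hA2 := hI2A V U D d hD L univ (fun p hp => ⟨subset_univ _, ?_, ?_⟩) hLp m σ σ'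
    · refine (mul_le_mul_of_nonneg_left hA2 hc).trans (le_of_eq ?_)
      rw [← List.sum_map_mul_left]
      congr 1
      refine List.map_congr_left fun p _ => ?_
      unfold Ew
      rw [div_eq_inv_mul]
    · obtain ⟨y, hy⟩ := (hL p hp).2
      refine ⟨y, (hL p hp).1 ((mem_BS D).2 ⟨y, hy, ?_⟩)⟩
      rw [(hD.ds0 y y).2 rfl]
      exact Nat.zero_le _
    · intro y hy
      refine (hL p hp).1 ((mem_BS D).2 ⟨y, hy, ?_⟩)
      rw [(hD.ds0 y y).2 rfl]
      exact Nat.zero_le _
  linarith

end CWM
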