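import Pool.Agent.helper18.CWM.SpecH

set_option autoImplicit false

/-! Row cwm:I2A (helper98): tensorisation over disjoint regions. -/

open Finset

namespace CWM

section
variable {V U : Type} [Fintype V] [DecidableEq V] [Fintype U] (D : Dyn V U)

omit [Fintype V] [DecidableEq V] in
lemma I2A_pus {X Y Z : Type} [Fintype X] [Fintype Y] (R R' : Finset V) (c k : ℕ)
    (a : List (V × U) → X) (b : List (V × U) → Y) (Φ : X × Y → Z) :
    pus Φ (fun z : X × Y => (Ww D R c fun w => ind (a w = z.1)) * Ww D R' k fun w => ind (b w = z.2)) =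
      fun η => Ww D R c fun w1 => Ww D R' k fun w2 => ind (Φ (a w1, b w2) = η) := by
  classical
  funext η
  unfold pus
  have e1 : ∀ z : X × Y, (Ww D R c fun w => ind (a w = z.1)) * (Ww D R' k fun w => ind (b w = z.2)) *
      ind (Φ z = η) = Ww D R c fun w1 => Ww D R' k fun w2 =>
        ind (Φ z = η) * (ind (a w1 = z.1) * ind (b w2 = z.2)) := by
    intro z
    have e2 : ∀ w1 : List (V × U), (Ww D R' k fun w2 =>
        ind (Φ z = η) * (ind (a w1 = z.1) * ind (b w2 = z.2))) =
        (ind (Φ z = η) * Ww D R' k fun w2 => ind (b w2 = z.2)) * ind (a w1 = z.1) := by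
      intro w1
      rw [Ww_smul, Ww_smul]
      ring
    simp_rw [e2]
    rw [Ww_smul]
    ring
  simp_rw [e1]
  rw [← Ww_sum]
  refine Ww_congr D fun w1 _ _ => ?_
  rw [← Ww_sum]
  refine Ww_congr D fun w2 _ _ => ?_
  rw [Finset.sum_eq_single (a w1, b w2)]
  · rw [ind_of rfl, ind_of rfl]
    ring
  · intro z _ hz
    by_cases h1 : a w1 = z.1
    · by_cases h2 : b w2 = z.2
      · exact absurd (Prod.ext h1.symm h2.symm) hz
      · rw [ind_not h2]
        ring
    · rw [ind_not h1]
      ring
  · intro h
    exact absurd (mem_univ _) h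

omit [Fintype V] [Fintype U] in
lemma I2A_psi (L : List (Finset V × Finset V)) (w w' : List (V × U)) (σ : V → Bool)
    (h : ∀ q ∈ L, filt q.1 w = filt q.1 w') : psi D L w σ = psi D L w' σ := by
  induction L with
  | nil => rfl
  | cons p L ih =>
    funext x
    unfold psi
    rw [h p List.mem_cons_self, ih fun q hq => h q (List.mem_cons_of_mem _ hq)]

omit [Fintype V] [DecidableEq V] in
lemma I2A_mass {X : Type} [Fintype X] (h1 : ∑ u, D.nu u = 1) (S : Finset V) (m : ℕ)
    (a : List (V × U) → X) : ∑ z : X, (Ww D S m fun w => ind (a w = z)) = (S.card : ℝ) ^ m := by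
  classical
  rw [← Ww_sum]
  have h : ∀ w : List (V × U), ∑ z : X, ind (a w = z) = 1 := by
    intro w
    rw [Finset.sum_eq_single (a w) (fun b _ hb => ind_not (fun h => hb h.symm))
      (fun h => absurd (mem_univ _) h), ind_of rfl]
  simp_rw [h]
  rw [Ww_const D h1, mul_one]

end

theorem I2A (hSPL : SPL_stmt) (hHE1 : HE1_stmt) (hHE2 : HE2_stmt) (hHG : HG_stmt) : I2A_stmt := by
  intro V U _ _ _ D d hD L
  have h0 := hD.nu0
  have h1 := hD.nu1
  obtain ⟨hsub, hhom, hdp, hmass⟩ := hHE1
  have hten := hHE2.1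
  induction L with
  | nil =>
    intro T _ _ m σ σ'
    have e : ∀ (X : Type) [Fintype X] (P : X → ℝ), hel P P = 0 := by
      intro X _ P
      unfold hel
      simp
    show hel (fun η => Ww D T m fun w => ind (mi = η)) (fun η => Ww D T m fun w => ind (mi = η)) ≤ 0
    rw [e]
  | cons p L ih =>
    intro T hT hpw m σ σ'
    obtain ⟨hpT, hpn, hp2⟩ := hT p List.mem_cons_self
    rw [List.pairwise_cons] at hpw
    obtain ⟨hdis, hpw'⟩ := hpw
    set R : Finset V := p.1 with hR
    set R' : Finset V := T \ R with hR'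
    have hTe : R ∪ R' = T := Finset.union_sdiff_of_subset hpT
    have hRR : Disjoint R R' := Finset.disjoint_sdiff
    have hq : ∀ q ∈ L, q.1 ⊆ R' := by
      intro q hq x hx
      rw [hR', mem_sdiff]
      exact ⟨(hT q (List.mem_cons_of_mem _ hq)).1 hx,
        fun h => (Finset.disjoint_left.1 (hdis q hq)) h hx⟩
    set Φ : (V → Bool) × (V → Bool) → (V → Bool) :=
      fun z x => if x ∈ p.2 then z.1 x else z.2 x with hΦ
    -- the pieces
    set P1 : ℕ → (V → Bool) → (V → Bool) → ℝ :=
      fun c τ ζ => Ww D R c fun w => ind (msk p.2 (fl D w τ) = ζ) with hP1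
    set P2 : ℕ → (V → Bool) → (V → Bool) → ℝ :=
      fun k τ ξ => Ww D R' k fun w => ind (psi D L w τ = ξ) with hP2
    have hP1n : ∀ c τ ζ, 0 ≤ P1 c τ ζ := fun c τ ζ => Ww_nonneg D h0 fun _ _ _ => ind_nonneg _
    have hP2n : ∀ k τ ξ, 0 ≤ P2 k τ ξ := fun k τ ξ => Ww_nonneg D h0 fun _ _ _ => ind_nonneg _
    have hP1m : ∀ c τ, ∑ ζ, P1 c τ ζ = (R.card : ℝ) ^ c := fun c τ => I2A_mass D h1 R c _
    have hP2m : ∀ k τ, ∑ ξ, P2 k τ ξ = (R'.card : ℝ) ^ k := fun k τ => I2A_mass D h1 R' k _
    have hdec : ∀ τ : V → Bool, (fun η => Ww D T m fun w => ind (psi D (p :: L) w τ = η)) =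
        fun η => ∑ c ∈ range (m + 1), (m.choose c : ℝ) *
          pus Φ (fun z => P1 c τ z.1 * P2 (m - c) τ z.2) η := by
      intro τ
      funext η
      have e1 : (Ww D T m fun w => ind (psi D (p :: L) w τ = η)) =
          Ww D (R ∪ R') m (fun w => (fun w1 w2 => ind (Φ (msk p.2 (fl D w1 τ), psi D L w2 τ) = η))
            (filt R w) (filt R' w)) := by
        rw [hTe]
        refine Ww_congr D fun w _ _ => ?_
        have e2 : psi D (p :: L) w τ = Φ (msk p.2 (fl D (filt R w) τ), psi D L (filt R' w) τ) := by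
          funext x
          have e3 : psi D L (filt R' w) τ = psi D L w τ :=
            I2A_psi D L _ _ _ fun q hq' => filt_filt q.1 R' w (hq q hq')
          rw [hΦ]
          show (if x ∈ p.2 then fl D (filt p.1 w) τ x else psi D L w τ x) =
            if x ∈ p.2 then msk p.2 (fl D (filt R w) τ) x else psi D L (filt R' w) τ x
          rw [e3]
          by_cases hx : x ∈ p.2
          · rw [if_pos hx, if_pos hx]
            unfold msk
            rw [if_pos hx]
          · rw [if_neg hx, if_neg hx]
        rw [e2]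
      refine e1.trans ((hSPL V U D R R' hRR m
        (fun w1 w2 => ind (Φ (msk p.2 (fl D w1 τ), psi D L w2 τ) = η))).trans ?_)
      refine Finset.sum_congr rfl fun c _ => ?_
      have e4 := I2A_pus D R R' c (m - c) (fun w => msk p.2 (fl D w τ)) (fun w => psi D L w τ) Φ
      have e5 := congrFun e4 η
      rw [← e5]
    rw [hdec σ, hdec σ']
    have hpn0 : ∀ c τ η, 0 ≤ pus Φ (fun z => P1 c τ z.1 * P2 (m - c) τ z.2) η := by
      intro c τ η
      unfold pus
      exact Finset.sum_nonneg fun z _ => mul_nonneg (mul_nonneg (hP1n _ _ _) (hP2n _ _ _))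
        (ind_nonneg _)
    refine (hsub (V → Bool) ℕ (range (m + 1))
      (fun c η => (m.choose c : ℝ) * pus Φ (fun z => P1 c σ z.1 * P2 (m - c) σ z.2) η)
      (fun c η => (m.choose c : ℝ) * pus Φ (fun z => P1 c σ' z.1 * P2 (m - c) σ' z.2) η)
      (fun c η => mul_nonneg (Nat.cast_nonneg _) (hpn0 _ _ _))
      (fun c η => mul_nonneg (Nat.cast_nonneg _) (hpn0 _ _ _))).trans ?_
    -- bound of each term
    have hG := hHG V U D d hD
    have hterm : ∀ c, hel (pus Φ (fun z => P1 c σ z.1 * P2 (m - c) σ z.2))
        (pus Φ (fun z => P1 c σ' z.1 * P2 (m - c) σ' z.2)) ≤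
        (Ww D R c fun w1 => Ww D R' (m - c) fun _ => gH D R w1.length p.2) +
        (L.map fun q => Ww D R c fun _ => Ww D R' (m - c) fun w2 =>
          gH D q.1 (filt q.1 w2).length q.2).sum := by
      intro c
      refine (hdp _ _ Φ _ _ (fun z => mul_nonneg (hP1n _ _ _) (hP2n _ _ _))
        (fun z => mul_nonneg (hP1n _ _ _) (hP2n _ _ _))).trans ?_
      refine (hten _ _ (P1 c σ) (P1 c σ') (P2 (m - c) σ) (P2 (m - c) σ') _ _ (hP1n _ _) (hP1n _ _)
        (hP2n _ _) (hP2n _ _) (hP1m c σ) (hP1m c σ') (hP2m _ σ) (hP2m _ σ')).trans ?_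
      have hRc : (0 : ℝ) < (R.card : ℝ) ^ c := pow_pos (by exact_mod_cast Finset.card_pos.2 hpn) _
      have k1 : hel (P1 c σ) (P1 c σ') ≤ (R.card : ℝ) ^ c * gH D R c p.2 := by
        have e : ∀ τ, P1 c τ = fun ζ => (R.card : ℝ) ^ c * law D R c p.2 τ ζ := by
          intro τ
          funext ζ
          rw [hP1]
          unfold law Ew
          field_simp
        rw [e σ, e σ', hhom _ _ _ _ hRc.le]
        exact mul_le_mul_of_nonneg_left ((hG R hpn).1 c p.2 |>.1 σ σ') hRc.le
      have k2 : hel (P2 (m - c) σ) (P2 (m - c) σ') ≤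
          (L.map fun q => Ww D R' (m - c) fun w => gH D q.1 (filt q.1 w).length q.2).sum :=
        ih R' (fun q hq' => ⟨hq q hq', (hT q (List.mem_cons_of_mem _ hq')).2.1,
          (hT q (List.mem_cons_of_mem _ hq')).2.2⟩) hpw' (m - c) σ σ'
      refine add_le_add ?_ ?_
      · have e : (Ww D R c fun w1 => Ww D R' (m - c) fun _ => gH D R w1.length p.2) =
            (R'.card : ℝ) ^ (m - c) * ((R.card : ℝ) ^ c * gH D R c p.2) := by
          have e' : (Ww D R c fun w1 => Ww D R' (m - c) fun _ => gH D R w1.length p.2) =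
              Ww D R c fun _ => (R'.card : ℝ) ^ (m - c) * gH D R c p.2 := by
            refine Ww_congr D fun w1 hw1 _ => ?_
            rw [Ww_const D h1, hw1]
          rw [e', Ww_const D h1]
          ring
        rw [e]
        exact mul_le_mul_of_nonneg_left k1 (by positivity)
      · have e : (L.map fun q => Ww D R c fun _ => Ww D R' (m - c) fun w2 =>
            gH D q.1 (filt q.1 w2).length q.2).sum = (R.card : ℝ) ^ c *
            (L.map fun q => Ww D R' (m - c) fun w => gH D q.1 (filt q.1 w).length q.2).sum := by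
          rw [← List.sum_map_mul_left]
          congr 1
          refine List.map_congr_left fun q _ => ?_
          rw [Ww_const D h1]
        rw [e]
        exact mul_le_mul_of_nonneg_left k2 hRc.le
    -- the sum over `c`
    have hsplit : ∀ H : List (V × U) → List (V × U) → ℝ,
        ∑ c ∈ range (m + 1), (m.choose c : ℝ) * (Ww D R c fun w1 => Ww D R' (m - c) fun w2 => H w1 w2) =
          Ww D T m (fun w => H (filt R w) (filt R' w)) := by
      intro H
      rw [← hSPL V U D R R' hRR m H, hTe]
    calc ∑ c ∈ range (m + 1), hel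
          (fun η => (m.choose c : ℝ) * pus Φ (fun z => P1 c σ z.1 * P2 (m - c) σ z.2) η)
          (fun η => (m.choose c : ℝ) * pus Φ (fun z => P1 c σ' z.1 * P2 (m - c) σ' z.2) η)
        ≤ ∑ c ∈ range (m + 1), (m.choose c : ℝ) *
          ((Ww D R c fun w1 => Ww D R' (m - c) fun _ => gH D R w1.length p.2) +
          (L.map fun q => Ww D R c fun _ => Ww D R' (m - c) fun w2 =>
            gH D q.1 (filt q.1 w2).length q.2).sum) := by
          refine Finset.sum_le_sum fun c _ => ?_
          rw [hhom _ _ _ _ (Nat.cast_nonneg _)]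
          exact mul_le_mul_of_nonneg_left (hterm c) (Nat.cast_nonneg _)
      _ = ((p :: L).map fun q => Ww D T m fun w => gH D q.1 (filt q.1 w).length q.2).sum := by
          rw [List.map_cons, List.sum_cons]
          simp_rw [mul_add]
          rw [Finset.sum_add_distrib]
          congr 1
          · rw [hsplit fun w1 _ => gH D R w1.length p.2]
          · have e1 : ∀ c : ℕ, (m.choose c : ℝ) * (L.map fun q => Ww D R c fun _ =>
                Ww D R' (m - c) fun w2 => gH D q.1 (filt q.1 w2).length q.2).sum =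
                (L.map fun q => (m.choose c : ℝ) * Ww D R c fun _ =>
                Ww D R' (m - c) fun w2 => gH D q.1 (filt q.1 w2).length q.2).sum := by
              intro c
              rw [List.sum_map_mul_left]
            simp_rw [e1]
            have e2 : ∀ (L' : List (Finset V × Finset V)) (f : ℕ → (Finset V × Finset V) → ℝ),
                ∑ c ∈ range (m + 1), (L'.map (f c)).sum =
                  (L'.map fun q => ∑ c ∈ range (m + 1), f c q).sum := by
              intro L' f
              induction L' with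
              | nil => simp
              | cons q L' ih' =>
                simp only [List.map_cons, List.sum_cons]
                rw [Finset.sum_add_distrib, ih']
            rw [e2 L fun c q => (m.choose c : ℝ) * Ww D R c fun _ =>
                Ww D R' (m - c) fun w2 => gH D q.1 (filt q.1 w2).length q.2]
            congr 1
            refine List.map_congr_left fun q hq' => ?_
            rw [hsplit fun _ w2 => gH D q.1 (filt q.1 w2).length q.2]
            refine Ww_congr D fun w _ _ => ?_
            rw [filt_filt q.1 R' w (hq q hq')]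

end CWM
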