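import Pool.Agent.helper18.CWM.SpecA

set_option autoImplicit false

open Finset Filter Topology

namespace CWM

theorem JEN_TE {V : Type} [Fintype V] [DecidableEq V] (nb : V → Finset V) (β h : ℝ)
    (F : Finset V → Finset V → ℝ) (D A : Finset V) :
    TE nb β h F D A = ∑ A' ∈ (bd nb D A).powerset,
      (cE nb β h D A A' * ZA nb β h (D \ A') A' / ZA nb β h D A) * F (D \ A') A' := by
  unfold TE
  rw [Finset.sum_div]
  refine Finset.sum_congr rfl fun A' _ => ?_
  ring

theorem JEN_cE {V : Type} [Fintype V] [DecidableEq V] (nb : V → Finset V) (β h : ℝ)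
    (D A A' : Finset V) :
    cE nb β (-h) D A A' = cE nb β h D A A' * Real.exp (2 * h * A'.card) := by
  unfold cE
  have e : Real.exp (β * ((1 / 2) * ∑ x ∈ A', nA nb A' x) - -h * A'.card) =
      Real.exp (β * ((1 / 2) * ∑ x ∈ A', nA nb A' x) - h * A'.card) *
        Real.exp (2 * h * A'.card) := by
    rw [← Real.exp_add]
    congr 1
    ring
  rw [e]
  ring

theorem JEN (hEXP : EXP_stmt) (hZLE : ZLE_stmt) : JEN_stmt := by
  intro V _ _ nb d hs hnb β h hβ hh
  have hZ := fun D A => hZLE V nb d hs hnb β h hβ hh.le D A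
  have hpos : ∀ D A, 0 < ZA nb β h D A := fun D A => (hZ D A).1
  have hneg : ∀ D A, 0 < ZA nb β (-h) D A := fun D A => (hZ D A).2.1
  have hcE : ∀ D A A', 0 ≤ cE nb β h D A A' := fun D A A' => (hZ D A).2.2.1 A'
  have hE : ∀ (h' : ℝ) (D A : Finset V), ZA nb β h' D A =
      ∑ A' ∈ (bd nb D A).powerset, cE nb β h' D A A' * ZA nb β h' (D \ A') A' :=
    fun h' D A => hEXP V nb hs β h' D A fun _ => 1
  set p : Finset V → Finset V → Finset V → ℝ := fun D A A' =>
    cE nb β h D A A' * ZA nb β h (D \ A') A' / ZA nb β h D A with hp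
  have hp0 : ∀ D A A', 0 ≤ p D A A' := fun D A A' =>
    div_nonneg (mul_nonneg (hcE D A A') (hpos _ _).le) (hpos _ _).le
  have hp1 : ∀ D A, ∑ A' ∈ (bd nb D A).powerset, p D A A' = 1 := by
    intro D A
    rw [← Finset.sum_div, ← hE h D A, div_self (hpos D A).ne']
  have hTE : ∀ F D A, TE nb β h F D A = ∑ A' ∈ (bd nb D A).powerset, p D A A' * F (D \ A') A' :=
    fun F D A => JEN_TE nb β h F D A
  have key : ∀ (k : ℕ) (D A : Finset V), 2 * h * ∑ j ∈ range k, sk nb β h (j + 1) D A ≤
      Real.log (ZA nb β (-h) D A / ZA nb β h D A) := by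
    intro k
    induction k with
    | zero =>
      intro D A
      rw [Finset.sum_range_zero, mul_zero]
      apply Real.log_nonneg
      rw [le_div_iff₀ (hpos D A), one_mul]
      exact (hZ D A).2.2.2.1
    | succ k ih =>
      intro D A
      rw [Finset.sum_range_succ']
      have e1 : ∀ j, sk nb β h (j + 1 + 1) D A =
          ∑ A' ∈ (bd nb D A).powerset, p D A A' * sk nb β h (j + 1) (D \ A') A' := fun j =>
        hTE (sk nb β h (j + 1)) D A
      have e2 : sk nb β h (0 + 1) D A =
          ∑ A' ∈ (bd nb D A).powerset, p D A A' * (A'.card : ℝ) := hTE (sk nb β h 0) D A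
      have e3 : 2 * h * (∑ j ∈ range k, sk nb β h (j + 1 + 1) D A + sk nb β h (0 + 1) D A) =
          ∑ A' ∈ (bd nb D A).powerset, p D A A' *
            (2 * h * A'.card + 2 * h * ∑ j ∈ range k, sk nb β h (j + 1) (D \ A') A') := by
        rw [Finset.sum_congr rfl fun j _ => e1 j, e2, Finset.sum_comm, ← Finset.sum_add_distrib,
          Finset.mul_sum]
        refine Finset.sum_congr rfl fun A' _ => ?_
        rw [← Finset.mul_sum]
        ring
      rw [e3]
      have e4 : ∀ A' ∈ (bd nb D A).powerset, p D A A' *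
            (2 * h * A'.card + 2 * h * ∑ j ∈ range k, sk nb β h (j + 1) (D \ A') A') ≤
          p D A A' • Real.log (Real.exp (2 * h * A'.card) *
            (ZA nb β (-h) (D \ A') A' / ZA nb β h (D \ A') A')) := by
        intro A' _
        rw [Real.log_mul (Real.exp_pos _).ne' (div_pos (hneg _ _) (hpos _ _)).ne', Real.log_exp,
          smul_eq_mul]
        refine mul_le_mul_of_nonneg_left ?_ (hp0 D A A')
        have := ih (D \ A') A'
        linarith
      refine (Finset.sum_le_sum e4).trans ?_
      have hJ := strictConcaveOn_log_Ioi.concaveOn.le_map_sum (t := (bd nb D A).powerset)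
        (w := p D A) (p := fun A' => Real.exp (2 * h * A'.card) *
            (ZA nb β (-h) (D \ A') A' / ZA nb β h (D \ A') A'))
        (fun A' _ => hp0 D A A') (hp1 D A)
        (fun A' _ => mul_pos (Real.exp_pos _) (div_pos (hneg _ _) (hpos _ _)))
      refine hJ.trans (le_of_eq ?_)
      congr 1
      rw [hE (-h) D A, Finset.sum_div]
      refine Finset.sum_congr rfl fun A' _ => ?_
      rw [smul_eq_mul, JEN_cE]
      have h5 := (hpos (D \ A') A').ne'
      have h6 := (hpos D A).ne'
      show cE nb β h D A A' * ZA nb β h (D \ A') A' / ZA nb β h D A * _ = _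
      field_simp
  intro k D A
  refine (key k D A).trans ?_
  rw [Real.log_le_iff_le_exp (div_pos (hneg D A) (hpos D A)), div_le_iff₀ (hpos D A)]
  exact (hZ D A).2.2.2.2

end CWM
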