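import Pool.Agent.helper18.CWM.SpecF

/-!
# Project cwm: rows LPT and UPT (total variation distance on the torus)
-/

open Finset Filter Topology

namespace CWM

section
variable {V U : Type} [Fintype V] [DecidableEq V] [Fintype U]

omit [Fintype U] in
lemma LPT_msk (σ : V → Bool) : msk (univ : Finset V) σ = σ := by
  funext x; simp [msk]

lemma LPT_law (D : Dyn V U) (t : ℕ) (σ η : V → Bool) :
    law D univ t univ σ η = Ew D univ t fun w => ind (fl D w σ = η) := by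
  unfold law
  simp only [LPT_msk]

omit [Fintype V] [DecidableEq V] [Fintype U] in
lemma LPT_tv {X : Type} [Fintype X] (P Q : X → ℝ) (hP : ∀ x, 0 ≤ P x) (hQ : ∀ x, 0 ≤ Q x) (hP1 : ∑ x, P x = 1)
    (hQ1 : ∑ x, Q x = 1) : 0 ≤ (∑ x, |P x - Q x|) / 2 ∧ (∑ x, |P x - Q x|) / 2 ≤ 1 := by
  constructor
  · positivity
  · have h : ∑ x, |P x - Q x| ≤ ∑ x, (P x + Q x) := Finset.sum_le_sum fun x _ => by
      rw [abs_le]; constructor <;> linarith [hP x, hQ x]
    rw [Finset.sum_add_distrib, hP1, hQ1] at h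
    linarith

end

lemma LPT_gibbs (d n : ℕ) (β h : ℝ) : (∀ η : CU.Conf d (n + 3), 0 ≤ CU.gibbs β h η) ∧
    ∑ η : CU.Conf d (n + 3), CU.gibbs β h η = 1 ∧ 0 < ∑ η : CU.Conf d (n + 3), CU.wt β h η := by
  have hpos : ∀ η : CU.Conf d (n + 3), 0 < CU.wt β h η := fun η => Real.exp_pos _
  have hs : 0 < ∑ η : CU.Conf d (n + 3), CU.wt β h η := Finset.sum_pos (fun η _ => hpos η) Finset.univ_nonempty
  refine ⟨fun η => div_nonneg (hpos η).le hs.le, ?_, hs⟩
  unfold CU.gibbs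
  rw [← Finset.sum_div]
  exact div_self hs.ne'

theorem LPT (hTGL : TGL_stmt) (hHG : HG_stmt) (hTOK : TOK_stmt) : LPT_stmt := by
  intro d n β h hβ t
  obtain ⟨g1, g2, g3⟩ := LPT_gibbs d n β h
  have hOk := hTOK d n β h hβ
  obtain ⟨_, hl, _⟩ := hHG _ _ (tD d (n + 3) β h) d hOk univ Finset.univ_nonempty
  obtain ⟨_, _, hlaw⟩ := hl t univ
  have key : ∀ σ : CU.Conf d (n + 3), (∑ η : CU.Conf d (n + 3), |((CU.glauber β h) ^ t) σ η - CU.gibbs β h η|) / 2 =
      (∑ η : CU.Conf d (n + 3), |Ew (tD d (n + 3) β h) univ t (fun w => ind (fl (tD d (n + 3) β h) w σ = η)) -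
        CU.wt β h η / ∑ ξ : CU.Conf d (n + 3), CU.wt β h ξ|) / 2 := by
    intro σ
    congr 1
    refine Finset.sum_congr rfl fun η _ => ?_
    rw [hTGL d n β h hβ t σ η]
    rfl
  have hb : ∀ σ : CU.Conf d (n + 3),
      0 ≤ (∑ η : CU.Conf d (n + 3), |((CU.glauber β h) ^ t) σ η - CU.gibbs β h η|) / 2 ∧
      (∑ η : CU.Conf d (n + 3), |((CU.glauber β h) ^ t) σ η - CU.gibbs β h η|) / 2 ≤ 1 := by
    intro σ
    apply LPT_tv
    · intro η; rw [hTGL d n β h hβ t σ η, ← LPT_law]; exact (hlaw σ).1 η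
    · exact g1
    · simp_rw [hTGL d n β h hβ t σ, ← LPT_law]; exact (hlaw σ).2
    · exact g2
  have hbdd : BddAbove (Set.range fun σ : CU.Conf d (n + 3) =>
      (∑ η : CU.Conf d (n + 3), |((CU.glauber β h) ^ t) σ η - CU.gibbs β h η|) / 2) :=
    (Set.finite_range _).bddAbove
  refine ⟨?_, ?_, ?_⟩
  · exact (hb (fun _ => true)).1.trans (le_ciSup hbdd (fun _ => true))
  · exact ciSup_le fun σ => (hb σ).2
  · intro σ
    rw [← key σ]
    exact le_ciSup hbdd σ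

theorem UPT (hTGL : TGL_stmt) (hHE2 : HE2_stmt) (hHG : HG_stmt) (hSTA : STA_stmt) (hTHB : THB_stmt)
    (hTOK : TOK_stmt) : UPT_stmt := by
  intro d n β h hβ t
  obtain ⟨g1, g2, g3⟩ := LPT_gibbs d n β h
  have hOk := hTOK d n β h hβ
  have hHB := hTHB d n β h hβ
  obtain ⟨hsup, hl, _⟩ := hHG _ _ (tD d (n + 3) β h) d hOk univ Finset.univ_nonempty
  obtain ⟨_, _, hlaw⟩ := hl t univ
  obtain ⟨hle, _⟩ := hsup t univ
  obtain ⟨_, hHE, _, _⟩ := hHE2
  set P : CU.Conf d (n + 3) → CU.Conf d (n + 3) → ℝ := law (tD d (n + 3) β h) univ t univ with hP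
  have hPair : ∀ σ σ', ∑ η, |P σ η - P σ' η| ≤ 2 * √(2 * gH (tD d (n + 3) β h) univ t univ) := by
    intro σ σ'
    have h1 := hHE _ (P σ) (P σ') (hlaw σ).1 (hlaw σ').1 (hlaw σ).2 (hlaw σ').2
    have h2 : (∑ η, |P σ η - P σ' η|) / 2 ≤ √(2 * gH (tD d (n + 3) β h) univ t univ) := by
      apply Real.le_sqrt_of_sq_le
      exact h1.trans (by linarith [hle σ σ'])
    linarith
  have hstat : ∀ η, CU.gibbs β h η = ∑ σ', CU.gibbs β h σ' * P σ' η := by
    intro η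
    have h1 := (hSTA _ _ (tD d (n + 3) β h) d (CU.wt β h) hOk hHB (fun ξ => ind (ξ = η)) t).1 univ Finset.univ_nonempty
    unfold av at h1
    have h2 : ∑ σ : CU.Conf d (n + 3), CU.wt β h σ * ind (σ = η) = CU.wt β h η := by
      rw [Finset.sum_eq_single η]
      · rw [ind_of rfl, mul_one]
      · intro b _ hb; rw [ind_not hb, mul_zero]
      · intro hh; exact absurd (Finset.mem_univ _) hh
    rw [h2] at h1
    have h3 : CU.gibbs β h η = CU.wt β h η / ∑ ξ : CU.Conf d (n + 3), CU.wt β h ξ := rfl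
    rw [h3, ← h1, Finset.sum_div]
    refine Finset.sum_congr rfl fun σ _ => ?_
    rw [hP, LPT_law]
    unfold CU.gibbs
    ring
  apply ciSup_le
  intro σ
  have h1 : ∑ η : CU.Conf d (n + 3), |((CU.glauber β h) ^ t) σ η - CU.gibbs β h η| ≤
      ∑ σ' : CU.Conf d (n + 3), CU.gibbs β h σ' * ∑ η, |P σ η - P σ' η| := by
    have h2 : ∀ η, |((CU.glauber β h) ^ t) σ η - CU.gibbs β h η| ≤ ∑ σ', CU.gibbs β h σ' * |P σ η - P σ' η| := by
      intro η
      have h3 : ((CU.glauber β h) ^ t) σ η - CU.gibbs β h η = ∑ σ', CU.gibbs β h σ' * (P σ η - P σ' η) := by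
        simp_rw [mul_sub]
        rw [Finset.sum_sub_distrib, ← hstat η, ← Finset.sum_mul, g2, one_mul, hTGL d n β h hβ t σ η, hP, LPT_law]
      rw [h3]
      refine (Finset.abs_sum_le_sum_abs _ _).trans (Finset.sum_le_sum fun σ' _ => ?_)
      rw [abs_mul, abs_of_nonneg (g1 σ')]
    calc _ ≤ ∑ η, ∑ σ', CU.gibbs β h σ' * |P σ η - P σ' η| := Finset.sum_le_sum fun η _ => h2 η
      _ = _ := by
        rw [Finset.sum_comm]
        exact Finset.sum_congr rfl fun σ' _ => by rw [Finset.mul_sum]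
  have h4 : ∑ σ' : CU.Conf d (n + 3), CU.gibbs β h σ' * ∑ η, |P σ η - P σ' η| ≤
      ∑ σ' : CU.Conf d (n + 3), CU.gibbs β h σ' * (2 * √(2 * gH (tD d (n + 3) β h) univ t univ)) :=
    Finset.sum_le_sum fun σ' _ => mul_le_mul_of_nonneg_left (hPair σ σ') (g1 σ')
  rw [← Finset.sum_mul, g2, one_mul] at h4
  linarith

end CWM
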