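import Pool.Agent.helper18.CWM.Defs

/-!
# Project cwm: basic lemmas
-/

open Finset

namespace CWM

/-! ## indicators -/

lemma ind_of {p : Prop} (h : p) : ind p = 1 := by simp [ind, h]

lemma ind_not {p : Prop} (h : ¬ p) : ind p = 0 := by simp [ind, h]

lemma ind_nonneg (p : Prop) : 0 ≤ ind p := by
  by_cases h : p
  · rw [ind_of h]; norm_num
  · rw [ind_not h]

lemma ind_le_one (p : Prop) : ind p ≤ 1 := by
  by_cases h : p
  · rw [ind_of h]
  · rw [ind_not h]; norm_num

lemma ind_mono {p q : Prop} (h : p → q) : ind p ≤ ind q := by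
  by_cases hp : p
  · rw [ind_of hp, ind_of (h hp)]
  · rw [ind_not hp]; exact ind_nonneg q

lemma ind_congr {p q : Prop} (h : p ↔ q) : ind p = ind q := by rw [propext h]

lemma ind_or_le (p q : Prop) : ind (p ∨ q) ≤ ind p + ind q := by
  by_cases hp : p
  · rw [ind_of (Or.inl hp), ind_of hp]; linarith [ind_nonneg q]
  · by_cases hq : q
    · rw [ind_of (Or.inr hq), ind_of hq]; linarith [ind_nonneg p]
    · rw [ind_not (by tauto)]; linarith [ind_nonneg p, ind_nonneg q]

lemma ind_and (p q : Prop) : ind (p ∧ q) = ind p * ind q := by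
  by_cases hp : p
  · by_cases hq : q
    · rw [ind_of ⟨hp, hq⟩, ind_of hp, ind_of hq]; norm_num
    · rw [ind_not (by tauto), ind_not hq]; norm_num
  · rw [ind_not (by tauto), ind_not hp]; norm_num

lemma ind_not' (p : Prop) : ind (¬ p) = 1 - ind p := by
  by_cases hp : p
  · rw [ind_of hp, ind_not (by tauto)]; norm_num
  · rw [ind_not hp, ind_of hp]; norm_num

lemma ind_exists_le {ι : Type} (s : Finset ι) (p : ι → Prop) : ind (∃ i ∈ s, p i) ≤ ∑ i ∈ s, ind (p i) := by
  by_cases h : ∃ i ∈ s, p i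
  · obtain ⟨i, hi, hp⟩ := h
    rw [ind_of ⟨i, hi, hp⟩, ← ind_of hp]
    exact Finset.single_le_sum (f := fun i => ind (p i)) (fun i _ => ind_nonneg _) hi
  · rw [ind_not h]; exact Finset.sum_nonneg fun i _ => ind_nonneg _

section
variable {V U : Type} [Fintype V] [DecidableEq V] [Fintype U] (D : Dyn V U)

/-! ## one letter -/

omit [Fintype V] [DecidableEq V] in
lemma Wa_congr {S : Finset V} {F G : V × U → ℝ} (h : ∀ a, a.1 ∈ S → F a = G a) : Wa D S F = Wa D S G := by
  unfold Wa
  exact Finset.sum_congr rfl fun x hx => Finset.sum_congr rfl fun u _ => by rw [h (x, u) hx]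

omit [Fintype V] [DecidableEq V] in
lemma Wa_add (S : Finset V) (F G : V × U → ℝ) : Wa D S (fun a => F a + G a) = Wa D S F + Wa D S G := by
  unfold Wa
  rw [← Finset.sum_add_distrib]
  refine Finset.sum_congr rfl fun x _ => ?_
  rw [← Finset.sum_add_distrib]
  exact Finset.sum_congr rfl fun u _ => by ring

omit [Fintype V] [DecidableEq V] in
lemma Wa_smul (S : Finset V) (c : ℝ) (F : V × U → ℝ) : Wa D S (fun a => c * F a) = c * Wa D S F := by
  unfold Wa
  rw [Finset.mul_sum]
  refine Finset.sum_congr rfl fun x _ => ?_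
  rw [Finset.mul_sum]
  exact Finset.sum_congr rfl fun u _ => by ring

omit [Fintype V] [DecidableEq V] in
lemma Wa_sub (S : Finset V) (F G : V × U → ℝ) : Wa D S (fun a => F a - G a) = Wa D S F - Wa D S G := by
  have h : (fun a => F a - G a) = fun a => F a + (-1) * G a := by funext a; ring
  rw [h, Wa_add, Wa_smul]; ring

omit [Fintype V] [DecidableEq V] in
lemma Wa_zero (S : Finset V) : Wa D S (fun _ => 0) = 0 := by
  unfold Wa; simp

omit [Fintype V] [DecidableEq V] in
lemma Wa_sum {ι : Type} (s : Finset ι) (S : Finset V) (F : ι → V × U → ℝ) :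
    Wa D S (fun a => ∑ i ∈ s, F i a) = ∑ i ∈ s, Wa D S (F i) := by
  classical
  induction s using Finset.induction_on with
  | empty => simp [Wa_zero]
  | insert i s hi ih =>
    rw [Finset.sum_insert hi, ← ih, ← Wa_add]
    exact Wa_congr D fun a _ => Finset.sum_insert hi

omit [Fintype V] [DecidableEq V] in
lemma Wa_mono (h0 : ∀ u, 0 ≤ D.nu u) {S : Finset V} {F G : V × U → ℝ} (h : ∀ a, a.1 ∈ S → F a ≤ G a) :
    Wa D S F ≤ Wa D S G := by
  unfold Wa
  exact Finset.sum_le_sum fun x hx => Finset.sum_le_sum fun u _ => mul_le_mul_of_nonneg_left (h (x, u) hx) (h0 u)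

omit [Fintype V] [DecidableEq V] in
lemma Wa_nonneg (h0 : ∀ u, 0 ≤ D.nu u) {S : Finset V} {F : V × U → ℝ} (h : ∀ a, a.1 ∈ S → 0 ≤ F a) :
    0 ≤ Wa D S F := by
  rw [← Wa_zero D S]; exact Wa_mono D h0 h

omit [Fintype V] [DecidableEq V] in
lemma Wa_const (h1 : ∑ u, D.nu u = 1) (S : Finset V) (c : ℝ) : Wa D S (fun _ => c) = S.card * c := by
  unfold Wa
  simp_rw [← Finset.sum_mul]
  rw [h1]; simp

omit [Fintype V] [DecidableEq V] in
lemma Wa_comm (S T : Finset V) (F : V × U → V × U → ℝ) :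
    Wa D S (fun a => Wa D T fun b => F a b) = Wa D T (fun b => Wa D S fun a => F a b) := by
  have h : ∀ a, (Wa D T fun b => F a b) = ∑ y ∈ T, ∑ v : U, D.nu v * F a (y, v) := fun a => rfl
  simp_rw [h]
  rw [Wa_sum]
  unfold Wa
  refine Finset.sum_congr rfl fun y _ => ?_
  have := Wa_sum D (Finset.univ : Finset U) S (fun v a => D.nu v * F a (y, v))
  unfold Wa at this
  rw [this]
  refine Finset.sum_congr rfl fun v _ => ?_
  rw [Finset.mul_sum]
  refine Finset.sum_congr rfl fun x _ => ?_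
  rw [Finset.mul_sum]
  exact Finset.sum_congr rfl fun u _ => by ring

/-! ## words, unnormalised -/

omit [Fintype V] [DecidableEq V] in
lemma Ww_zero (S : Finset V) (F : List (V × U) → ℝ) : Ww D S 0 F = F [] := rfl

omit [Fintype V] [DecidableEq V] in
lemma Ww_succ (S : Finset V) (m : ℕ) (F : List (V × U) → ℝ) :
    Ww D S (m + 1) F = Wa D S fun a => Ww D S m fun w => F (a :: w) := rfl

omit [Fintype V] [DecidableEq V] in
lemma Ww_congr {S : Finset V} {m : ℕ} {F G : List (V × U) → ℝ}
    (h : ∀ w : List (V × U), w.length = m → (∀ a ∈ w, a.1 ∈ S) → F w = G w) : Ww D S m F = Ww D S m G := by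
  induction m generalizing F G with
  | zero => exact h [] rfl (by simp)
  | succ m ih =>
    refine Wa_congr D fun a ha => ih fun w hw hS => h (a :: w) (by simp [hw]) ?_
    intro b hb
    rcases List.mem_cons.1 hb with rfl | hb
    · exact ha
    · exact hS b hb

omit [Fintype V] [DecidableEq V] in
lemma Ww_mono (h0 : ∀ u, 0 ≤ D.nu u) {S : Finset V} {m : ℕ} {F G : List (V × U) → ℝ}
    (h : ∀ w : List (V × U), w.length = m → (∀ a ∈ w, a.1 ∈ S) → F w ≤ G w) : Ww D S m F ≤ Ww D S m G := by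
  induction m generalizing F G with
  | zero => exact h [] rfl (by simp)
  | succ m ih =>
    refine Wa_mono D h0 fun a ha => ih fun w hw hS => h (a :: w) (by simp [hw]) ?_
    intro b hb
    rcases List.mem_cons.1 hb with rfl | hb
    · exact ha
    · exact hS b hb

omit [Fintype V] [DecidableEq V] in
lemma Ww_add (S : Finset V) (m : ℕ) (F G : List (V × U) → ℝ) :
    Ww D S m (fun w => F w + G w) = Ww D S m F + Ww D S m G := by
  induction m generalizing F G with
  | zero => rfl
  | succ m ih =>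
    simp only [Ww_succ]
    rw [← Wa_add]
    exact Wa_congr D fun a _ => ih _ _

omit [Fintype V] [DecidableEq V] in
lemma Ww_smul (S : Finset V) (m : ℕ) (c : ℝ) (F : List (V × U) → ℝ) :
    Ww D S m (fun w => c * F w) = c * Ww D S m F := by
  induction m generalizing F with
  | zero => rfl
  | succ m ih =>
    simp only [Ww_succ]
    rw [← Wa_smul]
    exact Wa_congr D fun a _ => ih _

omit [Fintype V] [DecidableEq V] in
lemma Ww_sub (S : Finset V) (m : ℕ) (F G : List (V × U) → ℝ) :
    Ww D S m (fun w => F w - G w) = Ww D S m F - Ww D S m G := by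
  have h : (fun w => F w - G w) = fun w => F w + (-1) * G w := by funext a; ring
  rw [h, Ww_add, Ww_smul]; ring

omit [Fintype V] [DecidableEq V] in
lemma Ww_const0 (S : Finset V) (m : ℕ) : Ww D S m (fun _ => 0) = 0 := by
  have := Ww_smul D S m 0 (fun _ => 0)
  simpa using this

omit [Fintype V] [DecidableEq V] in
lemma Ww_nonneg (h0 : ∀ u, 0 ≤ D.nu u) {S : Finset V} {m : ℕ} {F : List (V × U) → ℝ}
    (h : ∀ w : List (V × U), w.length = m → (∀ a ∈ w, a.1 ∈ S) → 0 ≤ F w) : 0 ≤ Ww D S m F := by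
  rw [← Ww_const0 D S m]; exact Ww_mono D h0 h

omit [Fintype V] [DecidableEq V] in
lemma Ww_sum {ι : Type} (s : Finset ι) (S : Finset V) (m : ℕ) (F : ι → List (V × U) → ℝ) :
    Ww D S m (fun w => ∑ i ∈ s, F i w) = ∑ i ∈ s, Ww D S m (F i) := by
  classical
  induction s using Finset.induction_on with
  | empty => simp [Ww_const0]
  | insert i s hi ih =>
    rw [Finset.sum_insert hi, ← ih, ← Ww_add]
    exact Ww_congr D fun w _ _ => Finset.sum_insert hi

omit [Fintype V] [DecidableEq V] in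
lemma Ww_const (h1 : ∑ u, D.nu u = 1) (S : Finset V) (m : ℕ) (c : ℝ) :
    Ww D S m (fun _ => c) = (S.card : ℝ) ^ m * c := by
  induction m with
  | zero => simp [Ww_zero]
  | succ m ih => rw [Ww_succ, ih, Wa_const D h1]; ring

omit [Fintype V] [DecidableEq V] in
lemma Ww_append (S : Finset V) (m k : ℕ) (F : List (V × U) → ℝ) :
    Ww D S (m + k) F = Ww D S m fun w => Ww D S k fun w' => F (w ++ w') := by
  induction m generalizing F with
  | zero => simp [Ww_zero]
  | succ m ih =>
    rw [show m + 1 + k = (m + k) + 1 by ring, Ww_succ, Ww_succ]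
    exact Wa_congr D fun a _ => by rw [ih]; rfl

omit [Fintype V] [DecidableEq V] in
lemma Wa_Ww_comm (S T : Finset V) (m : ℕ) (F : V × U → List (V × U) → ℝ) :
    Wa D S (fun a => Ww D T m fun w => F a w) = Ww D T m (fun w => Wa D S fun a => F a w) := by
  induction m generalizing F with
  | zero => rfl
  | succ m ih =>
    simp only [Ww_succ]
    rw [Wa_comm]
    exact Wa_congr D fun a _ => ih _

omit [Fintype V] [DecidableEq V] in
lemma Ww_comm (S T : Finset V) (m k : ℕ) (F : List (V × U) → List (V × U) → ℝ) :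
    Ww D S m (fun w => Ww D T k fun w' => F w w') = Ww D T k (fun w' => Ww D S m fun w => F w w') := by
  induction m generalizing F with
  | zero => rfl
  | succ m ih =>
    simp only [Ww_succ]
    rw [← Wa_Ww_comm]
    exact Wa_congr D fun a _ => ih _

omit [Fintype V] [DecidableEq V] in
/-- the first letter in time last -/
lemma Ww_snoc (S : Finset V) (m : ℕ) (F : List (V × U) → ℝ) :
    Ww D S (m + 1) F = Ww D S m fun w => Wa D S fun a => F (w ++ [a]) := Ww_append D S m 1 F

/-! ## words, normalised -/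

omit [Fintype V] [DecidableEq V] in
lemma Ew_zero (S : Finset V) (F : List (V × U) → ℝ) : Ew D S 0 F = F [] := by simp [Ew, Ww_zero]

omit [Fintype V] [DecidableEq V] in
lemma Ew_succ (S : Finset V) (m : ℕ) (F : List (V × U) → ℝ) :
    Ew D S (m + 1) F = Wa D S (fun a => Ew D S m fun w => F (a :: w)) / S.card := by
  unfold Ew
  rw [Ww_succ]
  have h : (fun a : V × U => (Ww D S m fun w => F (a :: w)) / (S.card : ℝ) ^ m) =
      fun a => ((S.card : ℝ) ^ m)⁻¹ * Ww D S m fun w => F (a :: w) := by funext a; ring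
  rw [h, Wa_smul]
  by_cases hS : (S.card : ℝ) = 0
  · simp [hS]
  · rw [pow_succ]; field_simp

omit [Fintype V] [DecidableEq V] in
lemma Ew_congr {S : Finset V} {m : ℕ} {F G : List (V × U) → ℝ}
    (h : ∀ w : List (V × U), w.length = m → (∀ a ∈ w, a.1 ∈ S) → F w = G w) : Ew D S m F = Ew D S m G := by
  unfold Ew; rw [Ww_congr D h]

omit [Fintype V] [DecidableEq V] in
lemma Ew_mono (h0 : ∀ u, 0 ≤ D.nu u) {S : Finset V} {m : ℕ} {F G : List (V × U) → ℝ}
    (h : ∀ w : List (V × U), w.length = m → (∀ a ∈ w, a.1 ∈ S) → F w ≤ G w) : Ew D S m F ≤ Ew D S m G := by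
  unfold Ew; exact div_le_div_of_nonneg_right (Ww_mono D h0 h) (by positivity)

omit [Fintype V] [DecidableEq V] in
lemma Ew_nonneg (h0 : ∀ u, 0 ≤ D.nu u) {S : Finset V} {m : ℕ} {F : List (V × U) → ℝ}
    (h : ∀ w : List (V × U), w.length = m → (∀ a ∈ w, a.1 ∈ S) → 0 ≤ F w) : 0 ≤ Ew D S m F := by
  unfold Ew; exact div_nonneg (Ww_nonneg D h0 h) (by positivity)

omit [Fintype V] [DecidableEq V] in
lemma Ew_add (S : Finset V) (m : ℕ) (F G : List (V × U) → ℝ) :
    Ew D S m (fun w => F w + G w) = Ew D S m F + Ew D S m G := by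
  unfold Ew; rw [Ww_add]; ring

omit [Fintype V] [DecidableEq V] in
lemma Ew_sub (S : Finset V) (m : ℕ) (F G : List (V × U) → ℝ) :
    Ew D S m (fun w => F w - G w) = Ew D S m F - Ew D S m G := by
  unfold Ew; rw [Ww_sub]; ring

omit [Fintype V] [DecidableEq V] in
lemma Ew_smul (S : Finset V) (m : ℕ) (c : ℝ) (F : List (V × U) → ℝ) :
    Ew D S m (fun w => c * F w) = c * Ew D S m F := by
  unfold Ew; rw [Ww_smul]; ring

omit [Fintype V] [DecidableEq V] in
lemma Ew_sum {ι : Type} (s : Finset ι) (S : Finset V) (m : ℕ) (F : ι → List (V × U) → ℝ) :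
    Ew D S m (fun w => ∑ i ∈ s, F i w) = ∑ i ∈ s, Ew D S m (F i) := by
  unfold Ew; rw [Ww_sum, Finset.sum_div]

omit [Fintype V] [DecidableEq V] in
lemma Ew_const (h1 : ∑ u, D.nu u = 1) {S : Finset V} (hS : S.Nonempty) (m : ℕ) (c : ℝ) :
    Ew D S m (fun _ => c) = c := by
  unfold Ew; rw [Ww_const D h1]
  have : (S.card : ℝ) ≠ 0 := by exact_mod_cast (Finset.card_pos.2 hS).ne'
  field_simp

omit [Fintype V] [DecidableEq V] in
lemma Ew_append (S : Finset V) (m k : ℕ) (F : List (V × U) → ℝ) :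
    Ew D S (m + k) F = Ew D S m fun w => Ew D S k fun w' => F (w ++ w') := by
  unfold Ew
  rw [Ww_append]
  have h : (fun w : List (V × U) => (Ww D S k fun w' => F (w ++ w')) / (S.card : ℝ) ^ k) =
      fun w => ((S.card : ℝ) ^ k)⁻¹ * Ww D S k fun w' => F (w ++ w') := by funext a; ring
  rw [h, Ww_smul, pow_add]
  by_cases hS : (S.card : ℝ) = 0
  · simp only [hS]
    rcases Nat.eq_zero_or_pos m with rfl | hm
    · simp; ring
    · rw [zero_pow hm.ne']; simp
  · field_simp

omit [Fintype V] [DecidableEq V] in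
lemma Ew_comm (S T : Finset V) (m k : ℕ) (F : List (V × U) → List (V × U) → ℝ) :
    Ew D S m (fun w => Ew D T k fun w' => F w w') = Ew D T k (fun w' => Ew D S m fun w => F w w') := by
  have h1 : ∀ w, (Ew D T k fun w' => F w w') = ((T.card : ℝ) ^ k)⁻¹ * Ww D T k fun w' => F w w' := by
    intro w; unfold Ew; ring
  have h2 : ∀ w', (Ew D S m fun w => F w w') = ((S.card : ℝ) ^ m)⁻¹ * Ww D S m fun w => F w w' := by
    intro w; unfold Ew; ring
  simp_rw [h1, h2]
  rw [Ew_smul, Ew_smul]
  unfold Ew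
  rw [Ww_comm]; ring

omit [Fintype V] [DecidableEq V] in
lemma Ew_snoc (S : Finset V) (m : ℕ) (F : List (V × U) → ℝ) :
    Ew D S (m + 1) F = Ew D S m fun w => Wa D S (fun a => F (w ++ [a])) / S.card := by
  rw [Ew_append D S m 1 F]
  refine Ew_congr D fun w _ _ => ?_
  rw [Ew_succ]
  simp [Ew_zero]

/-! ## the flow -/

omit [Fintype V] [Fintype U] in
lemma fl_append (w w' : List (V × U)) (σ : V → Bool) : fl D (w ++ w') σ = fl D w (fl D w' σ) := by
  induction w with
  | nil => rfl
  | cons a w ih => simp only [List.cons_append, fl, ih]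

omit [Fintype V] [Fintype U] in
lemma stp_mono (hm : ∀ (x : V) (u : U) (σ τ : V → Bool), σ ≤ τ → D.up x u σ ≤ D.up x u τ) (a : V × U)
    {σ τ : V → Bool} (h : σ ≤ τ) : stp D a σ ≤ stp D a τ := by
  intro y
  unfold stp
  by_cases hy : y = a.1
  · subst hy; simp only [Function.update_self]; exact hm _ _ _ _ h
  · simp only [Function.update_of_ne hy]; exact h y

omit [Fintype V] [Fintype U] in
lemma fl_mono (hm : ∀ (x : V) (u : U) (σ τ : V → Bool), σ ≤ τ → D.up x u σ ≤ D.up x u τ) (w : List (V × U))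
    {σ τ : V → Bool} (h : σ ≤ τ) : fl D w σ ≤ fl D w τ := by
  induction w with
  | nil => exact h
  | cons a w ih => exact stp_mono D hm a ih

omit [Fintype V] [DecidableEq V] [Fintype U] in
lemma le_pl (σ : V → Bool) : σ ≤ pl := fun _ => Bool.le_true _

omit [Fintype V] [DecidableEq V] [Fintype U] in
lemma mi_le (σ : V → Bool) : mi ≤ σ := fun _ => Bool.false_le _

/-! ## balls -/

omit [DecidableEq V] [Fintype U] in
lemma mem_Bl {x y : V} {r : ℕ} : y ∈ Bl D x r ↔ D.ds x y ≤ r := by simp [Bl]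

omit [Fintype U] in
lemma mem_BS {A : Finset V} {y : V} {r : ℕ} : y ∈ BS D A r ↔ ∃ x ∈ A, D.ds x y ≤ r := by simp [BS, mem_Bl]

omit [Fintype V] [Fintype U] in
lemma mem_filt {R : Finset V} {w : List (V × U)} {a : V × U} : a ∈ filt R w ↔ a ∈ w ∧ a.1 ∈ R := by
  simp [filt, List.mem_filter]

omit [Fintype V] [Fintype U] in
lemma filt_filt (R R' : Finset V) (w : List (V × U)) (h : R ⊆ R') : filt R (filt R' w) = filt R w := by
  unfold filt
  rw [List.filter_filter]
  congr 1
  funext a
  by_cases ha : a.1 ∈ R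
  · simp [ha, h ha]
  · simp [ha]

end

end CWM
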