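import Pool.Agent.helper18.CWM.SpecB

/-!
# cwm:M1 (project MP_7c3fb3_pr, spec by helper18)
-/

open Finset Filter Topology

namespace CWM

section M1aux
variable {V U : Type} [Fintype V] [DecidableEq V] [Fintype U] (D : Dyn V U)

omit [DecidableEq V] in
theorem M1_av_Ew [DecidableEq V] (W : (V → Bool) → ℝ) (S : Finset V) (m : ℕ)
    (H : List (V × U) → (V → Bool) → ℝ) :
    Ew D S m (fun w => av W (H w)) = av W (fun σ => Ew D S m fun w => H w σ) := by
  have h1 : ∀ w, av W (H w) = (∑ σ, W σ)⁻¹ * ∑ σ, W σ * H w σ := by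
    intro w
    unfold av
    rw [div_eq_inv_mul]
  have h2 : (fun w => av W (H w)) = fun w => (∑ σ, W σ)⁻¹ * ∑ σ, W σ * H w σ := by
    funext w
    exact h1 w
  rw [h2, Ew_smul, Ew_sum]
  have h3 : ∀ σ : V → Bool, Ew D S m (fun w => W σ * H w σ) = W σ * Ew D S m (fun w => H w σ) :=
    fun σ => Ew_smul D S m (W σ) (fun w => H w σ)
  have h4 : ∑ σ, Ew D S m (fun w => W σ * H w σ) = ∑ σ, W σ * Ew D S m (fun w => H w σ) :=
    Finset.sum_congr rfl fun σ _ => h3 σ
  rw [h4]
  unfold av
  rw [div_eq_inv_mul]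

theorem M1_av_mono (W : (V → Bool) → ℝ) (hW : ∀ σ, 0 ≤ W σ) (F G : (V → Bool) → ℝ)
    (h : ∀ σ, F σ ≤ G σ) : av W F ≤ av W G := by
  unfold av
  apply div_le_div_of_nonneg_right
  · exact Finset.sum_le_sum fun σ _ => mul_le_mul_of_nonneg_left (h σ) (hW σ)
  · exact Finset.sum_nonneg fun σ _ => hW σ

theorem M1_av_add (W : (V → Bool) → ℝ) (F G : (V → Bool) → ℝ) :
    av W (fun σ => F σ + G σ) = av W F + av W G := by
  unfold av
  rw [← add_div, ← Finset.sum_add_distrib]
  congr 1
  exact Finset.sum_congr rfl fun σ _ => by ring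

theorem M1_av_sub (W : (V → Bool) → ℝ) (F G : (V → Bool) → ℝ) :
    av W (fun σ => F σ - G σ) = av W F - av W G := by
  unfold av
  rw [← sub_div, ← Finset.sum_sub_distrib]
  congr 1
  exact Finset.sum_congr rfl fun σ _ => by ring

theorem M1_av_const (W : (V → Bool) → ℝ) (hW : 0 < ∑ σ, W σ) (c : ℝ) :
    av W (fun _ => c) = c := by
  unfold av
  rw [← Finset.sum_mul]
  field_simp

theorem M1_av_cw (W : (V → Bool) → ℝ) (A : Finset V) (b : Bool) (F G : (V → Bool) → ℝ)
    (h : ∀ σ, (∀ x, x ∉ A → σ x = b) → F σ = G σ) : av (cw W A b) F = av (cw W A b) G := by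
  unfold av
  congr 1
  refine Finset.sum_congr rfl fun σ _ => ?_
  by_cases hσ : ∀ x, x ∉ A → σ x = b
  · rw [h σ hσ]
  · unfold cw
    rw [ind_not hσ]
    ring

theorem M1_ext_eq (A : Finset V) (b : Bool) (σ : V → Bool) (h : ∀ x, x ∉ A → σ x = b) :
    ext A b σ = σ := by
  funext x
  unfold ext
  by_cases hx : x ∈ A
  · rw [if_pos hx]
  · rw [if_neg hx, h x hx]

theorem M1_ext_mono (A : Finset V) (b : Bool) {σ τ : V → Bool} (h : σ ≤ τ) :
    ext A b σ ≤ ext A b τ := by
  intro x
  unfold ext
  by_cases hx : x ∈ A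
  · rw [if_pos hx, if_pos hx]
    exact h x
  · rw [if_neg hx, if_neg hx]

theorem M1_bool_le {a b : Bool} (h : a ≤ b) (ha : a = true) : b = true := by
  subst ha
  cases b
  · exact absurd h (by decide)
  · rfl

theorem M1_bool_sand {a b c d : Bool} (h1 : a ≤ b) (h2 : b ≤ c) (h3 : c ≤ d) (h : a = d) :
    b = c := by
  subst h
  exact le_antisymm h2 (h3.trans h1)

end M1aux

theorem M1 (hSAN : SAN_stmt) (hSTA : STA_stmt) (hFKG : FKG_stmt) : M1_stmt := by
  intro V U _ _ _ D d W hok hHB A x m k
  have hm := hok.mono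
  have huniv : (univ : Finset V).Nonempty := ⟨x, mem_univ x⟩
  have hcard : 0 < Fintype.card V := Fintype.card_pos_iff.mpr ⟨x⟩
  have hWpos : 0 < ∑ σ, W σ := Finset.sum_pos (fun σ _ => hHB.pos σ) ⟨pl, mem_univ _⟩
  have hW0 : ∀ σ, 0 ≤ W σ := fun σ => (hHB.pos σ).le
  -- abbreviations
  let Fp : List (V × U) → (V → Bool) → ℝ := fun w σ => ind (fl D (filt A w) (ext A true σ) x = true)
  let Fm : List (V × U) → (V → Bool) → ℝ := fun w σ => ind (fl D (filt A w) (ext A false σ) x = true)
  let S1 : List (V × U) → ℝ := fun w => ∑ y ∈ A, ind (fl D w pl y ≠ fl D w mi y)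
  let T1 : List (V × U) → ℝ := fun w => ind (fl D w pl x ≠ fl D w mi x)
  -- pointwise bound
  have hpt : ∀ (w2 w1 : List (V × U)) (σ : V → Bool),
      ind (fl D (w2 ++ w1) pl x ≠ fl D (w2 ++ w1) mi x) ≤
        S1 w1 * T1 w2 + (Fp w2 (fl D w1 σ) - Fm w2 (fl D w1 σ)) := by
    intro w2 w1 σ
    rw [fl_append, fl_append]
    have hS0 : 0 ≤ S1 w1 := Finset.sum_nonneg fun _ _ => ind_nonneg _
    have hT0 : 0 ≤ T1 w2 := ind_nonneg _
    have hX1 : fl D w1 mi ≤ fl D w1 σ := fl_mono D hm w1 (mi_le σ)
    have hX2 : fl D w1 σ ≤ fl D w1 pl := fl_mono D hm w1 (le_pl σ)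
    have hG0 : Fm w2 (fl D w1 σ) ≤ Fp w2 (fl D w1 σ) := by
      apply ind_mono
      intro h
      have hle : ext A false (fl D w1 σ) ≤ ext A true (fl D w1 σ) := by
        intro z
        unfold ext
        by_cases hz : z ∈ A
        · rw [if_pos hz, if_pos hz]
        · rw [if_neg hz, if_neg hz]
          exact Bool.false_le _
      exact M1_bool_le (fl_mono D hm (filt A w2) hle x) h
    by_cases hA : ∃ y ∈ A, fl D w1 pl y ≠ fl D w1 mi y
    · obtain ⟨y, hy, hne⟩ := hA
      have hS1 : 1 ≤ S1 w1 := by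
        rw [← ind_of hne]
        exact Finset.single_le_sum (f := fun y => ind (fl D w1 pl y ≠ fl D w1 mi y))
          (fun i _ => ind_nonneg _) hy
      have h1 : ind (fl D w2 (fl D w1 pl) x ≠ fl D w2 (fl D w1 mi) x) ≤ T1 w2 := by
        apply ind_mono
        intro h heq
        apply h
        have a1 : fl D w2 mi x ≤ fl D w2 (fl D w1 mi) x := fl_mono D hm w2 (mi_le _) x
        have a2 : fl D w2 (fl D w1 mi) x ≤ fl D w2 (fl D w1 pl) x :=
          fl_mono D hm w2 (hX1.trans hX2) x
        have a3 : fl D w2 (fl D w1 pl) x ≤ fl D w2 pl x := fl_mono D hm w2 (le_pl _) x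
        exact (M1_bool_sand a1 a2 a3 heq.symm).symm
      nlinarith
    · push Not at hA
      have hX : ∀ y ∈ A, fl D w1 σ y = fl D w1 pl y ∧ fl D w1 σ y = fl D w1 mi y := by
        intro y hy
        have e := hA y hy
        have b1 := hX1 y
        have b2 := hX2 y
        rw [e] at b2
        have e2 : fl D w1 σ y = fl D w1 mi y := le_antisymm b2 b1
        exact ⟨by rw [e2, e], e2⟩
      have c1 : fl D w2 (fl D w1 pl) ≤ fl D (filt A w2) (ext A true (fl D w1 σ)) := by
        apply (hSAN V U D d hok A w2 (fl D w1 pl) (ext A true (fl D w1 σ))).2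
        · intro z hz
          unfold ext
          rw [if_neg hz]
        · intro z
          unfold ext
          by_cases hz : z ∈ A
          · rw [if_pos hz, (hX z hz).1]
          · rw [if_neg hz]
            exact Bool.le_true _
      have c2 : fl D (filt A w2) (ext A false (fl D w1 σ)) ≤ fl D w2 (fl D w1 mi) := by
        apply (hSAN V U D d hok A w2 (fl D w1 mi) (ext A false (fl D w1 σ))).1
        · intro z hz
          unfold ext
          rw [if_neg hz]
        · intro z
          unfold ext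
          by_cases hz : z ∈ A
          · rw [if_pos hz, (hX z hz).2]
          · rw [if_neg hz]
            exact Bool.false_le _
      by_cases hne : fl D w2 (fl D w1 pl) x ≠ fl D w2 (fl D w1 mi) x
      · have a2 : fl D w2 (fl D w1 mi) x ≤ fl D w2 (fl D w1 pl) x :=
          fl_mono D hm w2 (hX1.trans hX2) x
        have a3 : fl D w2 (fl D w1 mi) x = false := by
          rcases Bool.eq_false_or_eq_true (fl D w2 (fl D w1 mi) x) with h | h
          · exfalso
            apply hne
            rw [h, M1_bool_le a2 h]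
          · exact h
        have a4 : fl D w2 (fl D w1 pl) x = true := by
          rcases Bool.eq_false_or_eq_true (fl D w2 (fl D w1 pl) x) with h | h
          · exact h
          · exfalso
            apply hne
            rw [h, a3]
        have p1 : Fp w2 (fl D w1 σ) = 1 := ind_of (M1_bool_le (c1 x) a4)
        have p2 : Fm w2 (fl D w1 σ) = 0 := by
          apply ind_not
          intro h
          have := M1_bool_le (c2 x) h
          rw [a3] at this
          exact absurd this (by decide)
        rw [ind_of hne, p1, p2]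
        have := mul_nonneg hS0 hT0
        linarith
      · rw [ind_not hne]
        have := mul_nonneg hS0 hT0
        linarith
  -- average over σ
  have hpt2 : ∀ (w2 w1 : List (V × U)),
      ind (fl D (w2 ++ w1) pl x ≠ fl D (w2 ++ w1) mi x) ≤
        S1 w1 * T1 w2 + av W (fun σ => Fp w2 (fl D w1 σ) - Fm w2 (fl D w1 σ)) := by
    intro w2 w1
    have h1 := M1_av_mono W hW0 (fun _ => ind (fl D (w2 ++ w1) pl x ≠ fl D (w2 ++ w1) mi x))
      (fun σ => S1 w1 * T1 w2 + (Fp w2 (fl D w1 σ) - Fm w2 (fl D w1 σ))) (hpt w2 w1)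
    rw [M1_av_const W hWpos] at h1
    have h2 := M1_av_add W (fun _ => S1 w1 * T1 w2)
      (fun σ => Fp w2 (fl D w1 σ) - Fm w2 (fl D w1 σ))
    rw [h2, M1_av_const W hWpos] at h1
    exact h1
  -- average over w1
  have hin : ∀ w2 : List (V × U),
      Ew D univ m (fun w1 => ind (fl D (w2 ++ w1) pl x ≠ fl D (w2 ++ w1) mi x)) ≤
        (∑ y ∈ A, uu D univ m y) * T1 w2 + (av W (Fp w2) - av W (Fm w2)) := by
    intro w2
    have h1 := Ew_mono D hok.nu0 (S := (univ : Finset V)) (m := m)
      (F := fun w1 => ind (fl D (w2 ++ w1) pl x ≠ fl D (w2 ++ w1) mi x))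
      (G := fun w1 => S1 w1 * T1 w2 + av W (fun σ => Fp w2 (fl D w1 σ) - Fm w2 (fl D w1 σ)))
      (fun w1 _ _ => hpt2 w2 w1)
    rw [Ew_add] at h1
    have h2 : Ew D univ m (fun w1 => S1 w1 * T1 w2) = (∑ y ∈ A, uu D univ m y) * T1 w2 := by
      have e : (fun w1 : List (V × U) => S1 w1 * T1 w2) = fun w1 => T1 w2 * S1 w1 := by
        funext w1
        ring
      rw [e, Ew_smul]
      have e2 : Ew D univ m S1 = ∑ y ∈ A, uu D univ m y :=
        Ew_sum D A univ m (fun y w => ind (fl D w pl y ≠ fl D w mi y))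
      rw [e2]
      ring
    have h3 : Ew D univ m (fun w1 => av W (fun σ => Fp w2 (fl D w1 σ) - Fm w2 (fl D w1 σ))) =
        av W (Fp w2) - av W (Fm w2) := by
      rw [M1_av_Ew D W univ m (fun w1 σ => Fp w2 (fl D w1 σ) - Fm w2 (fl D w1 σ))]
      have := (hSTA V U D d W hok hHB (fun σ => Fp w2 σ - Fm w2 σ) m).1 univ huniv
      rw [this, M1_av_sub]
    rw [h2, h3] at h1
    exact h1
  -- FKG
  have hfk : ∀ w2 : List (V × U), av W (Fp w2) - av W (Fm w2) ≤
      av (cw W A true) (fun σ => ind (fl D (filt A w2) σ x = true)) -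
        av (cw W A false) (fun σ => ind (fl D (filt A w2) σ x = true)) := by
    intro w2
    have mp : Monotone (Fp w2) := by
      intro σ τ h
      apply ind_mono
      intro h1
      exact M1_bool_le (fl_mono D hm (filt A w2) (M1_ext_mono A true h) x) h1
    have mm : Monotone (Fm w2) := by
      intro σ τ h
      apply ind_mono
      intro h1
      exact M1_bool_le (fl_mono D hm (filt A w2) (M1_ext_mono A false h) x) h1
    have f1 := (hFKG V U D W hHB A (Fp w2) mp).2
    have f2 := (hFKG V U D W hHB A (Fm w2) mm).1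
    have g1 : av (cw W A true) (Fp w2) =
        av (cw W A true) (fun σ => ind (fl D (filt A w2) σ x = true)) := by
      apply M1_av_cw
      intro σ hσ
      show ind (fl D (filt A w2) (ext A true σ) x = true) = _
      rw [M1_ext_eq A true σ hσ]
    have g2 : av (cw W A false) (Fm w2) =
        av (cw W A false) (fun σ => ind (fl D (filt A w2) σ x = true)) := by
      apply M1_av_cw
      intro σ hσ
      show ind (fl D (filt A w2) (ext A false σ) x = true) = _
      rw [M1_ext_eq A false σ hσ]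
    rw [← g1, ← g2]
    linarith
  -- conclusion
  have hfin : uu D univ (k + m) x ≤ Ew D univ k (fun w2 =>
      (∑ y ∈ A, uu D univ m y) * T1 w2 +
      (av (cw W A true) (fun σ => ind (fl D (filt A w2) σ x = true)) -
        av (cw W A false) (fun σ => ind (fl D (filt A w2) σ x = true)))) := by
    unfold uu
    rw [Ew_append]
    apply Ew_mono D hok.nu0
    intro w2 _ _
    exact (hin w2).trans (add_le_add_right (hfk w2) _)
  refine hfin.trans ?_
  rw [Ew_add, Ew_smul, Ew_sub]
  have t1 : Ew D univ k T1 = uu D univ k x := rfl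
  have t2 : Ew D univ k (fun w2 => av (cw W A true) (fun σ => ind (fl D (filt A w2) σ x = true))) =
      av (cw W A true) (fun σ => ind (σ x = true)) := by
    rw [M1_av_Ew D (cw W A true) univ k (fun w2 σ => ind (fl D (filt A w2) σ x = true))]
    exact (hSTA V U D d W hok hHB (fun σ => ind (σ x = true)) k).2 A true hcard
  have t3 : Ew D univ k (fun w2 => av (cw W A false) (fun σ => ind (fl D (filt A w2) σ x = true))) =
      av (cw W A false) (fun σ => ind (σ x = true)) := by
    rw [M1_av_Ew D (cw W A false) univ k (fun w2 σ => ind (fl D (filt A w2) σ x = true))]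
    exact (hSTA V U D d W hok hHB (fun σ => ind (σ x = true)) k).2 A false hcard
  rw [t1, t2, t3]
  unfold dl
  linarith

end CWM
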