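import Pool.Agent.helper18.CWM.SpecB

/-!
# cwm:M2 (project MP_7c3fb3_pr, spec by helper18)
-/

open Finset Filter Topology

namespace CWM

section M2aux
variable {V U : Type} [Fintype V] [DecidableEq V] [Fintype U]

/-- the flow of `w` has not coalesced on `A` -/
noncomputable def M2_NC (D : Dyn V U) (A : Finset V) (w : List (V × U)) : ℝ :=
  ind (∃ σ τ : V → Bool, (∀ x, x ∉ A → σ x = τ x) ∧ fl D w σ ≠ fl D w τ)

theorem M2_av_sub (W : (V → Bool) → ℝ) (F G : (V → Bool) → ℝ) :
    av W (fun σ => F σ - G σ) = av W F - av W G := by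
  unfold av
  rw [← sub_div, ← Finset.sum_sub_distrib]
  congr 1
  exact Finset.sum_congr rfl fun σ _ => by ring

theorem M2_av_const (W : (V → Bool) → ℝ) (hW : 0 < ∑ σ, W σ) (c : ℝ) :
    av W (fun _ => c) = c := by
  unfold av
  rw [← Finset.sum_mul]
  field_simp

theorem M2_cw_pos (W : (V → Bool) → ℝ) (hW : ∀ σ, 0 < W σ) (A : Finset V) (b : Bool) :
    0 < ∑ σ, cw W A b σ := by
  apply Finset.sum_pos'
  · intro σ _
    unfold cw
    exact mul_nonneg (hW σ).le (ind_nonneg _)
  · refine ⟨fun _ => b, Finset.mem_univ _, ?_⟩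
    unfold cw
    rw [ind_of (fun x _ => rfl), mul_one]
    exact hW _

/-- comparison of averages for the conditioned weight -/
theorem M2_av_cw (W : (V → Bool) → ℝ) (hW : ∀ σ, 0 < W σ) (A : Finset V) (b : Bool) (F G : (V → Bool) → ℝ)
    (h : ∀ σ : V → Bool, (∀ x, x ∉ A → σ x = b) → F σ ≤ G σ) : av (cw W A b) F ≤ av (cw W A b) G := by
  unfold av
  apply div_le_div_of_nonneg_right _ (M2_cw_pos W hW A b).le
  refine Finset.sum_le_sum fun σ _ => ?_
  unfold cw
  by_cases hs : ∀ x, x ∉ A → σ x = b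
  · exact mul_le_mul_of_nonneg_left (h σ hs) (mul_nonneg (hW σ).le (ind_nonneg _))
  · rw [ind_not hs]; simp

theorem M2_ne_ind {p q : Bool} (h : q ≤ p) : ind (p ≠ q) = ind (p = true) - ind (q = true) := by
  cases p <;> cases q
  · rw [ind_not (by simp), ind_not (by simp)]; norm_num
  · exact absurd h (by decide)
  · rw [ind_of (by simp), ind_of (by simp), ind_not (by simp)]; norm_num
  · rw [ind_not (by simp), ind_of (by simp)]; norm_num

theorem M2_bool_le {a b : Bool} (h : a ≤ b) (ha : a = true) : b = true := by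
  subst ha
  cases b
  · exact absurd h (by decide)
  · rfl

omit [Fintype U] in
/-- configurations which agree off `A`: the values at `x` differ at most by the indicator of no coalescence -/
theorem M2_nc_le (D : Dyn V U) (A : Finset V) (w : List (V × U)) (x : V) (σ τ : V → Bool)
    (h : ∀ y, y ∉ A → σ y = τ y) :
    ind (fl D w σ x = true) ≤ ind (fl D w τ x = true) + M2_NC D A w := by
  by_cases he : fl D w σ = fl D w τ
  · rw [he]
    have : 0 ≤ M2_NC D A w := ind_nonneg _
    linarith
  · have h1 : M2_NC D A w = 1 := ind_of ⟨σ, τ, h, he⟩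
    rw [h1]
    have h2 := ind_le_one (fl D w σ x = true)
    have h3 := ind_nonneg (fl D w τ x = true)
    linarith

/-- the probability of no coalescence for the letters of `A` in a word of `m` letters -/
theorem M2_nc_prob (hSPL : SPL_stmt) (D : Dyn V U) (h1 : ∑ u, D.nu u = 1) (A : Finset V)
    (hA : A.Nonempty) (C r : ℝ) (hC : 0 < C) (hr0 : 0 < r) (hr1 : r < 1)
    (hco : ∀ m : ℕ, Ew D A m (fun w => M2_NC D A w) ≤ C * r ^ m) (m : ℕ) :
    Ew D univ m (fun w => M2_NC D A (filt A w)) ≤ C * Real.exp (-(1 - r) * (m / Fintype.card V)) := by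
  have hdis : Disjoint A (univ \ A) := Finset.disjoint_sdiff
  have hun : A ∪ (univ \ A) = univ := by
    ext z; simp
  have h2 := hSPL V U D A (univ \ A) hdis m (fun w1 _ => M2_NC D A w1)
  rw [hun] at h2
  have ha : (0 : ℝ) < A.card := by exact_mod_cast Finset.card_pos.2 hA
  have hcardle : A.card ≤ Fintype.card V := Finset.card_le_univ A
  have hN : (0 : ℝ) < Fintype.card V := lt_of_lt_of_le ha (by exact_mod_cast hcardle)
  have hb : (((univ \ A : Finset V)).card : ℝ) = (Fintype.card V : ℝ) - A.card := by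
    rw [Finset.card_sdiff_of_subset (Finset.subset_univ A), Finset.card_univ, Nat.cast_sub hcardle]
  have hb0 : (0 : ℝ) ≤ (Fintype.card V : ℝ) - A.card := by
    rw [← hb]; positivity
  have h3 : ∀ c : ℕ, Ww D A c (fun w => M2_NC D A w) ≤ C * ((A.card : ℝ) * r) ^ c := by
    intro c
    have h4 := hco c
    unfold Ew at h4
    rw [div_le_iff₀ (by positivity)] at h4
    calc Ww D A c (fun w => M2_NC D A w) ≤ C * r ^ c * (A.card : ℝ) ^ c := h4
      _ = C * ((A.card : ℝ) * r) ^ c := by rw [mul_pow]; ring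
  have h5 : Ww D univ m (fun w => M2_NC D A (filt A w)) ≤
      C * ((Fintype.card V : ℝ) - (1 - r) * A.card) ^ m := by
    rw [h2]
    have h6 : ∀ c ∈ range (m + 1), (m.choose c : ℝ) * (Ww D A c fun w1 => Ww D (univ \ A) (m - c) fun _ => M2_NC D A w1) ≤
        C * (((A.card : ℝ) * r) ^ c * ((Fintype.card V : ℝ) - A.card) ^ (m - c) * (m.choose c : ℝ)) := by
      intro c _
      have h7 : (Ww D A c fun w1 => Ww D (univ \ A) (m - c) fun _ => M2_NC D A w1) =
          ((Fintype.card V : ℝ) - A.card) ^ (m - c) * Ww D A c (fun w => M2_NC D A w) := by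
        rw [← Ww_smul]
        refine Ww_congr D fun w _ _ => ?_
        rw [Ww_const D h1, hb]
      rw [h7]
      have h8 := h3 c
      have h9 : ((Fintype.card V : ℝ) - A.card) ^ (m - c) * Ww D A c (fun w => M2_NC D A w) ≤
          ((Fintype.card V : ℝ) - A.card) ^ (m - c) * (C * ((A.card : ℝ) * r) ^ c) :=
        mul_le_mul_of_nonneg_left h8 (by positivity)
      calc (m.choose c : ℝ) * (((Fintype.card V : ℝ) - A.card) ^ (m - c) * Ww D A c (fun w => M2_NC D A w))
          ≤ (m.choose c : ℝ) * (((Fintype.card V : ℝ) - A.card) ^ (m - c) * (C * ((A.card : ℝ) * r) ^ c)) :=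
            mul_le_mul_of_nonneg_left h9 (by positivity)
        _ = C * (((A.card : ℝ) * r) ^ c * ((Fintype.card V : ℝ) - A.card) ^ (m - c) * (m.choose c : ℝ)) := by ring
    refine (Finset.sum_le_sum h6).trans ?_
    rw [← Finset.mul_sum, ← add_pow]
    apply le_of_eq
    congr 2
    ring
  unfold Ew
  rw [Finset.card_univ, div_le_iff₀ (by positivity)]
  refine h5.trans ?_
  have h10 : (Fintype.card V : ℝ) - (1 - r) * A.card ≤ Real.exp (-(1 - r) * (1 / Fintype.card V)) * Fintype.card V := by
    have h11 := Real.add_one_le_exp (-(1 - r) * (1 / (Fintype.card V : ℝ)))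
    have h12 : (Fintype.card V : ℝ) - (1 - r) * A.card ≤ (-(1 - r) * (1 / (Fintype.card V : ℝ)) + 1) * Fintype.card V := by
      have h13 : (-(1 - r) * (1 / (Fintype.card V : ℝ)) + 1) * Fintype.card V = Fintype.card V - (1 - r) := by
        field_simp
        ring
      rw [h13]
      have h14 : (1 : ℝ) ≤ A.card := by exact_mod_cast Finset.card_pos.2 hA
      nlinarith
    exact h12.trans (mul_le_mul_of_nonneg_right h11 hN.le)
  have h15 : 0 ≤ (Fintype.card V : ℝ) - (1 - r) * A.card := by nlinarith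
  have h16 : ((Fintype.card V : ℝ) - (1 - r) * A.card) ^ m ≤
      (Real.exp (-(1 - r) * (1 / Fintype.card V)) * Fintype.card V) ^ m := pow_le_pow_left₀ h15 h10 m
  have h17 : (Real.exp (-(1 - r) * (1 / Fintype.card V)) * Fintype.card V) ^ m =
      Real.exp (-(1 - r) * (m / Fintype.card V)) * (Fintype.card V : ℝ) ^ m := by
    rw [mul_pow, ← Real.exp_nat_mul]
    congr 2
    ring
  rw [h17] at h16
  calc C * ((Fintype.card V : ℝ) - (1 - r) * A.card) ^ m ≤
      C * (Real.exp (-(1 - r) * (m / Fintype.card V)) * (Fintype.card V : ℝ) ^ m) :=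
        mul_le_mul_of_nonneg_left h16 hC.le
    _ = C * Real.exp (-(1 - r) * (m / Fintype.card V)) * (Fintype.card V : ℝ) ^ m := by ring

end M2aux

/-- common constants for all sizes up to `K` -/
theorem M2_const (hCOA : COA_stmt) (c0 : ℝ) (hc0 : 0 < c0) (K : ℕ) : ∃ C r : ℝ, 0 < C ∧ 0 < r ∧ r < 1 ∧
    ∀ (V U : Type) [Fintype V] [DecidableEq V] [Fintype U] (D : Dyn V U) (d : ℕ), D.Ok d → D.Frc c0 →
    ∀ A : Finset V, 0 < A.card → A.card ≤ K → ∀ m : ℕ, Ew D A m (fun w => M2_NC D A w) ≤ C * r ^ m := by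
  induction K with
  | zero =>
    refine ⟨1, 1 / 2, by norm_num, by norm_num, by norm_num, ?_⟩
    intro V U _ _ _ D d _ _ A hA hA0
    omega
  | succ K ih =>
    obtain ⟨C, r, hC, hr0, hr1, h⟩ := ih
    obtain ⟨C', r', hC', hr0', hr1', h'⟩ := hCOA c0 (K + 1) hc0 (by omega)
    refine ⟨C + C', max r r', by positivity, lt_of_lt_of_le hr0 (le_max_left _ _), max_lt hr1 hr1', ?_⟩
    intro V U _ _ _ D d hD hF A hA hAK m
    rcases Nat.lt_or_ge A.card (K + 1) with hlt | hge
    · have h1 := h V U D d hD hF A hA (by omega) m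
      have h2 : r ^ m ≤ (max r r') ^ m := pow_le_pow_left₀ hr0.le (le_max_left _ _) m
      have h3 : 0 ≤ (max r r') ^ m := pow_nonneg (hr0.le.trans (le_max_left _ _)) m
      nlinarith
    · have h1 := h' V U D d hD hF A (by omega) m
      have h2 : r' ^ m ≤ (max r r') ^ m := pow_le_pow_left₀ hr0'.le (le_max_right _ _) m
      have h3 : 0 ≤ (max r r') ^ m := pow_nonneg (hr0.le.trans (le_max_left _ _)) m
      have h4 : Ew D A m (fun w => M2_NC D A w) ≤ C' * r' ^ m := h1
      nlinarith

theorem M2 (hSAN : SAN_stmt) (hSTA : STA_stmt) (hSPL : SPL_stmt) (hCOA : COA_stmt) : M2_stmt := by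
  intro d c0 L hc0
  obtain ⟨C, r, hC, hr0, hr1, hco⟩ := M2_const hCOA c0 hc0 ((2 * L + 1) ^ d)
  refine ⟨2 * C, 1 - r, by positivity, by linarith, ?_⟩
  intro V U _ _ _ D W hD hF hW x m
  have h0 := hD.nu0
  have h1 := hD.nu1
  set A := Bl D x L with hA
  have hxA : x ∈ A := by
    rw [hA, mem_Bl, (hD.ds0 x x).2 rfl]; exact Nat.zero_le _
  have hAne : A.Nonempty := ⟨x, hxA⟩
  have hVne : (univ : Finset V).Nonempty := ⟨x, Finset.mem_univ x⟩
  have hcard : 0 < Fintype.card V := Fintype.card_pos_iff.2 ⟨x⟩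
  have hnc := M2_nc_prob hSPL D h1 A hAne C r hC hr0 hr1
    (hco V U D d hD hF A (Finset.card_pos.2 hAne) (hD.blc x L)) m
  set P := Ew D univ m (fun w => M2_NC D A (filt A w)) with hP
  have hPc : Ew D univ m (fun w => M2_NC D A (filt A w)) = P := rfl
  -- first step
  have hs1 : uu D univ m x ≤ Ew D univ m (fun w => ind (fl D (filt A w) pl x = true)) -
      Ew D univ m (fun w => ind (fl D (filt A w) mi x = true)) := by
    unfold uu
    rw [← Ew_sub]
    refine Ew_mono D h0 fun w _ _ => ?_
    have hle : fl D w mi ≤ fl D w pl := fl_mono D hD.mono w (mi_le pl)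
    rw [M2_ne_ind (hle x)]
    have hup := ((hSAN V U D d hD A w pl pl).2 (fun _ _ => rfl) (le_refl _)) x
    have hlo := ((hSAN V U D d hD A w mi mi).1 (fun _ _ => rfl) (le_refl _)) x
    have i1 := ind_mono (M2_bool_le hup)
    have i2 := ind_mono (M2_bool_le hlo)
    linarith
  -- second step
  have hst : ∀ b : Bool, av (cw W A b) (fun σ => Ew D univ m fun w => ind (fl D (filt A w) σ x = true)) =
      av (cw W A b) (fun σ => ind (σ x = true)) := by
    intro b
    exact (hSTA V U D d W hD hW (fun σ => ind (σ x = true)) m).2 A b hcard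
  have hup : Ew D univ m (fun w => ind (fl D (filt A w) pl x = true)) ≤
      av (cw W A true) (fun σ => ind (σ x = true)) + P := by
    rw [← hst true]
    have h2 : av (cw W A true) (fun _ => Ew D univ m (fun w => ind (fl D (filt A w) pl x = true)) - P) ≤
        av (cw W A true) (fun σ => Ew D univ m fun w => ind (fl D (filt A w) σ x = true)) := by
      refine M2_av_cw W hW.pos A true _ _ fun σ hσ => ?_
      rw [sub_le_iff_le_add, ← hPc, ← Ew_add]
      refine Ew_mono D h0 fun w _ _ => ?_
      exact M2_nc_le D A (filt A w) x pl σ fun y hy => (hσ y hy).symm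
    rw [M2_av_const _ (M2_cw_pos W hW.pos A true)] at h2
    linarith
  have hlo : av (cw W A false) (fun σ => ind (σ x = true)) - P ≤
      Ew D univ m (fun w => ind (fl D (filt A w) mi x = true)) := by
    rw [← hst false]
    have h2 : av (cw W A false) (fun σ => Ew D univ m fun w => ind (fl D (filt A w) σ x = true)) ≤
        av (cw W A false) (fun _ => Ew D univ m (fun w => ind (fl D (filt A w) mi x = true)) + P) := by
      refine M2_av_cw W hW.pos A false _ _ fun σ hσ => ?_
      rw [← hPc, ← Ew_add]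
      refine Ew_mono D h0 fun w _ _ => ?_
      exact M2_nc_le D A (filt A w) x σ mi fun y hy => hσ y hy
    rw [M2_av_const _ (M2_cw_pos W hW.pos A false)] at h2
    linarith
  have hdl : dl W A x = av (cw W A true) (fun σ => ind (σ x = true)) - av (cw W A false) (fun σ => ind (σ x = true)) := rfl
  rw [hdl]
  calc uu D univ m x ≤ _ := hs1
    _ ≤ (av (cw W A true) (fun σ => ind (σ x = true)) - av (cw W A false) (fun σ => ind (σ x = true))) + 2 * P := by
        linarith
    _ ≤ _ := by nlinarith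

end CWM
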