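import Pool.Agent.helper18.CWM.SpecB

/-!
# Project cwm (MP_7c3fb3_pr), row M3 (helper90): exponential decay of the mean size of the support
-/

open Finset Filter Topology

namespace CWM

/-- The mean size of the support is nonnegative. -/
lemma M3_nonneg {V U : Type} [Fintype V] [DecidableEq V] [Fintype U] (D : Dyn V U) (h0 : ∀ u, 0 ≤ D.nu u)
    (m : ℕ) (x : V) : 0 ≤ GG D m x :=
  Ew_nonneg D h0 fun _ _ _ => by positivity

/-- Iteration. -/
lemma M3_iter {V U : Type} [Fintype V] [DecidableEq V] [Fintype U] (D : Dyn V U) (h0 : ∀ u, 0 ≤ D.nu u) (x : V)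
    (M s : ℕ) (hs : ∀ m k : ℕ, GG D (k + m) x ≤ GG D k x * GG D m x) (hM : GG D M x ≤ 1 / 2) (q : ℕ) :
    GG D (q * M + s) x ≤ (1 / 2) ^ q * GG D s x := by
  induction q with
  | zero => simp
  | succ q ih =>
    have h1 : (q + 1) * M + s = M + (q * M + s) := by ring
    rw [h1]
    have h2 := hs (q * M + s) M
    have h3 := M3_nonneg D h0 (q * M + s) x
    calc GG D (M + (q * M + s)) x ≤ GG D M x * GG D (q * M + s) x := h2
      _ ≤ (1 / 2) * GG D (q * M + s) x := mul_le_mul_of_nonneg_right hM h3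
      _ ≤ (1 / 2) * ((1 / 2) ^ q * GG D s x) := by linarith
      _ = (1 / 2) ^ (q + 1) * GG D s x := by ring

/-- **M3**. -/
theorem M3 (hM3B : M3B_stmt) (hGB : GB_stmt) : M3_stmt := by
  intro d c0 C hd hc0 hC
  obtain ⟨τ, hτ, hB⟩ := hM3B d c0 C hd hc0 hC
  have hτR : (0 : ℝ) < τ := by exact_mod_cast hτ
  have hlog : 0 < Real.log 2 := Real.log_pos (by norm_num)
  refine ⟨2 * Real.exp (2 * d * τ), Real.log 2 / τ, by positivity, by positivity, ?_⟩
  intro V U _ _ _ D W hOk hFrc hHom hHB hdl x m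
  obtain ⟨-, hG2, -, hG4, -⟩ := hGB V U D d hOk hHom x
  have hhalf := hB V U D W hOk hFrc hHom hHB hdl x
  have hN : 0 < Fintype.card V := Fintype.card_pos_iff.2 ⟨x⟩
  have hNR : (0 : ℝ) < Fintype.card V := by exact_mod_cast hN
  set N := Fintype.card V with hNdef
  set M := τ * N with hMdef
  have hM : 0 < M := Nat.mul_pos hτ hN
  have hMR : (0 : ℝ) < M := by exact_mod_cast hM
  have hMR' : (M : ℝ) = τ * N := by rw [hMdef]; push_cast; ring
  have hdm : m / M * M + m % M = m := Nat.div_add_mod' m M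
  have hs : m % M < M := Nat.mod_lt m hM
  have hit := M3_iter D hOk.nu0 x M (m % M) hG2 hhalf (m / M)
  rw [hdm] at hit
  have hsm := hG4 (m % M)
  have hsR : ((m % M : ℕ) : ℝ) ≤ τ * N := by
    have : ((m % M : ℕ) : ℝ) < M := by exact_mod_cast hs
    rw [← hMR']; exact this.le
  have h5 : ((m % M : ℕ) : ℝ) / N ≤ τ := by rw [div_le_iff₀ hNR]; exact hsR
  have h6 : GG D (m % M) x ≤ Real.exp (2 * d * τ) := by
    refine hsm.trans (Real.exp_le_exp.2 ?_)
    exact mul_le_mul_of_nonneg_left h5 (by positivity)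
  have hq : (m : ℝ) / M ≤ ((m / M : ℕ) : ℝ) + 1 := by
    rw [div_le_iff₀ hMR]
    have h7 : m ≤ (m / M + 1) * M := by
      have : (m / M + 1) * M = m / M * M + M := by ring
      omega
    exact_mod_cast h7
  have h8 : ((1 : ℝ) / 2) ^ (m / M) ≤ 2 * Real.exp (-(Real.log 2 / τ) * (m / N)) := by
    have h9 : ((1 : ℝ) / 2) ^ (m / M) = Real.exp (-(((m / M : ℕ) : ℝ) * Real.log 2)) := by
      rw [Real.exp_neg, Real.exp_nat_mul, Real.exp_log (by norm_num)]
      rw [one_div, inv_pow]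
    have h10 : (2 : ℝ) * Real.exp (-(Real.log 2 / τ) * (m / N)) =
        Real.exp (Real.log 2 + -(Real.log 2 / τ) * (m / N)) := by
      rw [Real.exp_add, Real.exp_log (by norm_num)]
    rw [h9, h10]
    refine Real.exp_le_exp.2 ?_
    have h11 : Real.log 2 / τ * (m / N) = Real.log 2 * ((m : ℝ) / M) := by
      rw [hMR']; field_simp
    have h12 := mul_le_mul_of_nonneg_left hq hlog.le
    rw [neg_mul, h11]
    linarith
  calc GG D m x ≤ (1 / 2) ^ (m / M) * GG D (m % M) x := hit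
    _ ≤ (2 * Real.exp (-(Real.log 2 / τ) * (m / N))) * Real.exp (2 * d * τ) :=
        mul_le_mul h8 h6 (M3_nonneg D hOk.nu0 _ x) (by positivity)
    _ = 2 * Real.exp (2 * d * τ) * Real.exp (-(Real.log 2 / τ) * (m / N)) := by ring

end CWM
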