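import Pool.Agent.helper18.CWM.SpecB

/-!
Project cwm: row M3A.
-/

open Finset Filter Topology

namespace CWM

theorem M3A_real (d : ℕ) (hd : 1 ≤ d) (C y u : ℝ) (L : ℕ) (hC : 0 ≤ C) (hy : 0 < y)
    (hu : y ^ (2 * d) = u) (hL : L = ⌊1 / (8 * y)⌋₊) (hy4 : y ≤ 1 / 4)
    (hK : C * 8 ^ (4 * d) * y ^ d ≤ 1 / 2) :
    C / ((L : ℝ) + 1) ^ (4 * d) + (2 * (L : ℝ) + 1) ^ d * u * u ≤ y ^ (3 * d) := by
  have ht0 : 0 ≤ 1 / (8 * y) := by positivity
  have hL1 : (L : ℝ) ≤ 1 / (8 * y) := by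
    rw [hL]
    exact Nat.floor_le ht0
  have hL2 : 1 / (8 * y) ≤ (L : ℝ) + 1 := by
    rw [hL]
    exact (Nat.lt_floor_add_one _).le
  have h1 : C / ((L : ℝ) + 1) ^ (4 * d) ≤ 1 / 2 * y ^ (3 * d) := by
    have h2 : (1 / (8 * y)) ^ (4 * d) ≤ ((L : ℝ) + 1) ^ (4 * d) := pow_le_pow_left₀ ht0 hL2 _
    have h3 : 0 < (1 / (8 * y)) ^ (4 * d) := by positivity
    calc C / ((L : ℝ) + 1) ^ (4 * d) ≤ C / (1 / (8 * y)) ^ (4 * d) :=
          div_le_div_of_nonneg_left hC h3 h2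
      _ = (C * 8 ^ (4 * d) * y ^ d) * y ^ (3 * d) := by
          rw [one_div, inv_pow, div_inv_eq_mul, mul_pow, show 4 * d = d + 3 * d by ring, pow_add y]
          ring
      _ ≤ 1 / 2 * y ^ (3 * d) := mul_le_mul_of_nonneg_right hK (by positivity)
  have h2 : (2 * (L : ℝ) + 1) ^ d * u * u ≤ 1 / 2 * y ^ (3 * d) := by
    have h3 : 2 * (L : ℝ) + 1 ≤ 1 / (2 * y) := by
      have h4 : 1 / (8 * y) = 1 / (2 * y) / 4 := by field_simp; norm_num
      have h5 : 2 ≤ 1 / (2 * y) := by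
        rw [le_div_iff₀ (by positivity)]
        linarith
      linarith
    have h4 : (2 * (L : ℝ) + 1) ^ d ≤ (1 / (2 * y)) ^ d := pow_le_pow_left₀ (by positivity) h3 d
    have h5 : (1 / (2 * y)) ^ d * u * u = (1 / 2) ^ d * y ^ (3 * d) := by
      rw [← hu, one_div, mul_inv, mul_pow, show 2 * d = d + d by ring, show 3 * d = d + d + d by ring,
        pow_add, pow_add, pow_add]
      have h6 : y ^ d ≠ 0 := by positivity
      rw [inv_pow y]
      field_simp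
    have h6 : ((1 : ℝ) / 2) ^ d ≤ 1 / 2 := by
      calc ((1 : ℝ) / 2) ^ d ≤ (1 / 2) ^ 1 := pow_le_pow_of_le_one (by norm_num) (by norm_num) hd
        _ = 1 / 2 := pow_one _
    have hu0 : 0 ≤ u := by rw [← hu]; positivity
    calc (2 * (L : ℝ) + 1) ^ d * u * u ≤ (1 / (2 * y)) ^ d * u * u := by
          apply mul_le_mul_of_nonneg_right _ hu0
          exact mul_le_mul_of_nonneg_right h4 hu0
      _ = (1 / 2) ^ d * y ^ (3 * d) := h5
      _ ≤ 1 / 2 * y ^ (3 * d) := mul_le_mul_of_nonneg_right h6 (by positivity)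
  linarith

theorem M3A (hM1 : M1_stmt) (hHOM : HOM_stmt) (hUM : UM_stmt) : M3A_stmt := by
  intro d C hd hC
  have hKpos : 0 < C * 8 ^ (4 * d) + 1 := by positivity
  obtain ⟨κ, hκ⟩ : ∃ κ : ℝ, κ = 1 / (4 ^ d * 2 * (C * 8 ^ (4 * d) + 1)) := ⟨_, rfl⟩
  have hκ0 : 0 < κ := by rw [hκ]; positivity
  have h4d : (1 : ℝ) ≤ 4 ^ d := one_le_pow₀ (by norm_num)
  have h44 : (4 : ℝ) ≤ 4 ^ d := by
    calc (4 : ℝ) = 4 ^ 1 := (pow_one _).symm
      _ ≤ 4 ^ d := pow_le_pow_right₀ (by norm_num) hd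
  have hκ1 : κ ≤ (1 / 4) ^ d := by
    rw [hκ, one_div_pow]
    apply one_div_le_one_div_of_le (by positivity)
    have h1 : (1 : ℝ) ≤ 2 * (C * 8 ^ (4 * d) + 1) := by nlinarith [show 0 ≤ C * 8 ^ (4 * d) by positivity]
    calc (4 : ℝ) ^ d = 4 ^ d * 1 := (mul_one _).symm
      _ ≤ 4 ^ d * (2 * (C * 8 ^ (4 * d) + 1)) := mul_le_mul_of_nonneg_left h1 (by positivity)
      _ = 4 ^ d * 2 * (C * 8 ^ (4 * d) + 1) := by ring
  have hκ2 : C * 8 ^ (4 * d) * κ ≤ 1 / 2 := by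
    rw [hκ, mul_one_div, div_le_div_iff₀ (by positivity) (by norm_num)]
    have h0 : 0 ≤ C * 8 ^ (4 * d) := by positivity
    have h1 : C * 8 ^ (4 * d) * 2 ≤ 1 * (2 * (C * 8 ^ (4 * d) + 1)) := by linarith
    calc C * 8 ^ (4 * d) * 2 ≤ 1 * (2 * (C * 8 ^ (4 * d) + 1)) := h1
      _ ≤ 4 ^ d * (2 * (C * 8 ^ (4 * d) + 1)) := mul_le_mul_of_nonneg_right h4d (by positivity)
      _ = 1 * (4 ^ d * 2 * (C * 8 ^ (4 * d) + 1)) := by ring
  have hκ3 : κ ≤ 1 / 4 := by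
    refine hκ1.trans ?_
    calc ((1 : ℝ) / 4) ^ d ≤ (1 / 4) ^ 1 := pow_le_pow_of_le_one (by norm_num) (by norm_num) hd
      _ = 1 / 4 := pow_one _
  refine ⟨κ ^ 2, by positivity, by nlinarith, ?_⟩
  intro V U _ _ _ D W hD hH hHB hdl x m hu
  obtain ⟨hUM1, hUM2, -⟩ := hUM V U D d hD
  have hne : (univ : Finset V).Nonempty := ⟨x, mem_univ x⟩
  have hu0 : 0 ≤ uu D univ m x := (hUM2 univ x m hne).1
  rcases hu0.eq_or_lt with h0 | h0
  · have h1 := hUM1 univ x m (m + m) hne (Nat.le_add_left m m)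
    rw [← h0] at h1 ⊢
    rw [Real.zero_rpow (by norm_num)]
    exact h1
  · have hd0 : (d : ℝ) ≠ 0 := by
      have : d ≠ 0 := by omega
      exact_mod_cast this
    obtain ⟨y, hy⟩ : ∃ y : ℝ, y = (uu D univ m x) ^ (1 / (2 * (d : ℝ))) := ⟨_, rfl⟩
    have hy0 : 0 < y := by rw [hy]; exact Real.rpow_pos_of_pos h0 _
    have hyu : y ^ (2 * d) = uu D univ m x := by
      rw [hy, ← Real.rpow_natCast, ← Real.rpow_mul hu0]
      have h1 : 1 / (2 * (d : ℝ)) * ((2 * d : ℕ) : ℝ) = 1 := by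
        push_cast
        field_simp
      rw [h1, Real.rpow_one]
    have hy32 : (uu D univ m x) ^ ((3 : ℝ) / 2) = y ^ (3 * d) := by
      rw [hy, ← Real.rpow_natCast, ← Real.rpow_mul hu0]
      congr 1
      push_cast
      field_simp
    have hyκ : y ^ d ≤ κ := by
      have h1 : (y ^ d) ^ 2 ≤ κ ^ 2 := by
        rw [← pow_mul, mul_comm d 2, hyu]
        exact hu
      exact (pow_le_pow_iff_left₀ (by positivity) hκ0.le (by norm_num)).1 h1
    have hy4 : y ≤ 1 / 4 :=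
      (pow_le_pow_iff_left₀ hy0.le (by norm_num) (by omega : d ≠ 0)).1 (hyκ.trans hκ1)
    have hK : C * 8 ^ (4 * d) * y ^ d ≤ 1 / 2 :=
      (mul_le_mul_of_nonneg_left hyκ (by positivity)).trans hκ2
    obtain ⟨L, hL⟩ : ∃ L : ℕ, L = ⌊1 / (8 * y)⌋₊ := ⟨_, rfl⟩
    have hreal := M3A_real d hd C y _ L hC hy0 hyu hL hy4 hK
    have hM := hM1 V U D d W hD hHB (Bl D x L) x m m
    have hsum : ∑ z ∈ Bl D x L, uu D univ m z ≤ (2 * (L : ℝ) + 1) ^ d * uu D univ m x := by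
      have h1 : ∑ z ∈ Bl D x L, uu D univ m z = ((Bl D x L).card : ℝ) * uu D univ m x := by
        rw [← nsmul_eq_mul, ← sum_const]
        exact sum_congr rfl (fun z _ => (hHOM V U D hH m z x).1)
      rw [h1]
      apply mul_le_mul_of_nonneg_right _ hu0
      exact_mod_cast hD.blc x L
    rw [hy32]
    calc uu D univ (m + m) x ≤ dl W (Bl D x L) x + (∑ z ∈ Bl D x L, uu D univ m z) * uu D univ m x := hM
      _ ≤ C / ((L : ℝ) + 1) ^ (4 * d) + (2 * (L : ℝ) + 1) ^ d * uu D univ m x * uu D univ m x :=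
          add_le_add (hdl x L) (mul_le_mul_of_nonneg_right hsum hu0)
      _ ≤ y ^ (3 * d) := hreal

end CWM
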