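import Pool.Agent.helper18.CWM.SpecB

/-!
# Project cwm (MP_7c3fb3_pr), row cwm:M3B
-/

open Finset Filter Topology

namespace CWM

/-- doubly exponential decay beats a power -/
theorem M3B_lim (ε K : ℝ) (d : ℕ) (h0 : 0 < ε) (h1 : ε < 1) :
    ∃ k : ℕ, (K * 2 ^ k) ^ d * ε ^ (((3 : ℝ) / 2) ^ k) ≤ 1 / 4 ∨ K < 0 := by
  by_cases hK : K < 0
  · exact ⟨0, Or.inr hK⟩
  have hK0 : 0 ≤ K := not_lt.1 hK
  have hb : 0 < -Real.log ε := neg_pos.2 (Real.log_neg h0 h1)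
  set b := -Real.log ε with hbdef
  have t1 := Real.tendsto_pow_mul_exp_neg_atTop_nhds_zero (2 * d)
  have t2 : Tendsto (fun k : ℕ => b * ((3 : ℝ) / 2) ^ k) atTop atTop :=
    (tendsto_pow_atTop_atTop_of_one_lt (by norm_num)).const_mul_atTop hb
  have t3 := t1.comp t2
  have t4 := t3.const_mul (K ^ d / b ^ (2 * d))
  rw [mul_zero] at t4
  obtain ⟨k, hk⟩ := (t4.eventually (ge_mem_nhds (by norm_num : (0 : ℝ) < 1 / 4))).exists
  refine ⟨k, Or.inl (le_trans ?_ hk)⟩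
  have e1 : ε ^ (((3 : ℝ) / 2) ^ k) = Real.exp (-(b * ((3 : ℝ) / 2) ^ k)) := by
    rw [Real.rpow_def_of_pos h0, hbdef]
    ring_nf
  have e2 : (2 : ℝ) ^ k ≤ (((3 : ℝ) / 2) ^ k) ^ 2 := by
    rw [← pow_mul, mul_comm, pow_mul]
    exact pow_le_pow_left₀ (by norm_num) (by norm_num) k
  rw [e1]
  simp only [Function.comp_apply]
  have e3 : K ^ d / b ^ (2 * d) * ((b * ((3 : ℝ) / 2) ^ k) ^ (2 * d) *
      Real.exp (-(b * ((3 : ℝ) / 2) ^ k))) =
      (K * (((3 : ℝ) / 2) ^ k) ^ 2) ^ d * Real.exp (-(b * ((3 : ℝ) / 2) ^ k)) := by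
    rw [mul_pow b, mul_pow K, ← pow_mul (((3 : ℝ) / 2) ^ k)]
    have hb2 : b ^ (2 * d) ≠ 0 := (pow_pos hb _).ne'
    field_simp
  rw [e3]
  refine mul_le_mul_of_nonneg_right ?_ (Real.exp_pos _).le
  exact pow_le_pow_left₀ (mul_nonneg hK0 (by positivity)) (mul_le_mul_of_nonneg_left e2 hK0) d

theorem M3B (hM2 : M2_stmt) (hM3A : M3A_stmt) (hGB : GB_stmt) (hUM : UM_stmt) : M3B_stmt := by
  intro d c0 C hd hc0 hC
  obtain ⟨ε, hε0, hε1, hA⟩ := hM3A d C hd hC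
  -- the size `L`
  obtain ⟨L, hL⟩ := exists_nat_ge (2 * C / ε)
  have hL2 : C / ((L : ℝ) + 1) ^ (4 * d) ≤ ε / 2 := by
    have h1 : (L : ℝ) + 1 ≤ ((L : ℝ) + 1) ^ (4 * d) :=
      le_self_pow₀ (by linarith [(Nat.cast_nonneg L : (0 : ℝ) ≤ L)]) (by omega)
    have h2 : (0 : ℝ) < (L : ℝ) + 1 := by positivity
    rw [div_le_iff₀ (by positivity)]
    rw [div_le_iff₀ hε0] at hL
    nlinarith
  obtain ⟨C', c', hC', hc', hM⟩ := hM2 d c0 L hc0
  -- the time `τ`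
  have t1 : Tendsto (fun n : ℕ => C' * Real.exp (-(c' * n))) atTop (𝓝 (C' * 0)) := by
    refine Tendsto.const_mul C' (Real.tendsto_exp_neg_atTop_nhds_zero.comp ?_)
    exact tendsto_natCast_atTop_atTop.const_mul_atTop hc'
  rw [mul_zero] at t1
  obtain ⟨τ, hτ, hτ1⟩ := ((t1.eventually (ge_mem_nhds (half_pos hε0))).and
    (eventually_ge_atTop 1)).exists
  -- the exponent `k`
  set K : ℝ := 2 * ((8 * d + 4) * τ) + 1 with hK
  have hK0 : 0 ≤ K := by positivity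
  obtain ⟨k, hk | hk⟩ := M3B_lim ε K d hε0 hε1
  swap
  · exact absurd hk (not_lt.2 hK0)
  refine ⟨2 ^ k * τ, by positivity, ?_⟩
  intro V U _ _ _ D W hOk hFrc hHom hHB hdl x
  have hN : 0 < Fintype.card V := Fintype.card_pos_iff.2 ⟨x⟩
  have hNr : (0 : ℝ) < Fintype.card V := Nat.cast_pos.2 hN
  haveI : Nonempty V := ⟨x⟩
  have huniv : (univ : Finset V).Nonempty := univ_nonempty
  have hdiv : ∀ n : ℕ, (((n * Fintype.card V : ℕ) : ℝ)) / Fintype.card V = n := by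
    intro n
    rw [Nat.cast_mul, mul_div_assoc, div_self hNr.ne', mul_one]
  -- start
  have hstart : uu D univ (τ * Fintype.card V) x ≤ ε := by
    have h1 := hM V U D W hOk hFrc hHB x (τ * Fintype.card V)
    rw [hdiv] at h1
    have h2 := hdl x L
    have h3 : C' * Real.exp (-c' * τ) ≤ ε / 2 := by
      rw [neg_mul]
      exact hτ
    linarith
  -- squaring
  have hind : ∀ j : ℕ, uu D univ (2 ^ j * τ * Fintype.card V) x ≤ ε ^ (((3 : ℝ) / 2) ^ j) := by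
    intro j
    induction j with
    | zero =>
      rw [pow_zero, pow_zero, Real.rpow_one, one_mul]
      exact hstart
    | succ j ih =>
      have h1 : ε ^ (((3 : ℝ) / 2) ^ j) ≤ ε := by
        calc ε ^ (((3 : ℝ) / 2) ^ j) ≤ ε ^ (1 : ℝ) :=
              Real.rpow_le_rpow_of_exponent_ge hε0 hε1.le (one_le_pow₀ (by norm_num))
          _ = ε := Real.rpow_one ε
      have h2 := hA V U D W hOk hHom hHB hdl x (2 ^ j * τ * Fintype.card V) (ih.trans h1)
      have h3 : 2 ^ j * τ * Fintype.card V + 2 ^ j * τ * Fintype.card V =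
          2 ^ (j + 1) * τ * Fintype.card V := by ring
      rw [h3] at h2
      refine h2.trans ?_
      have h4 := (hUM V U D d hOk).2.1 univ x (2 ^ j * τ * Fintype.card V) huniv
      refine (Real.rpow_le_rpow h4.1 ih (by norm_num)).trans ?_
      rw [← Real.rpow_mul hε0.le, pow_succ]
  -- the end
  have hG := (hGB V U D d hOk hHom x).1 (2 ^ k * τ * Fintype.card V) ((8 * d + 4) * (2 ^ k * τ))
  rw [hdiv] at hG
  have hu0 := ((hUM V U D d hOk).2.1 univ x (2 ^ k * τ * Fintype.card V) huniv).1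
  have g1 : (2 * (((8 * d + 4) * (2 ^ k * τ) : ℕ) : ℝ) + 1) ^ d *
      uu D univ (2 ^ k * τ * Fintype.card V) x ≤ 1 / 4 := by
    refine le_trans (mul_le_mul ?_ (hind k) hu0 (by positivity)) hk
    refine pow_le_pow_left₀ (by positivity) ?_ d
    rw [hK]
    push_cast
    have h2k : (1 : ℝ) ≤ 2 ^ k := one_le_pow₀ (by norm_num)
    nlinarith
  have g2 : (1 / 2 : ℝ) ^ ((8 * d + 4) * (2 ^ k * τ) + 1) *
      Real.exp (4 * d * ((2 ^ k * τ : ℕ) : ℝ)) ≤ 1 / 4 := by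
    set T : ℕ := 2 ^ k * τ with hT
    have hT1 : 1 ≤ T := Nat.mul_pos (by positivity) hτ1
    have h1 : Real.exp (4 * d * (T : ℝ)) ≤ 4 ^ (4 * d * T) := by
      have : (4 * d * (T : ℝ)) = ((4 * d * T : ℕ) : ℝ) * 1 := by push_cast; ring
      rw [this, Real.exp_nat_mul]
      refine pow_le_pow_left₀ (Real.exp_pos _).le ?_ _
      have := Real.exp_one_lt_d9
      linarith
    have h2 : (4 : ℝ) ^ (4 * d * T) = 2 ^ (8 * d * T) := by
      rw [show (4 : ℝ) = 2 ^ 2 by norm_num, ← pow_mul]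
      ring_nf
    have h3 : (1 / 2 : ℝ) ^ ((8 * d + 4) * T + 1) * 2 ^ (8 * d * T) = (1 / 2) ^ (4 * T + 1) := by
      rw [show (8 * d + 4) * T + 1 = (4 * T + 1) + 8 * d * T by ring, pow_add, mul_assoc,
        ← mul_pow]
      norm_num
    calc (1 / 2 : ℝ) ^ ((8 * d + 4) * T + 1) * Real.exp (4 * d * (T : ℝ))
        ≤ (1 / 2 : ℝ) ^ ((8 * d + 4) * T + 1) * 2 ^ (8 * d * T) := by
          rw [← h2]
          exact mul_le_mul_of_nonneg_left h1 (by positivity)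
      _ = (1 / 2) ^ (4 * T + 1) := h3
      _ ≤ (1 / 2) ^ 2 := pow_le_pow_of_le_one (by norm_num) (by norm_num) (by omega)
      _ = 1 / 4 := by norm_num
  linarith

end CWM
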