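import Pool.Agent.helper18.CWM.SpecA

set_option autoImplicit false

open Finset Filter Topology

namespace CWM

theorem NLB (hEXP : EXP_stmt) (hZLE : ZLE_stmt) (hGIN : GIN_stmt) : NLB_stmt := by
  intro V _ _ nb ds d hs hnb hd1 htri hsym β h hβ hh k
  obtain ⟨g1, -, g3⟩ := hGIN V nb β h hβ hh.le
  have hZ := fun D A => hZLE V nb d hs hnb β h hβ hh.le D A
  have hpos : ∀ D A, 0 < ZA nb β h D A := fun D A => (hZ D A).1
  have hcE : ∀ D A A', 0 ≤ cE nb β h D A A' := fun D A A' => (hZ D A).2.2.1 A'
  have hE : ∀ (D A : Finset V), ZA nb β h D A =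
      ∑ A' ∈ (bd nb D A).powerset, cE nb β h D A A' * ZA nb β h (D \ A') A' :=
    fun D A => hEXP V nb hs β h D A fun _ => 1
  set p : Finset V → Finset V → Finset V → ℝ := fun D A A' =>
    cE nb β h D A A' * ZA nb β h (D \ A') A' / ZA nb β h D A with hp
  have hp0 : ∀ D A A', 0 ≤ p D A A' := fun D A A' =>
    div_nonneg (mul_nonneg (hcE D A A') (hpos _ _).le) (hpos _ _).le
  have hp1 : ∀ D A, ∑ A' ∈ (bd nb D A).powerset, p D A A' = 1 := by
    intro D A
    rw [← Finset.sum_div, ← hE D A, div_self (hpos D A).ne']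
  have hTE : ∀ F D A, TE nb β h F D A = ∑ A' ∈ (bd nb D A).powerset, p D A A' * F (D \ A') A' := by
    intro F D A
    unfold TE
    rw [Finset.sum_div]
    refine Finset.sum_congr rfl fun A' _ => ?_
    show _ = cE nb β h D A A' * ZA nb β h (D \ A') A' / ZA nb β h D A * F (D \ A') A'
    ring
  have hmg : ∀ (D A : Finset V) (x : V), mg nb β D (fun y => h - β * nA nb A y) x =
      ∑ A' ∈ (bd nb D A).powerset, p D A A' * mg nb β (D \ A') (fun y => h - β * nA nb A' y) x := by
    intro D A x
    have h1 := hEXP V nb hs β h D A fun P => sp P x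
    have h2 : mg nb β D (fun y => h - β * nA nb A y) x =
        ZF nb β D (fun y => h - β * nA nb A y) (fun P => sp P x) / ZA nb β h D A := rfl
    rw [h2, h1, Finset.sum_div]
    refine Finset.sum_congr rfl fun A' _ => ?_
    have h3 : mg nb β (D \ A') (fun y => h - β * nA nb A' y) x =
        ZF nb β (D \ A') (fun y => h - β * nA nb A' y) (fun P => sp P x) /
          ZA nb β h (D \ A') A' := rfl
    rw [h3]
    show _ = cE nb β h D A A' * ZA nb β h (D \ A') A' / ZA nb β h D A * _
    have h4 := (hpos (D \ A') A').ne'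
    have h5 := (hpos D A).ne'
    field_simp
  induction k with
  | zero =>
    intro D A E x hx hED hA
    rcases A.eq_empty_or_nonempty with hA0 | hA0
    · subst hA0
      have h1 : (fun y => h - β * nA nb (∅ : Finset V) y) = fun _ => h := by
        funext y
        unfold nA
        simp
      rw [h1]
      have h2 : sk nb β h 0 D (∅ : Finset V) = 0 := by
        show (((∅ : Finset V).card : ℕ) : ℝ) = 0
        simp
      rw [h2]
      have := g1 D E x hED hx
      linarith
    · have h1 : (1 : ℝ) ≤ sk nb β h 0 D A := by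
        show (1 : ℝ) ≤ ((A.card : ℕ) : ℝ)
        exact_mod_cast Finset.card_pos.2 hA0
      have h2 := abs_le.1 (g3 E (fun _ => h) x)
      have h3 := abs_le.1 (g3 D (fun y => h - β * nA nb A y) x)
      linarith [h2.2, h3.1]
  | succ k ih =>
    intro D A E x hx hED hA
    have h1 : sk nb β h (k + 1) D A =
        ∑ A' ∈ (bd nb D A).powerset, p D A A' * sk nb β h k (D \ A') A' := hTE (sk nb β h k) D A
    rw [h1, hmg D A x]
    have h2 : mg nb β E (fun _ => h) x =
        ∑ A' ∈ (bd nb D A).powerset, p D A A' * mg nb β E (fun _ => h) x := by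
      rw [← Finset.sum_mul, hp1, one_mul]
    rw [h2, Finset.mul_sum, ← Finset.sum_sub_distrib]
    refine Finset.sum_le_sum fun A' hA' => ?_
    have hsub := Finset.mem_powerset.1 hA'
    have hbd : ∀ a' ∈ A', ∃ a ∈ A, ds a a' ≤ 1 := by
      intro a' ha'
      have h3 := (Finset.mem_filter.1 (hsub ha')).2
      obtain ⟨a, ha⟩ := h3
      rw [Finset.mem_inter] at ha
      refine ⟨a, ha.2, ?_⟩
      rw [hsym]
      exact hd1 a' a ha.1
    have h3 := ih (D \ A') A' E x hx (by
      intro y hy
      rw [Finset.mem_sdiff]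
      refine ⟨hED hy, fun hy' => ?_⟩
      obtain ⟨a, ha, h4⟩ := hbd y hy'
      have := hA a ha y hy
      omega) (by
      intro a' ha' y hy
      obtain ⟨a, ha, h4⟩ := hbd a' ha'
      have h5 := hA a ha y hy
      have h6 := htri a a' y
      omega)
    have h4 := mul_le_mul_of_nonneg_left h3 (hp0 D A A')
    calc p D A A' * mg nb β E (fun _ => h) x - 2 * (p D A A' * sk nb β h k (D \ A') A')
        = p D A A' * (mg nb β E (fun _ => h) x - 2 * sk nb β h k (D \ A') A') := by ring
      _ ≤ _ := h4

end CWM
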