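import Pool.Agent.helper18.CWM.SpecL

/-!
# Project cwm: row PCB
-/

open Finset Filter Topology

namespace CWM

theorem PCB (hSUP : SUP_stmt) : PCB_stmt := by
  intro V U _ _ _ D d hOk w1 w2 a a' σ
  obtain ⟨s1, _, _, _⟩ := hSUP V U D d hOk
  rw [fl_append, fl_append]
  simp only [fl]
  set η := fl D w2 σ
  unfold Cp nS
  rw [← Finset.sum_sub_distrib, ← Finset.sum_add_distrib]
  refine (Finset.abs_sum_le_sum_abs _ _).trans (Finset.sum_le_sum fun x _ => ?_)
  by_cases h : a.1 ∈ supp D w1 x ∨ a'.1 ∈ supp D w1 x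
  · have h1 : 1 ≤ ind (a.1 ∈ supp D w1 x) + ind (a'.1 ∈ supp D w1 x) := by
      rcases h with h | h
      · rw [ind_of h]; linarith [ind_nonneg (a'.1 ∈ supp D w1 x)]
      · rw [ind_of h]; linarith [ind_nonneg (a.1 ∈ supp D w1 x)]
    refine le_trans ?_ h1
    rw [abs_le]
    constructor
    · linarith [ind_nonneg (fl D w1 (stp D a η) x = true), ind_le_one (fl D w1 (stp D a' η) x = true)]
    · linarith [ind_le_one (fl D w1 (stp D a η) x = true), ind_nonneg (fl D w1 (stp D a' η) x = true)]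
  · push Not at h
    have h1 : fl D w1 (stp D a η) x = fl D w1 (stp D a' η) x := by
      apply s1
      intro z hz
      have hz1 : z ≠ a.1 := fun e => h.1 (e ▸ hz)
      have hz2 : z ≠ a'.1 := fun e => h.2 (e ▸ hz)
      unfold stp
      rw [Function.update_of_ne hz1, Function.update_of_ne hz2]
    rw [h1, sub_self, abs_zero]
    linarith [ind_nonneg (a'.1 ∈ supp D w1 x), ind_nonneg (a.1 ∈ supp D w1 x)]

end CWM
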