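import Pool.Agent.helper18.CWM.SpecA

/-!
# Project cwm: row PL (positivity)
-/

open Finset Filter Topology

namespace CWM

section
variable {V B J : Type} [Fintype V] [DecidableEq V] [Fintype B] [Fintype J] {k : ℕ}

/-- the monomial with exponents `a` -/
noncomputable def PL_M (e : Fin k → B → ℝ) (a : V → Fin k → ℕ) (σ : V → B) : ℝ :=
  ∏ x, ∏ i, e i (σ x) ^ a x i

theorem PL_M_mul (e : Fin k → B → ℝ) (a b : V → Fin k → ℕ) (σ : V → B) :
    PL_M e a σ * PL_M e b σ = PL_M e (fun x i => a x i + b x i) σ := by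
  unfold PL_M
  rw [← Finset.prod_mul_distrib]
  refine Finset.prod_congr rfl fun x _ => ?_
  rw [← Finset.prod_mul_distrib]
  exact Finset.prod_congr rfl fun i _ => (pow_add _ _ _).symm

theorem PL_base (e : Fin k → B → ℝ) (he : ∀ a : Fin k → ℕ, 0 ≤ ∑ b, ∏ i, e i b ^ a i)
    (a : V → Fin k → ℕ) : 0 ≤ ∑ σ : V → B, PL_M e a σ := by
  have h := Finset.prod_univ_sum (fun _ : V => (univ : Finset B)) (fun x b => ∏ i, e i b ^ a x i)
  rw [Fintype.piFinset_univ] at h
  unfold PL_M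
  rw [← h]
  exact Finset.prod_nonneg fun x _ => he (a x)

theorem PL_pow (e : Fin k → B → ℝ) (he : ∀ a : Fin k → ℕ, 0 ≤ ∑ b, ∏ i, e i b ^ a i)
    (c : J → ℝ) (m : J → V → Fin k → ℕ) (hc : ∀ j, 0 ≤ c j) (N : ℕ) (n : ℕ) :
    ∀ a : V → Fin k → ℕ, 0 ≤ ∑ σ : V → B, PL_M e a σ * (1 + (∑ j, c j * PL_M e (m j) σ) / N) ^ n := by
  induction n with
  | zero =>
    intro a
    simpa using PL_base e he a
  | succ n ih =>
    intro a
    have key : ∑ σ : V → B, PL_M e a σ * (1 + (∑ j, c j * PL_M e (m j) σ) / N) ^ (n + 1) =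
        (∑ σ : V → B, PL_M e a σ * (1 + (∑ j, c j * PL_M e (m j) σ) / N) ^ n) +
        ∑ j, (c j / N) * ∑ σ : V → B, PL_M e (fun x i => a x i + m j x i) σ *
          (1 + (∑ j, c j * PL_M e (m j) σ) / N) ^ n := by
      simp_rw [Finset.mul_sum]
      rw [Finset.sum_comm, ← Finset.sum_add_distrib]
      refine Finset.sum_congr rfl fun σ _ => ?_
      rw [pow_succ]
      have h1 : ∀ j, (c j / N) * (PL_M e (fun x i => a x i + m j x i) σ *
          (1 + (∑ j, c j * PL_M e (m j) σ) / N) ^ n) =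
          (c j * PL_M e (m j) σ) * ((PL_M e a σ * (1 + (∑ j, c j * PL_M e (m j) σ) / N) ^ n) / N) := by
        intro j
        rw [← PL_M_mul]
        ring
      rw [Finset.sum_congr rfl fun j _ => h1 j, ← Finset.sum_mul]
      ring
    rw [key]
    refine add_nonneg (ih a) (Finset.sum_nonneg fun j _ => ?_)
    exact mul_nonneg (div_nonneg (hc j) (Nat.cast_nonneg _)) (ih _)

end

theorem PL : PL_stmt := by
  intro V B J _ _ _ _ k e he c m hc a
  have h1 : Tendsto (fun n : ℕ => ∑ σ : V → B, PL_M e a σ *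
      (1 + (∑ j, c j * PL_M e (m j) σ) / (n : ℝ)) ^ n) atTop
      (𝓝 (∑ σ : V → B, PL_M e a σ * Real.exp (∑ j, c j * PL_M e (m j) σ))) := by
    refine tendsto_finsetSum _ fun σ _ => ?_
    exact (Real.tendsto_one_add_div_pow_exp _).const_mul _
  exact ge_of_tendsto' h1 fun n => PL_pow e he c m hc n n a

end CWM
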