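import Pool.Agent.helper18.CWM.SpecH

/-!
# Project cwm: row PRX (probability of a long explored sequence)
-/

open Finset Filter Topology

namespace CWM

section
variable {V U : Type} [Fintype V] [DecidableEq V] [Fintype U]

omit [Fintype V] [DecidableEq V] in
lemma PRX_Es_mono (D : Dyn V U) (h0 : ∀ u, 0 ≤ D.nu u) (S : Finset V) (a J : ℕ) (F G : List (List (V × U)) → ℝ)
    (h : ∀ ws, ws.length = J → F ws ≤ G ws) : Es D S a J F ≤ Es D S a J G := by
  induction J generalizing F G with
  | zero => exact h [] rfl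
  | succ J ih =>
    refine Ew_mono D h0 fun w _ _ => ih _ _ fun ws hws => h (w :: ws) (by simp [hws])

omit [Fintype V] [DecidableEq V] in
lemma PRX_Es_smul (D : Dyn V U) (S : Finset V) (a J : ℕ) (c : ℝ) (F : List (List (V × U)) → ℝ) :
    Es D S a J (fun ws => c * F ws) = c * Es D S a J F := by
  induction J generalizing F with
  | zero => rfl
  | succ J ih =>
    simp only [Es]
    rw [← Ew_smul]
    exact Ew_congr D fun w _ _ => ih _

omit [Fintype V] [DecidableEq V] in
lemma PRX_Es_sum {ι : Type} (D : Dyn V U) (s : Finset ι) (S : Finset V) (a J : ℕ) (F : ι → List (List (V × U)) → ℝ) :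
    Es D S a J (fun ws => ∑ i ∈ s, F i ws) = ∑ i ∈ s, Es D S a J (F i) := by
  induction J generalizing F with
  | zero => rfl
  | succ J ih =>
    simp only [Es]
    rw [← Ew_sum]
    exact Ew_congr D fun w _ _ => ih _

/-- all pairs of the list are open -/
noncomputable def PRX_F (D : Dyn V U) (l : ℕ) (p : List (V × ℕ)) (ws : List (List (V × U))) : ℝ :=
  (p.map fun a => ind (∃ w, ws[a.2]? = some w ∧ Opn D l w a.1)).prod

omit [Fintype U] in
lemma PRX_F_nonneg (D : Dyn V U) (l : ℕ) (p : List (V × ℕ)) (ws : List (List (V × U))) : 0 ≤ PRX_F D l p ws := by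
  unfold PRX_F
  induction p with
  | nil => simp
  | cons a p ih =>
    rw [List.map_cons, List.prod_cons]
    exact mul_nonneg (ind_nonneg _) ih

/-- the pairs of the first slab -/
def PRX_h (p : List (V × ℕ)) : List V := (p.filter fun a => a.2 = 0).map Prod.fst
/-- the other pairs, shifted -/
def PRX_t (p : List (V × ℕ)) : List (V × ℕ) := (p.filter fun a => ¬ a.2 = 0).map fun a => (a.1, a.2 - 1)

omit [Fintype V] [DecidableEq V] in
lemma PRX_len (p : List (V × ℕ)) : (PRX_h p).length + (PRX_t p).length = p.length := by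
  unfold PRX_h PRX_t
  induction p with
  | nil => rfl
  | cons a p ih =>
    by_cases h : a.2 = 0
    · simp [h] at ih ⊢; omega
    · simp [h] at ih ⊢; omega

omit [Fintype U] in
lemma PRX_F_cons (D : Dyn V U) (l : ℕ) (p : List (V × ℕ)) (w : List (V × U)) (ws : List (List (V × U))) :
    PRX_F D l p (w :: ws) = ((PRX_h p).map fun y => ind (Opn D l w y)).prod * PRX_F D l (PRX_t p) ws := by
  unfold PRX_F PRX_h PRX_t
  induction p with
  | nil => simp
  | cons a p ih =>
    rw [List.map_cons, List.prod_cons, ih]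
    obtain ⟨y, k⟩ := a
    rcases k with _ | k
    · have h1 : ind (∃ w', (w :: ws)[0]? = some w' ∧ Opn D l w' y) = ind (Opn D l w y) := by
        apply ind_congr; simp
      simp only [h1]
      simp
      ring
    · have h1 : ind (∃ w', (w :: ws)[k + 1]? = some w' ∧ Opn D l w' y) = ind (∃ w', ws[k]? = some w' ∧ Opn D l w' y) := by
        apply ind_congr; simp
      simp only [h1]
      simp
      ring

omit [Fintype U] in
lemma PRX_Opn (D : Dyn V U) (l : ℕ) (w : List (V × U)) (y : V) : Opn D l (filt (Bl D y l) w) y ↔ Opn D l w y := by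
  unfold Opn
  rw [filt_filt _ _ _ (Finset.Subset.refl _)]

/-- one slab -/
lemma PRX_one (hPZ : PZ_stmt) (D : Dyn V U) (d : ℕ) (hOk : D.Ok d) (S : Finset V) (τ l : ℕ) (q : ℝ) (hS : S.Nonempty)
    (hτ : 1 ≤ τ) (hq : 0 ≤ q) (L : List V)
    (hL : ∀ y ∈ L, Bl D y l ⊆ S ∧ Pz D (Bl D y l) τ (τ * S.card) (fun w => ind (Opn D l w y)) ≤ q)
    (hsep : L.Pairwise fun x y => 2 * l < D.ds y x) :
    Ew D S (τ * S.card) (fun w => (L.map fun y => ind (Opn D l w y)).prod) ≤
      Real.exp 1 * (τ * S.card) * q ^ L.length := by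
  have hSc : 1 ≤ S.card := Finset.card_pos.2 hS
  have h1 := hPZ V U D hOk.nu0 hOk.nu1 (L.map fun y => (Bl D y l, fun w => ind (Opn D l w y))) S
    (by
      intro p hp
      obtain ⟨y, hy, rfl⟩ := List.mem_map.1 hp
      exact ⟨(hL y hy).1, fun w => ind_nonneg _⟩)
    (by
      rw [List.pairwise_map]
      refine hsep.imp ?_
      intro x y hxy
      rw [Finset.disjoint_left]
      intro z hz hz'
      rw [mem_Bl] at hz hz'
      have h2 := hOk.dst y z x
      rw [hOk.dsc z x] at h2
      omega)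
    τ (τ * S.card) (by positivity) (Nat.mul_pos hτ hSc) (by push_cast; ring)
  have h2 : (fun w : List (V × U) => ((L.map fun y => (Bl D y l, fun w => ind (Opn D l w y))).map
      fun p : Finset V × (List (V × U) → ℝ) => p.2 (filt p.1 w)).prod) = fun w => (L.map fun y => ind (Opn D l w y)).prod := by
    funext w
    rw [List.map_map]
    congr 1
    refine List.map_congr_left fun y _ => ?_
    exact ind_congr (PRX_Opn D l w y)
  rw [h2] at h1
  refine h1.trans ?_
  push_cast
  refine mul_le_mul_of_nonneg_left ?_ (by positivity)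
  rw [List.map_map]
  have h3 : ∀ L : List V, (∀ y ∈ L, Bl D y l ⊆ S ∧ Pz D (Bl D y l) τ (τ * S.card) (fun w => ind (Opn D l w y)) ≤ q) →
      (L.map ((fun p : Finset V × (List (V × U) → ℝ) => Pz D p.1 τ (τ * S.card) p.2) ∘
        fun y => (Bl D y l, fun w => ind (Opn D l w y)))).prod ≤ q ^ L.length ∧
      0 ≤ (L.map ((fun p : Finset V × (List (V × U) → ℝ) => Pz D p.1 τ (τ * S.card) p.2) ∘
        fun y => (Bl D y l, fun w => ind (Opn D l w y)))).prod := by
    intro L
    induction L with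
    | nil => intro _; simp
    | cons y L ih =>
      intro hL
      obtain ⟨i1, i2⟩ := ih fun z hz => hL z (List.mem_cons_of_mem _ hz)
      have h4 : 0 ≤ Pz D (Bl D y l) τ (τ * S.card) (fun w => ind (Opn D l w y)) := by
        unfold Pz
        refine mul_nonneg (Real.exp_pos _).le (Finset.sum_nonneg fun c _ => mul_nonneg (by positivity) ?_)
        exact Ww_nonneg D hOk.nu0 fun w _ _ => ind_nonneg _
      rw [List.map_cons, List.prod_cons, List.length_cons, pow_succ, mul_comm (q ^ L.length)]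
      refine ⟨mul_le_mul (hL y (List.mem_cons_self)).2 i1 i2 hq, mul_nonneg h4 i2⟩
  exact (h3 L hL).1

lemma PRX_prod (hPZ : PZ_stmt) (D : Dyn V U) (d : ℕ) (hOk : D.Ok d) (S : Finset V) (τ l : ℕ) (q : ℝ) (hS : S.Nonempty)
    (hτ : 1 ≤ τ) (hq : 0 ≤ q) (J : ℕ) (p : List (V × ℕ))
    (hL : ∀ a ∈ p, Bl D a.1 l ⊆ S ∧ Pz D (Bl D a.1 l) τ (τ * S.card) (fun w => ind (Opn D l w a.1)) ≤ q)
    (hsep : p.Pairwise fun a b => b.2 = a.2 → 2 * l < D.ds b.1 a.1) :
    Es D S (τ * S.card) J (PRX_F D l p) ≤ (Real.exp 1 * (τ * S.card)) ^ J * q ^ p.length := by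
  induction J generalizing p with
  | zero =>
    simp only [Es, pow_zero, one_mul]
    unfold PRX_F
    cases p with
    | nil => simp
    | cons a p =>
      rw [List.map_cons, List.prod_cons, ind_not (by simp), zero_mul]
      positivity
  | succ J ih =>
    simp only [Es]
    have hL' : ∀ a ∈ PRX_t p, Bl D a.1 l ⊆ S ∧ Pz D (Bl D a.1 l) τ (τ * S.card) (fun w => ind (Opn D l w a.1)) ≤ q := by
      intro a ha
      unfold PRX_t at ha
      obtain ⟨b, hb, rfl⟩ := List.mem_map.1 ha
      exact hL b (List.mem_filter.1 hb).1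
    have hsep' : (PRX_t p).Pairwise fun a b => b.2 = a.2 → 2 * l < D.ds b.1 a.1 := by
      unfold PRX_t
      rw [List.pairwise_map]
      have h1 := hsep.filter fun a => decide (¬ a.2 = 0)
      refine h1.imp_of_mem ?_
      intro a b ha hb hab heq
      have ha' := (List.mem_filter.1 ha).2
      have hb' := (List.mem_filter.1 hb).2
      simp only [decide_eq_true_eq] at ha' hb'
      apply hab
      simp only at heq
      omega
    have hLh : ∀ y ∈ PRX_h p, Bl D y l ⊆ S ∧ Pz D (Bl D y l) τ (τ * S.card) (fun w => ind (Opn D l w y)) ≤ q := by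
      intro y hy
      unfold PRX_h at hy
      obtain ⟨b, hb, rfl⟩ := List.mem_map.1 hy
      exact hL b (List.mem_filter.1 hb).1
    have hseph : (PRX_h p).Pairwise fun x y => 2 * l < D.ds y x := by
      unfold PRX_h
      rw [List.pairwise_map]
      have h1 := hsep.filter fun a => decide (a.2 = 0)
      refine h1.imp_of_mem ?_
      intro a b ha hb hab
      have ha' := (List.mem_filter.1 ha).2
      have hb' := (List.mem_filter.1 hb).2
      simp only [decide_eq_true_eq] at ha' hb'
      apply hab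
      omega
    have hstep : ∀ w : List (V × U), Es D S (τ * S.card) J (fun ws => PRX_F D l p (w :: ws)) ≤
        ((Real.exp 1 * (τ * S.card)) ^ J * q ^ (PRX_t p).length) * ((PRX_h p).map fun y => ind (Opn D l w y)).prod := by
      intro w
      have h1 : (fun ws => PRX_F D l p (w :: ws)) =
          fun ws => ((PRX_h p).map fun y => ind (Opn D l w y)).prod * PRX_F D l (PRX_t p) ws := by
        funext ws; exact PRX_F_cons D l p w ws
      rw [h1, PRX_Es_smul, mul_comm]
      refine mul_le_mul_of_nonneg_right (ih (PRX_t p) hL' hsep') ?_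
      generalize PRX_h p = L
      induction L with
      | nil => simp
      | cons a L ihL =>
        rw [List.map_cons, List.prod_cons]
        exact mul_nonneg (ind_nonneg _) ihL
    calc Ew D S (τ * S.card) (fun w => Es D S (τ * S.card) J fun ws => PRX_F D l p (w :: ws)) ≤
        Ew D S (τ * S.card) (fun w => ((Real.exp 1 * (τ * S.card)) ^ J * q ^ (PRX_t p).length) *
          ((PRX_h p).map fun y => ind (Opn D l w y)).prod) := Ew_mono D hOk.nu0 fun w _ _ => hstep w
      _ = ((Real.exp 1 * (τ * S.card)) ^ J * q ^ (PRX_t p).length) *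
          Ew D S (τ * S.card) (fun w => ((PRX_h p).map fun y => ind (Opn D l w y)).prod) := Ew_smul _ _ _ _ _
      _ ≤ ((Real.exp 1 * (τ * S.card)) ^ J * q ^ (PRX_t p).length) *
          (Real.exp 1 * (τ * S.card) * q ^ (PRX_h p).length) := by
        refine mul_le_mul_of_nonneg_left (PRX_one hPZ D d hOk S τ l q hS hτ hq _ hLh hseph) (by positivity)
      _ = (Real.exp 1 * (τ * S.card)) ^ (J + 1) * q ^ p.length := by
        rw [← PRX_len p, pow_add, pow_succ]; ring

/-- possible next elements -/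
def PRX_nxt (D : Dyn V U) (r : ℕ) (C : Finset V) (p : List (V × ℕ)) : Finset (V × ℕ) :=
  (C ×ˢ {0}) ∪ p.toFinset.biUnion fun b => (Bl D b.1 r) ×ˢ {b.2, b.2 + 1}

/-- candidates -/
def PRX_cand (D : Dyn V U) (r : ℕ) (C : Finset V) : ℕ → Finset (List (V × ℕ))
  | 0 => {[]}
  | i + 1 => (PRX_cand D r C i).biUnion fun p => (PRX_nxt D r C p).image fun a => a :: p

omit [Fintype U] in
lemma PRX_nxt_card (D : Dyn V U) (d : ℕ) (hOk : ∀ (x : V) (r : ℕ), (Bl D x r).card ≤ (2 * r + 1) ^ d) (r : ℕ) (C : Finset V) (p : List (V × ℕ)) :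
    (PRX_nxt D r C p).card ≤ C.card + 2 * p.length * (2 * r + 1) ^ d := by
  unfold PRX_nxt
  refine (Finset.card_union_le _ _).trans ?_
  refine Nat.add_le_add ?_ ?_
  · rw [Finset.card_product]; simp
  · refine Finset.card_biUnion_le.trans ?_
    have h1 : ∀ b ∈ p.toFinset, ((Bl D b.1 r) ×ˢ ({b.2, b.2 + 1} : Finset ℕ)).card ≤ (2 * r + 1) ^ d * 2 := by
      intro b _
      rw [Finset.card_product]
      exact Nat.mul_le_mul (hOk b.1 r) Finset.card_le_two
    refine (Finset.sum_le_card_nsmul _ _ _ h1).trans ?_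
    rw [smul_eq_mul]
    calc p.toFinset.card * ((2 * r + 1) ^ d * 2) ≤ p.length * ((2 * r + 1) ^ d * 2) :=
          Nat.mul_le_mul_right _ (List.toFinset_card_le p)
      _ = 2 * p.length * (2 * r + 1) ^ d := by ring

omit [Fintype U] in
lemma PRX_cand_len (D : Dyn V U) (r : ℕ) (C : Finset V) (i : ℕ) : ∀ p ∈ PRX_cand D r C i, p.length = i := by
  induction i with
  | zero => intro p hp; simp [PRX_cand] at hp; simp [hp]
  | succ i ih =>
    intro p hp
    simp only [PRX_cand, Finset.mem_biUnion, Finset.mem_image] at hp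
    obtain ⟨p', hp', a, _, rfl⟩ := hp
    simp [ih p' hp']

omit [Fintype U] in
lemma PRX_cand_card (D : Dyn V U) (d : ℕ) (hOk : ∀ (x : V) (r : ℕ), (Bl D x r).card ≤ (2 * r + 1) ^ d) (r : ℕ) (C : Finset V) (s i : ℕ) (hi : i ≤ s) :
    (PRX_cand D r C i).card ≤ (C.card + 2 * s * (2 * r + 1) ^ d) ^ i := by
  induction i with
  | zero => simp [PRX_cand]
  | succ i ih =>
    simp only [PRX_cand]
    refine Finset.card_biUnion_le.trans ?_
    have h1 : ∀ p ∈ PRX_cand D r C i, ((PRX_nxt D r C p).image fun a => a :: p).card ≤ C.card + 2 * s * (2 * r + 1) ^ d := by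
      intro p hp
      refine Finset.card_image_le.trans ((PRX_nxt_card D d hOk r C p).trans ?_)
      rw [PRX_cand_len D r C i p hp]
      have : i ≤ s := by omega
      gcongr
    refine (Finset.sum_le_card_nsmul _ _ _ h1).trans ?_
    rw [smul_eq_mul, pow_succ]
    exact Nat.mul_le_mul_right _ (ih (by omega))

omit [Fintype U] in
lemma PRX_cand_near (D : Dyn V U) (hOk : ∀ x, D.ds x x = 0) (hT : ∀ x y z, D.ds x z ≤ D.ds x y + D.ds y z)
    (r : ℕ) (C : Finset V) (i : ℕ) :
    ∀ p ∈ PRX_cand D r C i, ∀ a ∈ p, a.1 ∈ BS D C (i * r) := by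
  induction i with
  | zero => intro p hp a ha; simp [PRX_cand] at hp; simp [hp] at ha
  | succ i ih =>
    intro p hp
    simp only [PRX_cand, Finset.mem_biUnion, Finset.mem_image] at hp
    obtain ⟨p', hp', a, ha, rfl⟩ := hp
    have hmono : ∀ y, y ∈ BS D C (i * r) → y ∈ BS D C ((i + 1) * r) := by
      intro y hy
      obtain ⟨x, hx, hxy⟩ := (mem_BS D).1 hy
      exact (mem_BS D).2 ⟨x, hx, hxy.trans (by nlinarith)⟩
    intro b hb
    rcases List.mem_cons.1 hb with rfl | hb
    · unfold PRX_nxt at ha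
      rcases Finset.mem_union.1 ha with ha | ha
      · rw [Finset.mem_product] at ha
        exact (mem_BS D).2 ⟨b.1, ha.1, by rw [hOk]; exact Nat.zero_le _⟩
      · obtain ⟨c, hc, hbc⟩ := Finset.mem_biUnion.1 ha
        rw [Finset.mem_product, mem_Bl] at hbc
        obtain ⟨x, hx, hxc⟩ := (mem_BS D).1 (ih p' hp' c (List.mem_toFinset.1 hc))
        refine (mem_BS D).2 ⟨x, hx, ?_⟩
        have h1 := hT x c.1 b.1
        have h2 : (i + 1) * r = i * r + r := by ring
        omega
    · exact hmono _ (ih p' hp' b hb)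

omit [Fintype U] in
lemma PRX_Xp (D : Dyn V U) (l r : ℕ) (ws : List (List (V × U))) (C : Finset V) (p : List (V × ℕ))
    (h : Xp D l r ws C p) : p ∈ PRX_cand D r C p.length ∧ p.Pairwise (fun a b => b.2 = a.2 → 2 * l < D.ds b.1 a.1) ∧
      PRX_F D l p ws = 1 := by
  induction p with
  | nil => simp [PRX_cand, PRX_F]
  | cons a p ih =>
    obtain ⟨h1, h2, h3, h4⟩ := h
    obtain ⟨i1, i2, i3⟩ := ih h1
    refine ⟨?_, ?_, ?_⟩
    · simp only [List.length_cons, PRX_cand, Finset.mem_biUnion, Finset.mem_image]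
      refine ⟨p, i1, a, ?_, rfl⟩
      unfold PRX_nxt
      rw [Finset.mem_union]
      rcases h4 with ⟨h5, h6⟩ | ⟨b, hb, h5, h6⟩
      · left
        rw [Finset.mem_product]
        exact ⟨h6, by simp [h5]⟩
      · right
        rw [Finset.mem_biUnion]
        refine ⟨b, List.mem_toFinset.2 hb, ?_⟩
        rw [Finset.mem_product, mem_Bl]
        refine ⟨h5, ?_⟩
        simp only [Finset.mem_insert, Finset.mem_singleton]
        exact h6
    · exact List.Pairwise.cons h3 i2
    · unfold PRX_F at i3 ⊢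
      rw [List.map_cons, List.prod_cons, i3, ind_of h2, one_mul]

end

theorem PRX (hPZ : PZ_stmt) : PRX_stmt := by
  classical
  intro V U _ _ _ D d hOk S C τ J s l r₂ q hS hτ hq hC
  have hself : ∀ x, D.ds x x = 0 := fun x => (hOk.ds0 x x).2 rfl
  set K := (PRX_cand D r₂ C s).filter fun p => p.Pairwise fun a b => b.2 = a.2 → 2 * l < D.ds b.1 a.1 with hK
  have h1 : ∀ ws : List (List (V × U)), ind (∃ p, Xp D l r₂ ws C p ∧ p.length = s) ≤ ∑ p ∈ K, PRX_F D l p ws := by
    intro ws
    by_cases hex : ∃ p, Xp D l r₂ ws C p ∧ p.length = s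
    · rw [ind_of hex]
      obtain ⟨p, hp, hps⟩ := hex
      obtain ⟨i1, i2, i3⟩ := PRX_Xp D l r₂ ws C p hp
      rw [hps] at i1
      rw [← i3]
      exact Finset.single_le_sum (f := fun p => PRX_F D l p ws) (fun p _ => PRX_F_nonneg D l p ws)
        (Finset.mem_filter.2 ⟨i1, i2⟩)
    · rw [ind_not hex]
      exact Finset.sum_nonneg fun p _ => PRX_F_nonneg D l p ws
  have h2 : Es D S (τ * S.card) J (fun ws => ind (∃ p, Xp D l r₂ ws C p ∧ p.length = s)) ≤
      ∑ p ∈ K, Es D S (τ * S.card) J (PRX_F D l p) := by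
    refine (PRX_Es_mono D hOk.nu0 S _ J _ _ fun ws _ => h1 ws).trans ?_
    rw [PRX_Es_sum]
  have h3 : ∀ p ∈ K, Es D S (τ * S.card) J (PRX_F D l p) ≤ (Real.exp 1 * (τ * S.card)) ^ J * q ^ s := by
    intro p hp
    obtain ⟨hp1, hp2⟩ := Finset.mem_filter.1 hp
    have h4 := PRX_prod hPZ D d hOk S τ l q hS hτ hq J p
      (fun a ha => hC a.1 (PRX_cand_near D hself hOk.dst r₂ C s p hp1 a ha)) hp2
    rwa [PRX_cand_len D r₂ C s p hp1] at h4
  have h5 : (K.card : ℝ) ≤ ((C.card : ℝ) + 2 * s * (2 * r₂ + 1) ^ d) ^ s := by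
    have h6 : K.card ≤ (C.card + 2 * s * (2 * r₂ + 1) ^ d) ^ s :=
      (Finset.card_filter_le _ _).trans (PRX_cand_card D d hOk.blc r₂ C s s le_rfl)
    exact_mod_cast h6
  refine h2.trans ((Finset.sum_le_card_nsmul _ _ _ h3).trans ?_)
  rw [nsmul_eq_mul, mul_assoc]
  exact mul_le_mul_of_nonneg_right h5 (by positivity)

end CWM
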