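import Pool.Agent.helper18.CWM.SpecH

/-!
# cwm:PZ (helper47): Poissonisation
-/

open Finset Filter Topology

namespace CWM

section
variable {V U : Type} [Fintype V] [DecidableEq V] [Fintype U] (D : Dyn V U)

theorem PZ_pz_nonneg (h0 : ∀ u, 0 ≤ D.nu u) (B : Finset V) (t : ℝ) (a : ℕ) (ht : 0 ≤ t)
    (F : List (V × U) → ℝ) (hF : ∀ w, 0 ≤ F w) : 0 ≤ Pz D B t a F := by
  unfold Pz
  refine mul_nonneg (Real.exp_pos _).le (sum_nonneg fun c _ => mul_nonneg (by positivity) ?_)
  exact Ww_nonneg D h0 fun w _ _ => hF w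

theorem PZ_prod_nonneg (L : List (Finset V × (List (V × U) → ℝ)))
    (hL : ∀ p ∈ L, ∀ w, 0 ≤ p.2 w) (w : List (V × U)) :
    0 ≤ (L.map fun p => p.2 (filt p.1 w)).prod := by
  apply List.prod_nonneg
  intro x hx
  rw [List.mem_map] at hx
  obtain ⟨p, hp, rfl⟩ := hx
  exact hL p hp _

/-- the Cauchy product -/
theorem PZ_cauchy (f g : ℕ → ℝ) (hf : ∀ c, 0 ≤ f c) (hg : ∀ c, 0 ≤ g c) (t : ℝ) (ht : 0 ≤ t)
    (a : ℕ) :
    ∑ k ∈ range (a + 1), t ^ k / (k.factorial : ℝ) *
      ∑ c ∈ range (k + 1), (k.choose c : ℝ) * (f c * g (k - c)) ≤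
    (∑ c ∈ range (a + 1), t ^ c / (c.factorial : ℝ) * f c) *
      ∑ b ∈ range (a + 1), t ^ b / (b.factorial : ℝ) * g b := by
  have h1 : ∀ k ∈ range (a + 1), t ^ k / (k.factorial : ℝ) *
      ∑ c ∈ range (k + 1), (k.choose c : ℝ) * (f c * g (k - c)) =
      ∑ p ∈ antidiagonal k, (t ^ p.1 / (p.1.factorial : ℝ) * f p.1) *
        (t ^ p.2 / (p.2.factorial : ℝ) * g p.2) := by
    intro k _
    rw [Finset.Nat.sum_antidiagonal_eq_sum_range_succ_mk, mul_sum]
    refine sum_congr rfl fun c hc => ?_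
    have hck : c ≤ k := Nat.lt_succ_iff.1 (mem_range.1 hc)
    have h2 : (k.choose c : ℝ) * (c.factorial : ℝ) * ((k - c).factorial : ℝ) = (k.factorial : ℝ) := by
      exact_mod_cast Nat.choose_mul_factorial_mul_factorial hck
    have h3 : t ^ k = t ^ c * t ^ (k - c) := by rw [← pow_add, Nat.add_sub_cancel' hck]
    have h4 : (c.factorial : ℝ) ≠ 0 := by exact_mod_cast c.factorial_ne_zero
    have h5 : ((k - c).factorial : ℝ) ≠ 0 := by exact_mod_cast (k - c).factorial_ne_zero
    have h6 : (k.factorial : ℝ) ≠ 0 := by exact_mod_cast k.factorial_ne_zero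
    have h7 : (k.choose c : ℝ) / (k.factorial : ℝ) =
        1 / ((c.factorial : ℝ) * ((k - c).factorial : ℝ)) := by
      rw [div_eq_div_iff h6 (mul_ne_zero h4 h5)]
      rw [← h2]
      ring
    calc t ^ k / (k.factorial : ℝ) * ((k.choose c : ℝ) * (f c * g (k - c)))
        = ((k.choose c : ℝ) / (k.factorial : ℝ)) * (t ^ k * (f c * g (k - c))) := by ring
      _ = (1 / ((c.factorial : ℝ) * ((k - c).factorial : ℝ))) *
          (t ^ c * t ^ (k - c) * (f c * g (k - c))) := by rw [h7, h3]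
      _ = _ := by
        field_simp
  rw [sum_congr rfl h1, sum_mul_sum, ← sum_product']
  have h8 : ∑ k ∈ range (a + 1), ∑ p ∈ antidiagonal k,
      (t ^ p.1 / (p.1.factorial : ℝ) * f p.1) * (t ^ p.2 / (p.2.factorial : ℝ) * g p.2) =
      ∑ p ∈ (range (a + 1)).biUnion (fun k => antidiagonal k),
      (t ^ p.1 / (p.1.factorial : ℝ) * f p.1) * (t ^ p.2 / (p.2.factorial : ℝ) * g p.2) := by
    rw [sum_biUnion]
    intro i _ j _ hij
    rw [Function.onFun, disjoint_left]
    intro p hp hq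
    rw [HasAntidiagonal.mem_antidiagonal] at hp hq
    exact hij (by omega)
  rw [h8]
  refine sum_le_sum_of_subset_of_nonneg ?_ ?_
  · intro p hp
    rw [mem_biUnion] at hp
    obtain ⟨k, hk, hp⟩ := hp
    rw [HasAntidiagonal.mem_antidiagonal] at hp
    rw [mem_range] at hk
    rw [mem_product, mem_range, mem_range]
    omega
  · intro p _ _
    have := hf p.1
    have := hg p.2
    positivity

theorem PZ_main (hSPL : SPL_stmt) (h0 : ∀ u, 0 ≤ D.nu u) (h1 : ∑ u, D.nu u = 1) (t : ℝ) (ht : 0 ≤ t)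
    (a : ℕ) (L : List (Finset V × (List (V × U) → ℝ))) : ∀ (S : Finset V),
    (∀ p ∈ L, p.1 ⊆ S ∧ ∀ w, 0 ≤ p.2 w) → L.Pairwise (fun p q => Disjoint p.1 q.1) →
    ∑ k ∈ range (a + 1), t ^ k / (k.factorial : ℝ) *
      Ww D S k (fun w => (L.map fun p => p.2 (filt p.1 w)).prod) ≤
    Real.exp (t * S.card) * (L.map fun p => Pz D p.1 t a p.2).prod := by
  induction L with
  | nil =>
    intro S _ _
    simp only [List.map_nil, List.prod_nil, mul_one]
    have h2 : ∀ k ∈ range (a + 1), t ^ k / (k.factorial : ℝ) * Ww D S k (fun _ => (1 : ℝ)) =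
        (t * S.card) ^ k / (k.factorial : ℝ) := by
      intro k _
      rw [Ww_const D h1, mul_one, mul_pow]
      ring
    rw [sum_congr rfl h2]
    exact Real.sum_le_exp_of_nonneg (by positivity) (a + 1)
  | cons p L ih =>
    intro S hS hpw
    rw [List.pairwise_cons] at hpw
    have hp := hS p (List.mem_cons_self ..)
    have hdis : Disjoint p.1 (S \ p.1) := disjoint_sdiff
    have hun : p.1 ∪ (S \ p.1) = S := union_sdiff_of_subset hp.1
    have hsub : ∀ q ∈ L, q.1 ⊆ S \ p.1 := by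
      intro q hq x hx
      refine Finset.mem_sdiff.2 ⟨(hS q (List.mem_cons_of_mem _ hq)).1 hx, fun hx' => ?_⟩
      exact (disjoint_left.1 (hpw.1 q hq)) hx' hx
    have ih' := ih (S \ p.1) (fun q hq => ⟨hsub q hq, (hS q (List.mem_cons_of_mem _ hq)).2⟩) hpw.2
    have hG : ∀ w, 0 ≤ (L.map fun q => q.2 (filt q.1 w)).prod :=
      PZ_prod_nonneg L fun q hq => (hS q (List.mem_cons_of_mem _ hq)).2
    have hW : ∀ k, Ww D S k (fun w => ((p :: L).map fun q => q.2 (filt q.1 w)).prod) =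
        ∑ c ∈ range (k + 1), (k.choose c : ℝ) * (Ww D p.1 c p.2 *
          Ww D (S \ p.1) (k - c) fun w => (L.map fun q => q.2 (filt q.1 w)).prod) := by
      intro k
      have h3 := hSPL V U D p.1 (S \ p.1) hdis k
        (fun w1 w2 => p.2 w1 * (L.map fun q => q.2 (filt q.1 w2)).prod)
      rw [hun] at h3
      have h4 : Ww D S k (fun w => ((p :: L).map fun q => q.2 (filt q.1 w)).prod) =
          Ww D S k (fun w => p.2 (filt p.1 w) *
            (L.map fun q => q.2 (filt q.1 (filt (S \ p.1) w))).prod) := by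
        refine Ww_congr D fun w _ _ => ?_
        rw [List.map_cons, List.prod_cons]
        congr 1
        congr 1
        refine List.map_congr_left fun q hq => ?_
        rw [filt_filt _ _ _ (hsub q hq)]
      rw [h4, h3]
      refine sum_congr rfl fun c _ => ?_
      congr 1
      have h5 : ∀ w1 : List (V × U), (Ww D (S \ p.1) (k - c) fun w2 => p.2 w1 *
          (L.map fun q => q.2 (filt q.1 w2)).prod) =
          (Ww D (S \ p.1) (k - c) fun w2 => (L.map fun q => q.2 (filt q.1 w2)).prod) * p.2 w1 := by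
        intro w1
        rw [Ww_smul, mul_comm]
      simp_rw [h5]
      rw [Ww_smul, mul_comm]
    obtain ⟨G, hGdef⟩ : ∃ G : List (V × U) → ℝ, G = fun w => (L.map fun q => q.2 (filt q.1 w)).prod :=
      ⟨_, rfl⟩
    obtain ⟨f, hfdef⟩ : ∃ f : ℕ → ℝ, f = fun c => Ww D p.1 c p.2 := ⟨_, rfl⟩
    obtain ⟨g, hgdef⟩ : ∃ g : ℕ → ℝ, g = fun n => Ww D (S \ p.1) n G := ⟨_, rfl⟩
    have hf0 : ∀ c, 0 ≤ f c := by
      intro c
      rw [hfdef]
      exact Ww_nonneg D h0 fun w _ _ => hp.2 w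
    have hg0 : ∀ c, 0 ≤ g c := by
      intro c
      rw [hgdef]
      refine Ww_nonneg D h0 fun w _ _ => ?_
      rw [hGdef]
      exact hG w
    have hW' : ∀ k, Ww D S k (fun w => ((p :: L).map fun q => q.2 (filt q.1 w)).prod) =
        ∑ c ∈ range (k + 1), (k.choose c : ℝ) * (f c * g (k - c)) := by
      intro k
      rw [hW k]
      refine sum_congr rfl fun c _ => ?_
      rw [hfdef, hgdef, hGdef]
    have ih'' : ∑ k ∈ range (a + 1), t ^ k / (k.factorial : ℝ) * g k ≤
        Real.exp (t * (S \ p.1).card) * (L.map fun p => Pz D p.1 t a p.2).prod := by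
      rw [hgdef, hGdef]
      exact ih'
    have hlhs : ∑ k ∈ range (a + 1), t ^ k / (k.factorial : ℝ) *
        Ww D S k (fun w => ((p :: L).map fun q => q.2 (filt q.1 w)).prod) =
        ∑ k ∈ range (a + 1), t ^ k / (k.factorial : ℝ) *
          ∑ c ∈ range (k + 1), (k.choose c : ℝ) * (f c * g (k - c)) :=
      sum_congr rfl fun k _ => by rw [hW' k]
    rw [hlhs]
    refine (PZ_cauchy f g hf0 hg0 t ht a).trans ?_
    rw [hfdef]
    have h7 : ∑ c ∈ range (a + 1), t ^ c / (c.factorial : ℝ) * Ww D p.1 c p.2 =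
        Real.exp (t * p.1.card) * Pz D p.1 t a p.2 := by
      unfold Pz
      rw [← mul_assoc, ← Real.exp_add]
      have : t * (p.1.card : ℝ) + -t * (p.1.card : ℝ) = 0 := by ring
      rw [this, Real.exp_zero, one_mul]
    rw [h7]
    have hPz := PZ_pz_nonneg D h0 p.1 t a ht p.2 hp.2
    refine (mul_le_mul_of_nonneg_left ih'' (mul_nonneg (Real.exp_pos _).le hPz)).trans (le_of_eq ?_)
    rw [List.map_cons, List.prod_cons]
    have h8 : (S.card : ℝ) = p.1.card + (S \ p.1).card := by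
      rw [← Nat.cast_add, ← card_union_of_disjoint hdis, hun]
    rw [h8, mul_add, Real.exp_add]
    ring

end

theorem PZ (hSPL : SPL_stmt) (hFAC : FAC_stmt) : PZ_stmt := by
  intro V U _ _ _ D h0 h1 L S hL hpw t a ht ha hta
  have hmain := PZ_main D hSPL h0 h1 t ht a L S hL hpw
  have hG : ∀ w, 0 ≤ (L.map fun q => q.2 (filt q.1 w)).prod :=
    PZ_prod_nonneg L fun q hq => (hL q hq).2
  have hPnn : 0 ≤ (L.map fun p => Pz D p.1 t a p.2).prod := by
    apply List.prod_nonneg
    intro x hx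
    rw [List.mem_map] at hx
    obtain ⟨p, hp, rfl⟩ := hx
    exact PZ_pz_nonneg D h0 p.1 t a ht p.2 (hL p hp).2
  have h2 : t ^ a / (a.factorial : ℝ) * Ww D S a (fun w => (L.map fun p => p.2 (filt p.1 w)).prod) ≤
      Real.exp (t * S.card) * (L.map fun p => Pz D p.1 t a p.2).prod := by
    refine le_trans ?_ hmain
    refine single_le_sum (f := fun k => t ^ k / (k.factorial : ℝ) *
      Ww D S k (fun w => (L.map fun p => p.2 (filt p.1 w)).prod)) (fun k _ => ?_)
      (self_mem_range_succ a)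
    exact mul_nonneg (by positivity) (Ww_nonneg D h0 fun w _ _ => hG w)
  have haR : (1 : ℝ) ≤ a := by exact_mod_cast ha
  have hS0 : 0 < (S.card : ℝ) := by
    rcases Nat.eq_zero_or_pos S.card with h | h
    · exfalso
      rw [h, Nat.cast_zero, mul_zero] at hta
      linarith
    · exact_mod_cast h
  set P := (L.map fun p => Pz D p.1 t a p.2).prod with hP
  set W := Ww D S a (fun w => (L.map fun p => p.2 (filt p.1 w)).prod) with hW
  have hE : Ew D S a (fun w => (L.map fun p => p.2 (filt p.1 w)).prod) = W / (S.card : ℝ) ^ a := rfl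
  rw [hE]
  rw [hta] at h2
  have hfac : (0 : ℝ) < a.factorial := by exact_mod_cast a.factorial_pos
  have hSa : (0 : ℝ) < (S.card : ℝ) ^ a := by positivity
  have h3 : t ^ a * (S.card : ℝ) ^ a = (a : ℝ) ^ a := by rw [← mul_pow, hta]
  have haa : (0 : ℝ) < (a : ℝ) ^ a := by positivity
  -- multiply by `a!`
  have h4 : (a : ℝ) ^ a * (W / (S.card : ℝ) ^ a) ≤ a.factorial * (Real.exp a * P) := by
    have h5 : (a : ℝ) ^ a * (W / (S.card : ℝ) ^ a) = a.factorial * (t ^ a / a.factorial * W) := by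
      rw [← h3]
      field_simp
    rw [h5]
    exact mul_le_mul_of_nonneg_left h2 hfac.le
  have h6 := mul_le_mul_of_nonneg_right (hFAC a ha) hPnn
  have h7 : (a : ℝ) ^ a * (W / (S.card : ℝ) ^ a) ≤ (a : ℝ) ^ a * (Real.exp 1 * a * P) := by
    refine h4.trans ?_
    calc (a.factorial : ℝ) * (Real.exp a * P) = a.factorial * Real.exp a * P := by ring
      _ ≤ Real.exp 1 * a * (a : ℝ) ^ a * P := h6
      _ = _ := by ring
  exact le_of_mul_le_mul_left h7 haa

end CWM
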