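import Pool.Agent.helper18.CWM.SpecH

/-!
# cwm:QB (helper47): the probability that a site is open
-/

open Finset Filter Topology

namespace CWM

/-- `(1/2)^((8d+2)τ+1) exp (4dτ) ≤ exp (-τ)` -/
theorem QB_num (d τ : ℕ) : (1 / 2 : ℝ) ^ ((8 * d + 2) * τ + 1) * Real.exp (4 * d * τ) ≤
    Real.exp (-τ) := by
  have hlog : (0.69 : ℝ) < Real.log 2 := by
    have := Real.log_two_gt_d9
    linarith
  have h1 : (1 / 2 : ℝ) ^ ((8 * d + 2) * τ + 1) =
      Real.exp (-(((8 * d + 2) * τ + 1 : ℕ) : ℝ) * Real.log 2) := by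
    have h2 : (1 / 2 : ℝ) = Real.exp (-Real.log 2) := by
      rw [Real.exp_neg, Real.exp_log (by norm_num)]
      norm_num
    rw [h2, ← Real.exp_nat_mul]
    congr 1
    ring
  rw [h1, ← Real.exp_add]
  apply Real.exp_le_exp.2
  push_cast
  have hd : (0 : ℝ) ≤ d := Nat.cast_nonneg d
  have ht : (0 : ℝ) ≤ τ := Nat.cast_nonneg τ
  have hdt : (0 : ℝ) ≤ d * τ := mul_nonneg hd ht
  nlinarith [mul_nonneg hdt (sub_nonneg.2 hlog.le), mul_nonneg ht (sub_nonneg.2 hlog.le)]

theorem QB (hPOI : POI_stmt) (hUR : UR_stmt) (hUM : UM_stmt) (hTL : TL_stmt) (hGB : GB_stmt) :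
    QB_stmt := by
  intro d A c hd hA hc
  refine ⟨2 * (A * Real.exp c) + 4, min (1 / 8) (c / 4), by positivity,
    lt_min (by norm_num) (by positivity), ?_⟩
  intro V U _ _ _ D hOk hHom hDec τ a y hτ
  have hτR : (1 : ℝ) ≤ τ := by exact_mod_cast hτ
  have h0 := hOk.nu0
  have h1 := hOk.nu1
  set l := (8 * d + 2) * τ with hl
  set B := Bl D y l with hB
  have hyB : y ∈ B := by
    rw [hB, mem_Bl, (hOk.ds0 y y).2 rfl]
    exact Nat.zero_le _
  have hBne : B.Nonempty := ⟨y, hyB⟩
  have hB1 : (1 : ℝ) ≤ B.card := by exact_mod_cast hBne.card_pos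
  have hN1 : (1 : ℝ) ≤ Fintype.card V := by
    have : 0 < Fintype.card V := Fintype.card_pos_iff.2 ⟨y⟩
    exact_mod_cast this
  set N : ℝ := (Fintype.card V : ℝ) with hN
  set x : ℝ := τ * B.card with hx
  have hx1 : (τ : ℝ) ≤ x := by
    rw [hx]
    nlinarith
  have hx0 : 0 ≤ x := by linarith
  -- the words of `B`
  have hsplit : ∀ k, Ww D B k (fun w => ind (Opn D l w y)) ≤
      (B.card : ℝ) ^ k * uu D B k y + (1 / 2) ^ (l + 1) * ((B.card : ℝ) + 4 * d) ^ k := by
    intro k
    have h2 : Ww D B k (fun w => ind (Opn D l w y)) ≤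
        Ww D B k (fun w => ind (fl D w pl y ≠ fl D w mi y) + ind (¬ anc D w {y} ⊆ Bl D y l)) := by
      refine Ww_mono D h0 fun w _ hw => ?_
      have hfw : filt (Bl D y l) w = w := by
        unfold filt
        rw [List.filter_eq_self]
        intro b hb
        exact decide_eq_true (hw b hb)
      have h3 : ind (Opn D l w y) = ind (fl D w pl y ≠ fl D w mi y ∨ ¬ anc D w {y} ⊆ Bl D y l) := by
        unfold Opn
        rw [hfw]
      rw [h3]
      exact ind_or_le _ _
    refine h2.trans ?_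
    rw [Ww_add]
    refine add_le_add (le_of_eq ?_) ((hTL V U D d hOk).2.2.1 B y k l)
    unfold uu Ew
    have : (B.card : ℝ) ^ k ≠ 0 := by positivity
    field_simp
  -- the bound for the disagreement probability with many letters
  set b0 : ℝ := 2 * (A * Real.exp c * Real.exp (-(c / 4) * τ) + Real.exp (-τ)) with hb0
  have hb0nn : 0 ≤ b0 := by positivity
  have hmany : ∀ k : ℕ, x / 2 ≤ k → uu D B k y ≤ b0 := by
    intro k hk
    set m : ℕ := ⌊(τ : ℝ) * N / 4⌋₊ with hm
    have hm1 : (m : ℝ) ≤ τ * N / 4 := Nat.floor_le (by positivity)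
    have hm2 : τ * N / 4 - 1 ≤ m := by
      have := Nat.lt_floor_add_one ((τ : ℝ) * N / 4)
      rw [← hm] at this
      linarith
    have hur := hUR V U D d hOk B y l m k (Subset.refl _)
    rw [← hN] at hur
    have hN0 : 0 < N := by linarith
    have hk0 : (0 : ℝ) ≤ k := Nat.cast_nonneg k
    have hfac : (1 / 2 : ℝ) ≤ 1 - m * ((B.card : ℝ) / N) / (k + 1) := by
      have h3 : (m : ℝ) * ((B.card : ℝ) / N) ≤ k / 2 := by
        have h4 : (m : ℝ) * ((B.card : ℝ) / N) ≤ (τ * N / 4) * ((B.card : ℝ) / N) :=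
          mul_le_mul_of_nonneg_right hm1 (by positivity)
        have h5 : (τ * N / 4) * ((B.card : ℝ) / N) = x / 4 := by
          rw [hx]
          field_simp
        rw [h5] at h4
        linarith
      have h6 : m * ((B.card : ℝ) / N) / (k + 1) ≤ 1 / 2 := by
        rw [div_le_iff₀ (by linarith)]
        linarith
      linarith
    have huu0 := (hUM V U D d hOk).2.1 B y k hBne
    have h7 : uu D B k y * (1 / 2) ≤ uu D univ m y + (1 / 2) ^ (l + 1) *
        Real.exp (4 * d * (m / N)) :=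
      (mul_le_mul_of_nonneg_left hfac huu0.1).trans hur
    have h8 : uu D univ m y ≤ A * Real.exp c * Real.exp (-(c / 4) * τ) := by
      refine ((hGB V U D d hOk hHom y).2.2.2.2 m).trans ((hDec y m).trans ?_)
      rw [← hN, mul_assoc, ← Real.exp_add]
      refine mul_le_mul_of_nonneg_left ?_ hA.le
      apply Real.exp_le_exp.2
      have h9 : (τ : ℝ) / 4 - 1 ≤ m / N := by
        rw [le_div_iff₀ hN0]
        nlinarith
      nlinarith
    have h10 : (1 / 2 : ℝ) ^ (l + 1) * Real.exp (4 * d * (m / N)) ≤ Real.exp (-τ) := by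
      refine le_trans ?_ (QB_num d τ)
      rw [← hl]
      refine mul_le_mul_of_nonneg_left ?_ (by positivity)
      apply Real.exp_le_exp.2
      have h11 : (m : ℝ) / N ≤ τ := by
        rw [div_le_iff₀ hN0]
        nlinarith
      have hd0 : (0 : ℝ) ≤ 4 * d := by positivity
      exact mul_le_mul_of_nonneg_left h11 hd0
    rw [hb0]
    linarith
  -- the sum
  unfold Pz
  have hstep : ∑ k ∈ range (a + 1), (τ : ℝ) ^ k / (k.factorial : ℝ) *
      Ww D B k (fun w => ind (Opn D l w y)) ≤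
      (∑ k ∈ range (a + 1), x ^ k / (k.factorial : ℝ) * uu D B k y) +
      (1 / 2) ^ (l + 1) * Real.exp (τ * ((B.card : ℝ) + 4 * d)) := by
    have h2 : ∑ k ∈ range (a + 1), (τ : ℝ) ^ k / (k.factorial : ℝ) *
        Ww D B k (fun w => ind (Opn D l w y)) ≤
        ∑ k ∈ range (a + 1), (x ^ k / (k.factorial : ℝ) * uu D B k y +
          (1 / 2) ^ (l + 1) * ((τ * ((B.card : ℝ) + 4 * d)) ^ k / (k.factorial : ℝ))) := by
      refine sum_le_sum fun k _ => ?_
      have h3 : (0 : ℝ) ≤ (τ : ℝ) ^ k / (k.factorial : ℝ) := by positivity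
      refine (mul_le_mul_of_nonneg_left (hsplit k) h3).trans (le_of_eq ?_)
      rw [hx, mul_pow, mul_pow]
      ring
    refine h2.trans ?_
    rw [sum_add_distrib, ← mul_sum]
    gcongr
    exact Real.sum_le_exp_of_nonneg (by positivity) (a + 1)
  have hcheck : Real.exp (-(τ : ℝ) * B.card) * (∑ k ∈ range (a + 1), (τ : ℝ) ^ k /
      (k.factorial : ℝ) * Ww D B k (fun w => ind (Opn D l w y))) ≤
      Real.exp (-x) * (∑ k ∈ range (a + 1), x ^ k / (k.factorial : ℝ) * uu D B k y) +
        Real.exp (-τ) := by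
    have h2 : -(τ : ℝ) * B.card = -x := by rw [hx]; ring
    rw [h2]
    refine (mul_le_mul_of_nonneg_left hstep (Real.exp_pos _).le).trans ?_
    rw [mul_add]
    refine add_le_add le_rfl ?_
    have h3 : Real.exp (-x) * ((1 / 2) ^ (l + 1) * Real.exp (τ * ((B.card : ℝ) + 4 * d))) =
        (1 / 2) ^ (l + 1) * Real.exp (4 * d * τ) := by
      rw [mul_left_comm, ← Real.exp_add]
      congr 2
      rw [hx]
      ring
    rw [h3, hl]
    exact QB_num d τ
  have hsum : Real.exp (-x) * (∑ k ∈ range (a + 1), x ^ k / (k.factorial : ℝ) * uu D B k y) ≤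
      Real.exp (-x / 8) + b0 := by
    rw [← sum_filter_add_sum_filter_not (range (a + 1)) (fun k : ℕ => (k : ℝ) < x / 2), mul_add]
    refine add_le_add ?_ ?_
    · refine le_trans ?_ (hPOI x a hx0)
      refine mul_le_mul_of_nonneg_left (sum_le_sum fun k _ => ?_) (Real.exp_pos _).le
      have h3 : (0 : ℝ) ≤ x ^ k / (k.factorial : ℝ) := by positivity
      have h4 := ((hUM V U D d hOk).2.1 B y k hBne).2
      calc x ^ k / (k.factorial : ℝ) * uu D B k y ≤ x ^ k / (k.factorial : ℝ) * 1 :=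
            mul_le_mul_of_nonneg_left h4 h3
        _ = _ := mul_one _
    · have h5 : ∑ k ∈ (range (a + 1)).filter (fun k : ℕ => ¬ (k : ℝ) < x / 2),
          x ^ k / (k.factorial : ℝ) * uu D B k y ≤ Real.exp x * b0 := by
        have h6 : ∑ k ∈ (range (a + 1)).filter (fun k : ℕ => ¬ (k : ℝ) < x / 2),
            x ^ k / (k.factorial : ℝ) * uu D B k y ≤
            ∑ k ∈ (range (a + 1)).filter (fun k : ℕ => ¬ (k : ℝ) < x / 2),
            x ^ k / (k.factorial : ℝ) * b0 := by
          refine sum_le_sum fun k hk => ?_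
          rw [mem_filter] at hk
          exact mul_le_mul_of_nonneg_left (hmany k (not_lt.1 hk.2)) (by positivity)
        refine h6.trans ?_
        rw [← sum_mul]
        refine mul_le_mul_of_nonneg_right ?_ hb0nn
        refine le_trans ?_ (Real.sum_le_exp_of_nonneg hx0 (a + 1))
        exact sum_le_sum_of_subset_of_nonneg (filter_subset _ _) fun i _ _ => by positivity
      refine (mul_le_mul_of_nonneg_left h5 (Real.exp_pos _).le).trans (le_of_eq ?_)
      rw [← mul_assoc, ← Real.exp_add, neg_add_cancel, Real.exp_zero, one_mul]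
  -- the final comparison
  set c' : ℝ := min (1 / 8) (c / 4) with hc'
  have hc1 : c' ≤ 1 / 8 := min_le_left _ _
  have hc2 : c' ≤ c / 4 := min_le_right _ _
  have e1 : Real.exp (-x / 8) ≤ Real.exp (-c' * τ) := by
    apply Real.exp_le_exp.2
    nlinarith
  have e2 : Real.exp (-τ) ≤ Real.exp (-c' * τ) := by
    apply Real.exp_le_exp.2
    nlinarith
  have e3 : Real.exp (-(c / 4) * τ) ≤ Real.exp (-c' * τ) := by
    apply Real.exp_le_exp.2
    nlinarith
  have e4 : b0 ≤ 2 * (A * Real.exp c + 1) * Real.exp (-c' * τ) := by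
    rw [hb0]
    have h3 : A * Real.exp c * Real.exp (-(c / 4) * τ) ≤ A * Real.exp c * Real.exp (-c' * τ) :=
      mul_le_mul_of_nonneg_left e3 (by positivity)
    nlinarith
  calc Real.exp (-(τ : ℝ) * B.card) * (∑ k ∈ range (a + 1), (τ : ℝ) ^ k /
      (k.factorial : ℝ) * Ww D B k (fun w => ind (Opn D l w y)))
      ≤ Real.exp (-x / 8) + b0 + Real.exp (-τ) := hcheck.trans (add_le_add hsum le_rfl)
    _ ≤ Real.exp (-c' * τ) + 2 * (A * Real.exp c + 1) * Real.exp (-c' * τ) +
        Real.exp (-c' * τ) := add_le_add (add_le_add e1 e4) e2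
    _ = (2 * (A * Real.exp c) + 4) * Real.exp (-c' * τ) := by ring

end CWM
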