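import Pool.Agent.helper18.CWM.SpecA

set_option autoImplicit false

open Finset Filter Topology

namespace CWM

theorem REC_bd (θ : ℝ) (h0 : 0 ≤ θ) (h1 : θ < 1) (N : ℕ) :
    ∃ B : ℝ, 0 ≤ B ∧ ∀ n : ℕ, θ ^ n * ((n : ℝ) + 2) ^ N ≤ B := by
  have hT : Tendsto (fun n : ℕ => (n : ℝ) ^ N * θ ^ n) atTop (𝓝 0) :=
    tendsto_pow_const_mul_const_pow_of_abs_lt_one N (by rwa [abs_of_nonneg h0])
  obtain ⟨B, hB⟩ := hT.bddAbove_range
  have hB' : ∀ n : ℕ, (n : ℝ) ^ N * θ ^ n ≤ B := fun n => hB ⟨n, rfl⟩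
  have hB0 : 0 ≤ B := le_trans (by positivity) (hB' 1)
  refine ⟨3 ^ N * B + 2 ^ N, by positivity, fun n => ?_⟩
  rcases Nat.eq_zero_or_pos n with rfl | hn
  · have : (0 : ℝ) ≤ 3 ^ N * B := by positivity
    simp only [pow_zero, one_mul, Nat.cast_zero, zero_add]
    linarith
  · have hn' : (1 : ℝ) ≤ n := by exact_mod_cast hn
    have e1 : ((n : ℝ) + 2) ^ N ≤ 3 ^ N * (n : ℝ) ^ N := by
      rw [← mul_pow]
      exact pow_le_pow_left₀ (by positivity) (by linarith) N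
    have e2 : θ ^ n * ((n : ℝ) + 2) ^ N ≤ θ ^ n * (3 ^ N * (n : ℝ) ^ N) :=
      mul_le_mul_of_nonneg_left e1 (by positivity)
    have e3 : θ ^ n * (3 ^ N * (n : ℝ) ^ N) = 3 ^ N * ((n : ℝ) ^ N * θ ^ n) := by ring
    have e4 : (3 : ℝ) ^ N * ((n : ℝ) ^ N * θ ^ n) ≤ 3 ^ N * B :=
      mul_le_mul_of_nonneg_left (hB' n) (by positivity)
    have e5 : (0 : ℝ) ≤ 2 ^ N := by positivity
    linarith

/-- the exponentially small term -/
theorem REC_tail (d p q : ℕ) (κ θ B : ℝ) (hκ : 0 ≤ κ) (h0 : 0 ≤ θ)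
    (hB : ∀ n : ℕ, θ ^ n * ((n : ℝ) + 2) ^ (d + p) ≤ B) (L k : ℕ) (hk : L + 1 ≤ q * (k + 2)) :
    κ * θ ^ k * (2 * (L : ℝ) + 3) ^ d ≤ κ * 3 ^ d * (q : ℝ) ^ (d + p) * B / ((L : ℝ) + 1) ^ p := by
  have hL : (0 : ℝ) < (L : ℝ) + 1 := by positivity
  rw [le_div_iff₀ (by positivity)]
  have e1 : (2 * (L : ℝ) + 3) ^ d ≤ 3 ^ d * ((L : ℝ) + 1) ^ d := by
    rw [← mul_pow]
    exact pow_le_pow_left₀ (by positivity) (by linarith [(Nat.cast_nonneg L : (0 : ℝ) ≤ L)]) d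
  have e2 : ((L : ℝ) + 1) ^ (d + p) ≤ (q : ℝ) ^ (d + p) * ((k : ℝ) + 2) ^ (d + p) := by
    rw [← mul_pow]
    refine pow_le_pow_left₀ (by positivity) ?_ _
    exact_mod_cast hk
  have e3 := hB k
  calc κ * θ ^ k * (2 * (L : ℝ) + 3) ^ d * ((L : ℝ) + 1) ^ p
      ≤ κ * θ ^ k * (3 ^ d * ((L : ℝ) + 1) ^ d) * ((L : ℝ) + 1) ^ p := by
        apply mul_le_mul_of_nonneg_right _ (by positivity)
        exact mul_le_mul_of_nonneg_left e1 (by positivity)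
    _ = κ * θ ^ k * 3 ^ d * ((L : ℝ) + 1) ^ (d + p) := by
        rw [pow_add]
        ring
    _ ≤ κ * θ ^ k * 3 ^ d * ((q : ℝ) ^ (d + p) * ((k : ℝ) + 2) ^ (d + p)) :=
        mul_le_mul_of_nonneg_left e2 (by positivity)
    _ = κ * 3 ^ d * (q : ℝ) ^ (d + p) * (θ ^ k * ((k : ℝ) + 2) ^ (d + p)) := by ring
    _ ≤ κ * 3 ^ d * (q : ℝ) ^ (d + p) * B := mul_le_mul_of_nonneg_left e3 (by positivity)

/-- the shift -/
theorem REC_shift (p q : ℕ) (hq : 3 * p ≤ q) (hq2 : 2 ≤ q) (L j : ℕ) (hjL : j ≤ L)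
    (hj : q * j ≤ L + 1) : 2 / 3 * ((L : ℝ) + 1) ^ p ≤ (((L - j : ℕ) : ℝ) + 1) ^ p := by
  have hq0 : (0 : ℝ) < q := by
    have : 0 < q := by omega
    exact_mod_cast this
  have e1 : ((L - j : ℕ) : ℝ) = L - j := by push_cast [hjL]; ring
  have e2 : (q : ℝ) * j ≤ L + 1 := by exact_mod_cast hj
  have e3 : (j : ℝ) ≤ (L + 1) / q := by
    rw [le_div_iff₀ hq0]
    linarith
  have e4 : ((L : ℝ) + 1) * (1 + -(1 / q)) ≤ ((L - j : ℕ) : ℝ) + 1 := by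
    rw [e1]
    have : ((L : ℝ) + 1) * (1 + -(1 / q)) = (L + 1) - (L + 1) / q := by
      field_simp
      ring
    rw [this]
    linarith
  have hq3 : (1 : ℝ) / q ≤ 1 := by
    rw [div_le_one hq0]
    have : 1 ≤ q := by omega
    exact_mod_cast this
  have e5 : (1 : ℝ) + p * (-(1 / q)) ≤ (1 + -(1 / q)) ^ p :=
    one_add_mul_le_pow (by linarith) p
  have e6 : (2 : ℝ) / 3 ≤ 1 + p * (-(1 / q)) := by
    have h1 : (3 : ℝ) * p ≤ q := by exact_mod_cast hq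
    have h2 : (p : ℝ) / q ≤ 1 / 3 := by
      rw [div_le_div_iff₀ hq0 (by norm_num)]
      linarith
    have h3 : (p : ℝ) * (-(1 / q)) = -(p / q) := by ring
    rw [h3]
    linarith
  calc 2 / 3 * ((L : ℝ) + 1) ^ p ≤ (1 + -(1 / q)) ^ p * ((L : ℝ) + 1) ^ p :=
        mul_le_mul_of_nonneg_right (e6.trans e5) (by positivity)
    _ = (((L : ℝ) + 1) * (1 + -(1 / q))) ^ p := by
        rw [mul_pow]
        ring
    _ ≤ _ := pow_le_pow_left₀ (mul_nonneg (by positivity) (by linarith)) e4 p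

theorem REC : REC_stmt := by
  intro d κ θ hκ hθ0 hθ1
  obtain ⟨B, hB0, hB⟩ := REC_bd θ hθ0 hθ1 (d + 4 * d)
  obtain ⟨q, hq⟩ : ∃ q : ℕ, q = 3 * (4 * d) + 2 := ⟨_, rfl⟩
  obtain ⟨C₀, hC₀⟩ : ∃ C₀ : ℝ, C₀ = κ * 3 ^ d * (q : ℝ) ^ (d + 4 * d) * B := ⟨_, rfl⟩
  have hC₀0 : 0 ≤ C₀ := by
    rw [hC₀]
    positivity
  obtain ⟨C₁, hC₁⟩ : ∃ C₁ : ℝ, C₁ = 2 * (q : ℝ) ^ (4 * d) + 4 * C₀ := ⟨_, rfl⟩
  have hC₁0 : 0 ≤ C₁ := by
    rw [hC₁]
    positivity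
  refine ⟨4 * C₁, by positivity, ?_⟩
  intro m f mp mm h1 h2 h3 h4 h5 h6 h7
  have hm1 : m ≤ 1 := (h2 0).trans (h3 0)
  -- small L
  have hsmall : ∀ L : ℕ, L + 1 < q → (2 : ℝ) ≤ C₁ / ((L : ℝ) + 1) ^ (4 * d) := by
    intro L hL
    rw [le_div_iff₀ (by positivity)]
    have e1 : ((L : ℝ) + 1) ^ (4 * d) ≤ (q : ℝ) ^ (4 * d) := by
      refine pow_le_pow_left₀ (by positivity) ?_ _
      exact_mod_cast hL.le
    rw [hC₁]
    linarith
  -- the number j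
  have hj : ∀ L : ℕ, q ≤ L + 1 → ∃ k : ℕ, k + 1 ≤ L ∧ q * (k + 1) ≤ L + 1 ∧ L + 1 ≤ q * (k + 2) := by
    intro L hL
    have hq0 : 0 < q := by omega
    have a1 : 1 ≤ (L + 1) / q := (Nat.one_le_div_iff hq0).2 hL
    refine ⟨(L + 1) / q - 1, ?_, ?_, ?_⟩
    · have a2 : (L + 1) / q ≤ (L + 1) / 2 := Nat.div_le_div_left (by omega) (by norm_num)
      omega
    · have a2 : (L + 1) / q - 1 + 1 = (L + 1) / q := by omega
      rw [a2]
      exact Nat.mul_div_le (L + 1) q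
    · have a2 : (L + 1) / q - 1 + 2 = (L + 1) / q + 1 := by omega
      rw [a2]
      exact (Nat.lt_mul_div_succ (L + 1) hq0).le
  have hdiv : ∀ (L k : ℕ), k + 1 ≤ L → q * (k + 1) ≤ L + 1 →
      m - f (L - (k + 1)) ≤ C₁ / (((L - (k + 1) : ℕ) : ℝ) + 1) ^ (4 * d) →
      m - f (L - (k + 1)) ≤ 3 / 2 * (C₁ / ((L : ℝ) + 1) ^ (4 * d)) := by
    intro L k hk1 hk2 hle
    refine hle.trans ?_
    have a1 := REC_shift (4 * d) q (by omega) (by omega) L (k + 1) hk1 hk2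
    have a2 : C₁ / (((L - (k + 1) : ℕ) : ℝ) + 1) ^ (4 * d) ≤ C₁ / (2 / 3 * ((L : ℝ) + 1) ^ (4 * d)) :=
      div_le_div_of_nonneg_left hC₁0 (by positivity) a1
    refine a2.trans (le_of_eq ?_)
    field_simp
  have htail : ∀ (L k : ℕ), L + 1 ≤ q * (k + 2) →
      κ * θ ^ k * (2 * (L : ℝ) + 3) ^ d ≤ 1 / 4 * (C₁ / ((L : ℝ) + 1) ^ (4 * d)) := by
    intro L k hk
    refine (REC_tail d (4 * d) q κ θ B hκ hθ0 hB L k hk).trans ?_
    rw [← hC₀]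
    have a1 : C₀ ≤ 1 / 4 * C₁ := by
      rw [hC₁]
      have : (0 : ℝ) ≤ (q : ℝ) ^ (4 * d) := by positivity
      linarith
    rw [← mul_div_assoc]
    exact div_le_div_of_nonneg_right a1 (by positivity)
  have he : ∀ L : ℕ, m - f L ≤ C₁ / ((L : ℝ) + 1) ^ (4 * d) := by
    intro L
    induction L using Nat.strong_induction_on with
    | _ L ih =>
      rcases Nat.lt_or_ge (L + 1) q with hL | hL
      · refine le_trans ?_ (hsmall L hL)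
        linarith [h5 L]
      · obtain ⟨k, hk1, hk2, hk3⟩ := hj L hL
        have a1 := hdiv L k hk1 hk2 (ih (L - (k + 1)) (by omega))
        have a2 := htail L k hk3
        have a3 := h7 L k hk1
        have a4 := h6 L
        have a5 := h2 L
        linarith
  intro L
  have hpos : 0 ≤ C₁ / ((L : ℝ) + 1) ^ (4 * d) := by positivity
  rw [mul_div_assoc]
  rcases Nat.lt_or_ge (L + 1) q with hL | hL
  · have a1 := hsmall L hL
    linarith [h3 L, h4 L]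
  · obtain ⟨k, hk1, hk2, hk3⟩ := hj L hL
    have a1 := hdiv L k hk1 hk2 (he (L - (k + 1)))
    have a2 := htail L k hk3
    have a3 := h7 L k hk1
    have a4 := h6 L
    have a5 := h1 L
    linarith

end CWM
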