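import Pool.Agent.helper18.CWM.SpecB

set_option autoImplicit false

/-! # Project cwm (MP_7c3fb3_pr), row SAN: the sandwich -/

open Finset

namespace CWM

section

variable {V U : Type} [DecidableEq V] (D : Dyn V U)

/-- sites off `R` are not changed by the letters in `R` -/
lemma SAN_off (R : Finset V) (w : List (V × U)) (σ : V → Bool) (x : V) (hx : x ∉ R) :
    fl D (filt R w) σ x = σ x := by
  induction w with
  | nil => rfl
  | cons a w ih =>
    unfold filt at ih ⊢
    by_cases ha : a.1 ∈ R
    · rw [List.filter_cons_of_pos (by simpa using ha)]
      show stp D a (fl D (List.filter (fun a => decide (a.1 ∈ R)) w) σ) x = σ x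
      unfold stp
      rw [Function.update_of_ne (by rintro rfl; exact hx ha)]
      exact ih
    · rw [List.filter_cons_of_neg (by simpa using ha)]
      exact ih

end

theorem SAN : SAN_stmt := by
  intro V U _ _ _ D d hOk R w σ σ'
  constructor
  · intro hoff hle
    induction w with
    | nil => exact hle
    | cons a w ih =>
      by_cases ha : a.1 ∈ R
      · have e : filt R (a :: w) = a :: filt R w := by
          unfold filt
          rw [List.filter_cons_of_pos (by simpa using ha)]
        rw [e]
        exact stp_mono D hOk.mono a ih
      · have e : filt R (a :: w) = filt R w := by
          unfold filt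
          rw [List.filter_cons_of_neg (by simpa using ha)]
        rw [e]
        intro y
        show fl D (filt R w) σ' y ≤ stp D a (fl D w σ) y
        by_cases hy : y = a.1
        · subst hy
          rw [SAN_off D R w σ' _ ha, hoff _ ha]
          exact Bool.false_le _
        · unfold stp
          rw [Function.update_of_ne hy]
          exact ih y
  · intro hoff hle
    induction w with
    | nil => exact hle
    | cons a w ih =>
      by_cases ha : a.1 ∈ R
      · have e : filt R (a :: w) = a :: filt R w := by
          unfold filt
          rw [List.filter_cons_of_pos (by simpa using ha)]
        rw [e]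
        exact stp_mono D hOk.mono a ih
      · have e : filt R (a :: w) = filt R w := by
          unfold filt
          rw [List.filter_cons_of_neg (by simpa using ha)]
        rw [e]
        intro y
        show stp D a (fl D w σ) y ≤ fl D (filt R w) σ' y
        by_cases hy : y = a.1
        · subst hy
          rw [SAN_off D R w σ' _ ha, hoff _ ha]
          exact Bool.le_true _
        · unfold stp
          rw [Function.update_of_ne hy]
          exact ih y

end CWM
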