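import Pool.Agent.helper18.CWM.SpecB

/-!
# Project cwm, module STA: stationarity
-/

open Finset

namespace CWM

section
variable {V U : Type} [Fintype V] [DecidableEq V] [Fintype U]

omit [Fintype V] in
/-- heat bath average of one letter -/
lemma STA_avg (D : Dyn V U) (h1 : ∑ u, D.nu u = 1) (x : V) (G : (V → Bool) → ℝ) (σ : V → Bool) :
    ∑ u, D.nu u * G (Function.update σ x (D.up x u σ)) =
      (∑ u, D.nu u * ind (D.up x u σ = true)) * G (Function.update σ x true) +
      (1 - ∑ u, D.nu u * ind (D.up x u σ = true)) * G (Function.update σ x false) := by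
  have h2 : ∀ u, D.nu u * G (Function.update σ x (D.up x u σ)) =
      D.nu u * ind (D.up x u σ = true) * G (Function.update σ x true) +
      (D.nu u - D.nu u * ind (D.up x u σ = true)) * G (Function.update σ x false) := by
    intro u
    cases h : D.up x u σ
    · rw [ind_not (by simp)]; ring
    · rw [ind_of rfl]; ring
  rw [Finset.sum_congr rfl fun u _ => h2 u, Finset.sum_add_distrib, ← Finset.sum_mul, ← Finset.sum_mul,
    Finset.sum_sub_distrib, h1]

omit [Fintype V] [Fintype U] in
lemma STA_flp_invol (x : V) : Function.Involutive (flp (V := V) x) := by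
  intro σ
  unfold flp
  funext y
  by_cases hy : y = x
  · subst hy; simp
  · simp [Function.update_of_ne hy]

lemma STA_one (D : Dyn V U) {d : ℕ} {W : (V → Bool) → ℝ} (hD : D.Ok d) (hW : HB D W) (x : V)
    (E : (V → Bool) → ℝ) (hE : ∀ σ b, E (Function.update σ x b) = E σ) (G : (V → Bool) → ℝ) :
    ∑ σ, W σ * E σ * (∑ u, D.nu u * G (Function.update σ x (D.up x u σ))) = ∑ σ, W σ * E σ * G σ := by
  have hflp : ∀ f : (V → Bool) → ℝ, ∑ σ, f σ = ∑ σ, f (flp x σ) := fun f =>
    (Equiv.sum_comp (STA_flp_invol x).toPerm f).symm
  -- the flip pairs the two extensions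
  have key : ∀ σ : V → Bool,
      W σ * E σ * (∑ u, D.nu u * G (Function.update σ x (D.up x u σ))) +
        W (flp x σ) * E (flp x σ) * (∑ u, D.nu u * G (Function.update (flp x σ) x (D.up x u (flp x σ)))) =
      W σ * E σ * G σ + W (flp x σ) * E (flp x σ) * G (flp x σ) := by
    intro σ
    rw [STA_avg D hD.nu1 x G σ, STA_avg D hD.nu1 x G (flp x σ)]
    have hu : ∀ b, Function.update (flp x σ) x b = Function.update σ x b := by
      intro b; unfold flp; simp
    have r1 := hW.rev x σ
    have r2 := hW.rev x (flp x σ)
    rw [hu, hu] at r2 ⊢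
    have hEf : E (flp x σ) = E σ := hE σ _
    rw [hEf]
    generalize (∑ u, D.nu u * ind (D.up x u σ = true)) = r at *
    generalize (∑ u, D.nu u * ind (D.up x u (flp x σ) = true)) = s at *
    have p1 := hW.pos (Function.update σ x true)
    have p2 := hW.pos (Function.update σ x false)
    have hrs : r = s := by
      have : (r - s) * (W (Function.update σ x true) + W (Function.update σ x false)) = 0 := by linarith
      rcases mul_eq_zero.1 this with h | h
      · linarith
      · linarith
    subst hrs
    have hσ : (σ = Function.update σ x true ∧ flp x σ = Function.update σ x false) ∨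
        (σ = Function.update σ x false ∧ flp x σ = Function.update σ x true) := by
      cases h : σ x
      · right
        constructor
        · rw [← h, Function.update_eq_self]
        · unfold flp; rw [h]; rfl
      · left
        constructor
        · rw [← h, Function.update_eq_self]
        · unfold flp; rw [h]; rfl
    rcases hσ with ⟨h, h'⟩ | ⟨h, h'⟩
    · rw [h']
      have e1 : W σ = W (Function.update σ x true) := by rw [← h]
      have e2 : G σ = G (Function.update σ x true) := by rw [← h]
      rw [e1, e2]
      generalize W (Function.update σ x true) = a at *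
      generalize W (Function.update σ x false) = b at *
      generalize G (Function.update σ x true) = g at *
      generalize G (Function.update σ x false) = k at *
      generalize E σ = e at *
      linear_combination (e * g - e * k) * r1
    · rw [h']
      have e1 : W σ = W (Function.update σ x false) := by rw [← h]
      have e2 : G σ = G (Function.update σ x false) := by rw [← h]
      rw [e1, e2]
      generalize W (Function.update σ x true) = a at *
      generalize W (Function.update σ x false) = b at *
      generalize G (Function.update σ x true) = g at *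
      generalize G (Function.update σ x false) = k at *
      generalize E σ = e at *
      linear_combination (e * g - e * k) * r1
  have h1 := hflp fun σ => W σ * E σ * (∑ u, D.nu u * G (Function.update σ x (D.up x u σ)))
  have h2 := hflp fun σ => W σ * E σ * G σ
  have h3 := Finset.sum_congr (rfl : (Finset.univ : Finset (V → Bool)) = Finset.univ) fun σ _ => key σ
  rw [Finset.sum_add_distrib, Finset.sum_add_distrib] at h3
  linarith

lemma STA_word (D : Dyn V U) {d : ℕ} {W : (V → Bool) → ℝ} (hD : D.Ok d) (hW : HB D W) (A S : Finset V)
    (hS : S.Nonempty) (E : (V → Bool) → ℝ) (hE : ∀ x ∈ A, ∀ σ b, E (Function.update σ x b) = E σ) (m : ℕ) :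
    ∀ G : (V → Bool) → ℝ, ∑ σ, W σ * E σ * Ew D S m (fun w => G (fl D (filt A w) σ)) = ∑ σ, W σ * E σ * G σ := by
  induction m with
  | zero =>
    intro G
    refine Finset.sum_congr rfl fun σ _ => ?_
    rw [Ew_zero]
    rfl
  | succ m ih =>
    intro G
    have hc : (S.card : ℝ) ≠ 0 := by exact_mod_cast (Finset.card_pos.2 hS).ne'
    -- one letter acting on the test function
    have hT : ∀ a : V × U, ∀ w σ, G (fl D (filt A (a :: w)) σ) =
        (fun τ => if a.1 ∈ A then G (stp D a τ) else G τ) (fl D (filt A w) σ) := by
      intro a w σ
      by_cases ha : a.1 ∈ A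
      · simp [filt, ha, fl]
      · simp [filt, ha]
    have h1 : ∀ σ : V → Bool, W σ * E σ * Ew D S (m + 1) (fun w => G (fl D (filt A w) σ)) =
        ∑ x ∈ S, ∑ u, (D.nu u / S.card) * (W σ * E σ * Ew D S m fun w =>
          (fun τ => if x ∈ A then G (stp D (x, u) τ) else G τ) (fl D (filt A w) σ)) := by
      intro σ
      rw [Ew_succ]
      unfold Wa
      rw [Finset.sum_div, Finset.mul_sum]
      refine Finset.sum_congr rfl fun x _ => ?_
      rw [Finset.sum_div, Finset.mul_sum]
      refine Finset.sum_congr rfl fun u _ => ?_
      have : (Ew D S m fun w => G (fl D (filt A ((x, u) :: w)) σ)) = Ew D S m fun w =>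
          (fun τ => if x ∈ A then G (stp D (x, u) τ) else G τ) (fl D (filt A w) σ) :=
        Ew_congr D fun w _ _ => hT (x, u) w σ
      change W σ * E σ * (D.nu u * (Ew D S m fun w => G (fl D (filt A ((x, u) :: w)) σ)) / (S.card : ℝ)) = _
      rw [this]
      ring
    rw [Finset.sum_congr rfl fun σ _ => h1 σ, Finset.sum_comm]
    have h2 : ∀ x ∈ S, (∑ σ, ∑ u, (D.nu u / S.card) * (W σ * E σ * Ew D S m fun w =>
          (fun τ => if x ∈ A then G (stp D (x, u) τ) else G τ) (fl D (filt A w) σ))) =
        (1 / S.card) * ∑ σ, W σ * E σ * G σ := by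
      intro x _
      rw [Finset.sum_comm]
      have h3 : ∀ u, (∑ σ, (D.nu u / S.card) * (W σ * E σ * Ew D S m fun w =>
          (fun τ => if x ∈ A then G (stp D (x, u) τ) else G τ) (fl D (filt A w) σ))) =
          (1 / S.card) * ∑ σ, W σ * E σ * (D.nu u * (if x ∈ A then G (stp D (x, u) σ) else G σ)) := by
        intro u
        rw [← Finset.mul_sum, ih (fun τ => if x ∈ A then G (stp D (x, u) τ) else G τ), Finset.mul_sum,
          Finset.mul_sum]
        refine Finset.sum_congr rfl fun σ _ => ?_
        ring
      rw [Finset.sum_congr rfl fun u _ => h3 u, ← Finset.mul_sum, Finset.sum_comm]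
      congr 1
      by_cases hx : x ∈ A
      · simp only [hx, if_true]
        rw [← STA_one D hD hW x E (hE x hx) G]
        refine Finset.sum_congr rfl fun σ _ => ?_
        rw [← Finset.mul_sum]
        rfl
      · simp only [hx, if_false]
        refine Finset.sum_congr rfl fun σ _ => ?_
        rw [← Finset.mul_sum, ← Finset.sum_mul, hD.nu1, one_mul]
    rw [Finset.sum_congr rfl h2, Finset.sum_const, nsmul_eq_mul, ← mul_assoc, mul_one_div, div_self hc, one_mul]

end

theorem STA : STA_stmt := by
  intro V U _ _ _ D d W hD hW F m
  constructor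
  · intro S hS
    have h := STA_word D hD hW univ S hS (fun _ => 1) (fun _ _ _ _ => rfl) m F
    have hf : ∀ w : List (V × U), filt univ w = w := by intro w; simp [filt]
    simp only [hf, mul_one] at h
    unfold av
    rw [h]
  · intro A b hV
    have hne : (univ : Finset V).Nonempty := Finset.card_pos.1 hV
    have h := STA_word D hD hW A univ hne (fun σ => ind (∀ x, x ∉ A → σ x = b)) (by
      intro x hx σ c
      refine ind_congr ?_
      refine forall_congr' fun y => imp_congr_right fun hy => ?_
      have : y ≠ x := fun h => hy (h ▸ hx)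
      rw [Function.update_of_ne this]) m F
    unfold av cw
    rw [h]

end CWM
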