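import Pool.Agent.helper18.CWM.SpecA

/-!
# Project cwm (MP_7c3fb3_pr), module STAT
-/

set_option autoImplicit false

open Finset Filter Topology

namespace CWM

theorem STAT_av {V : Type} [Fintype V] [DecidableEq V] (W : (V → Bool) → ℝ)
    (hW : ∑ σ, W σ ≠ 0) (x : V) :
    av W (fun σ => ind (σ x = true)) = (1 + av W (fun σ => CU.sg (σ x))) / 2 := by
  unfold av
  have h1 : ∑ σ, W σ * ind (σ x = true) = (∑ σ, W σ + ∑ σ, W σ * CU.sg (σ x)) / 2 := by
    rw [← sum_add_distrib, sum_div]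
    refine sum_congr rfl fun σ _ => ?_
    have h2 : ind (σ x = true) = (1 + CU.sg (σ x)) / 2 := by
      cases h : σ x
      · rw [ind_not (by simp)]
        simp [CU.sg]
      · rw [ind_of rfl]
        simp [CU.sg]
    rw [h2]
    ring
  rw [h1]
  field_simp

theorem STAT_cw {V : Type} [Fintype V] [DecidableEq V] (W : (V → Bool) → ℝ)
    (hpos : ∀ σ, 0 < W σ) (A : Finset V) (b : Bool) : 0 < ∑ σ, cw W A b σ := by
  apply sum_pos'
  · intro σ _
    unfold cw
    exact mul_nonneg (hpos σ).le (ind_nonneg _)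
  · refine ⟨fun _ => b, mem_univ _, ?_⟩
    unfold cw
    rw [ind_of (fun _ _ => rfl), mul_one]
    exact hpos _

theorem STAT_mg {V : Type} [Fintype V] [DecidableEq V] (nb : V → Finset V) (β : ℝ) (D : Finset V)
    (g g' : V → ℝ) (hg : ∀ y ∈ D, g y = g' y) (x : V) :
    mg nb β D g x = mg nb β D g' x := by
  have h : ∀ F, ZF nb β D g F = ZF nb β D g' F := by
    intro F
    unfold ZF
    refine sum_congr rfl fun P _ => ?_
    have h1 : ∑ y ∈ D, g y * sp P y = ∑ y ∈ D, g' y * sp P y :=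
      sum_congr rfl fun y hy => by rw [hg y hy]
    rw [h1]
  unfold mg
  rw [h, h]

theorem STAT_nb (d n : ℕ) (β h : ℝ) (x y : CU.Site d (n + 3)) :
    y ∈ (tD d (n + 3) β h).nb x ↔ x ∈ (tD d (n + 3) β h).nb y := by
  have key : ∀ x y : CU.Site d (n + 3), y ∈ (tD d (n + 3) β h).nb x →
      x ∈ (tD d (n + 3) β h).nb y := by
    intro x y hy
    rcases mem_union.1 hy with h1 | h1
    · obtain ⟨i, _, rfl⟩ := mem_image.1 h1
      exact mem_union_right _ (mem_image.2 ⟨i, mem_univ _, by simp⟩)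
    · obtain ⟨i, _, rfl⟩ := mem_image.1 h1
      exact mem_union_left _ (mem_image.2 ⟨i, mem_univ _, by simp⟩)
  exact ⟨key x y, key y x⟩

theorem STAT_pos (hGIN : GIN_stmt) (hGEO : GEO_stmt) (hNLB : NLB_stmt) (hREC : REC_stmt)
    (hBRT : BRT_stmt) (hFKG : FKG_stmt) (hTOK : TOK_stmt) (hTHB : THB_stmt)
    (d : ℕ) (β h : ℝ) (hβ : 0 ≤ β) (hh : 0 < h) : ∃ C : ℝ, 0 ≤ C ∧
  ∀ (n : ℕ) (x : CU.Site d (n + 3)) (L : ℕ),
  dl (CU.wt β h : CU.Conf d (n + 3) → ℝ) (Bl (tD d (n + 3) β h) x L) x ≤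
    C / ((L : ℝ) + 1) ^ (4 * d) := by
  have hκ : 0 ≤ 2 * d * β / h := by positivity
  have hθ : 0 ≤ (2 * d * β / h) / (1 + 2 * d * β / h) := by positivity
  have hθ1 : (2 * d * β / h) / (1 + 2 * d * β / h) < 1 := by
    rw [div_lt_one (by positivity)]
    linarith
  obtain ⟨C, hC, hR⟩ := hREC d (2 * d * β / h) ((2 * d * β / h) / (1 + 2 * d * β / h)) hκ hθ hθ1
  refine ⟨C, hC, fun n x => ?_⟩
  have hok := hTOK d n β h hβ
  have hhb := hTHB d n β h hβ
  have hsym := STAT_nb d n β h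
  have hds := fun L : ℕ => (show x ∈ Bl (tD d (n + 3) β h) x L from by
    unfold Bl
    rw [mem_filter]
    refine ⟨mem_univ _, ?_⟩
    rw [(hok.ds0 x x).2 rfl]
    exact Nat.zero_le _)
  set T := tD d (n + 3) β h with hT
  obtain ⟨g1, g2, g3⟩ := hGIN (CU.Site d (n + 3)) T.nb β h hβ hh.le
  have hnA : ∀ (A : Finset (CU.Site d (n + 3))) y, 0 ≤ β * nA T.nb A y := by
    intro A y
    unfold nA
    positivity
  have hF : Monotone (fun σ : CU.Conf d (n + 3) => CU.sg (σ x)) := by
    intro σ τ hστ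
    have h1 : σ x ≤ τ x := hστ x
    show CU.sg (σ x) ≤ CU.sg (τ x)
    cases h2 : σ x <;> cases h3 : τ x
    · exact le_refl _
    · simp [CU.sg]
    · rw [h2, h3] at h1
      exact absurd h1 (by decide)
    · exact le_refl _
  have key := hR (mg T.nb β univ (fun _ => h) x)
    (fun L => mg T.nb β (Bl T x L) (fun _ => h) x)
    (fun L => mg T.nb β (Bl T x L) (fun y => h + β * nA T.nb (univ \ Bl T x L) y) x)
    (fun L => mg T.nb β (Bl T x L) (fun y => h - β * nA T.nb (univ \ Bl T x L) y) x)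
    (fun L => g1 univ (Bl T x L) x (subset_univ _) (hds L))
    (fun L => by
      have h1 := (hFKG _ _ T _ hhb (Bl T x L) _ hF).2
      have h2 := hBRT d n β h (Bl T x L) x (hds L)
      rw [h2.1, h2.2.2] at h1
      exact h1)
    (fun L => (abs_le.1 (g3 _ _ _)).2)
    (fun L => (abs_le.1 (g3 _ _ _)).1)
    (fun L => (abs_le.1 (g3 _ _ _)).1)
    (fun L => g2 (Bl T x L) _ x (hnA _) (hds L))
    (fun L k hk => by
      have hsub : Bl T x (L - (k + 1)) ⊆ Bl T x L := by
        intro y hy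
        unfold Bl at hy ⊢
        rw [mem_filter] at hy ⊢
        exact ⟨hy.1, by omega⟩
      have h1 := hNLB _ T.nb T.ds d hsym hok.nbc hok.nbd hok.dst hok.dsc β h hβ hh (k + 1)
        (Bl T x L) (Bl T x (L + 1) \ Bl T x L) (Bl T x (L - (k + 1))) x (hds _) hsub
        (by
          intro a ha y hy
          rw [Finset.mem_sdiff] at ha
          unfold Bl at ha hy
          rw [mem_filter, mem_filter] at ha
          rw [mem_filter] at hy
          have h2 : L < T.ds x a := by
            by_contra hcon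
            exact ha.2 ⟨mem_univ _, by omega⟩
          have h3 := hok.dst x y a
          have h4 := hok.dsc y a
          have h5 := hy.2
          omega)
      have h2 := (hGEO _ T.nb d hsym hok.nbc β h hβ hh k (Bl T x L)
        (Bl T x (L + 1) \ Bl T x L)).2
      have h3 : ((Bl T x (L + 1) \ Bl T x L).card : ℝ) ≤ (2 * (L : ℝ) + 3) ^ d := by
        have h4 : (Bl T x (L + 1) \ Bl T x L).card ≤ (2 * (L + 1) + 1) ^ d :=
          (card_le_card sdiff_subset).trans (hok.blc x (L + 1))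
        have h5 : ((Bl T x (L + 1) \ Bl T x L).card : ℝ) ≤ (((2 * (L + 1) + 1) ^ d : ℕ) : ℝ) :=
          Nat.cast_le.2 h4
        refine h5.trans (le_of_eq ?_)
        push_cast
        ring
      have h6 : sk T.nb β h (k + 1) (Bl T x L) (Bl T x (L + 1) \ Bl T x L) ≤
          2 * d * β / h * (2 * d * β / h / (1 + 2 * d * β / h)) ^ k * (2 * (L : ℝ) + 3) ^ d :=
        h2.trans (mul_le_mul_of_nonneg_left h3 (by positivity))
      have h7 : mg T.nb β (Bl T x L)
            (fun y => h - β * nA T.nb (Bl T x (L + 1) \ Bl T x L) y) x =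
          mg T.nb β (Bl T x L) (fun y => h - β * nA T.nb (univ \ Bl T x L) y) x := by
        apply STAT_mg
        intro y hy
        have h8 : T.nb y ∩ (Bl T x (L + 1) \ Bl T x L) = T.nb y ∩ (univ \ Bl T x L) := by
          ext z
          simp only [mem_inter, Finset.mem_sdiff, mem_univ, true_and]
          constructor
          · rintro ⟨a, -, b⟩
            exact ⟨a, b⟩
          · rintro ⟨a, b⟩
            refine ⟨a, ?_, b⟩
            unfold Bl at hy ⊢
            rw [mem_filter] at hy ⊢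
            have h9 := hok.dst x y z
            have h10 := hok.nbd y z a
            have h11 := hy.2
            exact ⟨mem_univ _, by omega⟩
        unfold nA
        rw [h8]
      rw [h7] at h1
      show mg T.nb β (Bl T x (L - (k + 1))) (fun _ => h) x - _ ≤ _
      linarith)
  intro L
  have h0 := key L
  have hb := hBRT d n β h (Bl T x L) x (hds L)
  have hp := STAT_cw (CU.wt β h : CU.Conf d (n + 3) → ℝ) hhb.pos (Bl T x L) true
  have hm := STAT_cw (CU.wt β h : CU.Conf d (n + 3) → ℝ) hhb.pos (Bl T x L) false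
  unfold dl
  rw [STAT_av _ hp.ne' x, STAT_av _ hm.ne' x, hb.1, hb.2.1]
  have h1 : 0 ≤ C / ((L : ℝ) + 1) ^ (4 * d) := by positivity
  linarith

/-- **STAT** -/
theorem STAT (hGIN : GIN_stmt) (hGEO : GEO_stmt) (hNLB : NLB_stmt) (hREC : REC_stmt)
    (hBRT : BRT_stmt) (hFLT : FLT_stmt) (hFKG : FKG_stmt) (hTOK : TOK_stmt)
    (hTHB : THB_stmt) : STAT_stmt := by
  intro d β h hβ hh
  rcases lt_or_gt_of_ne hh with hneg | hpos
  · obtain ⟨C, hC, hR⟩ := STAT_pos hGIN hGEO hNLB hREC hBRT hFKG hTOK hTHB d β (-h) hβ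
      (by linarith)
    refine ⟨C, hC, fun n x L => ?_⟩
    rw [hFLT]
    exact hR n x L
  · exact STAT_pos hGIN hGEO hNLB hREC hBRT hFKG hTOK hTHB d β h hβ hpos

end CWM
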