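import Pool.Agent.helper18.CWM.SpecB

/-!
# Project cwm, row SUP: relevant variables
-/

open Finset Filter Topology

namespace CWM

section
variable {V U : Type} [Fintype V] [DecidableEq V]

lemma SUP_mem (D : Dyn V U) (w : List (V × U)) (x z : V) :
    z ∈ supp D w x ↔ ∃ σ : V → Bool, fl D w (flp z σ) x ≠ fl D w σ x := by
  classical
  unfold supp
  simp

omit [Fintype V] in
lemma SUP_flp_self (z : V) (σ : V → Bool) : flp z σ z = !σ z := by
  unfold flp; simp

omit [Fintype V] in
lemma SUP_flp_ne {z y : V} (h : y ≠ z) (σ : V → Bool) : flp z σ y = σ y := by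
  unfold flp; simp [h]

/-- part (1) -/
lemma SUP_one (D : Dyn V U) (w : List (V × U)) (x : V) (σ τ : V → Bool)
    (h : ∀ z ∈ supp D w x, σ z = τ z) : fl D w σ x = fl D w τ x := by
  have key : ∀ (n : ℕ) (σ : V → Bool), (univ.filter fun z => σ z ≠ τ z).card = n →
      (∀ z ∈ supp D w x, σ z = τ z) → fl D w σ x = fl D w τ x := by
    intro n
    induction n with
    | zero =>
      intro σ hc _
      have he : σ = τ := by
        funext z
        by_contra hz
        have hm : z ∈ univ.filter fun z => σ z ≠ τ z := by simp [hz]
        rw [Finset.card_eq_zero.1 hc] at hm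
        simp at hm
      rw [he]
    | succ n ih =>
      intro σ hc hs
      have hne : (univ.filter fun z => σ z ≠ τ z).Nonempty := by
        rw [← Finset.card_pos, hc]; omega
      obtain ⟨z, hz⟩ := hne
      have hz' : σ z ≠ τ z := by simpa using hz
      have hzs : z ∉ supp D w x := fun hc => hz' (hs z hc)
      have hf : fl D w (flp z σ) x = fl D w σ x := by
        by_contra hcon
        exact hzs ((SUP_mem D w x z).2 ⟨σ, hcon⟩)
      rw [← hf]
      apply ih
      · have hset : (univ.filter fun y => flp z σ y ≠ τ y) = (univ.filter fun y => σ y ≠ τ y).erase z := by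
          ext y
          simp only [Finset.mem_filter, Finset.mem_univ, true_and, Finset.mem_erase]
          by_cases hy : y = z
          · subst hy
            rw [SUP_flp_self]
            constructor
            · intro hcon
              exfalso
              revert hcon hz'
              cases σ y <;> cases τ y <;> simp
            · rintro ⟨h1, _⟩
              exact absurd rfl h1
          · rw [SUP_flp_ne hy]
            simp [hy]
        rw [hset, Finset.card_erase_of_mem hz, hc]
        rfl
      · intro y hy
        have hyz : y ≠ z := fun hcon => hzs (hcon ▸ hy)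
        rw [SUP_flp_ne hyz]
        exact hs y hy
  exact key _ σ rfl h

end

/-- **SUP** -/
theorem SUP : SUP_stmt := by
  intro V U _ _ _ D d hD
  refine ⟨fun w x σ τ h => SUP_one D w x σ τ h, ?_, ?_, ?_⟩
  · intro w w' x z hz
    obtain ⟨σ, hσ⟩ := (SUP_mem D (w ++ w') x z).1 hz
    rw [fl_append, fl_append] at hσ
    by_contra hcon
    apply hσ
    apply SUP_one
    intro y hy
    by_contra hne
    apply hcon
    unfold supS
    rw [Finset.mem_biUnion]
    exact ⟨y, hy, (SUP_mem D w' y z).2 ⟨σ, hne⟩⟩
  · intro w x
    constructor
    · intro he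
      apply SUP_one
      intro z hz
      rw [he] at hz
      simp at hz
    · intro he
      apply Finset.eq_empty_of_forall_notMem
      intro z hz
      obtain ⟨σ, hσ⟩ := (SUP_mem D w x z).1 hz
      have hc : ∀ ρ : V → Bool, fl D w ρ x = fl D w pl x := by
        intro ρ
        have h1 : fl D w ρ x ≤ fl D w pl x := fl_mono D hD.mono w (le_pl ρ) x
        have h2 : fl D w mi x ≤ fl D w ρ x := fl_mono D hD.mono w (mi_le ρ) x
        rw [← he] at h2
        exact le_antisymm h1 h2
      exact hσ ((hc _).trans (hc _).symm)
  · intro w x hw σ
    induction w with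
    | nil => rfl
    | cons a w ih =>
      have h1 : x ≠ a.1 := fun h => hw a (by simp) h.symm
      have h2 : fl D (a :: w) σ x = fl D w σ x := by
        show stp D a (fl D w σ) x = _
        unfold stp
        rw [Function.update_of_ne h1]
      rw [h2]
      exact ih fun b hb => hw b (List.mem_cons_of_mem _ hb)

end CWM
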