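import Pool.Agent.helper18.CWM.SpecA

open Finset

namespace CWM

open CU

theorem TFR_hb_pos (d : ℕ) (β h : ℝ) (k : ℕ) : 0 < hb d β h k := by
  unfold hb
  have := Real.exp_pos (-2 * β * (2 * k - 2 * d) - 2 * h)
  positivity

theorem TFR_hb_lt (d : ℕ) (β h : ℝ) (k : ℕ) : hb d β h k < 1 := by
  unfold hb
  have := Real.exp_pos (-2 * β * (2 * k - 2 * d) - 2 * h)
  rw [div_lt_one (by positivity)]
  linarith

theorem TFR_pn {d n : ℕ} (x : Site d n) (σ : Conf d n) : pn x σ ≤ 2 * d := by
  unfold pn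
  have h1 : (univ.filter fun i : Fin d => σ (x + ev i) = true).card ≤ d := by
    have := Finset.card_filter_le (univ : Finset (Fin d)) (fun i : Fin d => σ (x + ev i) = true)
    rwa [Finset.card_univ, Fintype.card_fin] at this
  have h2 : (univ.filter fun i : Fin d => σ (x - ev i) = true).card ≤ d := by
    have := Finset.card_filter_le (univ : Finset (Fin d)) (fun i : Fin d => σ (x - ev i) = true)
    rwa [Finset.card_univ, Fintype.card_fin] at this
  omega

theorem TFR : TFR_stmt := by
  intro d β h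
  have hp := TFR_hb_pos d β h 0
  have hl := TFR_hb_lt d β h (2 * d)
  refine ⟨min (hb d β h 0) (1 - hb d β h (2 * d)), lt_min hp (by linarith), ?_⟩
  intro n
  refine ⟨lt_min hp (by linarith), ⟨⟨0, by omega⟩, ?_, ?_⟩, ⟨⟨2 * d + 1, by omega⟩, ?_, ?_⟩⟩
  · refine (min_le_left _ _).trans (le_of_eq ?_)
    show hb d β h 0 = nuT d β h ⟨0, by omega⟩
    unfold nuT
    rw [if_neg (by show ¬ (0 = 2 * d + 1); omega), if_pos rfl, sub_zero]
  · intro x σ
    show decide (0 ≤ pn x σ) = true
    exact decide_eq_true (Nat.zero_le _)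
  · refine (min_le_right _ _).trans (le_of_eq ?_)
    show 1 - hb d β h (2 * d) = nuT d β h ⟨2 * d + 1, by omega⟩
    unfold nuT
    rw [if_pos rfl, if_neg (by show ¬ (2 * d + 1 = 0); omega)]
    rfl
  · intro x σ
    show decide (2 * d + 1 ≤ pn x σ) = false
    apply decide_eq_false
    have := TFR_pn x σ
    omega

end CWM
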