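import Pool.Agent.helper18.CWM.SpecA

/-!
# cwm TGL: the transition matrix of the Glauber dynamics in terms of words
-/

set_option autoImplicit false

open Finset

namespace CWM

lemma TGL_one {V U : Type} [Fintype V] [DecidableEq V] [Fintype U] (D : Dyn V U)
    (h1 : ∑ u, D.nu u = 1) (W : (V → Bool) → ℝ) (hW : HB D W) (x : V) (σ η : V → Bool)
    (hx : ∀ y, y ≠ x → η y = σ y) :
    ∑ u, D.nu u * ind (stp D (x, u) σ = η) =
      W η / (W (Function.update σ x true) + W (Function.update σ x false)) := by
  have hrev := hW.rev x σ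
  have hp := hW.pos (Function.update σ x true)
  have hm := hW.pos (Function.update σ x false)
  have hne : W (Function.update σ x true) + W (Function.update σ x false) ≠ 0 := by positivity
  cases hb : η x with
  | false =>
    have hη : η = Function.update σ x false := by
      funext y
      by_cases hy : y = x
      · subst hy; simp [hb]
      · simp [hy, hx y hy]
    have hi : ∀ u, ind (stp D (x, u) σ = η) = 1 - ind (D.up x u σ = true) := by
      intro u
      rw [← ind_not']
      apply ind_congr
      constructor
      · intro he hu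
        have := congrFun he x
        rw [hb] at this
        simp [stp, hu] at this
      · intro hu
        have hu' : D.up x u σ = false := by
          cases h : D.up x u σ with
          | false => rfl
          | true => exact absurd h hu
        rw [hη]
        simp [stp, hu']
    simp_rw [hi, mul_sub, mul_one, Finset.sum_sub_distrib]
    rw [h1, hη, eq_div_iff hne]
    linarith
  | true =>
    have hη : η = Function.update σ x true := by
      funext y
      by_cases hy : y = x
      · subst hy; simp [hb]
      · simp [hy, hx y hy]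
    have hi : ∀ u, ind (stp D (x, u) σ = η) = ind (D.up x u σ = true) := by
      intro u
      apply ind_congr
      constructor
      · intro he
        have := congrFun he x
        rw [hb] at this
        simpa [stp] using this
      · intro hu
        rw [hη]
        simp [stp, hu]
    simp_rw [hi]
    rw [hη, eq_div_iff hne]
    linarith

lemma TGL_zero {V U : Type} [Fintype V] [DecidableEq V] [Fintype U] (D : Dyn V U) (x : V)
    (σ η : V → Bool) (hx : ¬ ∀ y, y ≠ x → η y = σ y) :
    ∑ u, D.nu u * ind (stp D (x, u) σ = η) = 0 := by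
  apply Finset.sum_eq_zero
  intro u _
  rw [ind_not, mul_zero]
  intro he
  apply hx
  intro y hy
  rw [← he]
  simp [stp, hy]

lemma TGL_step {d n : ℕ} {β h : ℝ} (hOK : (tD d (n + 3) β h).Ok d)
    (hHB : HB (tD d (n + 3) β h) (CU.wt β h : CU.Conf d (n + 3) → ℝ)) (σ η : CU.Conf d (n + 3)) :
    CU.glauber β h σ η = Wa (tD d (n + 3) β h) univ (fun a => ind (stp (tD d (n + 3) β h) a σ = η)) /
      ((univ : Finset (CU.Site d (n + 3))).card : ℝ) := by
  unfold CU.glauber Wa
  congr 1
  refine Finset.sum_congr rfl fun x _ => ?_
  by_cases hx : ∀ y, y ≠ x → η y = σ y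
  · rw [if_pos hx, TGL_one _ hOK.nu1 _ hHB x σ η hx]
  · rw [if_neg hx, TGL_zero _ x σ η hx]

lemma TGL_ind {V U : Type} [Fintype V] [DecidableEq V] [Fintype U] (D : Dyn V U) (a : V × U)
    (ξ η : V → Bool) :
    ind (stp D a ξ = η) = ∑ ζ : V → Bool, ind (stp D a ζ = η) * ind (ξ = ζ) := by
  rw [Finset.sum_eq_single ξ]
  · rw [ind_of (rfl : ξ = ξ), mul_one]
  · intro ζ _ hζ
    rw [ind_not (p := ξ = ζ) (fun h => hζ h.symm), mul_zero]
  · intro h; exact absurd (Finset.mem_univ _) h

theorem TGL (hTHB : THB_stmt) (hTOK : TOK_stmt) : TGL_stmt := by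
  intro d n β h hβ t
  have hOK := hTOK d n β h hβ
  have hHB := hTHB d n β h hβ
  induction t with
  | zero =>
    intro σ η
    rw [pow_zero, Ew_zero, Matrix.one_apply]
    by_cases he : σ = η
    · rw [if_pos he, ind_of]; exact he
    · rw [if_neg he, ind_not]; exact he
  | succ t ih =>
    intro σ η
    rw [pow_succ, Matrix.mul_apply, Ew_succ]
    have e1 : ∀ a : CU.Site d (n + 3) × Fin (2 * d + 2),
        (Ew (tD d (n + 3) β h) univ t fun w => ind (fl (tD d (n + 3) β h) (a :: w) σ = η)) =
        ∑ ζ : CU.Conf d (n + 3), (CU.glauber β h ^ t) σ ζ * ind (stp (tD d (n + 3) β h) a ζ = η) := by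
      intro a
      have e2 : (fun w => ind (fl (tD d (n + 3) β h) (a :: w) σ = η)) = fun w =>
          ∑ ζ : CU.Conf d (n + 3), ind (stp (tD d (n + 3) β h) a ζ = η) *
            ind (fl (tD d (n + 3) β h) w σ = ζ) := by
        funext w
        exact TGL_ind _ a _ η
      rw [e2, Ew_sum]
      refine Finset.sum_congr rfl fun ζ _ => ?_
      rw [Ew_smul, ih, mul_comm]
    simp_rw [e1]
    rw [Wa_sum, Finset.sum_div]
    refine Finset.sum_congr rfl fun ζ _ => ?_
    rw [Wa_smul, TGL_step hOK hHB, mul_div_assoc]

end CWM
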