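import Pool.Agent.helper18.CWM.SpecA

set_option autoImplicit false
set_option linter.unusedVariables false

open Finset

namespace CWM

lemma TGR_val (N j : ℕ) [NeZero N] : ((j : ZMod N).valMinAbs).natAbs ≤ j := by
  have h1 : (((j : ZMod N).valMinAbs : ℤ) : ZMod N) = ((j : ℤ) : ZMod N) := by
    rw [ZMod.coe_valMinAbs, Int.cast_natCast]
  have h2 := ZMod.natAbs_min_of_le_div_two N _ _ h1 (ZMod.natAbs_valMinAbs_le _)
  rwa [Int.natAbs_natCast] at h2

theorem TGR : TGR_stmt := by
  intro d n β h hd x r hr
  have hcard : Fintype.card (CU.Site d (n + 3)) = (n + 3) ^ d := by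
    rw [Fintype.card_fun, ZMod.card, Fintype.card_fin]
  rw [hcard, pow_mul] at hr
  have h2 : r ^ 2 ≤ n + 3 := (Nat.pow_le_pow_iff_left (by omega)).1 hr
  have h1 : r ≤ n + 3 := by nlinarith [Nat.zero_le r]
  let i0 : Fin d := ⟨0, hd⟩
  let f : Fin r → CU.Site d (n + 3) := fun j => x + Pi.single i0 (((j : ℕ) : ZMod (n + 3)))
  have hf : Function.Injective f := by
    intro a b hab
    have h3 : x + Pi.single i0 (((a : ℕ) : ZMod (n + 3))) = x + Pi.single i0 (((b : ℕ) : ZMod (n + 3))) := hab
    have h4 := congrFun (add_left_cancel h3) i0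
    rw [Pi.single_eq_same, Pi.single_eq_same] at h4
    have ha := a.2
    have hb := b.2
    have h5 := congrArg ZMod.val h4
    rw [ZMod.val_natCast_of_lt (by omega), ZMod.val_natCast_of_lt (by omega)] at h5
    exact Fin.ext h5
  calc r = (univ.image f).card := by rw [Finset.card_image_of_injective _ hf]; simp
    _ ≤ (Bl (tD d (n + 3) β h) x r).card := by
      refine Finset.card_le_card ?_
      intro y hy
      obtain ⟨j, _, rfl⟩ := Finset.mem_image.1 hy
      refine Finset.mem_filter.2 ⟨Finset.mem_univ _, ?_⟩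
      show dsT x (f j) ≤ r
      unfold dsT
      refine Finset.sup_le fun i _ => ?_
      have e : x i - f j i = -(Pi.single (M := fun _ => ZMod (n + 3)) i0 (((j : ℕ) : ZMod (n + 3))) i) := by
        show x i - (x i + Pi.single (M := fun _ => ZMod (n + 3)) i0 (((j : ℕ) : ZMod (n + 3))) i) = _
        ring
      rw [e, ZMod.natAbs_valMinAbs_neg]
      by_cases hi : i = i0
      · subst hi
        rw [Pi.single_eq_same]
        exact (TGR_val (n + 3) j).trans j.2.le
      · rw [Pi.single_eq_of_ne hi, ZMod.valMinAbs_zero]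
        exact Nat.zero_le _

end CWM
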