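import Pool.Agent.helper18.CWM.SpecA

/-!
# Project cwm (MP_7c3fb3_pr): row THB
-/

set_option autoImplicit false

open Finset

namespace CWM

open CU

lemma THB_tel (f : ℕ → ℝ) (K : ℕ) :
    ∑ j ∈ range (K + 1), (f j - (if j = 0 then 0 else f (j - 1))) = f K := by
  induction K with
  | zero => simp
  | succ K ih =>
    rw [Finset.sum_range_succ, ih]
    rw [if_neg (Nat.succ_ne_zero K), Nat.add_sub_cancel]
    ring

/-- the sum of the law of the threshold -/
lemma THB_sum (d : ℕ) (β h : ℝ) (k : ℕ) (hk : k ≤ 2 * d) :
    ∑ u : Fin (2 * d + 2), nuT d β h u * ind (decide (u.val ≤ k) = true) = hb d β h k := by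
  have h1 : ∑ u : Fin (2 * d + 2), nuT d β h u * ind (decide (u.val ≤ k) = true) =
      ∑ u : Fin (2 * d + 2), (fun j : ℕ => if j ≤ k then
        (hb d β h j - (if j = 0 then 0 else hb d β h (j - 1))) else 0) u.val := by
    refine Finset.sum_congr rfl fun u _ => ?_
    beta_reduce
    by_cases hu : u.val ≤ k
    · rw [if_pos hu, ind_of (by simpa using hu), mul_one]
      unfold nuT
      rw [if_neg (show ¬ u.val = 2 * d + 1 by omega)]
    · rw [if_neg hu, ind_not (by simpa using hu), mul_zero]
  rw [h1, Fin.sum_univ_eq_sum_range (fun j : ℕ => if j ≤ k then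
        (hb d β h j - (if j = 0 then 0 else hb d β h (j - 1))) else 0) (2 * d + 2)]
  rw [← THB_tel (hb d β h) k]
  rw [← Finset.sum_filter]
  refine Finset.sum_congr ?_ fun _ _ => rfl
  ext j
  simp only [Finset.mem_filter, Finset.mem_range]
  omega

lemma THB_sg (a : Bool) : sg a = 2 * (if a = true then 1 else 0) - 1 := by
  cases a <;> norm_num [sg]

lemma THB_pn_le {d n : ℕ} (x : Site d n) (σ : Conf d n) : pn x σ ≤ 2 * d := by
  unfold pn
  have h1 : (univ.filter fun i : Fin d => σ (x + ev i) = true).card ≤ d :=
    (Finset.card_filter_le _ _).trans (by simp)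
  have h2 : (univ.filter fun i : Fin d => σ (x - ev i) = true).card ≤ d :=
    (Finset.card_filter_le _ _).trans (by simp)
  omega

lemma THB_pn {d n : ℕ} (x : Site d n) (σ : Conf d n) :
    ∑ i : Fin d, (sg (σ (x + ev i)) + sg (σ (x - ev i))) = 2 * (pn x σ : ℝ) - 2 * d := by
  unfold pn
  rw [Finset.sum_add_distrib]
  have key : ∀ g : Fin d → Bool, ∑ i : Fin d, sg (g i) =
      2 * ((univ.filter fun i : Fin d => g i = true).card : ℝ) - d := by
    intro g
    rw [Finset.sum_congr rfl fun i _ => THB_sg (g i), Finset.sum_sub_distrib, ← Finset.mul_sum,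
      Finset.sum_boole]
    simp
  rw [key (fun i => σ (x + ev i)), key (fun i => σ (x - ev i))]
  push_cast
  ring

lemma THB_ev {d n : ℕ} (i : Fin d) : (ev i : Site d (n + 3)) ≠ 0 := by
  intro h
  have h1 := congrFun h i
  unfold ev at h1
  rw [Pi.single_eq_same] at h1
  haveI : Fact (1 < n + 3) := ⟨by omega⟩
  exact one_ne_zero (α := ZMod (n + 3)) h1

/-- the difference of the energies -/
lemma THB_en {d n : ℕ} (x : Site d (n + 3)) (σ : Conf d (n + 3)) :
    (∑ y : Site d (n + 3), ∑ i : Fin d, sg (Function.update σ x true y) *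
        sg (Function.update σ x true (y + ev i))) -
      (∑ y : Site d (n + 3), ∑ i : Fin d, sg (Function.update σ x false y) *
        sg (Function.update σ x false (y + ev i))) =
    2 * (2 * (pn x σ : ℝ) - 2 * d) := by
  rw [← THB_pn, Finset.mul_sum, ← Finset.sum_sub_distrib]
  rw [Finset.sum_congr rfl fun y _ => (Finset.sum_sub_distrib _ _).symm]
  rw [Finset.sum_comm]
  refine Finset.sum_congr rfl fun i _ => ?_
  have hterm : ∀ y : Site d (n + 3),
      sg (Function.update σ x true y) * sg (Function.update σ x true (y + ev i)) -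
        sg (Function.update σ x false y) * sg (Function.update σ x false (y + ev i)) =
      (if y = x then 2 * sg (σ (x + ev i)) else 0) +
        (if y = x - ev i then 2 * sg (σ (x - ev i)) else 0) := by
    intro y
    have hev := THB_ev (n := n) i
    by_cases h1 : y = x
    · subst h1
      have h2 : y + ev i ≠ y := by
        intro h
        exact hev (by simpa using h)
      have h3 : ¬ y = y - ev i := by
        intro h
        apply hev
        have := congrArg (fun z => y - z) h
        simpa using this.symm
      rw [if_pos rfl, if_neg h3]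
      rw [Function.update_self, Function.update_self, Function.update_of_ne h2,
        Function.update_of_ne h2]
      have t1 : sg true = 1 := by simp [sg]
      have t2 : sg false = -1 := by simp [sg]
      rw [t1, t2]
      ring
    · rw [if_neg h1]
      by_cases h2 : y = x - ev i
      · have h3 : y + ev i = x := by rw [h2]; simp
        rw [if_pos h2, h3, Function.update_of_ne h1, Function.update_of_ne h1,
          Function.update_self, Function.update_self, ← h2]
        have t1 : sg true = 1 := by simp [sg]
        have t2 : sg false = -1 := by simp [sg]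
        rw [t1, t2]
        ring
      · have h3 : y + ev i ≠ x := by
          intro h
          apply h2
          rw [← h]
          simp
        rw [if_neg h2, Function.update_of_ne h1, Function.update_of_ne h1,
          Function.update_of_ne h3, Function.update_of_ne h3]
        ring
  rw [Finset.sum_congr rfl fun y _ => hterm y, Finset.sum_add_distrib, Finset.sum_ite_eq',
    Finset.sum_ite_eq']
  simp only [Finset.mem_univ, if_true]
  ring

lemma THB_mg {d n : ℕ} (x : Site d (n + 3)) (σ : Conf d (n + 3)) :
    (∑ y : Site d (n + 3), sg (Function.update σ x true y)) -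
      (∑ y : Site d (n + 3), sg (Function.update σ x false y)) = 2 := by
  rw [← Finset.sum_sub_distrib]
  have hterm : ∀ y : Site d (n + 3),
      sg (Function.update σ x true y) - sg (Function.update σ x false y) =
      (if y = x then 2 else 0) := by
    intro y
    by_cases h1 : y = x
    · subst h1
      rw [if_pos rfl, Function.update_self, Function.update_self]
      norm_num [sg]
    · rw [if_neg h1, Function.update_of_ne h1, Function.update_of_ne h1]
      ring
  rw [Finset.sum_congr rfl fun y _ => hterm y, Finset.sum_ite_eq']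
  simp

/-- the quotient of the weights -/
lemma THB_wt {d n : ℕ} (β h : ℝ) (x : Site d (n + 3)) (σ : Conf d (n + 3)) :
    wt β h (Function.update σ x false) =
      Real.exp (-2 * β * (2 * (pn x σ : ℝ) - 2 * d) - 2 * h) *
        wt β h (Function.update σ x true) := by
  unfold wt
  rw [← Real.exp_add]
  congr 1
  have h1 := THB_en x σ
  have h2 := THB_mg x σ
  linear_combination (-β) * h1 + (-h) * h2

lemma THB_sgm (a b : Bool) : sg a + sg b = sg (a ⊓ b) + sg (a ⊔ b) := by
  cases a <;> cases b <;> norm_num [sg]

lemma THB_sgc (a b a' b' : Bool) :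
    sg a * sg a' + sg b * sg b' ≤ sg (a ⊓ b) * sg (a' ⊓ b') + sg (a ⊔ b) * sg (a' ⊔ b') := by
  cases a <;> cases b <;> cases a' <;> cases b' <;> norm_num [sg]

theorem THB : THB_stmt := by
  intro d n β h hβ
  refine ⟨?_, ?_, ?_⟩
  · intro σ
    exact Real.exp_pos _
  · intro σ τ
    unfold wt
    rw [← Real.exp_add, ← Real.exp_add]
    apply Real.exp_le_exp.2
    have h1 : (∑ y : Site d (n + 3), ∑ i : Fin d, sg (σ y) * sg (σ (y + ev i))) +
        (∑ y : Site d (n + 3), ∑ i : Fin d, sg (τ y) * sg (τ (y + ev i))) ≤
        (∑ y : Site d (n + 3), ∑ i : Fin d, sg ((σ ⊓ τ) y) * sg ((σ ⊓ τ) (y + ev i))) +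
        (∑ y : Site d (n + 3), ∑ i : Fin d, sg ((σ ⊔ τ) y) * sg ((σ ⊔ τ) (y + ev i))) := by
      rw [← Finset.sum_add_distrib, ← Finset.sum_add_distrib]
      refine Finset.sum_le_sum fun y _ => ?_
      rw [← Finset.sum_add_distrib, ← Finset.sum_add_distrib]
      refine Finset.sum_le_sum fun i _ => ?_
      exact THB_sgc _ _ _ _
    have h2 : (∑ y : Site d (n + 3), sg (σ y)) + (∑ y : Site d (n + 3), sg (τ y)) =
        (∑ y : Site d (n + 3), sg ((σ ⊓ τ) y)) + (∑ y : Site d (n + 3), sg ((σ ⊔ τ) y)) := by
      rw [← Finset.sum_add_distrib, ← Finset.sum_add_distrib]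
      refine Finset.sum_congr rfl fun y _ => ?_
      exact THB_sgm _ _
    have h3 := mul_le_mul_of_nonneg_left h1 hβ
    have h4 := congrArg (fun z => h * z) h2
    beta_reduce at h4
    rw [mul_add, mul_add] at h3 h4
    linarith
  · intro x σ
    have h1 : (∑ u, (tD d (n + 3) β h).nu u * ind ((tD d (n + 3) β h).up x u σ = true)) =
        hb d β h (pn x σ) := THB_sum d β h (pn x σ) (THB_pn_le x σ)
    rw [h1, THB_wt β h x σ]
    unfold hb
    have hE := Real.exp_pos (-2 * β * (2 * (pn x σ : ℝ) - 2 * d) - 2 * h)
    have hne : (1 + Real.exp (-2 * β * (2 * (pn x σ : ℝ) - 2 * d) - 2 * h)) ≠ 0 := by positivity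
    field_simp
    ring

end CWM
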