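import Pool.Agent.helper18.CWM.SpecA

set_option autoImplicit false

open Finset Filter Topology

namespace CWM

theorem THM_pn {d n : ℕ} (c z : CU.Site d n) (σ : CU.Conf d n) :
    pn (z + c) σ = pn z (fun v => σ (v + c)) := by
  unfold pn
  have h1 : ∀ i : Fin d, z + c + CU.ev i = z + CU.ev i + c := fun i => add_right_comm _ _ _
  have h2 : ∀ i : Fin d, z + c - CU.ev i = z - CU.ev i + c := fun i => add_sub_right_comm _ _ _
  simp only [h1, h2]

theorem THM : THM_stmt := by
  intro d n β h x y
  refine ⟨Equiv.addRight (y - x), ?_, ?_⟩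
  · show x + (y - x) = y
    abel
  · intro z u σ
    show decide (u.val ≤ pn (z + (y - x)) σ) = decide (u.val ≤ pn z (fun v => σ (v + (y - x))))
    rw [THM_pn]

end CWM
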