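import Pool.Agent.helper18.CWM.SpecB

/-!
# Project cwm (MP_7c3fb3_pr): row TL (finite speed)
-/

open Finset

namespace CWM

section
variable {V U : Type} [Fintype V] [DecidableEq V] [Fintype U]

/-- one letter -/
theorem TL_one (D : Dyn V U) (d : ℕ) (hD : D.Ok d) (f : V → ℝ) (K : ℝ) (hf : ∀ z, 0 ≤ f z) (hK : 0 ≤ K)
    (hfK : ∀ a, ∀ y ∈ D.nb a, f y ≤ K * f a) (S A : Finset V) :
    Wa D S (fun a => ∑ z ∈ (if a.1 ∈ A then A ∪ D.nb a.1 else A), f z) ≤
      ((S.card : ℝ) + 2 * d * K) * ∑ z ∈ A, f z := by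
  have h1 : ∀ a : V × U, a.1 ∈ S → ∑ z ∈ (if a.1 ∈ A then A ∪ D.nb a.1 else A), f z ≤
      (∑ z ∈ A, f z) + (if a.1 ∈ A then 2 * d * K * f a.1 else 0) := by
    intro a _
    by_cases ha : a.1 ∈ A
    · rw [if_pos ha, if_pos ha]
      have h2 : ∑ z ∈ A ∪ D.nb a.1, f z ≤ ∑ z ∈ A, f z + ∑ z ∈ D.nb a.1, f z := by
        rw [← Finset.sum_union_inter]
        exact le_add_of_nonneg_right (Finset.sum_nonneg fun z _ => hf z)
      have h3 : ∑ z ∈ D.nb a.1, f z ≤ (D.nb a.1).card • (K * f a.1) :=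
        Finset.sum_le_card_nsmul _ _ _ (hfK a.1)
      have h4 : (D.nb a.1).card • (K * f a.1) ≤ 2 * d * K * f a.1 := by
        rw [nsmul_eq_mul]
        have h5 : ((D.nb a.1).card : ℝ) ≤ 2 * d := by exact_mod_cast hD.nbc a.1
        have h6 : 0 ≤ K * f a.1 := mul_nonneg hK (hf _)
        calc ((D.nb a.1).card : ℝ) * (K * f a.1) ≤ (2 * d) * (K * f a.1) := mul_le_mul_of_nonneg_right h5 h6
          _ = 2 * d * K * f a.1 := by ring
      linarith
    · rw [if_neg ha, if_neg ha, add_zero]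
  refine le_trans (Wa_mono D hD.nu0 h1) ?_
  rw [Wa_add, Wa_const D hD.nu1, add_mul]
  have h7 : Wa D S (fun a => if a.1 ∈ A then 2 * d * K * f a.1 else 0) =
      ∑ x ∈ S, (if x ∈ A then 2 * d * K * f x else 0) := by
    unfold Wa
    refine Finset.sum_congr rfl fun x _ => ?_
    show ∑ u, D.nu u * (if x ∈ A then 2 * d * K * f x else 0) = _
    rw [← Finset.sum_mul, hD.nu1, one_mul]
  have h8 : ∑ x ∈ S, (if x ∈ A then 2 * d * K * f x else 0) ≤ 2 * d * K * ∑ z ∈ A, f z := by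
    rw [← Finset.sum_filter, Finset.mul_sum]
    refine Finset.sum_le_sum_of_subset_of_nonneg ?_ ?_
    · intro x hx
      exact (Finset.mem_filter.1 hx).2
    · intro x _ _
      have := hf x
      positivity
  rw [h7]
  linarith

/-- words -/
theorem TL_words (D : Dyn V U) (d : ℕ) (hD : D.Ok d) (f : V → ℝ) (K : ℝ) (hf : ∀ z, 0 ≤ f z) (hK : 0 ≤ K)
    (hfK : ∀ a, ∀ y ∈ D.nb a, f y ≤ K * f a) (S : Finset V) (m : ℕ) : ∀ A : Finset V,
    Ww D S m (fun w => ∑ z ∈ anc D w A, f z) ≤ ((S.card : ℝ) + 2 * d * K) ^ m * ∑ z ∈ A, f z := by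
  induction m with
  | zero =>
    intro A
    rw [Ww_zero, pow_zero, one_mul]
    exact le_rfl
  | succ m ih =>
    intro A
    rw [Ww_succ]
    have h1 : ∀ a : V × U, a.1 ∈ S → Ww D S m (fun w => ∑ z ∈ anc D (a :: w) A, f z) ≤
        ((S.card : ℝ) + 2 * d * K) ^ m * ∑ z ∈ (if a.1 ∈ A then A ∪ D.nb a.1 else A), f z := fun a _ =>
      ih (if a.1 ∈ A then A ∪ D.nb a.1 else A)
    refine le_trans (Wa_mono D hD.nu0 h1) ?_
    rw [Wa_smul]
    have e : ((S.card : ℝ) + 2 * d * K) ^ (m + 1) * ∑ z ∈ A, f z =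
        ((S.card : ℝ) + 2 * d * K) ^ m * (((S.card : ℝ) + 2 * d * K) * ∑ z ∈ A, f z) := by ring
    rw [e]
    refine mul_le_mul_of_nonneg_left (TL_one D d hD f K hf hK hfK S A) ?_
    positivity

theorem TL_three (D : Dyn V U) (d : ℕ) (hD : D.Ok d) (S : Finset V) (x : V) (m r : ℕ) :
    Ww D S m (fun w => ind (¬ anc D w {x} ⊆ Bl D x r)) ≤
    (1 / 2) ^ (r + 1) * ((S.card : ℝ) + 4 * d) ^ m := by
  have hfK : ∀ a, ∀ y ∈ D.nb a, (2 : ℝ) ^ D.ds x y ≤ 2 * 2 ^ D.ds x a := by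
    intro a y hy
    rw [← pow_succ']
    refine pow_le_pow_right₀ (by norm_num) ?_
    have h1 := hD.dst x a y
    have h2 := hD.nbd a y hy
    omega
  have hmain := TL_words D d hD (fun z => (2 : ℝ) ^ D.ds x z) 2 (fun z => by positivity) (by norm_num) hfK S m {x}
  rw [Finset.sum_singleton, (hD.ds0 x x).2 rfl, pow_zero, mul_one] at hmain
  have hpt : ∀ w : List (V × U), ind (¬ anc D w {x} ⊆ Bl D x r) ≤
      (1 / 2) ^ (r + 1) * ∑ z ∈ anc D w {x}, (2 : ℝ) ^ D.ds x z := by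
    intro w
    by_cases h : anc D w {x} ⊆ Bl D x r
    · rw [ind_not (by simpa using h)]
      positivity
    · rw [ind_of h]
      obtain ⟨z, hz, hzr⟩ := Finset.not_subset.1 h
      rw [mem_Bl, not_le] at hzr
      have h1 : (2 : ℝ) ^ D.ds x z ≤ ∑ z ∈ anc D w {x}, (2 : ℝ) ^ D.ds x z :=
        Finset.single_le_sum (f := fun z => (2 : ℝ) ^ D.ds x z) (fun z _ => by positivity) hz
      have h2 : (2 : ℝ) ^ (r + 1) ≤ 2 ^ D.ds x z := pow_le_pow_right₀ (by norm_num) hzr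
      have h3 : (1 : ℝ) = (1 / 2) ^ (r + 1) * 2 ^ (r + 1) := by
        rw [← mul_pow]
        norm_num
      calc (1 : ℝ) = (1 / 2) ^ (r + 1) * 2 ^ (r + 1) := h3
        _ ≤ (1 / 2) ^ (r + 1) * ∑ z ∈ anc D w {x}, (2 : ℝ) ^ D.ds x z :=
          mul_le_mul_of_nonneg_left (le_trans h2 h1) (by positivity)
  refine le_trans (Ww_mono D hD.nu0 fun w _ _ => hpt w) ?_
  rw [Ww_smul]
  refine mul_le_mul_of_nonneg_left ?_ (by positivity)
  refine le_trans hmain (le_of_eq ?_)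
  congr 1
  ring

end

theorem TL : TL_stmt := by
  intro V U _ _ _ D d hD
  refine ⟨?_, ?_, ?_, ?_⟩
  · intro S A x m
    have hfK : ∀ a, ∀ y ∈ D.nb a, (2 : ℝ) ^ D.ds x y ≤ 2 * 2 ^ D.ds x a := by
      intro a y hy
      rw [← pow_succ']
      refine pow_le_pow_right₀ (by norm_num) ?_
      have h1 := hD.dst x a y
      have h2 := hD.nbd a y hy
      omega
    have h := TL_words D d hD (fun z => (2 : ℝ) ^ D.ds x z) 2 (fun z => by positivity) (by norm_num) hfK S m A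
    refine le_trans h (le_of_eq ?_)
    congr 2
    ring
  · intro S A m
    have h := TL_words D d hD (fun _ => (1 : ℝ)) 1 (fun z => by norm_num) (by norm_num)
      (fun a y _ => by norm_num) S m A
    simp only [Finset.sum_const, nsmul_eq_mul, mul_one] at h
    exact h
  · intro S x m r
    exact TL_three D d hD S x m r
  · intro S x m r hS
    have h := TL_three D d hD S x m r
    have hc : (0 : ℝ) < S.card := by exact_mod_cast hS.card_pos
    unfold Ew
    rw [div_le_iff₀ (by positivity)]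
    refine le_trans h ?_
    rw [mul_assoc]
    refine mul_le_mul_of_nonneg_left ?_ (by positivity)
    have e1 : Real.exp (4 * d * (m / S.card)) = Real.exp (4 * d / S.card) ^ m := by
      rw [← Real.exp_nat_mul]
      congr 1
      ring
    rw [e1, ← mul_pow]
    refine pow_le_pow_left₀ (by positivity) ?_ m
    have h2 := Real.add_one_le_exp (4 * (d : ℝ) / S.card)
    have h3 := mul_le_mul_of_nonneg_right h2 hc.le
    have h4 : (4 * (d : ℝ) / S.card + 1) * S.card = S.card + 4 * d := by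
      field_simp
      ring
    rw [h4] at h3
    exact h3

end CWM
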