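import Pool.Agent.helper18.CWM.SpecA

/-!
# Project cwm: row TOK (the torus dynamics is a monotone local dynamics)
-/

open Finset

namespace CWM

open CU

lemma TOK_hb_pos (d : ℕ) (β h : ℝ) (k : ℕ) : 0 < hb d β h k := by
  unfold hb
  positivity

lemma TOK_hb_le (d : ℕ) (β h : ℝ) (k : ℕ) : hb d β h k ≤ 1 := by
  unfold hb
  rw [div_le_one (by positivity)]
  linarith [Real.exp_pos (-2 * β * (2 * k - 2 * d) - 2 * h)]

lemma TOK_hb_mono (d : ℕ) (β h : ℝ) (hβ : 0 ≤ β) (k : ℕ) : hb d β h k ≤ hb d β h (k + 1) := by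
  unfold hb
  apply one_div_le_one_div_of_le (by positivity)
  have h1 : -2 * β * (2 * ((k + 1 : ℕ) : ℝ) - 2 * d) - 2 * h ≤ -2 * β * (2 * (k : ℝ) - 2 * d) - 2 * h := by
    push_cast
    nlinarith
  linarith [Real.exp_le_exp.2 h1]

lemma TOK_nu0 (d : ℕ) (β h : ℝ) (hβ : 0 ≤ β) (u : Fin (2 * d + 2)) : 0 ≤ nuT d β h u := by
  unfold nuT
  split_ifs with h1 h2 h2
  · omega
  · linarith [TOK_hb_le d β h (u.val - 1)]
  · linarith [TOK_hb_pos d β h u.val]
  · have h3 := TOK_hb_mono d β h hβ (u.val - 1)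
    rw [Nat.sub_add_cancel (by omega)] at h3
    linarith

lemma TOK_nu1 (d : ℕ) (β h : ℝ) : ∑ u : Fin (2 * d + 2), nuT d β h u = 1 := by
  set f : ℕ → ℝ := fun k => if k = 0 then 0 else if k = 2 * d + 2 then 1 else hb d β h (k - 1)
    with hf
  have h1 : ∀ u : Fin (2 * d + 2), nuT d β h u = f (u.val + 1) - f u.val := by
    intro u
    have hu := u.2
    unfold nuT
    simp only [hf]
    rw [if_neg (Nat.succ_ne_zero u.val)]
    have h3 : (u.val + 1 = 2 * d + 2) ↔ (u.val = 2 * d + 1) := by omega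
    rw [if_neg (show ¬ u.val = 2 * d + 2 by omega), Nat.add_sub_cancel]
    simp only [h3]
  rw [Finset.sum_congr rfl fun u _ => h1 u,
    Fin.sum_univ_eq_sum_range (fun k => f (k + 1) - f k) (2 * d + 2), Finset.sum_range_sub]
  simp [hf]

lemma TOK_pn_mono {d n : ℕ} (x : Site d n) {σ τ : Conf d n} (h : σ ≤ τ) : pn x σ ≤ pn x τ := by
  have h1 : ∀ y, σ y = true → τ y = true := fun y hy => by
    have h2 := h y
    rw [hy] at h2
    exact Bool.eq_true_of_true_le h2
  unfold pn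
  exact Nat.add_le_add
    (Finset.card_le_card fun i hi => by
      rw [Finset.mem_filter] at hi ⊢; exact ⟨hi.1, h1 _ hi.2⟩)
    (Finset.card_le_card fun i hi => by
      rw [Finset.mem_filter] at hi ⊢; exact ⟨hi.1, h1 _ hi.2⟩)

lemma TOK_dsT_le {d n : ℕ} (x y : Site d n) (r : ℕ) :
    dsT x y ≤ r ↔ ∀ i : Fin d, ((x i - y i).valMinAbs).natAbs ≤ r := by
  unfold dsT
  rw [Finset.sup_le_iff]
  exact ⟨fun h i => h i (Finset.mem_univ i), fun h i _ => h i⟩

lemma TOK_dsT_comm {d n : ℕ} (x y : Site d n) : dsT x y = dsT y x := by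
  unfold dsT
  refine Finset.sup_congr rfl fun i _ => ?_
  rw [← ZMod.natAbs_valMinAbs_neg, neg_sub]

lemma TOK_dsT_zero {d n : ℕ} (x y : Site d n) : dsT x y = 0 ↔ x = y := by
  constructor
  · intro h
    funext i
    have h1 := (TOK_dsT_le x y 0).1 h.le i
    rw [Nat.le_zero, Int.natAbs_eq_zero, ZMod.valMinAbs_eq_zero, sub_eq_zero] at h1
    exact h1
  · rintro rfl
    refine Nat.le_zero.1 ((TOK_dsT_le x x 0).2 fun i => ?_)
    rw [sub_self, ZMod.valMinAbs_zero, Int.natAbs_zero]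

lemma TOK_dsT_tri {d n : ℕ} (x y z : Site d n) : dsT x z ≤ dsT x y + dsT y z := by
  refine (TOK_dsT_le x z _).2 fun i => ?_
  have h1 : x i - z i = (x i - y i) + (y i - z i) := by ring
  rw [h1]
  refine (ZMod.natAbs_valMinAbs_add_le _ _).trans ((Int.natAbs_add_le _ _).trans ?_)
  exact Nat.add_le_add ((TOK_dsT_le x y _).1 le_rfl i) ((TOK_dsT_le y z _).1 le_rfl i)

lemma TOK_ev {d n : ℕ} (i j : Fin d) : ((ev i : Site d (n + 3)) j).valMinAbs.natAbs ≤ 1 := by
  unfold ev
  by_cases h : j = i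
  · subst h
    rw [Pi.single_eq_same]
    have h1 : ((1 : ℕ) : ZMod (n + 3)).valMinAbs = (1 : ℕ) :=
      ZMod.valMinAbs_natCast_of_le_half (by omega)
    rw [Nat.cast_one] at h1
    rw [h1]
    exact le_rfl
  · rw [Pi.single_eq_of_ne h, ZMod.valMinAbs_zero, Int.natAbs_zero]
    exact Nat.zero_le _

lemma TOK_nbd {d n : ℕ} (x : Site d (n + 3)) (i : Fin d) : dsT x (x + ev i) ≤ 1 ∧
    dsT x (x - ev i) ≤ 1 := by
  refine ⟨(TOK_dsT_le _ _ _).2 fun j => ?_, (TOK_dsT_le _ _ _).2 fun j => ?_⟩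
  · rw [Pi.add_apply, sub_add_cancel_left, ZMod.natAbs_valMinAbs_neg]
    exact TOK_ev i j
  · rw [Pi.sub_apply, sub_sub_cancel]
    exact TOK_ev i j

lemma TOK_ball {d n : ℕ} [NeZero n] (x : Site d n) (r : ℕ) :
    (univ.filter fun y : Site d n => dsT x y ≤ r).card ≤ (2 * r + 1) ^ d := by
  have h1 : (Fintype.piFinset fun _ : Fin d => Finset.Icc (-(r : ℤ)) r).card = (2 * r + 1) ^ d := by
    rw [Fintype.card_piFinset_const, Int.card_Icc]
    congr 1
    omega
  rw [← h1]
  refine Finset.card_le_card_of_injOn (fun y i => (x i - y i).valMinAbs) ?_ ?_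
  · intro y hy
    have hy' : dsT x y ≤ r := (Finset.mem_filter.1 (Finset.mem_coe.1 hy)).2
    rw [Finset.mem_coe, Fintype.mem_piFinset]
    intro i
    have h2 := (TOK_dsT_le x y r).1 hy' i
    rw [Finset.mem_Icc]
    show -(r : ℤ) ≤ (x i - y i).valMinAbs ∧ (x i - y i).valMinAbs ≤ r
    omega
  · intro y _ z _ hyz
    funext i
    have h2 := ZMod.injective_valMinAbs (congrFun hyz i)
    exact sub_right_injective h2

theorem TOK : TOK_stmt := by
  intro d n β h hβ
  refine ⟨fun u => TOK_nu0 d β h hβ u, TOK_nu1 d β h, ?_, ?_, ?_, ?_, ?_, ?_, ?_, ?_⟩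
  · intro x u σ τ hστ
    show decide (u.val ≤ pn x σ) ≤ decide (u.val ≤ pn x τ)
    by_cases h1 : u.val ≤ pn x σ
    · rw [decide_eq_true h1, decide_eq_true (h1.trans (TOK_pn_mono x hστ))]
    · rw [decide_eq_false h1]
      exact Bool.false_le _
  · intro x u σ τ hστ
    show decide (u.val ≤ pn x σ) = decide (u.val ≤ pn x τ)
    have h1 : ∀ i, σ (x + ev i) = τ (x + ev i) := fun i =>
      hστ _ (Finset.mem_union_left _ (Finset.mem_image_of_mem _ (Finset.mem_univ i)))
    have h2 : ∀ i, σ (x - ev i) = τ (x - ev i) := fun i =>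
      hστ _ (Finset.mem_union_right _ (Finset.mem_image_of_mem _ (Finset.mem_univ i)))
    have h3 : pn x σ = pn x τ := by
      unfold pn
      simp only [h1, h2]
    rw [h3]
  · intro x
    refine (Finset.card_union_le _ _).trans ?_
    have h1 := Finset.card_image_le (s := (univ : Finset (Fin d))) (f := fun i => x + ev i)
    have h2 := Finset.card_image_le (s := (univ : Finset (Fin d))) (f := fun i => x - ev i)
    rw [Finset.card_univ, Fintype.card_fin] at h1 h2
    omega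
  · intro x y hy
    rcases Finset.mem_union.1 hy with hy | hy
    · obtain ⟨i, -, rfl⟩ := Finset.mem_image.1 hy
      exact (TOK_nbd x i).1
    · obtain ⟨i, -, rfl⟩ := Finset.mem_image.1 hy
      exact (TOK_nbd x i).2
  · exact fun x y => TOK_dsT_zero x y
  · exact fun x y => TOK_dsT_comm x y
  · exact fun x y z => TOK_dsT_tri x y z
  · exact fun x r => TOK_ball x r

end CWM
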