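import Pool.Agent.helper18.CWM.SpecF
import Pool.Agent.helper18.CWM.LBT

/-!
# Project cwm: row UB (upper bound for the mixing time, assembly)
-/

open Finset Filter Topology

namespace CWM

/-- upper bound for `T` -/
lemma UB_T (N T : ℕ) (A c u : ℝ) (hc : 0 < c) (hN : 2 ≤ N) (hL : 1 ≤ Real.log N)
    (hA : 0 < A) (hLA : 2 * Real.log A ≤ Real.log N) (hT : 1 ≤ T)
    (h1 : 1 / √(N : ℝ) < u) (h2 : u ≤ A * Real.exp (-c * (((T - 1 : ℕ) : ℝ) / N))) :
    (T : ℝ) ≤ (1 / c + 1) * (N * Real.log N) := by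
  have hN' : (2 : ℝ) ≤ N := by exact_mod_cast hN
  have hN0 : (0 : ℝ) < N := by linarith
  have hs : 0 < 1 / √(N : ℝ) := by positivity
  have h3 := Real.log_le_log hs (h1.le.trans h2)
  have h4 : Real.log (1 / √(N : ℝ)) = -(Real.log N / 2) := by
    rw [one_div, Real.log_inv, Real.log_sqrt hN0.le]
  rw [h4, Real.log_mul hA.ne' (Real.exp_pos _).ne', Real.log_exp] at h3
  have h5 : ((T - 1 : ℕ) : ℝ) = (T : ℝ) - 1 := by
    rw [Nat.cast_sub hT]; norm_num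
  rw [h5] at h3
  have h6 : c * (((T : ℝ) - 1) / N) ≤ Real.log N / 2 + Real.log A := by linarith
  have h7 : c * (((T : ℝ) - 1) / N) ≤ Real.log N := by linarith
  have h8 : ((T : ℝ) - 1) / N ≤ Real.log N / c := by
    rw [le_div_iff₀ hc]; linarith
  have h9 : (T : ℝ) - 1 ≤ Real.log N / c * N := by
    rwa [div_le_iff₀ hN0] at h8
  have h10 : 1 ≤ (N : ℝ) * Real.log N := by nlinarith
  have h11 : Real.log N / c * N = 1 / c * (N * Real.log N) := by ring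
  rw [h11] at h9
  linarith

theorem UB (hQB : QB_stmt) (hFIB : FIB_stmt) (hUBU : UBU_stmt) (hHG : HG_stmt) (hUM : UM_stmt) (hGB : GB_stmt)
    (hAS1 : AS1_stmt) (hAS2 : AS2_stmt) (hAS3 : AS3_stmt) (hAS4 : AS4_stmt) (hAS5 : AS5_stmt)
    (hAS6 : AS6_stmt) : UB_stmt := by
  intro d A c c0 ε ω hd hA hc hc0 hc01 hε hε1 hω
  obtain ⟨A', c', hA', hc', hq⟩ := hQB d A c hd hA hc
  have hK : 0 < 1 / c + 1 := by positivity
  have hω' : 0 < ω / 16 := by positivity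
  obtain ⟨N1, h1⟩ := hAS1 d ε (1 / c + 1) hd hε hε1 hK
  obtain ⟨N2, h2⟩ := hAS2 d A' c' (ω / 16) hd hA' hc' hω'
  obtain ⟨N3, h3⟩ := hAS3 d ε (1 / c + 1) (ω / 16) hd hε hε1 hK hω'
  obtain ⟨N4, h4⟩ := hAS4 d ε (1 / c + 1) (ω / 16) hd hε hε1 hK hω'
  obtain ⟨N5, h5⟩ := hAS5 d ε A' c' (ω / 16) hd hε hε1 hA' hc' hω'
  obtain ⟨N6, h6⟩ := hAS6 d ε (1 / c + 1) A c c0 (ω / 16) hd hε hε1 hK hA hc hc0 hc01 hω'
  refine ⟨N1 + N2 + N3 + N4 + N5 + N6 + (⌈Real.exp (max 1 (2 * Real.log A))⌉₊ + 2), ?_⟩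
  intro V U _ _ _ D hOk hHom hFrc hDec hGrw hN x T mt hTm hT hmt
  set N : ℕ := Fintype.card V with hNdef
  have hNe : Nonempty V := ⟨x⟩
  have hN2 : 2 ≤ N := by omega
  have hN2' : (2 : ℝ) ≤ N := by exact_mod_cast hN2
  have hN0 : (0 : ℝ) < N := by linarith
  have hexp : Real.exp (max 1 (2 * Real.log A)) ≤ N := by
    refine (Nat.le_ceil _).trans ?_
    exact_mod_cast (by omega : ⌈Real.exp (max 1 (2 * Real.log A))⌉₊ ≤ N)
  have hlog : max 1 (2 * Real.log A) ≤ Real.log N := by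
    rw [Real.le_log_iff_exp_le hN0]; exact hexp
  have hL1 : 1 ≤ Real.log N := (le_max_left _ _).trans hlog
  have hLA : 2 * Real.log A ≤ Real.log N := (le_max_right _ _).trans hlog
  obtain ⟨hUM1, hUM2, hUM3⟩ := hUM V U D d hOk
  obtain ⟨hG1, hG2, hG3, hG4, hG5⟩ := hGB V U D d hOk hHom x
  have hlow : (N : ℝ) * Real.log N / 4 ≤ T := LBT_T N T hN2 ((hUM3 x T).trans hT)
  have hT1 : 1 ≤ T := by
    rcases Nat.eq_zero_or_pos T with h0 | h0
    · exfalso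
      rw [h0] at hlow
      have : 0 < (N : ℝ) * Real.log N / 4 := by positivity
      simp only [Nat.cast_zero] at hlow
      linarith
    · exact h0
  have hup : (T : ℝ) ≤ (1 / c + 1) * (N * Real.log N) :=
    UB_T N T A c (uu D univ (T - 1) x) hc hN2 hL1 hA hLA hT1 (hTm (T - 1) (by omega))
      ((hG5 (T - 1)).trans (hDec x (T - 1)))
  obtain ⟨a1, a2, a3, a4, a5, a6, a7, a8, a9⟩ := h1 N T (by omega) hlow hup
  have b2 := h2 N (by omega)
  have b3 := h3 N T (by omega) hlow hup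
  have b4 := h4 N T (by omega) hlow hup
  have b5 := h5 N (by omega)
  have b6 := h6 N T (by omega) hlow hup
  have hub0 : 0 ≤ ubq d N T A c ε := by
    unfold ubq; positivity
  have hFIB' := hFIB V U D d c0 hOk hFrc hc01 hGrw hNe (tq d N) (jq d N ε) (tq d N ^ (2 * d)) (tq d N ^ (8 * d))
    ((tq d N + 1) ^ (4 * d)) (mq T ε) (qq d N A' c') (ε / 16) (thq d N T ε) (ubq d N T A c ε) a1 a2
    (Nat.one_le_pow _ _ a1) (Nat.one_le_pow _ _ (by omega)) (by unfold qq; positivity) hub0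
    (fun y a => hq V U D hOk hHom hDec (tq d N) a y a1) a3 a4 (by positivity) (by linarith) rfl a5 a6
    (hUBU V U D d A c hOk hHom hDec x T (m2q T ε) (tq d N ^ (8 * d)) (ε / 16) (thq d N T ε) hT a8 (by positivity)
      (by linarith) a7)
  have hmon : gH D univ mt univ ≤ gH D univ (tq d N * N + mq T ε) univ := by
    obtain ⟨_, _, g3, _, _⟩ := hHG V U D d hOk univ Finset.univ_nonempty
    apply g3
    have : ((tq d N * N + mq T ε : ℕ) : ℝ) ≤ mt := a9.trans hmt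
    exact_mod_cast this
  refine hmon.trans (hFIB'.trans ?_)
  have e3 : 3 * (2 * ((N : ℝ) * ((1 / 2) ^ (2 * tq d N ^ (8 * d) + 1) * Real.exp (4 * d * (mq T ε / N)))) +
      N * (Real.exp (-((ε / 16) ^ 2 * (mq T ε * (2 * ((tq d N ^ (8 * d) : ℕ) : ℝ)) / N) / 2)) +
        PP d (tq d N) (jq d N ε) (tq d N ^ (2 * d)) (tq d N ^ (8 * d))
          ((tq d N + 1) ^ (4 * d) * (8 * ((8 * d + 2) * tq d N) + 3) ^ d) (qq d N A' c') +
        bb d (tq d N) (tq d N ^ (2 * d)) c0 (ubq d N T A c ε))) ≤ 3 * (2 * (ω / 16) + (ω / 16 + ω / 16 + ω / 16)) := by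
    rw [mul_add (N : ℝ), mul_add (N : ℝ)]
    linarith
  calc _ ≤ ω / 16 + 3 * (2 * (ω / 16) + (ω / 16 + ω / 16 + ω / 16)) := add_le_add b2 e3
    _ = ω := by ring

end CWM
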