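import Pool.Agent.helper18.CWM.SpecF

/-!
# Project cwm: row UBU
-/

open Finset Filter Topology

namespace CWM

theorem UBU (hUR : UR_stmt) (hGB : GB_stmt) (hHOM : HOM_stmt) (hUM : UM_stmt) : UBU_stmt := by
  intro V U _ _ _ D d A c hOk hHom hDec x T m₂ ρ κ θ hT hTm hκ hθ hratio R y c₁ hR hθc
  set N : ℕ := Fintype.card V with hN
  have hNe : Nonempty V := ⟨x⟩
  have hN0 : (0 : ℝ) < N := by exact_mod_cast Fintype.card_pos
  have hyR : y ∈ R := hR (by rw [mem_Bl, (hOk.ds0 y y).2 rfl]; exact Nat.zero_le _)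
  have hRn : R.Nonempty := ⟨y, hyR⟩
  have hR0 : (0 : ℝ) < R.card := by exact_mod_cast Finset.card_pos.2 hRn
  have h1 := hUR V U D d hOk R y ρ m₂ c₁ hR
  obtain ⟨u1, u2, _⟩ := hUM V U D d hOk
  have hu0 : 0 ≤ uu D R c₁ y := (u2 R y c₁ hRn).1
  have hc0 : (0 : ℝ) < c₁ + 1 := by positivity
  have hfac : κ ≤ 1 - m₂ * ((R.card : ℝ) / N) / (c₁ + 1) := by
    have h2 : (m₂ : ℝ) * ((R.card : ℝ) / N) / (c₁ + 1) ≤ (m₂ / N : ℝ) / θ := by
      rw [div_le_div_iff₀ hc0 hθ]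
      have h3 : (m₂ : ℝ) * ((R.card : ℝ) / N) * θ = (m₂ / N : ℝ) * (θ * R.card) := by ring
      rw [h3]
      exact mul_le_mul_of_nonneg_left hθc (by positivity)
    linarith
  obtain ⟨_, _, g3, _, _⟩ := hGB V U D d hOk hHom y
  have h4 : uu D univ m₂ y ≤ 1 / √(N : ℝ) * (A * Real.exp (-c * ((m₂ - T) / N))) := by
    have h5 := g3 T (m₂ - T)
    rw [Nat.sub_add_cancel hTm] at h5
    have h6 := hDec y (m₂ - T)
    rw [Nat.cast_sub hTm] at h6
    have h7 : uu D univ T y ≤ 1 / √(N : ℝ) := by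
      rw [(hHOM V U D hHom T y x).1]; exact hT
    have h8 : 0 ≤ uu D univ T y := (u2 univ y T Finset.univ_nonempty).1
    have h9 : 0 ≤ A * Real.exp (-c * (((m₂ : ℝ) - T) / N)) := by
      refine le_trans ?_ h6
      unfold GG
      exact Ew_nonneg D hOk.nu0 fun w _ _ => Nat.cast_nonneg _
    calc uu D univ m₂ y ≤ GG D (m₂ - T) y * uu D univ T y := h5
      _ ≤ (A * Real.exp (-c * (((m₂ : ℝ) - T) / N))) * (1 / √(N : ℝ)) :=
        mul_le_mul h6 h7 h8 h9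
      _ = _ := by ring
  rw [le_div_iff₀ hκ]
  calc uu D R c₁ y * κ ≤ uu D R c₁ y * (1 - m₂ * ((R.card : ℝ) / N) / (c₁ + 1)) :=
        mul_le_mul_of_nonneg_left hfac hu0
    _ ≤ _ := h1
    _ ≤ _ := by linarith

end CWM
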