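import Pool.Agent.helper18.CWM.SpecB

/-!
# cwm:UM: monotonicity and bounds of the disagreement probability
-/

open Finset Filter Topology

namespace CWM

section UMsec

variable {V U : Type} [Fintype V] [DecidableEq V] [Fintype U] (D : Dyn V U)

lemma UM_const {d : ℕ} (hD : D.Ok d) (w : List (V × U)) (x : V)
    (h : fl D w pl x = fl D w mi x) (τ : V → Bool) : fl D w τ x = fl D w mi x := by
  refine le_antisymm ?_ (fl_mono D hD.mono w (mi_le τ) x)
  rw [← h]
  exact fl_mono D hD.mono w (le_pl τ) x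

lemma UM_step {d : ℕ} (hD : D.Ok d) (S : Finset V) (x : V) (m : ℕ) (hS : S.Nonempty) :
    uu D S (m + 1) x ≤ uu D S m x := by
  unfold uu
  rw [Ew_snoc]
  refine Ew_mono D hD.nu0 fun w _ _ => ?_
  have hc : (0 : ℝ) < S.card := by exact_mod_cast Finset.card_pos.2 hS
  rw [div_le_iff₀ hc, mul_comm, ← Wa_const D hD.nu1]
  refine Wa_mono D hD.nu0 fun a _ => ind_mono fun h h' => h ?_
  rw [fl_append, fl_append, UM_const D hD w x h' (fl D [a] pl), UM_const D hD w x h' (fl D [a] mi)]

lemma UM_stay (w : List (V × U)) (x : V) (σ : V → Bool) (h : ∀ a ∈ w, a.1 ≠ x) :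
    fl D w σ x = σ x := by
  induction w with
  | nil => rfl
  | cons a w ih =>
    have h1 : a.1 ≠ x := h a List.mem_cons_self
    have h2 := ih fun b hb => h b (List.mem_cons_of_mem _ hb)
    show Function.update (fl D w σ) a.1 (D.up a.1 a.2 (fl D w σ)) x = σ x
    rw [Function.update_of_ne (Ne.symm h1), h2]

lemma UM_p {d : ℕ} (hD : D.Ok d) (x : V) (m : ℕ) :
    Ew D univ m (fun w => ind (∀ a ∈ w, a.1 ≠ x)) = (1 - 1 / (Fintype.card V : ℝ)) ^ m := by
  induction m with
  | zero =>
    rw [Ew_zero, pow_zero]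
    exact ind_of fun a ha => by simp at ha
  | succ m ih =>
    have hc : (0 : ℝ) < Fintype.card V := by exact_mod_cast Fintype.card_pos_iff.2 ⟨x⟩
    rw [Ew_succ]
    have h1 : ∀ a : V × U, (Ew D univ m fun w => ind (∀ b ∈ a :: w, b.1 ≠ x)) =
        ind (a.1 ≠ x) * (1 - 1 / (Fintype.card V : ℝ)) ^ m := by
      intro a
      rw [← ih, ← Ew_smul]
      refine Ew_congr D fun w _ _ => ?_
      rw [← ind_and]
      refine ind_congr ?_
      simp only [List.mem_cons, forall_eq_or_imp]
    simp only [h1]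
    have h2 : Wa D univ (fun a : V × U => ind (a.1 ≠ x) * (1 - 1 / (Fintype.card V : ℝ)) ^ m) =
        ((Fintype.card V : ℝ) - 1) * (1 - 1 / (Fintype.card V : ℝ)) ^ m := by
      unfold Wa
      have h3 : ∀ y : V, ∑ u : U, D.nu u * (ind (y ≠ x) * (1 - 1 / (Fintype.card V : ℝ)) ^ m) =
          ind (y ≠ x) * (1 - 1 / (Fintype.card V : ℝ)) ^ m := by
        intro y
        rw [← Finset.sum_mul, hD.nu1, one_mul]
      simp only [h3]
      rw [← Finset.sum_mul]
      congr 1
      have h4 : ∀ y : V, ind (y ≠ x) = 1 - if y = x then 1 else 0 := by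
        intro y
        by_cases hy : y = x
        · rw [ind_not (by simpa using hy), if_pos hy, sub_self]
        · rw [ind_of hy, if_neg hy, sub_zero]
      simp only [h4]
      rw [Finset.sum_sub_distrib, Finset.sum_const, Finset.sum_ite_eq' univ x,
        if_pos (mem_univ x), nsmul_eq_mul, mul_one, Finset.card_univ]
    rw [h2, Finset.card_univ, pow_succ]
    field_simp

end UMsec

theorem UM : UM_stmt := by
  intro V U _ _ _ D d hD
  refine ⟨?_, ?_, ?_⟩
  · intro S x m k hS hmk
    induction hmk with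
    | refl => exact le_rfl
    | step _ ih => exact (UM_step D hD S x _ hS).trans ih
  · intro S x m hS
    refine ⟨Ew_nonneg D hD.nu0 fun w _ _ => ind_nonneg _, ?_⟩
    unfold uu
    rw [← Ew_const D hD.nu1 hS m 1]
    exact Ew_mono D hD.nu0 fun w _ _ => ind_le_one _
  · intro x m
    rw [← UM_p D hD x m]
    unfold uu
    refine Ew_mono D hD.nu0 fun w _ _ => ind_mono fun h => ?_
    rw [UM_stay D w x pl h, UM_stay D w x mi h]
    simp [pl, mi]

end CWM
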