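import Pool.Agent.helper18.CWM.SpecB

/-!
# Project cwm: row UR (region versus torus)
-/

open Finset Filter Topology

namespace CWM

theorem UR_pos {V U : Type} [Fintype V] [DecidableEq V] [Fintype U] (D : Dyn V U) (d : ℕ)
    (hD : D.Ok d) (hUM : UM_stmt) (R : Finset V) (hR : R.Nonempty) (y : V) (c c' : ℕ) :
    0 ≤ Ww D R c' (fun w => ind (fl D w pl y ≠ fl D w mi y) -
      uu D R c y * (1 - (w.length : ℝ) / (c + 1))) := by
  have hRc : (0 : ℝ) < R.card := by exact_mod_cast hR.card_pos
  have h1 : Ww D R c' (fun w => ind (fl D w pl y ≠ fl D w mi y) -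
      uu D R c y * (1 - (w.length : ℝ) / (c + 1))) =
      Ww D R c' (fun w => ind (fl D w pl y ≠ fl D w mi y)) -
        Ww D R c' (fun _ => uu D R c y * (1 - (c' : ℝ) / (c + 1))) := by
    rw [← Ww_sub]
    exact Ww_congr D fun w hw _ => by rw [hw]
  have h2 : Ww D R c' (fun w => ind (fl D w pl y ≠ fl D w mi y)) =
      (R.card : ℝ) ^ c' * uu D R c' y := by
    unfold uu Ew
    field_simp
  rw [h1, h2, Ww_const D hD.nu1, ← mul_sub]
  apply mul_nonneg (by positivity)
  obtain ⟨hm, h01, -⟩ := hUM V U D d hD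
  have hu := (h01 R y c hR).1
  have hu' := (h01 R y c' hR).1
  rcases le_or_gt c' c with h | h
  · have h3 := hm R y c' c hR h
    have h4 : (0 : ℝ) ≤ (c' : ℝ) / (c + 1) := by positivity
    nlinarith
  · have h4 : (1 : ℝ) ≤ (c' : ℝ) / (c + 1) := by
      rw [le_div_iff₀ (by positivity), one_mul]
      exact_mod_cast h
    nlinarith

theorem UR (hSPL : SPL_stmt) (hBIN : BIN_stmt) (hUM : UM_stmt) (hANC : ANC_stmt) (hTL : TL_stmt) :
    UR_stmt := by
  intro V U _ _ _ D d hD R y r m c hBR
  have hyR : y ∈ R := by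
    apply hBR
    rw [mem_Bl, (hD.ds0 y y).2 rfl]
    exact Nat.zero_le _
  have hRne : R.Nonempty := ⟨y, hyR⟩
  have hune : (univ : Finset V).Nonempty := ⟨y, mem_univ y⟩
  set f : List (V × U) → ℝ := fun w => ind (fl D w pl y ≠ fl D w mi y) with hf
  -- lower bound
  have hlow : uu D R c y * (1 - m * ((R.card : ℝ) / Fintype.card V) / (c + 1)) ≤
      Ew D univ m (fun w => f (filt R w)) := by
    have h1 := hSPL V U D R (univ \ R) disjoint_sdiff m
      (fun w1 _ => f w1 - uu D R c y * (1 - (w1.length : ℝ) / (c + 1)))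
    rw [union_sdiff_of_subset (subset_univ R)] at h1
    have h2 : 0 ≤ Ww D univ m (fun w => f (filt R w) -
        uu D R c y * (1 - ((filt R w).length : ℝ) / (c + 1))) := by
      rw [h1]
      refine Finset.sum_nonneg fun c' _ => mul_nonneg (Nat.cast_nonneg _) ?_
      rw [Ww_comm]
      exact Ww_nonneg D hD.nu0 fun w _ _ => UR_pos D d hD hUM R hRne y c c'
    have h3 : 0 ≤ Ew D univ m (fun w => f (filt R w) -
        uu D R c y * (1 - ((filt R w).length : ℝ) / (c + 1))) := by
      unfold Ew
      exact div_nonneg h2 (by positivity)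
    have h4 : (fun w : List (V × U) => f (filt R w) -
        uu D R c y * (1 - ((filt R w).length : ℝ) / (c + 1))) =
        fun w => (f (filt R w) + (uu D R c y / (c + 1)) * ((filt R w).length : ℝ)) -
          uu D R c y := by
      funext w
      ring
    rw [h4, Ew_sub, Ew_add, Ew_smul, Ew_const D hD.nu1 hune,
      (hBIN V U D R univ hD.nu1 (subset_univ R) hune m).2, card_univ] at h3
    have h5 : uu D R c y / (c + 1) * (m * ((R.card : ℝ) / Fintype.card V)) =
        uu D R c y * (m * ((R.card : ℝ) / Fintype.card V) / (c + 1)) := by ring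
    rw [h5] at h3
    linarith
  -- upper bound
  have hup : Ew D univ m (fun w => f (filt R w)) ≤
      uu D univ m y + Ew D univ m (fun w => ind (¬ anc D w {y} ⊆ Bl D y r)) := by
    unfold uu
    rw [← Ew_add]
    refine Ew_mono D hD.nu0 fun w _ _ => ?_
    by_cases h : anc D w {y} ⊆ R
    · have h6 := ((hANC V U D d hD).2.2.2.2.2.2 R {y} w (singleton_subset_iff.2 hyR) h).2
      have h7 : f (filt R w) = ind (fl D w pl y ≠ fl D w mi y) := by
        rw [hf]
        simp only
        rw [h6 pl y (mem_singleton_self y), h6 mi y (mem_singleton_self y)]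
      rw [h7]
      linarith [ind_nonneg (¬ anc D w {y} ⊆ Bl D y r)]
    · have h8 : ¬ anc D w {y} ⊆ Bl D y r := fun h9 => h (h9.trans hBR)
      rw [ind_of h8]
      linarith [ind_le_one (fl D (filt R w) pl y ≠ fl D (filt R w) mi y),
        ind_nonneg (fl D w pl y ≠ fl D w mi y)]
  have hTL4 := (hTL V U D d hD).2.2.2 univ y m r hune
  rw [card_univ] at hTL4
  linarith

end CWM
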