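import Pool.Agent.helper18.CWM.SpecL

/-!
# Project cwm: VAR (bound for the variance)
-/

open Finset Filter Topology

namespace CWM

theorem VAR (hEFR : EFR_stmt) (hPCB : PCB_stmt) (hVS : VS_stmt) (hVSM : VSM_stmt) : VAR_stmt := by
  intro d A c hA hc
  obtain ⟨C, hC, h⟩ := hVSM d A c hA hc
  refine ⟨2 * C, by positivity, ?_⟩
  intro V U _ _ _ _ D hD hH hDec m σ
  obtain ⟨r, hr⟩ := h (Fintype.card V) Fintype.card_pos
  obtain ⟨x⟩ := (inferInstance : Nonempty V)
  have h1 := hEFR V U D hD.nu0 hD.nu1 univ ⟨x, mem_univ x⟩ m (fun w => Cp (fl D w σ)) (nS D)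
    (fun w z => Finset.sum_nonneg fun y _ => ind_nonneg _)
    (fun w1 w2 a a' => hPCB V U D d hD w1 w2 a a' σ)
  have h2 : ∑ j ∈ range m, Ew D univ j (fun w1 => (∑ z ∈ univ, nS D w1 z ^ 2) / (univ : Finset V).card) ≤
      ∑ j ∈ range m, ((2 * (r j : ℝ) + 1) ^ d * (A * Real.exp (-c * (j / Fintype.card V))) +
        (Fintype.card V : ℝ) * (1 / 2) ^ (r j) * Real.exp (4 * d * (j / Fintype.card V))) := by
    refine Finset.sum_le_sum fun j _ => ?_
    refine (hVS V U D d hD hH x j (r j)).trans ?_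
    have h3 := hDec x j
    have h4 : (0 : ℝ) ≤ (2 * (r j : ℝ) + 1) ^ d := by positivity
    linarith [mul_le_mul_of_nonneg_left h3 h4]
  have h5 := hr m
  calc Ew D univ m (fun w => Cp (fl D w σ) ^ 2) - (Ew D univ m fun w => Cp (fl D w σ)) ^ 2
      ≤ 2 * ∑ j ∈ range m, Ew D univ j (fun w1 => (∑ z ∈ univ, nS D w1 z ^ 2) / (univ : Finset V).card) := h1
    _ ≤ 2 * (C * Fintype.card V * (1 + Real.log (Fintype.card V)) ^ d) :=
        mul_le_mul_of_nonneg_left (h2.trans h5) (by norm_num)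
    _ = 2 * C * Fintype.card V * (1 + Real.log (Fintype.card V)) ^ d := by ring

end CWM
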