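import Pool.Agent.helper18.CWM.SpecL

/-!
# Project cwm, row VRW: variance of the number of plus spins under the stationary law
-/

open Finset Filter Topology

namespace CWM

section
variable {V U : Type} [Fintype V] [DecidableEq V] [Fintype U]

lemma VRW_pos {W : (V → Bool) → ℝ} (hW : ∀ σ, 0 < W σ) : 0 < ∑ σ, W σ :=
  Finset.sum_pos (fun σ _ => hW σ) ⟨pl, Finset.mem_univ _⟩

lemma VRW_av_mono {W : (V → Bool) → ℝ} (hW : ∀ σ, 0 < W σ) {F G : (V → Bool) → ℝ}
    (h : ∀ σ, F σ ≤ G σ) : av W F ≤ av W G := by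
  unfold av
  exact div_le_div_of_nonneg_right
    (Finset.sum_le_sum fun σ _ => mul_le_mul_of_nonneg_left (h σ) (hW σ).le) (VRW_pos hW).le

lemma VRW_av_add (W : (V → Bool) → ℝ) (F G : (V → Bool) → ℝ) :
    av W (fun σ => F σ + G σ) = av W F + av W G := by
  unfold av
  rw [← add_div, ← Finset.sum_add_distrib]
  congr 1
  exact Finset.sum_congr rfl fun σ _ => by ring

lemma VRW_av_smul (W : (V → Bool) → ℝ) (c : ℝ) (F : (V → Bool) → ℝ) :
    av W (fun σ => c * F σ) = c * av W F := by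
  unfold av
  rw [mul_div_assoc', Finset.mul_sum]
  congr 1
  exact Finset.sum_congr rfl fun σ _ => by ring

lemma VRW_av_const {W : (V → Bool) → ℝ} (hW : ∀ σ, 0 < W σ) (c : ℝ) :
    av W (fun _ => c) = c := by
  unfold av
  rw [← Finset.sum_mul, mul_comm, mul_div_assoc, div_self (VRW_pos hW).ne', mul_one]

/-- a function with values in `[a, a + 1]` has variance at most 1 -/
lemma VRW_var {W : (V → Bool) → ℝ} (hW : ∀ σ, 0 < W σ) (f : (V → Bool) → ℝ) (a : ℝ)
    (h1 : ∀ σ, a ≤ f σ) (h2 : ∀ σ, f σ ≤ a + 1) : av W (fun σ => f σ ^ 2) - (av W f) ^ 2 ≤ 1 := by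
  have h3 : av W (fun σ => f σ ^ 2) ≤ av W (fun σ => 2 * a * f σ + (1 - a ^ 2)) := by
    refine VRW_av_mono hW fun σ => ?_
    have h4 := h1 σ
    have h5 := h2 σ
    nlinarith
  rw [VRW_av_add W (fun σ => 2 * a * f σ) (fun _ => 1 - a ^ 2), VRW_av_smul, VRW_av_const hW] at h3
  nlinarith [sq_nonneg (av W f - a)]

omit [DecidableEq V] in
lemma VRW_Cp_mono {σ τ : V → Bool} (h : σ ≤ τ) : Cp σ ≤ Cp τ := by
  unfold Cp
  refine Finset.sum_le_sum fun x _ => ind_mono fun hx => ?_
  have h1 := h x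
  rw [hx] at h1
  exact Bool.eq_true_of_true_le h1

omit [DecidableEq V] in
lemma VRW_Cp_sub (σ τ : V → Bool) : Cp σ ≤ Cp τ + ∑ x, ind (σ x ≠ τ x) := by
  unfold Cp
  rw [← Finset.sum_add_distrib]
  refine Finset.sum_le_sum fun x _ => ?_
  by_cases h : σ x = τ x
  · rw [h]
    linarith [ind_nonneg (τ x ≠ τ x)]
  · rw [ind_of h]
    linarith [ind_nonneg (τ x = true), ind_le_one (σ x = true)]

end

lemma VRW_exists_m (A c N : ℝ) (hc : 0 < c) (hN : 0 < N) :
    ∃ m : ℕ, N * (A * Real.exp (-c * (m / N))) ≤ 1 := by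
  have h1 : Tendsto (fun m : ℕ => N * (A * Real.exp (-c * (m / N)))) atTop (𝓝 (N * (A * 0))) := by
    refine Tendsto.const_mul _ (Tendsto.const_mul _ ?_)
    have h2 : Tendsto (fun m : ℕ => c * ((m : ℝ) / N)) atTop atTop :=
      Tendsto.const_mul_atTop hc (tendsto_natCast_atTop_atTop.atTop_div_const hN)
    refine (Real.tendsto_exp_neg_atTop_nhds_zero.comp h2).congr ?_
    intro m
    show Real.exp (-(c * (m / N))) = _
    rw [neg_mul]
  rw [mul_zero, mul_zero] at h1
  obtain ⟨m, hm⟩ := (h1.eventually (gt_mem_nhds (show (0 : ℝ) < 1 by norm_num))).exists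
  exact ⟨m, hm.le⟩

theorem VRW (hVAR : VAR_stmt) (hSTA : STA_stmt) (hGB : GB_stmt) : VRW_stmt := by
  intro d A c hA hc
  obtain ⟨C, hC, hV⟩ := hVAR d A c hA hc
  refine ⟨C + 1, by linarith, ?_⟩
  intro V U _ _ _ _ D W hOk hHom hHB hDec
  have hW := hHB.pos
  have hN1 : (1 : ℝ) ≤ Fintype.card V := by
    exact_mod_cast (Fintype.card_pos (α := V))
  have hN0 : (0 : ℝ) < Fintype.card V := by linarith
  obtain ⟨m, hm⟩ := VRW_exists_m A c (Fintype.card V) hc hN0
  have hne : (univ : Finset V).Nonempty := Finset.univ_nonempty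
  -- stationarity
  have s1 := (hSTA V U D d W hOk hHB Cp m).1 univ hne
  have s2 := (hSTA V U D d W hOk hHB (fun σ => Cp σ ^ 2) m).1 univ hne
  -- the variance for a fixed start
  have h1 : ∀ σ : V → Bool, Ew D univ m (fun w => Cp (fl D w σ) ^ 2) ≤
      (Ew D univ m fun w => Cp (fl D w σ)) ^ 2 +
        C * Fintype.card V * (1 + Real.log (Fintype.card V)) ^ d := by
    intro σ
    have := hV V U D hOk hHom hDec m σ
    linarith
  -- the oscillation of the mean
  have h2 : (Ew D univ m fun w => Cp (fl D w pl)) ≤ (Ew D univ m fun w => Cp (fl D w mi)) + 1 := by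
    have h3 : (Ew D univ m fun w => Cp (fl D w pl)) ≤
        Ew D univ m (fun w => Cp (fl D w mi) + ∑ x, ind (fl D w pl x ≠ fl D w mi x)) :=
      Ew_mono D hOk.nu0 fun w _ _ => VRW_Cp_sub _ _
    rw [Ew_add, Ew_sum] at h3
    have h4 : ∑ x : V, Ew D univ m (fun w => ind (fl D w pl x ≠ fl D w mi x)) ≤ 1 := by
      calc ∑ x : V, Ew D univ m (fun w => ind (fl D w pl x ≠ fl D w mi x))
          ≤ ∑ _x : V, A * Real.exp (-c * (m / Fintype.card V)) := by
            refine Finset.sum_le_sum fun x _ => ?_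
            exact ((hGB V U D d hOk hHom x).2.2.2.2 m).trans (hDec x m)
        _ = Fintype.card V * (A * Real.exp (-c * (m / Fintype.card V))) := by
            rw [Finset.sum_const, Finset.card_univ, nsmul_eq_mul]
        _ ≤ 1 := hm
    linarith
  have h5 := VRW_var hW (fun σ => Ew D univ m fun w => Cp (fl D w σ))
    (Ew D univ m fun w => Cp (fl D w mi))
    (fun σ => Ew_mono D hOk.nu0 fun w _ _ => VRW_Cp_mono (fl_mono D hOk.mono w (mi_le σ)))
    (fun σ => (Ew_mono D hOk.nu0 fun w _ _ =>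
      VRW_Cp_mono (fl_mono D hOk.mono w (le_pl σ))).trans h2)
  have h6 : av W (fun σ => Cp σ ^ 2) ≤
      av W (fun σ => (Ew D univ m fun w => Cp (fl D w σ)) ^ 2) +
        C * Fintype.card V * (1 + Real.log (Fintype.card V)) ^ d := by
    rw [← s2]
    refine (VRW_av_mono hW h1).trans (le_of_eq ?_)
    rw [VRW_av_add W (fun σ => (Ew D univ m fun w => Cp (fl D w σ)) ^ 2), VRW_av_const hW]
  have h7 : (1 : ℝ) ≤ Fintype.card V * (1 + Real.log (Fintype.card V)) ^ d := by
    have h8 : (1 : ℝ) ≤ (1 + Real.log (Fintype.card V)) ^ d :=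
      one_le_pow₀ (by linarith [Real.log_nonneg hN1])
    nlinarith
  rw [← s1]
  have h9 : (C + 1) * Fintype.card V * (1 + Real.log (Fintype.card V)) ^ d =
      C * Fintype.card V * (1 + Real.log (Fintype.card V)) ^ d +
        Fintype.card V * (1 + Real.log (Fintype.card V)) ^ d := by ring
  rw [h9]
  linarith

end CWM
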