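import Pool.Agent.helper18.CWM.SpecL

/-! # Project cwm (MP_7c3fb3_pr), row VSM: a real series -/

open Finset

namespace CWM

theorem VSM_geo (c : ℝ) (hc : 0 < c) (N : ℕ) (hN : 1 ≤ N) (m : ℕ) :
    ∑ j ∈ range m, Real.exp (-c * ((j : ℝ) / N)) ≤ (1 + 1 / c) * N := by
  have hN' : (1 : ℝ) ≤ N := by exact_mod_cast hN
  have hN0 : (0 : ℝ) < N := by linarith
  set q : ℝ := Real.exp (-c / N) with hq
  have hq0 : 0 < q := Real.exp_pos _
  have hx : 0 < c / N := by positivity
  have h1 : 1 + c / N ≤ Real.exp (c / N) := by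
    have := Real.add_one_le_exp (c / N)
    linarith
  have hqi : q = (Real.exp (c / N))⁻¹ := by
    rw [hq, neg_div, Real.exp_neg]
  have hqle : q ≤ 1 / (1 + c / N) := by
    rw [hqi, ← one_div]
    exact one_div_le_one_div_of_le (by linarith) h1
  have hq1 : c / N / (1 + c / N) ≤ 1 - q := by
    have : c / N / (1 + c / N) = 1 - 1 / (1 + c / N) := by
      field_simp
      ring
    rw [this]
    linarith
  have hpos : 0 < c / N / (1 + c / N) := by positivity
  have hsum : ∑ j ∈ range m, Real.exp (-c * ((j : ℝ) / N)) = ∑ j ∈ range m, q ^ j := by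
    refine Finset.sum_congr rfl fun j _ => ?_
    rw [hq, ← Real.exp_nat_mul]
    congr 1
    ring
  rw [hsum]
  have hg : (∑ j ∈ range m, q ^ j) * (1 - q) = 1 - q ^ m := by
    have := geom_sum_mul q m
    linarith
  have hS : 0 ≤ ∑ j ∈ range m, q ^ j := Finset.sum_nonneg fun j _ => by positivity
  have h2 : (∑ j ∈ range m, q ^ j) * (c / N / (1 + c / N)) ≤ 1 := by
    calc (∑ j ∈ range m, q ^ j) * (c / N / (1 + c / N)) ≤ (∑ j ∈ range m, q ^ j) * (1 - q) :=
          mul_le_mul_of_nonneg_left hq1 hS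
      _ = 1 - q ^ m := hg
      _ ≤ 1 := by
          have : 0 ≤ q ^ m := by positivity
          linarith
  have h3 : (∑ j ∈ range m, q ^ j) ≤ 1 / (c / N / (1 + c / N)) := by
    rw [le_div_iff₀ hpos]
    exact h2
  refine h3.trans ?_
  have h4 : 1 / (c / N / (1 + c / N)) = 1 + N / c := by
    field_simp
    ring
  rw [h4]
  have : (1 + 1 / c) * (N : ℝ) = N + N / c := by ring
  rw [this]
  linarith

theorem VSM_pow (d : ℕ) (c : ℝ) (hc : 0 < c) (a : ℝ) (ha : 0 ≤ a) :
    (1 + a) ^ d ≤ (d.factorial * (2 / c) ^ d * Real.exp (c / 2)) * Real.exp (c / 2 * a) := by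
  have h := Real.pow_div_factorial_le_exp (c / 2 * (1 + a)) (by positivity) d
  have hf : (0 : ℝ) < d.factorial := by exact_mod_cast d.factorial_pos
  rw [div_le_iff₀ hf] at h
  have he : Real.exp (c / 2 * (1 + a)) = Real.exp (c / 2) * Real.exp (c / 2 * a) := by
    rw [← Real.exp_add]
    congr 1
    ring
  rw [he, mul_pow] at h
  have h2 : (2 / c) ^ d * (c / 2) ^ d = 1 := by
    rw [← mul_pow]
    have : (2 / c) * (c / 2) = 1 := by field_simp
    rw [this, one_pow]
  calc (1 + a) ^ d = (2 / c) ^ d * ((c / 2) ^ d * (1 + a) ^ d) := by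
        rw [← mul_assoc, h2, one_mul]
    _ ≤ (2 / c) ^ d * (Real.exp (c / 2) * Real.exp (c / 2 * a) * d.factorial) :=
        mul_le_mul_of_nonneg_left h (by positivity)
    _ = _ := by ring

theorem VSM_two (d : ℕ) (N : ℕ) (hN : 1 ≤ N) (a : ℝ) (ha : 0 ≤ a) (r : ℕ)
    (hr : 2 * Real.log N + (8 * d + 2) * a ≤ r) :
    (N : ℝ) * (1 / 2) ^ r * Real.exp (4 * d * a) ≤ Real.exp (-1 * a) := by
  have hN' : (1 : ℝ) ≤ N := by exact_mod_cast hN
  have hN0 : (0 : ℝ) < N := by linarith
  have hl2 : (1 : ℝ) / 2 ≤ Real.log 2 := by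
    have := Real.log_two_gt_d9
    linarith
  have hlN : 0 ≤ Real.log N := Real.log_nonneg hN'
  have h1 : ((1 : ℝ) / 2) ^ r = Real.exp (-(r * Real.log 2)) := by
    rw [Real.exp_neg, Real.exp_nat_mul, Real.exp_log (by norm_num)]
    rw [one_div, inv_pow]
  have h2 : (N : ℝ) = Real.exp (Real.log N) := (Real.exp_log hN0).symm
  have h3 : (N : ℝ) * (1 / 2) ^ r * Real.exp (4 * d * a) =
      Real.exp (Real.log N + -(r * Real.log 2) + 4 * d * a) := by
    rw [Real.exp_add, Real.exp_add, ← h2, h1]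
  rw [h3]
  apply Real.exp_le_exp.mpr
  have hr0 : 0 ≤ 2 * Real.log N + (8 * d + 2) * a := by positivity
  have h4 : (2 * Real.log N + (8 * d + 2) * a) * (1 / 2) ≤ r * Real.log 2 :=
    mul_le_mul hr hl2 (by norm_num) (by positivity)
  nlinarith

/-- **VSM**: real analysis. -/
theorem VSM : VSM_stmt := by
  intro d A c hA hc
  set K : ℝ := d.factorial * (2 / c) ^ d * Real.exp (c / 2) with hK
  have hK0 : 0 < K := by positivity
  refine ⟨(16 * d + 9) ^ d * A * K * (1 + 1 / (c / 2)) + 2, by positivity, fun N hN => ?_⟩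
  have hN' : (1 : ℝ) ≤ N := by exact_mod_cast hN
  have hN0 : (0 : ℝ) < N := by linarith
  have hlN : 0 ≤ Real.log N := Real.log_nonneg hN'
  refine ⟨fun j => ⌈2 * Real.log N + (8 * d + 2) * ((j : ℝ) / N)⌉₊, fun m => ?_⟩
  rw [Finset.sum_add_distrib]
  set L : ℝ := 1 + Real.log N with hL
  have hL1 : 1 ≤ L := by linarith
  have hLd : 1 ≤ L ^ d := one_le_pow₀ hL1
  have hB : ∑ j ∈ range m, ((N : ℝ) * (1 / 2) ^ ⌈2 * Real.log N + (8 * d + 2) * ((j : ℝ) / N)⌉₊ *
      Real.exp (4 * d * ((j : ℝ) / N))) ≤ 2 * N := by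
    calc _ ≤ ∑ j ∈ range m, Real.exp (-1 * ((j : ℝ) / N)) :=
          Finset.sum_le_sum fun j _ => VSM_two d N hN _ (by positivity) _ (Nat.le_ceil _)
      _ ≤ (1 + 1 / 1) * N := VSM_geo 1 one_pos N hN m
      _ = 2 * N := by norm_num
  have hA' : ∑ j ∈ range m, ((2 * ((⌈2 * Real.log N + (8 * d + 2) * ((j : ℝ) / N)⌉₊ : ℕ) : ℝ) + 1) ^ d *
      (A * Real.exp (-c * ((j : ℝ) / N)))) ≤
      (16 * d + 9) ^ d * A * K * (1 + 1 / (c / 2)) * N * L ^ d := by
    calc _ ≤ ∑ j ∈ range m, ((16 * d + 9) ^ d * A * K * L ^ d) * Real.exp (-(c / 2) * ((j : ℝ) / N)) := by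
          refine Finset.sum_le_sum fun j _ => ?_
          set a : ℝ := (j : ℝ) / N with ha
          have ha0 : 0 ≤ a := by positivity
          have hr0 : 0 ≤ 2 * Real.log N + (8 * d + 2) * a := by positivity
          have hr := (Nat.ceil_lt_add_one hr0).le
          have h1 : 2 * ((⌈2 * Real.log N + (8 * d + 2) * a⌉₊ : ℕ) : ℝ) + 1 ≤
              (16 * d + 9) * L * (1 + a) := by
            have hd : (0 : ℝ) ≤ d := by positivity
            have h5 : (16 * d + 9) * L * (1 + a) = (16 * d + 9) * (1 + Real.log N + a) +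
                (16 * d + 9) * (Real.log N * a) := by
              rw [hL]; ring
            rw [h5]
            have h6 : 0 ≤ (16 * (d : ℝ) + 9) * (Real.log N * a) := by positivity
            have h7 : 0 ≤ (d : ℝ) * Real.log N := by positivity
            nlinarith
          have h2 : (2 * ((⌈2 * Real.log N + (8 * d + 2) * a⌉₊ : ℕ) : ℝ) + 1) ^ d ≤
              ((16 * d + 9) * L * (1 + a)) ^ d := pow_le_pow_left₀ (by positivity) h1 d
          rw [mul_pow, mul_pow] at h2
          have h3 := VSM_pow d c hc a ha0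
          rw [← hK] at h3
          have h4 : Real.exp (-(c / 2) * a) = Real.exp (c / 2 * a) * Real.exp (-c * a) := by
            rw [← Real.exp_add]
            congr 1
            ring
          calc (2 * ((⌈2 * Real.log N + (8 * d + 2) * a⌉₊ : ℕ) : ℝ) + 1) ^ d * (A * Real.exp (-c * a))
              ≤ ((16 * d + 9) ^ d * L ^ d * (1 + a) ^ d) * (A * Real.exp (-c * a)) :=
                mul_le_mul_of_nonneg_right h2 (by positivity)
            _ ≤ ((16 * d + 9) ^ d * L ^ d * (K * Real.exp (c / 2 * a))) * (A * Real.exp (-c * a)) :=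
                mul_le_mul_of_nonneg_right (mul_le_mul_of_nonneg_left h3 (by positivity)) (by positivity)
            _ = ((16 * d + 9) ^ d * A * K * L ^ d) * Real.exp (-(c / 2) * a) := by
                rw [h4]; ring
      _ = ((16 * d + 9) ^ d * A * K * L ^ d) * ∑ j ∈ range m, Real.exp (-(c / 2) * ((j : ℝ) / N)) := by
          rw [Finset.mul_sum]
      _ ≤ ((16 * d + 9) ^ d * A * K * L ^ d) * ((1 + 1 / (c / 2)) * N) :=
          mul_le_mul_of_nonneg_left (VSM_geo (c / 2) (by positivity) N hN m) (by positivity)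
      _ = _ := by ring
  calc _ ≤ (16 * d + 9) ^ d * A * K * (1 + 1 / (c / 2)) * N * L ^ d + 2 * N := add_le_add hA' hB
    _ ≤ (16 * d + 9) ^ d * A * K * (1 + 1 / (c / 2)) * N * L ^ d + 2 * N * L ^ d := by
        have : 2 * (N : ℝ) * 1 ≤ 2 * N * L ^ d := mul_le_mul_of_nonneg_left hLd (by positivity)
        linarith
    _ = _ := by ring

end CWM
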