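import Pool.Agent.helper18.CWM.SpecA

set_option autoImplicit false

open Finset

namespace CWM

section
variable {V : Type} [Fintype V] [DecidableEq V]

omit [Fintype V] in
theorem ZLE_sp (D P : Finset V) (x : V) (hx : x ∈ D) : sp (D \ P) x = - sp P x := by
  unfold sp
  by_cases h : x ∈ P
  · rw [if_pos h, if_neg (by simp [h])]
  · rw [if_neg h, if_pos (by simp [h, hx])]; norm_num

omit [Fintype V] in
theorem ZLE_en (nb : V → Finset V) (D P : Finset V) : en nb D (D \ P) = en nb D P := by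
  unfold en
  congr 1
  apply Finset.sum_congr rfl
  intro x hx
  apply Finset.sum_congr rfl
  intro y hy
  rw [ZLE_sp D P x hx, ZLE_sp D P y (mem_inter.1 hy).2]
  ring

omit [Fintype V] in
theorem ZLE_flip (nb : V → Finset V) (β : ℝ) (D : Finset V) (g : V → ℝ) :
    ZF nb β D g (fun _ => 1) = ZF nb β D (fun x => - g x) (fun _ => 1) := by
  unfold ZF
  refine Finset.sum_bij' (fun P _ => D \ P) (fun P _ => D \ P) ?_ ?_ ?_ ?_ ?_
  · intro P _; exact mem_powerset.2 sdiff_subset
  · intro P _; exact mem_powerset.2 sdiff_subset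
  · intro P hP; exact Finset.sdiff_sdiff_eq_self (mem_powerset.1 hP)
  · intro P hP; exact Finset.sdiff_sdiff_eq_self (mem_powerset.1 hP)
  · intro P _
    rw [ZLE_en]
    have h : ∑ x ∈ D, g x * sp P x = ∑ x ∈ D, - g x * sp (D \ P) x := by
      apply Finset.sum_congr rfl
      intro x hx
      rw [ZLE_sp D P x hx]; ring
    rw [h]

omit [Fintype V] in
theorem ZLE_pos (nb : V → Finset V) (β : ℝ) (D : Finset V) (g : V → ℝ) :
    0 < ZF nb β D g (fun _ => 1) := by
  unfold ZF
  apply Finset.sum_pos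
  · intro P _
    rw [mul_one]; exact Real.exp_pos _
  · exact ⟨∅, mem_powerset.2 (empty_subset _)⟩

omit [Fintype V] in
theorem ZLE_cE (nb : V → Finset V) (β h : ℝ) (hβ : 0 ≤ β) (D A A' : Finset V) :
    0 ≤ cE nb β h D A A' := by
  unfold cE
  apply mul_nonneg
  · apply mul_nonneg
    · apply Finset.prod_nonneg
      intro x _
      have h1 : 0 ≤ β * nA nb A x := mul_nonneg hβ (Nat.cast_nonneg _)
      have h2 : 0 ≤ Real.sinh (β * nA nb A x) := Real.sinh_nonneg_iff.2 h1
      linarith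
    · apply Finset.prod_nonneg
      intro x _
      exact (Real.exp_pos _).le
  · exact (Real.exp_pos _).le

omit [Fintype V] in
theorem ZLE_cEneg (nb : V → Finset V) (β h : ℝ) (D A A' : Finset V) :
    cE nb β (-h) D A A' = cE nb β h D A A' * Real.exp (2 * h * A'.card) := by
  unfold cE
  rw [mul_assoc _ (Real.exp _) (Real.exp _), ← Real.exp_add]
  congr 2
  ring

theorem ZLE_le (hEXP : EXP_stmt) (nb : V → Finset V) (hnb : ∀ x y, y ∈ nb x ↔ x ∈ nb y)
    (β h : ℝ) (hβ : 0 ≤ β) (hh : 0 ≤ h) (D : Finset V) : ∀ A : Finset V,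
    ZA nb β h D A ≤ ZA nb β (-h) D A := by
  induction D using Finset.strongInduction with
  | H D ih =>
    intro A
    have e1 := hEXP V nb hnb β h D A (fun _ => 1)
    have e2 := hEXP V nb hnb β (-h) D A (fun _ => 1)
    unfold ZA
    rw [e1, e2]
    apply Finset.sum_le_sum
    intro A' hA'
    rw [mem_powerset] at hA'
    have hA'D : A' ⊆ D := hA'.trans (filter_subset _ _)
    have hc := ZLE_cE nb β h hβ D A A'
    rw [ZLE_cEneg, mul_assoc]
    apply mul_le_mul_of_nonneg_left _ hc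
    by_cases h0 : A' = ∅
    · subst h0
      have h1 : ZF nb β (D \ ∅) (fun x => h - β * nA nb ∅ x) (fun _ => 1) =
          ZF nb β (D \ ∅) (fun x => -h - β * nA nb ∅ x) (fun _ => 1) := by
        rw [ZLE_flip]
        have : (fun x => -(h - β * nA nb ∅ x)) = fun x => -h - β * nA nb ∅ x := by
          funext x
          simp [nA]
        rw [this]
      rw [h1]
      simp
    · have hlt : D \ A' ⊂ D := by
        apply Finset.sdiff_ssubset hA'D
        exact Finset.nonempty_iff_ne_empty.2 h0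
      have h1 := ih _ hlt A'
      unfold ZA at h1
      have h2 : (1 : ℝ) ≤ Real.exp (2 * h * A'.card) := by
        apply Real.one_le_exp
        positivity
      have h3 := (ZLE_pos nb β (D \ A') (fun x => -h - β * nA nb A' x)).le
      calc _ ≤ ZF nb β (D \ A') (fun x => -h - β * nA nb A' x) (fun _ => 1) := h1
        _ ≤ _ := le_mul_of_one_le_left h3 h2

omit [Fintype V] in
theorem ZLE_deg (nb : V → Finset V) (hnb : ∀ x y, y ∈ nb x ↔ x ∈ nb y) (d : ℕ)
    (hd : ∀ x, (nb x).card ≤ 2 * d) (D A : Finset V) :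
    ∑ x ∈ D, nA nb A x ≤ 2 * d * A.card := by
  have h1 : ∑ x ∈ D, (nb x ∩ A).card ≤ ∑ y ∈ A, (nb y).card := by
    have e1 : ∀ x, (nb x ∩ A).card = ∑ y ∈ A, if y ∈ nb x then 1 else 0 := by
      intro x
      rw [← Finset.card_filter]
      congr 1
      ext y
      simp only [mem_inter, mem_filter]
      tauto
    rw [Finset.sum_congr rfl fun x _ => e1 x, Finset.sum_comm]
    apply Finset.sum_le_sum
    intro y _
    rw [← Finset.card_filter]
    apply Finset.card_le_card
    intro x hx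
    rw [mem_filter] at hx
    exact (hnb x y).1 hx.2
  have h2 : ∑ y ∈ A, (nb y).card ≤ A.card * (2 * d) := by
    have := Finset.sum_le_card_nsmul A (fun y => (nb y).card) (2 * d) fun y _ => hd y
    simpa using this
  have h3 : ((∑ x ∈ D, (nb x ∩ A).card : ℕ) : ℝ) ≤ ((A.card * (2 * d) : ℕ) : ℝ) := by
    exact_mod_cast h1.trans h2
  push_cast at h3
  unfold nA
  linarith

omit [Fintype V] in
theorem ZLE_up (nb : V → Finset V) (hnb : ∀ x y, y ∈ nb x ↔ x ∈ nb y) (d : ℕ)
    (hd : ∀ x, (nb x).card ≤ 2 * d) (β h : ℝ) (hβ : 0 ≤ β) (D A : Finset V) :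
    ZA nb β (-h) D A ≤ Real.exp (4 * d * β * A.card) * ZA nb β h D A := by
  unfold ZA
  rw [ZLE_flip]
  unfold ZF
  rw [Finset.mul_sum]
  apply Finset.sum_le_sum
  intro P _
  rw [mul_one, mul_one, ← Real.exp_add]
  apply Real.exp_le_exp.2
  have h1 : ∀ x ∈ D, -(-h - β * nA nb A x) * sp P x ≤
      (h - β * nA nb A x) * sp P x + 2 * β * nA nb A x := by
    intro x _
    have h2 : 0 ≤ β * nA nb A x := mul_nonneg hβ (Nat.cast_nonneg _)
    have h3 : sp P x ≤ 1 := by
      unfold sp; split_ifs <;> norm_num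
    nlinarith
  have h2 := Finset.sum_le_sum h1
  rw [Finset.sum_add_distrib, ← Finset.mul_sum] at h2
  have h3 := ZLE_deg nb hnb d hd D A
  have h4 : 2 * β * ∑ x ∈ D, nA nb A x ≤ 2 * β * (2 * d * A.card) :=
    mul_le_mul_of_nonneg_left h3 (by linarith)
  have h5 : 2 * β * (2 * (d : ℝ) * (A.card : ℝ)) = 4 * d * β * A.card := by ring
  linarith

end

theorem ZLE (hEXP : EXP_stmt) : ZLE_stmt := by
  intro V _ _ nb d hnb hd β h hβ hh D A
  exact ⟨ZLE_pos _ _ _ _, ZLE_pos _ _ _ _, fun A' => ZLE_cE nb β h hβ D A A',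
    ZLE_le hEXP nb hnb β h hβ hh D A, ZLE_up nb hnb d hd β h hβ D A⟩

end CWM
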