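import Pool.Agent.helper18.CWM.SPL
import Pool.Agent.helper18.CWM.BIN
import Pool.Agent.helper18.CWM.DEV
import Pool.Agent.helper18.CWM.SUP
import Pool.Agent.helper18.CWM.SAN
import Pool.Agent.helper18.CWM.ANC
import Pool.Agent.helper18.CWM.TL
import Pool.Agent.helper18.CWM.HOM
import Pool.Agent.helper18.CWM.GB
import Pool.Agent.helper18.CWM.UM
import Pool.Agent.helper18.CWM.UR
import Pool.Agent.helper18.CWM.STA
import Pool.Agent.helper18.CWM.FKG
import Pool.Agent.helper18.CWM.M1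
import Pool.Agent.helper18.CWM.COA
import Pool.Agent.helper18.CWM.M2
import Pool.Agent.helper18.CWM.M3A
import Pool.Agent.helper18.CWM.M3B
import Pool.Agent.helper18.CWM.M3
import Pool.Agent.helper18.CWM.PL
import Pool.Agent.helper18.CWM.G2
import Pool.Agent.helper18.CWM.G4
import Pool.Agent.helper18.CWM.BRA
import Pool.Agent.helper18.CWM.GIN
import Pool.Agent.helper18.CWM.EXP
import Pool.Agent.helper18.CWM.ZLE
import Pool.Agent.helper18.CWM.JEN
import Pool.Agent.helper18.CWM.GEO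
import Pool.Agent.helper18.CWM.NLB
import Pool.Agent.helper18.CWM.REC
import Pool.Agent.helper18.CWM.TOK
import Pool.Agent.helper18.CWM.THM
import Pool.Agent.helper18.CWM.TFR
import Pool.Agent.helper18.CWM.THB
import Pool.Agent.helper18.CWM.TGL
import Pool.Agent.helper18.CWM.TGR
import Pool.Agent.helper18.CWM.BRT
import Pool.Agent.helper18.CWM.FLT
import Pool.Agent.helper18.CWM.STAT
import Pool.Agent.helper45.CWM.EFR
import Pool.Agent.helper18.CWM.PCB
import Pool.Agent.helper18.CWM.VS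
import Pool.Agent.helper18.CWM.VSM
import Pool.Agent.helper18.CWM.VAR
import Pool.Agent.helper18.CWM.VRW
import Pool.Agent.helper18.CWM.CHB
import Pool.Agent.helper18.CWM.LBT
import Pool.Agent.helper18.CWM.HE1
import Pool.Agent.helper18.CWM.HE2
import Pool.Agent.helper18.CWM.HEW
import Pool.Agent.helper18.CWM.HG
import Pool.Agent.helper18.CWM.I2A
import Pool.Agent.helper18.CWM.I2
import Pool.Agent.helper18.CWM.FAC
import Pool.Agent.helper18.CWM.PZ
import Pool.Agent.helper18.CWM.POI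
import Pool.Agent.helper18.CWM.QB
import Pool.Agent.helper18.CWM.CH
import Pool.Agent.helper18.CWM.EXD
import Pool.Agent.helper18.CWM.PRX
import Pool.Agent.helper18.CWM.EXC
import Pool.Agent.helper45.CWM.S2A
import Pool.Agent.helper18.CWM.FNP
import Pool.Agent.helper18.CWM.FIN
import Pool.Agent.helper18.CWM.FIA
import Pool.Agent.helper18.CWM.FIB
import Pool.Agent.helper18.CWM.AS1
import Pool.Agent.helper18.CWM.AS2
import Pool.Agent.helper18.CWM.AS3
import Pool.Agent.helper18.CWM.AS4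
import Pool.Agent.helper18.CWM.AS5
import Pool.Agent.helper18.CWM.AS6
import Pool.Agent.helper18.CWM.UBU
import Pool.Agent.helper18.CWM.UB
import Pool.Agent.helper18.CWM.LPT
import Pool.Agent.helper18.CWM.CUT

/-!
# Project cwm: all statements proved
-/

namespace CWM

theorem a_TL : TL_stmt := TL
theorem a_GB : GB_stmt := GB SUP ANC TL HOM
theorem a_UR : UR_stmt := UR SPL BIN UM ANC TL
theorem a_M1 : M1_stmt := M1 SAN STA FKG
theorem a_M2 : M2_stmt := M2 SAN STA SPL COA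
theorem a_M3A : M3A_stmt := M3A a_M1 HOM UM
theorem a_M3B : M3B_stmt := M3B a_M2 a_M3A a_GB UM
theorem a_M3 : M3_stmt := M3 a_M3B a_GB

theorem a_GIN : GIN_stmt := GIN (G2 PL) (G4 PL) BRA
theorem a_ZLE : ZLE_stmt := ZLE EXP
theorem a_GEO : GEO_stmt := GEO (JEN EXP a_ZLE) a_ZLE
theorem a_NLB : NLB_stmt := NLB EXP a_ZLE a_GIN
theorem a_STAT : STAT_stmt := STAT a_GIN a_GEO a_NLB REC BRT FLT FKG TOK THB

theorem a_TGL : TGL_stmt := TGL THB TOK
theorem a_VAR : VAR_stmt := VAR EFR (PCB SUP) (VS ANC TL HOM) VSM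
theorem a_VRW : VRW_stmt := VRW a_VAR STA a_GB
theorem a_LBT : LBT_stmt := LBT a_VAR a_VRW CHB a_GB UM HOM

theorem a_HEW : HEW_stmt := HEW HE1
theorem a_HG : HG_stmt := HG HE1 a_HEW SUP
theorem a_I2A : I2A_stmt := I2A SPL HE1 HE2 a_HG
theorem a_I2 : I2_stmt := I2 a_I2A HE1 HE2 a_HG ANC TL
theorem a_PZ : PZ_stmt := PZ SPL FAC
theorem a_QB : QB_stmt := QB POI a_UR UM TL a_GB
theorem a_CH : CH_stmt := CH SAN ANC
theorem a_EXD : EXD_stmt := EXD a_CH
theorem a_PRX : PRX_stmt := PRX a_PZ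
theorem a_EXC : EXC_stmt := EXC a_CH
theorem a_S2A : S2A_stmt := S2A a_HG
theorem a_FIN : FIN_stmt := FIN FNP HE2 a_HG
theorem a_FIA : FIA_stmt := FIA (DEV BIN) a_HG a_S2A a_EXD a_PRX a_FIN
theorem a_FIB : FIB_stmt := FIB a_HG a_I2 a_FIA a_EXC a_PRX
theorem a_UBU : UBU_stmt := UBU a_UR a_GB HOM UM
theorem a_UB : UB_stmt := UB a_QB a_FIB a_UBU a_HG UM a_GB AS1 AS2 AS3 AS4 AS5 AS6
theorem a_LPT : LPT_stmt := LPT a_TGL a_HG TOK
theorem a_UPT : UPT_stmt := UPT a_TGL HE2 a_HG STA THB TOK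

/-- weak mixing (polynomially fast) implies cutoff -/
theorem a_CUT : CUT_stmt := CUT a_M3 a_UB a_LBT a_UPT a_LPT TOK THM TFR THB TGR a_GB UM

/-- cutoff in every nonzero field -/
theorem a_NZF : NZF_stmt := NZF a_CUT a_STAT

end CWM
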