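import Pool.Agent.helper18.CWM.SpecH

/-!
# cwm:POI (helper47): lower tail of the Poisson law
-/

open Finset Filter Topology

namespace CWM

theorem POI : POI_stmt := by
  intro x a hx
  have hlog : Real.log 2 ≤ 3 / 4 := by
    have := Real.log_two_lt_d9
    linarith
  have hterm : ∀ c ∈ (range (a + 1)).filter (fun c : ℕ => (c : ℝ) < x / 2),
      x ^ c / (c.factorial : ℝ) ≤ Real.exp (Real.log 2 * (x / 2)) * ((x / 2) ^ c / (c.factorial : ℝ)) := by
    intro c hc
    rw [mem_filter] at hc
    have h1 : x ^ c = (2 : ℝ) ^ c * (x / 2) ^ c := by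
      rw [← mul_pow]
      congr 1
      ring
    have h2 : (2 : ℝ) ^ c ≤ Real.exp (Real.log 2 * (x / 2)) := by
      have h3 : (2 : ℝ) ^ c = Real.exp (Real.log 2 * c) := by
        rw [mul_comm, Real.exp_nat_mul, Real.exp_log (by norm_num)]
      rw [h3]
      apply Real.exp_le_exp.2
      exact mul_le_mul_of_nonneg_left hc.2.le (Real.log_nonneg (by norm_num))
    rw [h1, mul_div_assoc]
    exact mul_le_mul_of_nonneg_right h2 (by positivity)
  have hsum : ∑ c ∈ (range (a + 1)).filter (fun c : ℕ => (c : ℝ) < x / 2), x ^ c / (c.factorial : ℝ) ≤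
      Real.exp (Real.log 2 * (x / 2)) * Real.exp (x / 2) := by
    refine (sum_le_sum hterm).trans ?_
    rw [← mul_sum]
    refine mul_le_mul_of_nonneg_left ?_ (Real.exp_pos _).le
    refine le_trans ?_ (Real.sum_le_exp_of_nonneg (by positivity : (0 : ℝ) ≤ x / 2) (a + 1))
    exact sum_le_sum_of_subset_of_nonneg (filter_subset _ _) fun i _ _ => by positivity
  refine (mul_le_mul_of_nonneg_left hsum (Real.exp_pos _).le).trans ?_
  rw [← Real.exp_add, ← Real.exp_add]
  apply Real.exp_le_exp.2
  nlinarith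

end CWM
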