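import Pool.Agent.helper18.CWM.SpecB

/-! # Row cwm:SPL (splitting lemma) -/

open Finset Filter Topology

namespace CWM

section
variable {V U : Type} [Fintype V] [DecidableEq V] [Fintype U] (D : Dyn V U)

omit [Fintype V] in
theorem SPL_union {R R' : Finset V} (h : Disjoint R R') (F : V × U → ℝ) :
    Wa D (R ∪ R') F = Wa D R F + Wa D R' F := by
  unfold Wa
  rw [Finset.sum_union h]

omit [Fintype V] [Fintype U] in
theorem SPL_in {R : Finset V} {a : V × U} (h : a.1 ∈ R) (w : List (V × U)) :
    filt R (a :: w) = a :: filt R w := by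
  unfold filt
  rw [List.filter_cons_of_pos (by simpa using h)]

omit [Fintype V] [Fintype U] in
theorem SPL_out {R : Finset V} {a : V × U} (h : a.1 ∉ R) (w : List (V × U)) :
    filt R (a :: w) = filt R w := by
  unfold filt
  rw [List.filter_cons_of_neg (by simpa using h)]

end

theorem SPL_pascal (G : ℕ → ℕ → ℝ) (m : ℕ) :
    (∑ c ∈ range (m + 1), (m.choose c : ℝ) * G (c + 1) (m - c)) +
      ∑ c ∈ range (m + 1), (m.choose c : ℝ) * G c (m - c + 1) =
      ∑ c ∈ range (m + 1 + 1), ((m + 1).choose c : ℝ) * G c (m + 1 - c) := by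
  rw [Finset.sum_range_succ' (fun c => ((m + 1).choose c : ℝ) * G c (m + 1 - c))]
  have h1 : ∀ c ∈ range (m + 1), ((m + 1).choose (c + 1) : ℝ) * G (c + 1) (m + 1 - (c + 1)) =
      (m.choose c : ℝ) * G (c + 1) (m - c) + (m.choose (c + 1) : ℝ) * G (c + 1) (m - c) := by
    intro c _
    rw [Nat.choose_succ_succ, Nat.cast_add, Nat.add_sub_add_right]
    ring
  rw [Finset.sum_congr rfl h1, Finset.sum_add_distrib,
    Finset.sum_range_succ (fun c => (m.choose (c + 1) : ℝ) * G (c + 1) (m - c)),
    Finset.sum_range_succ' (fun c => (m.choose c : ℝ) * G c (m - c + 1))]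
  have h2 : ∀ c ∈ range m, (m.choose (c + 1) : ℝ) * G (c + 1) (m - (c + 1) + 1) =
      (m.choose (c + 1) : ℝ) * G (c + 1) (m - c) := by
    intro c hc
    have hc := Finset.mem_range.1 hc
    rw [show m - (c + 1) + 1 = m - c by omega]
  rw [Finset.sum_congr rfl h2, Nat.choose_succ_self]
  simp only [Nat.cast_zero, zero_mul, add_zero, Nat.choose_zero_right, Nat.cast_one, one_mul,
    Nat.sub_zero]
  ring

theorem SPL : SPL_stmt := by
  intro V U _ _ _ D R R' hd m
  induction m with
  | zero =>
    intro H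
    simp [Ww_zero, filt]
  | succ m ih =>
    intro H
    rw [Ww_succ, SPL_union D hd]
    have e1 : Wa D R (fun a => Ww D (R ∪ R') m fun w => H (filt R (a :: w)) (filt R' (a :: w))) =
        ∑ c ∈ range (m + 1), (m.choose c : ℝ) *
          Ww D R (c + 1) fun w1 => Ww D R' (m - c) fun w2 => H w1 w2 := by
      have h : Wa D R (fun a => Ww D (R ∪ R') m fun w => H (filt R (a :: w)) (filt R' (a :: w))) =
          Wa D R (fun a => ∑ c ∈ range (m + 1), (m.choose c : ℝ) *
            Ww D R c fun w1 => Ww D R' (m - c) fun w2 => H (a :: w1) w2) := by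
        refine Wa_congr D fun a ha => ?_
        rw [← ih (fun w1 w2 => H (a :: w1) w2)]
        refine Ww_congr D fun w _ _ => ?_
        rw [SPL_in ha, SPL_out (fun h => (Finset.disjoint_left.1 hd) ha h)]
      rw [h, Wa_sum]
      refine Finset.sum_congr rfl fun c _ => ?_
      rw [Wa_smul]
      rfl
    have e2 : Wa D R' (fun a => Ww D (R ∪ R') m fun w => H (filt R (a :: w)) (filt R' (a :: w))) =
        ∑ c ∈ range (m + 1), (m.choose c : ℝ) *
          Ww D R c fun w1 => Ww D R' (m - c + 1) fun w2 => H w1 w2 := by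
      have h : Wa D R' (fun a => Ww D (R ∪ R') m fun w => H (filt R (a :: w)) (filt R' (a :: w))) =
          Wa D R' (fun a => ∑ c ∈ range (m + 1), (m.choose c : ℝ) *
            Ww D R c fun w1 => Ww D R' (m - c) fun w2 => H w1 (a :: w2)) := by
        refine Wa_congr D fun a ha => ?_
        rw [← ih (fun w1 w2 => H w1 (a :: w2))]
        refine Ww_congr D fun w _ _ => ?_
        rw [SPL_in ha, SPL_out (fun h => (Finset.disjoint_left.1 hd) h ha)]
      rw [h, Wa_sum]
      refine Finset.sum_congr rfl fun c _ => ?_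
      rw [Wa_smul, Wa_Ww_comm]
      rfl
    rw [e1, e2]
    exact SPL_pascal (fun c k => Ww D R c fun w1 => Ww D R' k fun w2 => H w1 w2) m

end CWM
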