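import Pool.Agent.helper18.CWM.SpecB

/-!
# Project cwm (MP_7c3fb3_pr), statements A: the static part and the torus

Weak mixing in nonzero field: the finite volume plus and minus magnetisations differ by `≤ C/(L+1)^(4d)`, uniformly in the
torus.  Modules `Pool/Agent/helper18/CWM/XX.lean`, `theorem XX (h : YY_stmt) ... : XX_stmt`, as in SpecB.
-/

open Finset Filter Topology

namespace CWM

section
variable {V : Type} [Fintype V] [DecidableEq V]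

/-- energy on `V → Bool` with couplings `K` (ordered pairs) and fields `g` -/
noncomputable def HH (K : V → V → ℝ) (g : V → ℝ) (σ : V → Bool) : ℝ :=
  (∑ x, ∑ y, K x y * (CU.sg (σ x) * CU.sg (σ y))) + ∑ x, g x * CU.sg (σ x)

/-- magnetisation at `x` -/
noncomputable def mgG (K : V → V → ℝ) (g : V → ℝ) (x : V) : ℝ :=
  (∑ σ : V → Bool, Real.exp (HH K g σ) * CU.sg (σ x)) / ∑ σ : V → Bool, Real.exp (HH K g σ)

/-- spin of the set `P` of plus sites -/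
noncomputable def sp (P : Finset V) (x : V) : ℝ := if x ∈ P then 1 else -1

/-- interaction energy inside `D` (half of the ordered pairs) -/
noncomputable def en (nb : V → Finset V) (D P : Finset V) : ℝ := (1 / 2) * ∑ x ∈ D, ∑ y ∈ nb x ∩ D, sp P x * sp P y

/-- sum over the sets `P ⊆ D` of plus sites of `weight * F`, field `g` -/
noncomputable def ZF (nb : V → Finset V) (β : ℝ) (D : Finset V) (g : V → ℝ) (F : Finset V → ℝ) : ℝ :=
  ∑ P ∈ D.powerset, Real.exp (β * en nb D P + ∑ x ∈ D, g x * sp P x) * F P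

/-- magnetisation at `x` in `D` with field `g` -/
noncomputable def mg (nb : V → Finset V) (β : ℝ) (D : Finset V) (g : V → ℝ) (x : V) : ℝ :=
  ZF nb β D g (fun P => sp P x) / ZF nb β D g fun _ => 1

/-- number of neighbours in `A` -/
noncomputable def nA (nb : V → Finset V) (A : Finset V) (x : V) : ℝ := ((nb x ∩ A).card : ℝ)

/-- partition function of `D` with the set `A` pinned to minus -/
noncomputable def ZA (nb : V → Finset V) (β h : ℝ) (D A : Finset V) : ℝ :=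
  ZF nb β D (fun x => h - β * nA nb A x) fun _ => 1

/-- sites of `D` with a neighbour in `A` -/
def bd (nb : V → Finset V) (D A : Finset V) : Finset V := D.filter fun x => (nb x ∩ A).Nonempty

/-- coefficients of the exploration -/
noncomputable def cE (nb : V → Finset V) (β h : ℝ) (D A A' : Finset V) : ℝ :=
  (∏ x ∈ A', 2 * Real.sinh (β * nA nb A x)) * (∏ x ∈ bd nb D A \ A', Real.exp (-β * nA nb A x)) *
    Real.exp (β * ((1 / 2) * ∑ x ∈ A', nA nb A' x) - h * A'.card)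

/-- transition operator of the exploration: `(D, A) → (D \ A', A')` with probability `cE * ZA(D \ A', A') / ZA(D, A)` -/
noncomputable def TE (nb : V → Finset V) (β h : ℝ) (F : Finset V → Finset V → ℝ) (D A : Finset V) : ℝ :=
  (∑ A' ∈ (bd nb D A).powerset, cE nb β h D A A' * ZA nb β h (D \ A') A' * F (D \ A') A') / ZA nb β h D A

/-- mean size of the `k`-th layer of the exploration -/
noncomputable def sk (nb : V → Finset V) (β h : ℝ) : ℕ → Finset V → Finset V → ℝ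
  | 0 => fun _ A => (A.card : ℝ)
  | k + 1 => TE nb β h (sk nb β h k)

end

/-- **PL** (positivity).  Say `Q F` if `0 ≤ ∑ σ, M σ * F σ` for all monomials `M σ = ∏ x, ∏ i, e i (σ x) ^ a x i`.  `Q 1`:
`∑ σ, M σ = ∏ x, ∑ b, ∏ i, e i b ^ a x i ≥ 0` (`Finset.prod_univ_sum`/`Fintype.piFinset`).  `Q` is preserved by sums, nonnegative scalars and multiplication by monomials (exponents add),
so `Q ((1 + H/n)^n)` for `H = ∑ j, c j * monomial j` and all `n ≥ 1`, and `exp (H σ) = lim (1 + H σ/n)^n` (`Real.tendsto_one_add_div_pow_exp`). -/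
def PL_stmt : Prop := ∀ (V B J : Type) [Fintype V] [DecidableEq V] [Fintype B] [Fintype J] (k : ℕ)
  (e : Fin k → B → ℝ), (∀ a : Fin k → ℕ, 0 ≤ ∑ b, ∏ i, e i b ^ a i) →
  ∀ (c : J → ℝ) (m : J → V → Fin k → ℕ), (∀ j, 0 ≤ c j) → ∀ a : V → Fin k → ℕ,
  0 ≤ ∑ σ : V → B, (∏ x, ∏ i, e i (σ x) ^ a x i) * Real.exp (∑ j, c j * ∏ x, ∏ i, e i (σ x) ^ m j x i)

/-- **G2** (Ginibre; uses PL).  `B = Bool × Bool`, `σ, σ'` the two copies, `t = s + s'`, `q = s - s'`; `∑_b t^k q^l ≥ 0` (either `t = 0` or `q = 0`).  The numerator of the difference is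
`∑ q_x exp (HH K g σ + HH K' g' σ')` and `K s s_y + K' s' s'_y = (K+K')/4 (t t_y + q q_y) + (K-K')/4 (t q_y + q t_y)`,
`g s + g' s' = (g+g')/2 t + (g-g')/2 q`; all coefficients are `≥ 0`.  Index set of the monomials: `V × V × Fin 4 ⊕ V × Fin 2`. -/
def G2_stmt : Prop := ∀ (V : Type) [Fintype V] [DecidableEq V] (K K' : V → V → ℝ) (g g' : V → ℝ),
  (∀ x y, |K' x y| ≤ K x y) → (∀ x, |g' x| ≤ g x) → ∀ x, mgG K' g' x ≤ mgG K g x

/-- **G4** (uses PL).  `B = Bool^4`, copies `s1` (field `g+s`), `s2` (field `g-s`), `s3, s4` (field `g`);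
`al = (s1+s2+s3+s4)/2`, `be = -(s1+s2-s3-s4)/2`, `ga = (s1-s2+s3-s4)/2`, `de = (s1-s2-s3+s4)/2`.  `∑_b al^k be^l ga^m de^n ≥ 0`: the eight configurations with an even number of
minus spins give exactly one nonzero coordinate, `±2`, both signs; the other eight give each sign vector with product `+1` once (sum `8` if all exponents have the same parity,
else `0`).  `s1 s1' + .. + s4 s4' = al al' + be be' + ga ga' + de de'`, the field term is `2 g al + s (ga + de)`.  So `∑ be_x exp(..) ≥ 0`, and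
`∑ (s1+s2-s3-s4)_x exp (..) = Z1 Z2 Z3 Z4 (m1 + m2 - m3 - m4)`. -/
def G4_stmt : Prop := ∀ (V : Type) [Fintype V] [DecidableEq V] (K : V → V → ℝ) (g s : V → ℝ),
  (∀ x y, 0 ≤ K x y) → (∀ x, 0 ≤ g x) → (∀ x, 0 ≤ s x) → ∀ x,
  mgG K (fun y => g y + s y) x + mgG K (fun y => g y - s y) x ≤ 2 * mgG K g x

/-- **BRA** (bridge).  The spins off `D` are free in the right side and give a factor `2^|V \ D|` in numerator and denominator
(`P = {x ∈ D : σ x = true}`). -/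
def BRA_stmt : Prop := ∀ (V : Type) [Fintype V] [DecidableEq V] (nb : V → Finset V) (β : ℝ) (D : Finset V) (g : V → ℝ) (x : V), x ∈ D →
  mg nb β D g x = mgG (fun x y => if x ∈ D ∧ y ∈ nb x ∩ D then β / 2 else 0) (fun x => if x ∈ D then g x else 0) x

/-- **GIN** (uses G2, G4, BRA).  (1) monotonicity in the volume.  (2) the inequality `m(h+s) + m(h-s) ≤ 2 m(h)`.  (3) `|mg| ≤ 1`. -/
def GIN_stmt : Prop := ∀ (V : Type) [Fintype V] [DecidableEq V] (nb : V → Finset V) (β h : ℝ), 0 ≤ β → 0 ≤ h →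
  (∀ (D D' : Finset V) (x : V), D' ⊆ D → x ∈ D' → mg nb β D' (fun _ => h) x ≤ mg nb β D (fun _ => h) x) ∧
  (∀ (D : Finset V) (s : V → ℝ) (x : V), (∀ y, 0 ≤ s y) → x ∈ D →
    mg nb β D (fun y => h + s y) x + mg nb β D (fun y => h - s y) x ≤ 2 * mg nb β D (fun _ => h) x) ∧
  (∀ (D : Finset V) (g : V → ℝ) (x : V), |mg nb β D g x| ≤ 1)

/-- **EXP** (exploration identity; any real `h`).  For `x ∈ bd D A`, `exp (-β n s) = exp (-β n) + 2 sinh (β n) 1[s = -1]`; expand the product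
(`Finset.prod_add`), `A'` = the sites where the second term is chosen, so `P ∩ A' = ∅`, i.e. `P ⊆ D \ A'`.  For such `P`,
`en D P = en (D \ A') P - ∑_{y ∈ D \ A'} nA A' y * sp P y + (1/2) ∑_{x ∈ A'} nA A' x` (symmetry of `nb`) and `∑_{A'} h sp = -h |A'|`.
For `x ∉ bd D A`, `nA A x = 0`. -/
def EXP_stmt : Prop := ∀ (V : Type) [Fintype V] [DecidableEq V] (nb : V → Finset V), (∀ x y, y ∈ nb x ↔ x ∈ nb y) →
  ∀ (β h : ℝ) (D A : Finset V) (F : Finset V → ℝ),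
  ZF nb β D (fun x => h - β * nA nb A x) F =
    ∑ A' ∈ (bd nb D A).powerset, cE nb β h D A A' * ZF nb β (D \ A') (fun x => h - β * nA nb A' x) F

/-- **ZLE** (uses EXP).  (1) positivity of `ZA`, `cE ≥ 0`.  (2) `ZA(h) ≤ ZA(-h)` for `h ≥ 0`: strong induction on `|D|` with EXP (all `F = 1`): `cE(-h) = cE(h) exp (2 h |A'|)`,
the term `A' = ∅` has `ZA(D, ∅)`, which is even in `h` (`P ↦ D \ P`).  (3) `ZA(-h) ≤ exp (2 β ∑_{x ∈ D} nA A x) ZA(h)` (`P ↦ D \ P`, `|sp| = 1`) and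
`∑_{x ∈ D} nA A x ≤ 2 d |A|`. -/
def ZLE_stmt : Prop := ∀ (V : Type) [Fintype V] [DecidableEq V] (nb : V → Finset V) (d : ℕ), (∀ x y, y ∈ nb x ↔ x ∈ nb y) →
  (∀ x, (nb x).card ≤ 2 * d) → ∀ (β h : ℝ), 0 ≤ β → 0 ≤ h → ∀ D A : Finset V,
  0 < ZA nb β h D A ∧ 0 < ZA nb β (-h) D A ∧ (∀ A', 0 ≤ cE nb β h D A A') ∧ ZA nb β h D A ≤ ZA nb β (-h) D A ∧
  ZA nb β (-h) D A ≤ Real.exp (4 * d * β * A.card) * ZA nb β h D A

/-- **JEN** (uses EXP, ZLE).  (1) `TE` is an average: monotone, linear, `TE c = c` (EXP with `F = 1`).  (2) by induction on `k`, for all `D, A`: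
`2 h ∑_{j < k} sk (j+1) D A ≤ log (ZA(-h) D A / ZA(h) D A)`; `k = 0` is ZLE; step: EXP for `-h`, `cE(-h) = cE(h) exp (2h|A'|)`, gives
`ZA(-h)/ZA(h) (D,A) = TE (fun D' A' => exp (2 h |A'|) ZA(-h) D' A'/ZA(h) D' A') D A` and Jensen for `log` (`strictConcaveOn_log_Ioi.concaveOn.le_map_sum`).
Finally ZLE (3). -/
def JEN_stmt : Prop := ∀ (V : Type) [Fintype V] [DecidableEq V] (nb : V → Finset V) (d : ℕ), (∀ x y, y ∈ nb x ↔ x ∈ nb y) →
  (∀ x, (nb x).card ≤ 2 * d) → ∀ (β h : ℝ), 0 ≤ β → 0 < h → ∀ (k : ℕ) (D A : Finset V),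
  2 * h * ∑ j ∈ range k, sk nb β h (j + 1) D A ≤ 4 * d * β * A.card

/-- **GEO** (uses JEN, EXP, ZLE).  `TE` is linear and monotone and `sk (k + 1) = TE (sk k)`, so JEN gives (apply `TE^k`)
`∑_{i=1}^{K} sk (k+i) ≤ κ sk k`, `κ = 2 d β/h`.  With `S_k = ∑_{j=k}^{K} sk j`: `S_{k+1} ≤ κ (S_k - S_{k+1})`, so `S_{k+1} ≤ θ S_k`,
`θ = κ/(1+κ)`, and `sk (k+1) ≤ S_{k+1} ≤ θ^k S_1 ≤ θ^k κ |A|`. -/
def GEO_stmt : Prop := ∀ (V : Type) [Fintype V] [DecidableEq V] (nb : V → Finset V) (d : ℕ), (∀ x y, y ∈ nb x ↔ x ∈ nb y) →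
  (∀ x, (nb x).card ≤ 2 * d) → ∀ (β h : ℝ), 0 ≤ β → 0 < h → ∀ (k : ℕ) (D A : Finset V),
  0 ≤ sk nb β h k D A ∧
  sk nb β h (k + 1) D A ≤ (2 * d * β / h) * ((2 * d * β / h) / (1 + 2 * d * β / h)) ^ k * A.card

/-- **NLB** (uses EXP, ZLE, GIN).  Induction on `k` for all `D, A`.  `k = 0`: if `A = ∅` then `nA = 0` and GIN (1); otherwise `mg ≥ -1 ≥ mg - 2 |A|`.
Step: EXP with `F = sp · x` and with `F = 1`: `mg(D, A) = TE (mg)(D, A)`; for `A' ⊆ bd D A` and `k + 1 < ds a y` one has `k < ds a' y` for `a' ∈ A'`, `y ∈ E`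
(`a'` has a neighbour in `A`), so `E ⊆ D \ A'`. -/
def NLB_stmt : Prop := ∀ (V : Type) [Fintype V] [DecidableEq V] (nb : V → Finset V) (ds : V → V → ℕ) (d : ℕ), (∀ x y, y ∈ nb x ↔ x ∈ nb y) →
  (∀ x, (nb x).card ≤ 2 * d) → (∀ x, ∀ y ∈ nb x, ds x y ≤ 1) → (∀ x y z, ds x z ≤ ds x y + ds y z) → (∀ x y, ds x y = ds y x) →
  ∀ (β h : ℝ), 0 ≤ β → 0 < h → ∀ (k : ℕ) (D A E : Finset V) (x : V), x ∈ E → E ⊆ D → (∀ a ∈ A, ∀ y ∈ E, k < ds a y) →
  mg nb β E (fun _ => h) x - 2 * sk nb β h k D A ≤ mg nb β D (fun y => h - β * nA nb A y) x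

/-- **REC** (real sequences).  `e L = m - f L ∈ [0, 2]` and `e L ≤ e (L-k)/2 + κ θ^(k-1) (2L+3)^d` for `1 ≤ k ≤ L`.  With `p = 4d`, `δ` with `(1-δ)^(-p) ≤ 3/2`, `k = ⌊δ L⌋`
(for `L ≥ L₀`): by induction `e L ≤ C₁/(L+1)^p` (`(1/2)(3/2) = 3/4`, the second term is exponentially small, `≤ (C₁/4)/(L+1)^p` for `C₁` large).  Then
`mp L - mm L ≤ 2 (m - mm L) ≤ 2 (e (L-k) + 2 κ θ^(k-1) (2L+3)^d)`; small `L`: `mp L - mm L ≤ 2`. -/
def REC_stmt : Prop := ∀ (d : ℕ) (κ θ : ℝ), 0 ≤ κ → 0 ≤ θ → θ < 1 → ∃ C : ℝ, 0 ≤ C ∧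
  ∀ (m : ℝ) (f mp mm : ℕ → ℝ), (∀ L, f L ≤ m) → (∀ L, m ≤ mp L) → (∀ L, mp L ≤ 1) → (∀ L, -1 ≤ mm L) → (∀ L, -1 ≤ f L) →
  (∀ L, mp L + mm L ≤ 2 * f L) →
  (∀ L k : ℕ, k + 1 ≤ L → f (L - (k + 1)) - 2 * (κ * θ ^ k * (2 * (L : ℝ) + 3) ^ d) ≤ mm L) →
  ∀ L : ℕ, mp L - mm L ≤ C / ((L : ℝ) + 1) ^ (4 * d)

/-! ## the torus -/

/-- **TOK**.  `tD d (n+3) β h` is a monotone local dynamics of dimension `d`: thresholds are monotone, `hb` is increasing in `k` for `β ≥ 0`, telescoping sum of `nuT`;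
`dsT` = sup distance (`ZMod.natAbs_valMinAbs_add_le`, `ZMod.valMinAbs_eq_zero`, `ZMod.natAbs_valMinAbs_neg`), ball = product of `d` sets
`{a : |a| ≤ r}` of size `≤ 2r+1`. -/
def TOK_stmt : Prop := ∀ (d n : ℕ) (β h : ℝ), 0 ≤ β → (tD d (n + 3) β h).Ok d

/-- **THM**.  Translations. -/
def THM_stmt : Prop := ∀ (d n : ℕ) (β h : ℝ), (tD d (n + 3) β h).Hom

/-- **TFR**.  `u = 0` forces plus (`nuT 0 = hb 0 > 0`), `u = 2d+1` forces minus (`pn ≤ 2d`, `nuT (2d+1) = 1 - hb (2d) > 0`). -/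
def TFR_stmt : Prop := ∀ (d : ℕ) (β h : ℝ), ∃ c0 : ℝ, 0 < c0 ∧ ∀ n : ℕ, (tD d (n + 3) β h).Frc c0

/-- **THB**.  `wt β h` is log-supermodular (`β ≥ 0`, bond by bond) and `∑ u, nu u ind (up x u σ = true) = hb (pn x σ)` (telescoping) equals
`wt σ^+ / (wt σ^+ + wt σ^-)`: `wt σ^- / wt σ^+ = exp (-2β(2 pn - 2d) - 2h)` (for side `≥ 3` the `2d` bonds at `x` are different). -/
def THB_stmt : Prop := ∀ (d n : ℕ) (β h : ℝ), 0 ≤ β → HB (tD d (n + 3) β h) (CU.wt β h : CU.Conf d (n + 3) → ℝ)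

/-- **TGL** (uses THB, TOK).  The transition matrix: `glauber σ η = (1/N) ∑ x, ∑ u, nu u * ind (stp (x,u) σ = η)`, then induction on `t` (`Matrix.mul_apply`, `Ew_snoc` or `Ew_succ`). -/
def TGL_stmt : Prop := ∀ (d n : ℕ) (β h : ℝ), 0 ≤ β → ∀ (t : ℕ) (σ η : CU.Conf d (n + 3)),
  ((CU.glauber β h) ^ t) σ η = Ew (tD d (n + 3) β h) univ t fun w => ind (fl (tD d (n + 3) β h) w σ = η)

/-- **TGR**.  Size of balls from below: for `1 ≤ d`, `r^(2d) ≤ (n+3)^d` gives `r^2 ≤ n+3`, so `r ≤ n + 3`; the ball contains the `r` distinct points `x + j e_0`, `0 ≤ j < r`. -/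
def TGR_stmt : Prop := ∀ (d n : ℕ) (β h : ℝ), 1 ≤ d → ∀ (x : CU.Site d (n + 3)) (r : ℕ),
  r ^ (2 * d) ≤ Fintype.card (CU.Site d (n + 3)) → r ≤ (Bl (tD d (n + 3) β h) x r).card

/-- **BRT** (bridge on the torus).  With `nb` the neighbours of `tD`, `x ∈ A`: the weight of `σ` equal to `b` off `A` is a constant times
`exp (β en A P + ∑_{y ∈ A} (h ± β nA (univ \ A) y) sp P y)`, `P = {y ∈ A : σ y = true}`; each unordered bond is counted once in `wt` and twice (times `1/2`) in `en`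
(`Site d (n+3)`: `nb y` has `2d` elements).  `ind (σ x = true) = (1 + sp)/2`. -/
def BRT_stmt : Prop := ∀ (d n : ℕ) (β h : ℝ) (A : Finset (CU.Site d (n + 3))) (x : CU.Site d (n + 3)), x ∈ A →
  (av (cw (CU.wt β h : CU.Conf d (n + 3) → ℝ) A true) (fun σ => CU.sg (σ x)) =
    mg (tD d (n + 3) β h).nb β A (fun y => h + β * nA (tD d (n + 3) β h).nb (univ \ A) y) x) ∧
  (av (cw (CU.wt β h : CU.Conf d (n + 3) → ℝ) A false) (fun σ => CU.sg (σ x)) =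
    mg (tD d (n + 3) β h).nb β A (fun y => h - β * nA (tD d (n + 3) β h).nb (univ \ A) y) x) ∧
  (av (CU.wt β h : CU.Conf d (n + 3) → ℝ) (fun σ => CU.sg (σ x)) = mg (tD d (n + 3) β h).nb β univ (fun _ => h) x)

/-- **FLT** (flip).  `σ ↦ !σ` exchanges `h` and `-h`, plus and minus. -/
def FLT_stmt : Prop := ∀ (d n : ℕ) (β h : ℝ) (A : Finset (CU.Site d (n + 3))) (x : CU.Site d (n + 3)),
  dl (CU.wt β h : CU.Conf d (n + 3) → ℝ) A x = dl (CU.wt β (-h) : CU.Conf d (n + 3) → ℝ) A x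

/-- **STAT** (uses GIN, GEO, NLB, REC, BRT, FLT, FKG, TOK, THB).  Case `h > 0` (FLT).  Fix `n`, `x`; `m = mg univ h x`, `f L = mg (Bl x L) h x`,
`mp L, mm L` = the magnetisations with plus/minus off `Bl x L` (BRT).  `f L ≤ m`: GIN (1).  `m ≤ mp L`: FKG, BRT (`σ ↦ sg (σ x)` increasing).  `mp + mm ≤ 2 f`: GIN (2).  Last hypothesis of REC with
`κ = 2dβ/h`, `θ = κ/(1+κ)`: NLB with `D = Bl x L`, `A = Bl x (L+1) \ Bl x L` (`nA A y = nA (univ \ Bl x L) y` for `y ∈ Bl x L`, `|A| ≤ (2L+3)^d`),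
`E = Bl x (L-(k+1))`, GEO.  `dl = (mp - mm)/2` as `ind (σ x = true) = (1 + sg (σ x))/2`. -/
def STAT_stmt : Prop := ∀ (d : ℕ) (β h : ℝ), 0 ≤ β → h ≠ 0 → ∃ C : ℝ, 0 ≤ C ∧
  ∀ (n : ℕ) (x : CU.Site d (n + 3)) (L : ℕ),
  dl (CU.wt β h : CU.Conf d (n + 3) → ℝ) (Bl (tD d (n + 3) β h) x L) x ≤ C / ((L : ℝ) + 1) ^ (4 * d)

end CWM
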