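import Pool.Agent.helper18.CWM.Lib

/-!
# Project cwm (MP_7c3fb3_pr), statements B: words, supports, ancestors, dynamics

THEOREM (goal).  Cutoff for the Glauber dynamics on the tori for all `d ≥ 1`, `β ≥ 0` and every `h ≠ 0`, and whenever
the finite volume plus/minus magnetisations converge polynomially fast.  Paper: team-store MP_7c3fb3_cutoff_helper18.md.

Each module is a statement `XX_stmt : Prop` with a proof sketch.  A module file is
`Pool/Agent/helper18/CWM/XX.lean`, `import Pool.Agent.helper18.CWM.SpecB`, `namespace CWM`,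
`theorem XX (h : YY_stmt) ... : XX_stmt`; other statements may be used as hypotheses (no circles; only those named
in the docstring); auxiliary lemmas have names `XX_...`.  Lib.lean has the basic lemmas (`Ew_append`, `Ww_comm`, `fl_append`, ...).
The HEAD of a word is the LAST letter in time: `fl D (a :: w) σ = stp D a (fl D w σ)`.
-/

open Finset Filter Topology

namespace CWM

/-- **SPL** (splitting lemma).  Induction on `m`: the first letter is in `R` (then `filt R' (a :: w) = filt R' w`) or in `R'`;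
Pascal's rule; `Ww_comm` to bring the sum over the letter of `R'` inside (for `a` in `R'` the summand is
`∑ c, choose m c * Ww R c (fun w1 => Ww R' (m-c) (fun w2 => H w1 (a :: w2)))`, so exchange `Wa R'` with `Ww R c` (`Wa_Ww_comm`)). -/
def SPL_stmt : Prop := ∀ (V U : Type) [Fintype V] [DecidableEq V] [Fintype U] (D : Dyn V U) (R R' : Finset V),
  Disjoint R R' → ∀ (m : ℕ) (H : List (V × U) → List (V × U) → ℝ),
  Ww D (R ∪ R') m (fun w => H (filt R w) (filt R' w)) =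
    ∑ c ∈ range (m + 1), (m.choose c : ℝ) * Ww D R c fun w1 => Ww D R' (m - c) fun w2 => H w1 w2

/-- **BIN**.  Number of letters in `R` (induction on `m`, `Ew_succ`; `∑ u, nu u = 1`). -/
def BIN_stmt : Prop := ∀ (V U : Type) [Fintype V] [DecidableEq V] [Fintype U] (D : Dyn V U) (R S : Finset V),
  (∑ u, D.nu u = 1) → R ⊆ S → S.Nonempty → ∀ m : ℕ,
  (∀ r : ℝ, Ew D S m (fun w => r ^ (filt R w).length) = (1 - (R.card : ℝ) / S.card + (R.card : ℝ) / S.card * r) ^ m) ∧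
  Ew D S m (fun w => ((filt R w).length : ℝ)) = m * ((R.card : ℝ) / S.card)

/-- **DEV**.  Lower deviations: with `p = |R|/|S|`, `r = 1 - η`, `x = (1-η) p m`: `ind (len < x) ≤ r^(-x) r^len` (real power),
so by BIN the probability is at most `(1 - p η)^m exp (- x log (1-η)) ≤ exp (- p m (η + (1-η) log (1-η))) ≤ exp (- p m η²/2)`
(`(1-η) log (1-η) + η - η²/2` vanishes at `0` and has derivative `- log (1-η) - η ≥ 0`). -/
def DEV_stmt : Prop := ∀ (V U : Type) [Fintype V] [DecidableEq V] [Fintype U] (D : Dyn V U) (R S : Finset V),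
  (∀ u, 0 ≤ D.nu u) → (∑ u, D.nu u = 1) → R ⊆ S → S.Nonempty → ∀ (m : ℕ) (η : ℝ), 0 < η → η < 1 →
  Ew D S m (fun w => ind (((filt R w).length : ℝ) < (1 - η) * (m * ((R.card : ℝ) / S.card)))) ≤
    Real.exp (- (η ^ 2 * (m * ((R.card : ℝ) / S.card)) / 2))

/-- **SUP**.  The support.  (1) change `σ` into `τ` one site at a time (sites outside of the support do not matter).
(2) if `z` is relevant for `w ++ w'` at `x`, then `fl w' (flp z σ)` and `fl w' σ` differ at some `y ∈ supp w x` by (1).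
(3) `fl w pl x = fl w mi x` implies that `fl w σ x` does not depend on `σ` (`fl_mono`, `mi ≤ σ ≤ pl`); converse by (1).
(4) a site which is in no letter of `w` is never updated.  (5) if `z ∈ supp w x` then `z ∈ anc w {x}`: see ANC. -/
def SUP_stmt : Prop := ∀ (V U : Type) [Fintype V] [DecidableEq V] [Fintype U] (D : Dyn V U) (d : ℕ), D.Ok d →
  (∀ (w : List (V × U)) (x : V) (σ τ : V → Bool), (∀ z ∈ supp D w x, σ z = τ z) → fl D w σ x = fl D w τ x) ∧
  (∀ (w w' : List (V × U)) (x : V), supp D (w ++ w') x ⊆ supS D w' (supp D w x)) ∧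
  (∀ (w : List (V × U)) (x : V), supp D w x = ∅ ↔ fl D w pl x = fl D w mi x) ∧
  (∀ (w : List (V × U)) (x : V), (∀ a ∈ w, a.1 ≠ x) → ∀ σ, fl D w σ x = σ x)

/-- **SAN** (sandwich).  Induction on `w` (for all `σ, σ'`): sites off `R` are never changed by `filt R w`;
a letter in `R` acts on both (`stp_mono`), a letter off `R` acts only on the true configuration and cannot destroy the inequality,
since the other one is constant `false` (`true`) there. -/
def SAN_stmt : Prop := ∀ (V U : Type) [Fintype V] [DecidableEq V] [Fintype U] (D : Dyn V U) (d : ℕ), D.Ok d →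
  ∀ (R : Finset V) (w : List (V × U)) (σ σ' : V → Bool),
  ((∀ x, x ∉ R → σ' x = false) → σ' ≤ σ → fl D (filt R w) σ' ≤ fl D w σ) ∧
  ((∀ x, x ∉ R → σ' x = true) → σ ≤ σ' → fl D w σ ≤ fl D (filt R w) σ')

/-- **ANC**.  Ancestors (all by induction on the word, for all sets).  (1),(2) monotone and extensive; (3) composition;
(4) union of the ancestors of the points; (5) if `σ = τ` on `anc w A` then `fl w σ = fl w τ` on `A` (use `loc`; for `a :: w` with `a.1 ∈ A`
the configurations `fl w σ`, `fl w τ` agree on `A ∪ nb a.1` by induction), hence `supp w x ⊆ anc w {x}`;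
(6) locality: for `A ⊆ R`, `anc w A ⊆ R ↔ anc (filt R w) A ⊆ R`, and then the sets are equal and `fl w σ = fl (filt R w) σ` on `A`. -/
def ANC_stmt : Prop := ∀ (V U : Type) [Fintype V] [DecidableEq V] [Fintype U] (D : Dyn V U) (d : ℕ), D.Ok d →
  (∀ (w : List (V × U)) (A B : Finset V), A ⊆ B → anc D w A ⊆ anc D w B) ∧
  (∀ (w : List (V × U)) (A : Finset V), A ⊆ anc D w A) ∧
  (∀ (w w' : List (V × U)) (A : Finset V), anc D (w ++ w') A = anc D w' (anc D w A)) ∧
  (∀ (w : List (V × U)) (A : Finset V) (z : V), z ∈ anc D w A ↔ ∃ y ∈ A, z ∈ anc D w {y}) ∧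
  (∀ (w : List (V × U)) (x : V), supp D w x ⊆ anc D w {x}) ∧
  (∀ (R A : Finset V) (w : List (V × U)), A ⊆ R → (anc D w A ⊆ R ↔ anc D (filt R w) A ⊆ R)) ∧
  (∀ (R A : Finset V) (w : List (V × U)), A ⊆ R → anc D w A ⊆ R →
    anc D (filt R w) A = anc D w A ∧ ∀ (σ : V → Bool), ∀ x ∈ A, fl D w σ x = fl D (filt R w) σ x)

/-- **TL** (finite speed).  (1) one letter: `Wa S (∑ z ∈ A', 2^(ds x z)) ≤ (|S| + 4d) ∑ z ∈ A, 2^(ds x z)` with `A' = A ∪ nb a.1` if `a.1 ∈ A`
(`ds x y ≤ ds x a.1 + 1`, `|nb| ≤ 2d`); induction on the word, for all `A`.  (2) same with `1` in place of `2^ds`: `|S| + 2d`.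
(3) if `anc w {x}` is not in `Bl x r` then the sum is at least `2^(r+1)`.  (4) normalised form of (3). -/
def TL_stmt : Prop := ∀ (V U : Type) [Fintype V] [DecidableEq V] [Fintype U] (D : Dyn V U) (d : ℕ), D.Ok d →
  (∀ (S A : Finset V) (x : V) (m : ℕ), Ww D S m (fun w => ∑ z ∈ anc D w A, (2 : ℝ) ^ D.ds x z) ≤
    ((S.card : ℝ) + 4 * d) ^ m * ∑ z ∈ A, (2 : ℝ) ^ D.ds x z) ∧
  (∀ (S A : Finset V) (m : ℕ), Ww D S m (fun w => ((anc D w A).card : ℝ)) ≤ ((S.card : ℝ) + 2 * d) ^ m * A.card) ∧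
  (∀ (S : Finset V) (x : V) (m r : ℕ), Ww D S m (fun w => ind (¬ anc D w {x} ⊆ Bl D x r)) ≤
    (1 / 2) ^ (r + 1) * ((S.card : ℝ) + 4 * d) ^ m) ∧
  (∀ (S : Finset V) (x : V) (m r : ℕ), S.Nonempty → Ew D S m (fun w => ind (¬ anc D w {x} ⊆ Bl D x r)) ≤
    (1 / 2) ^ (r + 1) * Real.exp (4 * d * (m / S.card)))

/-- **HOM**.  Homogeneity: relabel the letters by the automorphism `e` (`Equiv.sum_comp`):
`fl D (w.map (e × id)) σ (e x) = fl D w (σ ∘ e) x`, `supp D (w.map ..) (e x) = (supp D w x).map e`. -/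
def HOM_stmt : Prop := ∀ (V U : Type) [Fintype V] [DecidableEq V] [Fintype U] (D : Dyn V U), D.Hom → ∀ (m : ℕ) (x y : V),
  uu D univ m x = uu D univ m y ∧ GG D m x = GG D m y

/-- **GB**.  Bounds for `GG` (uses SUP, ANC, TL, HOM).  (1) `|supp| ≤ |Bl x r| ind (supp ≠ ∅) + #{z ∈ anc : ds x z > r}` and the last number is at most
`2^(-r-1) ∑_{anc} 2^ds`.  (2) `supp (w ++ w') x ⊆ ⋃_{y ∈ supp w x} supp w' y`, `Ew_append`, HOM (here `w` has `k` letters, `w'` has `m`).
(3) same with `ind (supp ≠ ∅)` for `w'`: `ind (supp (w++w') x ≠ ∅) ≤ ∑_{y ∈ supp w x} ind (supp w' y ≠ ∅)`.  (4) `supp ⊆ anc`, `(1+2d/N)^m ≤ exp`.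
(5) `ind (supp ≠ ∅) ≤ |supp|`. -/
def GB_stmt : Prop := ∀ (V U : Type) [Fintype V] [DecidableEq V] [Fintype U] (D : Dyn V U) (d : ℕ), D.Ok d → D.Hom → ∀ (x : V),
  (∀ m r : ℕ, GG D m x ≤ (2 * (r : ℝ) + 1) ^ d * uu D univ m x +
    (1 / 2) ^ (r + 1) * Real.exp (4 * d * (m / Fintype.card V))) ∧
  (∀ m k : ℕ, GG D (k + m) x ≤ GG D k x * GG D m x) ∧
  (∀ m k : ℕ, uu D univ (k + m) x ≤ GG D k x * uu D univ m x) ∧
  (∀ m : ℕ, GG D m x ≤ Real.exp (2 * d * (m / Fintype.card V))) ∧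
  (∀ m : ℕ, uu D univ m x ≤ GG D m x)

/-- **UM**.  (1) `uu` is nonincreasing in the number of letters (for every region, also for the sum): `Ew_snoc`,
`fl D (w ++ [a]) pl = fl D w (stp a pl) ≤ fl D w pl` and dually; `ind (fl w pl x ≠ fl w mi x) = ind (fl w pl x = true) - ind (fl w mi x = true)`.
(2) between 0 and 1. (3) lower bound: if no letter is at `x` (probability `(1 - 1/N)^m`, by induction) there is disagreement (SUP (4)). -/
def UM_stmt : Prop := ∀ (V U : Type) [Fintype V] [DecidableEq V] [Fintype U] (D : Dyn V U) (d : ℕ), D.Ok d →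
  (∀ (S : Finset V) (x : V) (m k : ℕ), S.Nonempty → m ≤ k → uu D S k x ≤ uu D S m x) ∧
  (∀ (S : Finset V) (x : V) (m : ℕ), S.Nonempty → 0 ≤ uu D S m x ∧ uu D S m x ≤ 1) ∧
  (∀ (x : V) (m : ℕ), (1 - 1 / (Fintype.card V : ℝ)) ^ m ≤ uu D univ m x)

/-- **UR** (region versus torus; uses SPL, BIN, UM, ANC, TL).  `uu univ m y ≥ P(fl (filt R w) pl y ≠ fl (filt R w) mi y) - P(¬ anc w {y} ⊆ R)`
(ANC (7)); by SPL (`R' = univ \ R`, `H w1 w2 = ind (fl w1 pl y ≠ fl w1 mi y)`) the first term is `∑ c, P(len = c) uu R c y ≥ P(len ≤ c) uu R c y` (UM),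
and `P(len ≥ c + 1) ≤ (m |R|/N)/(c+1)` (BIN, Markov).  TL (4). -/
def UR_stmt : Prop := ∀ (V U : Type) [Fintype V] [DecidableEq V] [Fintype U] (D : Dyn V U) (d : ℕ), D.Ok d →
  ∀ (R : Finset V) (y : V) (r m c : ℕ), Bl D y r ⊆ R →
  uu D R c y * (1 - m * ((R.card : ℝ) / Fintype.card V) / (c + 1)) ≤
    uu D univ m y + (1 / 2) ^ (r + 1) * Real.exp (4 * d * (m / Fintype.card V))

/-- **STA** (stationarity).  One letter at `x`: pair `update σ x true`, `update σ x false` and use `HB.rev`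
(`up x u` does not depend on `σ x` is not needed: `rev` holds for both members of the pair, so `r (σ^+) = r(σ^-)` as `W > 0`).
Then induction on the word.  For `cw W A b` only the letters in `A` act (`filt A`), and `stp` with a site in `A` preserves the event `{σ = b off A}`. -/
def STA_stmt : Prop := ∀ (V U : Type) [Fintype V] [DecidableEq V] [Fintype U] (D : Dyn V U) (d : ℕ) (W : (V → Bool) → ℝ),
  D.Ok d → HB D W → ∀ (F : (V → Bool) → ℝ) (m : ℕ),
  (∀ S : Finset V, S.Nonempty → av W (fun σ => Ew D S m fun w => F (fl D w σ)) = av W F) ∧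
  (∀ (A : Finset V) (b : Bool), 0 < Fintype.card V →
    av (cw W A b) (fun σ => Ew D univ m fun w => F (fl D (filt A w) σ)) = av (cw W A b) F)

/-- **FKG**.  Mathlib's `fkg` on the finite distributive lattice `V → Bool` with the weight `W` (positive, `HB.fkg`), the monotone function
`F - min F ≥ 0` and the indicator of `{σ = true off A}` (increasing), resp. of `{σ = false off A}` (decreasing: use `1 - ind`). -/
def FKG_stmt : Prop := ∀ (V U : Type) [Fintype V] [DecidableEq V] [Fintype U] (D : Dyn V U) (W : (V → Bool) → ℝ), HB D W →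
  ∀ (A : Finset V) (F : (V → Bool) → ℝ), Monotone F → av (cw W A false) F ≤ av W F ∧ av W F ≤ av (cw W A true) F

/-- **M1** (uses SAN, STA, FKG, UM).  `w2` the `k` later letters, `w1` the `m` earlier letters; `X = fl w1 σ`, `σ` with weight `W`;
`fl w1 mi ≤ X ≤ fl w1 pl`.  If `fl w1 pl ≠ fl w1 mi` somewhere in `A`: at most `∑_{y ∈ A} uu m y * uu k x` (`fl w2 (..)` is between `fl w2 mi` and `fl w2 pl`).
Otherwise the three configurations agree on `A` and, by SAN, with `c2 = filt A w2`,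
`ind (fl w2 (fl w1 pl) x ≠ fl w2 (fl w1 mi) x) ≤ ind (fl c2 (ext A true X) x = true) - ind (fl c2 (ext A false X) x = true)`, and the right side is `≥ 0` always.
Average over `σ` (STA: `X` has again the weight `W`); `σ ↦ ind (fl c2 (ext A true σ) x = true)` is increasing, so FKG gives
`av W ≤ av (cw W A true)`, on which `ext A true σ = σ`, and STA (2) removes `c2`. -/
def M1_stmt : Prop := ∀ (V U : Type) [Fintype V] [DecidableEq V] [Fintype U] (D : Dyn V U) (d : ℕ) (W : (V → Bool) → ℝ),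
  D.Ok d → HB D W → ∀ (A : Finset V) (x : V) (m k : ℕ),
  uu D univ (k + m) x ≤ dl W A x + (∑ y ∈ A, uu D univ m y) * uu D univ k x

/-- **COA** (coalescence in a region).  For every size `k` there are constants.  `κ = (c0/k)^k`; in `k` letters of `A` the word which sets the sites of `A`
to minus one after the other (fixed order, `u` = the forcing letter) has probability at least `κ`, after it all starts which agree off `A` agree
everywhere.  So the probability that the flow of `m` letters has not coalesced is at most `(1-κ)^⌊m/k⌋ ≤ (1-κ)^(-1) ((1-κ)^(1/k))^m` (if `κ < 1`;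
take `κ/2` instead of `κ`). -/
def COA_stmt : Prop := ∀ (c0 : ℝ) (k : ℕ), 0 < c0 → 0 < k → ∃ C r : ℝ, 0 < C ∧ 0 < r ∧ r < 1 ∧
  ∀ (V U : Type) [Fintype V] [DecidableEq V] [Fintype U] (D : Dyn V U) (d : ℕ), D.Ok d → D.Frc c0 →
  ∀ A : Finset V, A.card = k → ∀ m : ℕ,
    Ew D A m (fun w => ind (∃ σ τ : V → Bool, (∀ x, x ∉ A → σ x = τ x) ∧ fl D w σ ≠ fl D w τ)) ≤ C * r ^ m

/-- **M2** (start; uses SAN, STA, SPL, BIN, COA).  For each `L` there are constants `C, c` (depending on `d, c0, L` only) with the stated bound: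
`uu m x ≤ E [ind (fl (filt A w) pl x = true) - ind (fl (filt A w) mi x = true)]`, `A = Bl x L`, and
`E ind (fl (filt A w) pl x = true) - av (cw W A true)(ind (σ x = true)) ≤ P(filt A w has not coalesced)` by STA (2); the number of letters of `A`
by SPL and the binomial theorem: `∑ c, choose m c p^c (1-p)^(m-c) C r^c = C (1 - p(1-r))^m ≤ C exp (-(1-r) m/N)` as `p = |A|/N ≥ 1/N`. The constant: maximum of those of COA
over `1 ≤ k ≤ (2L+1)^d` (and largest `r`). -/
def M2_stmt : Prop := ∀ (d : ℕ) (c0 : ℝ) (L : ℕ), 0 < c0 → ∃ C c : ℝ, 0 < C ∧ 0 < c ∧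
  ∀ (V U : Type) [Fintype V] [DecidableEq V] [Fintype U] (D : Dyn V U) (W : (V → Bool) → ℝ), D.Ok d → D.Frc c0 → HB D W →
  ∀ (x : V) (m : ℕ), uu D univ m x ≤ dl W (Bl D x L) x + C * Real.exp (-c * (m / Fintype.card V))

/-- **M3A** (uses M1, HOM, UM).  M1 with `k = m`, `A = Bl x L`, `L = ⌊uu^(-1/(2d))/8⌋`: for `uu` small `(2L+1)^d ≤ uu^(-1/2)/2`, so `(2L+1)^d uu² ≤ (1/2) uu^(3/2)`, and
`C/(L+1)^(4d) ≤ C 8^(4d) uu² ≤ (1/2) uu^(3/2)`.  (If `uu = 0` then also `uu (m+m) = 0` by UM.) -/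
def M3A_stmt : Prop := ∀ (d : ℕ) (C : ℝ), 1 ≤ d → 0 ≤ C → ∃ ε₀ : ℝ, 0 < ε₀ ∧ ε₀ < 1 ∧
  ∀ (V U : Type) [Fintype V] [DecidableEq V] [Fintype U] (D : Dyn V U) (W : (V → Bool) → ℝ), D.Ok d → D.Hom → HB D W →
  (∀ (x : V) (L : ℕ), dl W (Bl D x L) x ≤ C / ((L : ℝ) + 1) ^ (4 * d)) →
  ∀ (x : V) (m : ℕ), uu D univ m x ≤ ε₀ → uu D univ (m + m) x ≤ (uu D univ m x) ^ ((3 : ℝ) / 2)

/-- **M3B** (uses M2, M3A, GB, UM, HOM).  `N = |V|`.  Let `ε₀` be as in M3A.  M2 with `L` large and then `τ` large gives `uu (τ N) x ≤ ε₀` for all systems (`τ ≥ 1` depends on `d, c0, C`).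
So `uu (2^k τ N) x ≤ ε₀^((3/2)^k)`; GB (1) with `m = 2^k τ N`, `r = (8d+4) 2^k τ` (so that
`(1/2)^(r+1) exp (4 d 2^k τ) ≤ 1/4`) and `k` large (`(2r+1)^d ε₀^((3/2)^k) → 0`): `GG (τ₀ N) x ≤ 1/2`, `τ₀ = 2^k τ`. -/
def M3B_stmt : Prop := ∀ (d : ℕ) (c0 C : ℝ), 1 ≤ d → 0 < c0 → 0 ≤ C → ∃ τ₀ : ℕ, 0 < τ₀ ∧
  ∀ (V U : Type) [Fintype V] [DecidableEq V] [Fintype U] (D : Dyn V U) (W : (V → Bool) → ℝ), D.Ok d → D.Frc c0 → D.Hom → HB D W →
  (∀ (x : V) (L : ℕ), dl W (Bl D x L) x ≤ C / ((L : ℝ) + 1) ^ (4 * d)) →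
  ∀ (x : V), GG D (τ₀ * Fintype.card V) x ≤ 1 / 2

/-- **M3** (uses M3B, GB, HOM).  `c = log 2/τ₀`, `A = 2 exp (2 d τ₀)`: write `m = q (τ₀ N) + s`, `s < τ₀ N`; GB (2) gives `GG m ≤ (1/2)^q GG s` and GB (4)
`GG s ≤ exp (2 d τ₀)`. -/
def M3_stmt : Prop := ∀ (d : ℕ) (c0 C : ℝ), 1 ≤ d → 0 < c0 → 0 ≤ C → ∃ A c : ℝ, 0 < A ∧ 0 < c ∧
  ∀ (V U : Type) [Fintype V] [DecidableEq V] [Fintype U] (D : Dyn V U) (W : (V → Bool) → ℝ), D.Ok d → D.Frc c0 → D.Hom → HB D W →
  (∀ (x : V) (L : ℕ), dl W (Bl D x L) x ≤ C / ((L : ℝ) + 1) ^ (4 * d)) →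
  ∀ (x : V) (m : ℕ), GG D m x ≤ A * Real.exp (-c * (m / Fintype.card V))

end CWM
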