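import Pool.Agent.helper18.CWM.SpecH
import Pool.Agent.helper18.CWM.SpecA

/-!
# Project cwm (MP_7c3fb3_pr), statements F: asymptotics and assembly
-/

open Finset Filter Topology

namespace CWM

/-- scale of the slabs, `≈ (log N)^(1/(4d))` -/
noncomputable def tq (d N : ℕ) : ℕ := ⌊(Real.log N) ^ ((1 : ℝ) / (4 * d))⌋₊
/-- number of slabs -/
noncomputable def jq (d N : ℕ) (ε : ℝ) : ℕ := ⌊ε / 64 * Real.log N / tq d N⌋₊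
/-- number of letters before stage 1 -/
noncomputable def mq (T : ℕ) (ε : ℝ) : ℕ := ⌊(1 + ε / 2) * T⌋₊
/-- number of letters at which `uu` is used -/
noncomputable def m2q (T : ℕ) (ε : ℝ) : ℕ := ⌈(1 + ε / 8) * T⌉₊
/-- letters per site left for the final comparison -/
noncomputable def thq (d N T : ℕ) (ε : ℝ) : ℝ := (1 - ε / 16) * (mq T ε / N) - jq d N ε * tq d N
/-- bound for `uu` in the final comparison -/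
noncomputable def ubq (d N T : ℕ) (A c ε : ℝ) : ℝ :=
  (1 / √(N : ℝ) * (A * Real.exp (-c * ((m2q T ε - T) / N))) +
    (1 / 2) ^ (tq d N ^ (8 * d) + 1) * Real.exp (4 * d * (m2q T ε / N))) / (ε / 16)
/-- probability that a site is open -/
noncomputable def qq (d N : ℕ) (A' c' : ℝ) : ℝ := A' * Real.exp (-c' * tq d N)

/-- **AS1** (conditions).  `L = log N`, `τ = tq → ∞`, `τ^(4d) ≤ L < (τ+1)^(4d) ≤ 2^(4d) τ^(4d)`; `jq τ ≤ ε L/64 ≤ (ε/16) T/N`; `jq ≤ L/τ`, so `jq τ^(2d) (..) ≤ C τ^(6d) ≤ τ^(8d)`;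
`(2 τ^(8d))^(2d) ≤ 2^(2d) L^(4d) ≤ N`.  `thq ≥ ((1-ε/16)(1+ε/2) - ε/16) T/N - 1/N ≥ (1 + 5ε/16) T/N - 1/N` and `T/N ≥ L/4`; `vv ≤ C τ^(3d) ≤ C L`, `exp (-thq) ≤ e N^(-1/4)`;
`m2q/N ≤ (1+ε/8) T/N + 1/N ≤ (1-ε/16)(1+5ε/16 - small) T/N`. -/
def AS1_stmt : Prop := ∀ (d : ℕ) (ε K : ℝ), 1 ≤ d → 0 < ε → ε < 1 → 0 < K → ∃ N₀ : ℕ, ∀ N T : ℕ, N₀ ≤ N →
  N * Real.log N / 4 ≤ T → T ≤ K * (N * Real.log N) →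
  1 ≤ tq d N ∧ 1 ≤ jq d N ε ∧
  (jq d N ε * tq d N ^ (2 * d) + 1) * (4 * ((8 * d + 2) * tq d N) + 1) ≤ tq d N ^ (8 * d) ∧
  (2 * tq d N ^ (8 * d)) ^ (2 * d) ≤ N ∧ 1 ≤ thq d N T ε ∧
  (vv d (tq d N) (tq d N ^ (2 * d)) : ℝ) * Real.exp (-(thq d N T ε - 1)) ≤ 1 / 2 ∧
  (m2q T ε / N : ℝ) / thq d N T ε ≤ 1 - ε / 16 ∧ T ≤ m2q T ε ∧ ((tq d N * N + mq T ε : ℕ) : ℝ) ≤ (1 + ε) * T - 1

/-- **AS2** (stage 1).  Logarithm: `2 log N + log (e τ) + s₁ (log (1 + 2 s₁ (..)^d) + log A') - c' τ s₁` with `s₁ = (τ+1)^(4d) ≥ log N` and `log (..) = O(log τ)`: tends to `-∞`. -/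
def AS2_stmt : Prop := ∀ (d : ℕ) (A' c' ω : ℝ), 1 ≤ d → 0 < A' → 0 < c' → 0 < ω → ∃ N₀ : ℕ, ∀ N : ℕ, N₀ ≤ N →
  N * ((1 + 2 * ((tq d N + 1) ^ (4 * d) : ℕ) * (2 * (4 * ((tq d N ^ (8 * d) : ℕ) : ℝ) + 6 * ((8 * d + 2) * tq d N) + 2) + 1) ^ d) ^ (tq d N + 1) ^ (4 * d) *
    (Real.exp 1 * (tq d N * N)) * qq d N A' c' ^ (tq d N + 1) ^ (4 * d)) ≤ ω

/-- **AS3** (paths).  `mq/N ≤ 2 K log N`, `τ^(8d) ≥ c (log N)^2`. -/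
def AS3_stmt : Prop := ∀ (d : ℕ) (ε K ω : ℝ), 1 ≤ d → 0 < ε → ε < 1 → 0 < K → 0 < ω → ∃ N₀ : ℕ, ∀ N T : ℕ, N₀ ≤ N →
  N * Real.log N / 4 ≤ T → T ≤ K * (N * Real.log N) →
  N * ((1 / 2) ^ (2 * tq d N ^ (8 * d) + 1) * Real.exp (4 * d * (mq T ε / N))) ≤ ω

/-- **AS4** (number of letters).  `mq/N ≥ log N/8`, `τ^(8d) → ∞`. -/
def AS4_stmt : Prop := ∀ (d : ℕ) (ε K ω : ℝ), 1 ≤ d → 0 < ε → ε < 1 → 0 < K → 0 < ω → ∃ N₀ : ℕ, ∀ N T : ℕ, N₀ ≤ N →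
  N * Real.log N / 4 ≤ T → T ≤ K * (N * Real.log N) →
  N * Real.exp (-((ε / 16) ^ 2 * (mq T ε * (2 * ((tq d N ^ (8 * d) : ℕ) : ℝ)) / N) / 2)) ≤ ω

/-- **AS5** (stage 2).  `J = jq`, `M = τ^(2d)`: logarithm `log N + J M (O(log τ) - c' τ) + J O(log τ)` and `J M τ ≥ c τ^(2d) log N`. -/
def AS5_stmt : Prop := ∀ (d : ℕ) (ε A' c' ω : ℝ), 1 ≤ d → 0 < ε → ε < 1 → 0 < A' → 0 < c' → 0 < ω → ∃ N₀ : ℕ, ∀ N : ℕ, N₀ ≤ N →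
  N * PP d (tq d N) (jq d N ε) (tq d N ^ (2 * d)) (tq d N ^ (8 * d))
    ((tq d N + 1) ^ (4 * d) * (8 * ((8 * d + 2) * tq d N) + 3) ^ d) (qq d N A' c') ≤ ω

/-- **AS6** (final comparison).  `vv ≤ C τ^(3d) ≤ C (log N)^(3/4)`, so `(c0⁻¹)^vv vv² = N^{o(1)}`; `ubq ≤ C (N^(-1/2) exp (-c ε T/(8N)) + small)`, `T/N ≥ log N/4`, so
`N ubq² ≤ C N^(-c ε/16)`. -/
def AS6_stmt : Prop := ∀ (d : ℕ) (ε K A c c0 ω : ℝ), 1 ≤ d → 0 < ε → ε < 1 → 0 < K → 0 < A → 0 < c → 0 < c0 → c0 ≤ 1 → 0 < ω →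
  ∃ N₀ : ℕ, ∀ N T : ℕ, N₀ ≤ N → N * Real.log N / 4 ≤ T → T ≤ K * (N * Real.log N) →
  N * bb d (tq d N) (tq d N ^ (2 * d)) c0 (ubq d N T A c ε) ≤ ω

/-- **UBU** (uses UR, GB, HOM).  UR with `m = m₂`, `r = ρ`: `m₂ |R|/(N (c+1)) ≤ (m₂/N)/θ ≤ 1 - κ`; `uu univ m₂ ≤ GG (m₂ - T) uu T` (GB (3), `uu univ T y = uu univ T x`). -/
def UBU_stmt : Prop := ∀ (V U : Type) [Fintype V] [DecidableEq V] [Fintype U] (D : Dyn V U) (d : ℕ) (A c : ℝ), D.Ok d → D.Hom → Dec D A c →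
  ∀ (x : V) (T m₂ ρ : ℕ) (κ θ : ℝ), uu D univ T x ≤ 1 / √(Fintype.card V : ℝ) → T ≤ m₂ → 0 < κ → 0 < θ →
  (m₂ / Fintype.card V : ℝ) / θ ≤ 1 - κ →
  ∀ (R : Finset V) (y : V) (c₁ : ℕ), Bl D y ρ ⊆ R → θ * R.card ≤ c₁ + 1 →
  uu D R c₁ y ≤ (1 / √(Fintype.card V : ℝ) * (A * Real.exp (-c * ((m₂ - T) / Fintype.card V))) +
    (1 / 2) ^ (ρ + 1) * Real.exp (4 * d * (m₂ / Fintype.card V))) / κ

/-- **UB** (uses QB, FIB, UBU, HG, UM, GB, AS1, .., AS6).  `N = |V|`.  UM (3): `(1-1/N)^T ≤ N^(-1/2)` gives `T ≥ N log N/4` for `N` large; `N^(-1/2) < uu (T-1) ≤ GG (T-1) ≤ A exp (-c (T-1)/N)` gives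
`T ≤ K N log N` with `K = 1/c + 1`.  FIB with `τ = tq`, `J = jq`, `M = τ^(2d)`, `ρ = τ^(8d)`, `s₁ = (τ+1)^(4d)`, `m = mq`, `q = qq`, `η = κ = ε/16`, `θ = thq`, `ub = ubq` (UBU with `m₂ = m2q`), and
HG (3)-(4) (monotone in the number of letters: `τ N + m ≤ mt`). -/
def UB_stmt : Prop := ∀ (d : ℕ) (A c c0 ε ω : ℝ), 1 ≤ d → 0 < A → 0 < c → 0 < c0 → c0 ≤ 1 → 0 < ε → ε < 1 → 0 < ω → ∃ N₀ : ℕ,
  ∀ (V U : Type) [Fintype V] [DecidableEq V] [Fintype U] (D : Dyn V U), D.Ok d → D.Hom → D.Frc c0 → Dec D A c → Grw D d →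
  N₀ ≤ Fintype.card V → ∀ (x : V) (T mt : ℕ), (∀ m < T, 1 / √(Fintype.card V : ℝ) < uu D univ m x) →
  uu D univ T x ≤ 1 / √(Fintype.card V : ℝ) → (1 + ε) * T - 1 ≤ mt → gH D univ mt univ ≤ ω

/-- **UPT** (uses TGL, HE2, HG, STA, THB, TOK).  `msk univ = id`, so `law univ t univ σ η = (glauber^t) σ η`; `gibbs η = ∑ σ', gibbs σ' (glauber^t) σ' η` (STA (1) with `F = ind (· = η)`), so for every `σ` the distance to `gibbs` is at most the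
maximum over `σ'` of the distance of the two laws, HE2 (2). -/
def UPT_stmt : Prop := ∀ (d n : ℕ) (β h : ℝ), 0 ≤ β → ∀ t : ℕ,
  CU.dTV d (n + 3) β h t ≤ √(2 * gH (tD d (n + 3) β h) univ t univ)

/-- **LPT** (uses TGL, HG, TOK).  Supremum over a finite set, `gibbs = wt/∑ wt`; two probabilities. -/
def LPT_stmt : Prop := ∀ (d n : ℕ) (β h : ℝ), 0 ≤ β → ∀ t : ℕ, 0 ≤ CU.dTV d (n + 3) β h t ∧ CU.dTV d (n + 3) β h t ≤ 1 ∧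
  ∀ σ : CU.Conf d (n + 3), (∑ η : CU.Conf d (n + 3), |Ew (tD d (n + 3) β h) univ t (fun w => ind (fl (tD d (n + 3) β h) w σ = η)) -
    CU.wt β h η / ∑ ξ : CU.Conf d (n + 3), CU.wt β h ξ|) / 2 ≤ CU.dTV d (n + 3) β h t

/-- **CUT** (uses M3, UB, LBT, UPT, LPT, TOK, THM, TFR, THB, TGR, GB, UM).  `N = (n+3)^d`, `T n` = least `m` with `uu univ m 0 ≤ 1/√N` (exists: `uu ≤ GG → 0`), `τ n = T n`.  `T n → ∞`: `(1-1/N)^(T n) ≤ 1/√N`.  LBT with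
`K = ⌊(1-ε) T⌋`, LPT; UB with `mt = ⌊(1+ε) T⌋`, UPT. -/
def CUT_stmt : Prop := ∀ (d : ℕ) (β h : ℝ), 1 ≤ d → 0 ≤ β → (∃ C : ℝ, 0 ≤ C ∧ ∀ (n : ℕ) (x : CU.Site d (n + 3)) (L : ℕ),
  dl (CU.wt β h : CU.Conf d (n + 3) → ℝ) (Bl (tD d (n + 3) β h) x L) x ≤ C / ((L : ℝ) + 1) ^ (4 * d)) → CU.Cutoff d β h

/-- the theorem -/
def NZF_stmt : Prop := ∀ (d : ℕ) (β h : ℝ), 1 ≤ d → 0 ≤ β → h ≠ 0 → CU.Cutoff d β h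

end CWM
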