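import Pool.Agent.helper18.CWM.SpecL

/-!
# Project cwm (MP_7c3fb3_pr), statements H: upper bound for the mixing time
-/

open Finset Filter Topology

namespace CWM

section
variable {V U : Type} [Fintype V] [DecidableEq V] [Fintype U]

/-- image of a law -/
noncomputable def pus {X Y : Type} [Fintype X] (f : X → Y) (P : X → ℝ) : Y → ℝ := fun y => ∑ x, P x * ind (f x = y)

/-- the configuration on the second sets computed with the letters of the first sets only -/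
def psi (D : Dyn V U) : List (Finset V × Finset V) → List (V × U) → (V → Bool) → (V → Bool)
  | [], _, _ => mi
  | p :: L, w, σ => fun x => if x ∈ p.2 then fl D (filt p.1 w) σ x else psi D L w σ x

/-- iterated supports; the head of the list is the last slab in time -/
noncomputable def itS (D : Dyn V U) : List (List (V × U)) → Finset V → Finset V
  | [], A => A
  | w :: ws, A => itS D ws (supS D w A)

/-- no iterated support is good -/
def NG (D : Dyn V U) (good : Finset V → Prop) : List (List (V × U)) → Finset V → Prop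
  | [], _ => True
  | w :: ws, A => ¬ good (supS D w A) ∧ NG D good ws (supS D w A)

/-- expectation over `J` independent words of `a` letters of `S` -/
noncomputable def Es (D : Dyn V U) (S : Finset V) (a : ℕ) : ℕ → (List (List (V × U)) → ℝ) → ℝ
  | 0, F => F []
  | J + 1, F => Ew D S a fun w => Es D S a J fun ws => F (w :: ws)

/-- explored sequences (the head is the last element): pairs (site, index of the slab), open, separated in each slab, each one a root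
(`k = 0`, site in `C`) or within `r₂` of an earlier one in the same slab or in the slab before -/
def Xp (D : Dyn V U) (l r₂ : ℕ) (ws : List (List (V × U))) (C : Finset V) : List (V × ℕ) → Prop
  | [] => True
  | a :: p => Xp D l r₂ ws C p ∧ (∃ w, ws[a.2]? = some w ∧ Opn D l w a.1) ∧
      (∀ q ∈ p, q.2 = a.2 → 2 * l < D.ds q.1 a.1) ∧
      ((a.2 = 0 ∧ a.1 ∈ C) ∨ ∃ q ∈ p, D.ds q.1 a.1 ≤ r₂ ∧ (a.2 = q.2 ∨ a.2 = q.2 + 1))

/-- balls are not too small -/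
def Grw (D : Dyn V U) (d : ℕ) : Prop := ∀ (x : V) (r : ℕ), r ^ (2 * d) ≤ Fintype.card V → r ≤ (Bl D x r).card

end

/-! ## Hellinger distance -/

/-- **HE1**.  (1) `√(ab) + √(cd) ≤ √((a+c)(b+d))` (Cauchy-Schwarz), so `hel` is subadditive; (2) homogeneous; (3) data processing from (1): group the points of a fibre;
(4) `(√a - √b)² ≤ |a - b|`; (5) `(√a-√b)² ≤ a + b`. -/
def HE1_stmt : Prop :=
  (∀ (X ι : Type) [Fintype X] (s : Finset ι) (P Q : ι → X → ℝ), (∀ i x, 0 ≤ P i x) → (∀ i x, 0 ≤ Q i x) →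
    hel (fun x => ∑ i ∈ s, P i x) (fun x => ∑ i ∈ s, Q i x) ≤ ∑ i ∈ s, hel (P i) (Q i)) ∧
  (∀ (X : Type) [Fintype X] (P Q : X → ℝ) (c : ℝ), 0 ≤ c → hel (fun x => c * P x) (fun x => c * Q x) = c * hel P Q) ∧
  (∀ (X Y : Type) [Fintype X] [Fintype Y] (f : X → Y) (P Q : X → ℝ), (∀ x, 0 ≤ P x) → (∀ x, 0 ≤ Q x) →
    hel (pus f P) (pus f Q) ≤ hel P Q) ∧
  (∀ (X : Type) [Fintype X] (P Q : X → ℝ), (∀ x, 0 ≤ P x) → (∀ x, 0 ≤ Q x) →
    0 ≤ hel P Q ∧ hel P Q ≤ (∑ x, |P x - Q x|) / 2 ∧ hel P Q ≤ (∑ x, P x + ∑ x, Q x) / 2)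

/-- **HE2**.  (1) products of measures with masses `a`, `b`: `∑ √(P1 Q1) = a - hel`, and `ab - (a-s)(b-t) ≤ b s + a t`.  (2) Cauchy-Schwarz
`(∑ |P-Q|)² ≤ ∑ (√P-√Q)² ∑ (√P+√Q)² ≤ 2 hel · 4`.  (3) `(a+b+c)² ≤ 3 (a²+b²+c²)`.  (4) `|√P - √Q| = |P-Q|/(√P+√Q) ≤ |P-Q|/(2√q)` on `Y`, `∑ (P-Q)² ≤ (∑|P-Q|)²`. -/
def HE2_stmt : Prop :=
  (∀ (X Y : Type) [Fintype X] [Fintype Y] (P1 Q1 : X → ℝ) (P2 Q2 : Y → ℝ) (a b : ℝ), (∀ x, 0 ≤ P1 x) → (∀ x, 0 ≤ Q1 x) →
    (∀ x, 0 ≤ P2 x) → (∀ x, 0 ≤ Q2 x) → ∑ x, P1 x = a → ∑ x, Q1 x = a → ∑ y, P2 y = b → ∑ y, Q2 y = b →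
    hel (fun z : X × Y => P1 z.1 * P2 z.2) (fun z : X × Y => Q1 z.1 * Q2 z.2) ≤ b * hel P1 Q1 + a * hel P2 Q2) ∧
  (∀ (X : Type) [Fintype X] (P Q : X → ℝ), (∀ x, 0 ≤ P x) → (∀ x, 0 ≤ Q x) → ∑ x, P x = 1 → ∑ x, Q x = 1 →
    ((∑ x, |P x - Q x|) / 2) ^ 2 ≤ 2 * hel P Q) ∧
  (∀ (X : Type) [Fintype X] (P P' Q' Q : X → ℝ), hel P Q ≤ 3 * (hel P P' + hel P' Q' + hel Q' Q)) ∧
  (∀ (X : Type) [Fintype X] (P Q : X → ℝ) (Y : Finset X) (q : ℝ), 0 < q → (∀ x ∈ Y, q ≤ P x ∧ q ≤ Q x) →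
    (∀ x, x ∉ Y → P x = 0 ∧ Q x = 0) → hel P Q ≤ 1 / (8 * q) * (∑ x, |P x - Q x|) ^ 2)

/-- **HEW** (uses HE1).  `Ww` and `Ew` are iterated finite sums with nonnegative weights: induction on `m`, HE1 (1), (2). -/
def HEW_stmt : Prop := ∀ (V U : Type) [Fintype V] [DecidableEq V] [Fintype U] (D : Dyn V U), (∀ u, 0 ≤ D.nu u) →
  ∀ (X : Type) [Fintype X] (S : Finset V) (m : ℕ) (P Q : List (V × U) → X → ℝ), (∀ w x, 0 ≤ P w x) → (∀ w x, 0 ≤ Q w x) →
  hel (fun x => Ww D S m fun w => P w x) (fun x => Ww D S m fun w => Q w x) ≤ Ww D S m (fun w => hel (P w) (Q w)) ∧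
  hel (fun x => Ew D S m fun w => P w x) (fun x => Ew D S m fun w => Q w x) ≤ Ew D S m (fun w => hel (P w) (Q w))

/-- **HG** (uses HE1, HEW, SUP).  Basic properties of `gH`.  (1) supremum over a finite set; (2) laws are probabilities, so `gH ≤ 1`; (3) `Ew_snoc`: `law (m+1) σ` is the average over the first letter `a` of
`law m (stp a σ)`, HEW with the same letter for both starts; (4) `law (s+m) A σ` is the average over the `s` later letters `w` of the image of `law m (supS w A) σ` under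
`ζ ↦ msk A (fl w ζ)` (SUP (1): `fl w ξ` on `A` depends only on `ξ` on `supS w A`); HEW, HE1 (3); (5) clear. -/
def HG_stmt : Prop := ∀ (V U : Type) [Fintype V] [DecidableEq V] [Fintype U] (D : Dyn V U) (d : ℕ), D.Ok d →
  ∀ (S : Finset V), S.Nonempty →
  (∀ (m : ℕ) (A : Finset V), (∀ σ σ' : V → Bool, hel (law D S m A σ) (law D S m A σ') ≤ gH D S m A) ∧
    (∀ b : ℝ, (∀ σ σ' : V → Bool, hel (law D S m A σ) (law D S m A σ') ≤ b) → gH D S m A ≤ b)) ∧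
  (∀ (m : ℕ) (A : Finset V), 0 ≤ gH D S m A ∧ gH D S m A ≤ 1 ∧
    ∀ σ : V → Bool, (∀ η, 0 ≤ law D S m A σ η) ∧ ∑ η, law D S m A σ η = 1) ∧
  (∀ (m k : ℕ) (A : Finset V), m ≤ k → gH D S k A ≤ gH D S m A) ∧
  (∀ (s m : ℕ) (A : Finset V), gH D S (s + m) A ≤ Ew D S s fun w => gH D S m (supS D w A)) ∧
  (∀ m : ℕ, gH D S m ∅ = 0)

/-- **I2A** (uses SPL, HE1, HE2, HEW, HG).  Induction on the list (for all `T`).  `p :: L`, `R = p.1`, `T = R ∪ (T \ R)`: by SPL the unnormalised law is the sum over `c` of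
`choose m c` times the image under `(ζ, ξ) ↦ (ζ on p.2, ξ elsewhere)` of the product of `η ↦ Ww R c (ind (msk p.2 (fl w1 σ) = η))` (mass `|R|^c`, `= |R|^c law`) and
`η ↦ Ww (T \ R) (m-c) (ind (psi L w2 σ = η))` (mass `|T \ R|^(m-c)`; `filt R_i (filt (T \ R) w) = filt R_i w`); HE1 (1),(2),(3), HE2 (1), the induction hypothesis for `T \ R`, and
SPL again for the functions `gH R (filt R w).length p.2` and `gH R_i (filt R_i w).length C_i`. -/
def I2A_stmt : Prop := ∀ (V U : Type) [Fintype V] [DecidableEq V] [Fintype U] (D : Dyn V U) (d : ℕ), D.Ok d →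
  ∀ (L : List (Finset V × Finset V)) (T : Finset V), (∀ p ∈ L, p.1 ⊆ T ∧ p.1.Nonempty ∧ p.2 ⊆ p.1) →
  L.Pairwise (fun p q => Disjoint p.1 q.1) → ∀ (m : ℕ) (σ σ' : V → Bool),
  hel (fun η => Ww D T m fun w => ind (psi D L w σ = η)) (fun η => Ww D T m fun w => ind (psi D L w σ' = η)) ≤
    (L.map fun p => Ww D T m fun w => gH D p.1 (filt p.1 w).length p.2).sum

/-- **I2** (uses I2A, HE1, HE2, HG, ANC, TL).  `msk A (fl w σ) = psi L w σ` unless `anc w {x}` leaves `Bl x ρ` for some `x ∈ A` (ANC (7), `Bl x ρ ⊆ p.1` for `x ∈ p.2`): each of the two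
comparisons costs `hel ≤ (1/2) ∑ |..| ≤ P(..) ≤ |A| (1/2)^(ρ+1) exp (4 d m/N)` (TL (4)); HE2 (3); I2A with `T = univ`, divided by `N^m`. -/
def I2_stmt : Prop := ∀ (V U : Type) [Fintype V] [DecidableEq V] [Fintype U] (D : Dyn V U) (d : ℕ), D.Ok d →
  ∀ (L : List (Finset V × Finset V)) (ρ : ℕ) (A : Finset V), (∀ p ∈ L, BS D p.2 ρ ⊆ p.1 ∧ p.2.Nonempty) →
  L.Pairwise (fun p q => Disjoint p.1 q.1) → (∀ x, x ∈ A ↔ ∃ p ∈ L, x ∈ p.2) → Nonempty V → ∀ m : ℕ,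
  gH D univ m A ≤ 3 * (2 * (A.card * ((1 / 2) ^ (ρ + 1) * Real.exp (4 * d * (m / Fintype.card V)))) +
    (L.map fun p => Ew D univ m fun w => gH D p.1 (filt p.1 w).length p.2).sum)

/-! ## Poissonisation -/

/-- **FAC**.  `f a = a! e^a/a^a`: `f 1 = e` and `f (a+1)/f a = e (1+1/a)^(-a) ≤ (a+1)/a` since `e ≤ (1+1/a)^(a+1)`. -/
def FAC_stmt : Prop := ∀ a : ℕ, 1 ≤ a → (a.factorial : ℝ) * Real.exp a ≤ Real.exp 1 * a * (a : ℝ) ^ a

/-- **PZ** (uses SPL, FAC).  By induction on the list, for all `S`: `∑_{a' ≤ a} t^a'/a'! Ww S a' (∏ F_i (filt B_i w)) ≤ ∏ (∑_{c ≤ a} t^c/c! Ww B_i c F_i) · exp (t |S \ ⋃ B_i|)`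
(SPL with `R = B_1`, `R' = S \ B_1`: the left side is a sum over `c + a'' ≤ a` of a product; empty list: `∑ (t|S|)^a'/a'! ≤ exp (t |S|)`, `Real.sum_le_exp_of_nonneg`).  Keep only `a' = a`, divide by
`(t |S|)^a/a! = a^a/a!`, FAC. -/
def PZ_stmt : Prop := ∀ (V U : Type) [Fintype V] [DecidableEq V] [Fintype U] (D : Dyn V U),
  (∀ u, 0 ≤ D.nu u) → (∑ u, D.nu u = 1) → ∀ (L : List (Finset V × (List (V × U) → ℝ))) (S : Finset V),
  (∀ p ∈ L, p.1 ⊆ S ∧ ∀ w, 0 ≤ p.2 w) → L.Pairwise (fun p q => Disjoint p.1 q.1) →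
  ∀ (t : ℝ) (a : ℕ), 0 ≤ t → 1 ≤ a → t * S.card = a →
  Ew D S a (fun w => (L.map fun p => p.2 (filt p.1 w)).prod) ≤
    Real.exp 1 * a * (L.map fun p => Pz D p.1 t a p.2).prod

/-- **POI**.  For `c < x/2`: `x^c ≤ (x/2)^c 2^(x/2)`, so the sum is at most `e^(-x) 2^(x/2) e^(x/2)` and `1 - 1/2 - (log 2)/2 > 1/8`. -/
def POI_stmt : Prop := ∀ (x : ℝ) (a : ℕ), 0 ≤ x →
  Real.exp (-x) * ∑ c ∈ (range (a + 1)).filter (fun c : ℕ => (c : ℝ) < x / 2), x ^ c / (c.factorial : ℝ) ≤ Real.exp (-x / 8)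

/-- **QB** (uses POI, UR, UM, TL, GB).  `B = Bl y l`, `l = (8d+2) τ`.  `ind Opn ≤ ind (disagreement) + ind (¬ anc w {y} ⊆ B)` for words of `B`.  Second: TL (3) gives at most
`(1/2)^(l+1) exp (-τ|B|) ∑ (τ(|B|+4d))^c/c! ≤ (1/2)^(l+1) exp (4 d τ) ≤ exp (-τ)`.  First: `Ww B c = |B|^c uu B c y`; the `c < τ|B|/2` have weight `≤ exp (-τ|B|/8)` (POI, `|B| ≥ 1`); for `c ≥ τ|B|/2`, UM and UR with
`R = B`, `r = l`, `m = ⌊τ N/4⌋`: the factor is at least `1/2`, so `uu B c y ≤ 2 (uu univ m y + exp (-τ))` and `uu univ m ≤ GG m ≤ A exp (c - c τ/4)`. -/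
def QB_stmt : Prop := ∀ (d : ℕ) (A c : ℝ), 1 ≤ d → 0 < A → 0 < c → ∃ A' c' : ℝ, 0 < A' ∧ 0 < c' ∧
  ∀ (V U : Type) [Fintype V] [DecidableEq V] [Fintype U] (D : Dyn V U), D.Ok d → D.Hom → Dec D A c →
  ∀ (τ a : ℕ) (y : V), 1 ≤ τ →
  Pz D (Bl D y ((8 * d + 2) * τ)) τ a (fun w => ind (Opn D ((8 * d + 2) * τ) w y)) ≤ A' * Real.exp (-c' * τ)

/-! ## exploration -/

/-- **CH** (uses SUP, SAN, ANC).  If the support of `x` is not empty, `x` is open (sandwich).  Let `z ∈ anc w {x}`.  LEMMA E (induction on `w`, for all `x ∈ Bl x0 l`): if `z ∈ anc w {x}` then `ds x0 z ≤ l` or `w = w1 ++ w2` and there is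
`x1` with `ds x0 x1 = l + 1`, `x1 ∈ anc (filt (Bl x0 l) w1) {x}`, `z ∈ anc w2 {x1}` (anc is additive in the set).  Then (strong induction on the length of `w`): if `anc w {x} ⊆ Bl x l` done; otherwise Lemma E with `x0 = x`; `x` is fast for `w`, i.e. `¬ anc (filt (Bl x l) w) {x} ⊆ Bl x l`
(ANC (6), monotonicity), and fast for `w2` implies fast for `w1 ++ w2`.  This gives `y_0 = x, ..., y_k` with `y_0, .., y_{k-1}` fast, steps `≤ l+1`, `ds y_k z ≤ l`; if `y_k` is not fast and `k ≥ 1` drop it. -/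
def CH_stmt : Prop := ∀ (V U : Type) [Fintype V] [DecidableEq V] [Fintype U] (D : Dyn V U) (d : ℕ), D.Ok d →
  ∀ (l : ℕ) (w : List (V × U)) (x z : V), z ∈ supp D w x →
  Opn D l w x ∧ ∃ y : V, Relation.ReflTransGen (fun y y' => Opn D l w y ∧ Opn D l w y' ∧ D.ds y y' ≤ l + 1) x y ∧
    D.ds y z ≤ 2 * l + 1

/-- **EXD** (uses CH).  Let `T` be an explored sequence of maximal length (lengths are `< J M`: tails of explored sequences are explored).  Every reachable pair is within `2l` of an element of `T` in its slab: reachable = (`y ∈ C` open in slab `0`), from `(y,k)` to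
`(y',k)` open with `ds ≤ l+1`, from `(y,k)` to `(y',k+1)` open with `ds ≤ 2l+1`; otherwise it could be appended (`0`, `3l+1`, `4l+1 ≤ r₂ = 4l+1`).  By CH the `(k+1)`-st iterated support is within `2l+1` of the reachable sites of slab `k`,
so within `4l+1` of the sites of `T` in slab `k`; as `|T| < J M` some slab `k < J` has less than `M` of them.  The `i`-th element of `T` is within `i r₂` of `C`. -/
def EXD_stmt : Prop := ∀ (V U : Type) [Fintype V] [DecidableEq V] [Fintype U] (D : Dyn V U) (d : ℕ), D.Ok d →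
  ∀ (l J M : ℕ) (ws : List (List (V × U))) (C : Finset V), ws.length = J → 1 ≤ J → 1 ≤ M →
  (¬ ∃ p, Xp D l (4 * l + 1) ws C p ∧ p.length = J * M) →
  ∃ k < J, (itS D (ws.take (k + 1)) C).card ≤ M * (8 * l + 3) ^ d ∧
    itS D (ws.take (k + 1)) C ⊆ BS D C ((J * M + 1) * (4 * l + 1))

/-- **PRX** (uses PZ).  Candidates: lists `(y_s,k_s), .., (y_1,k_1)`, each a root or within `r₂` of an earlier one with `k` equal or one more; at most
`(|C| + 2 s (2 r₂+1)^d)^s` of them, all sites in `BS C (s r₂)`.  For a fixed list which is `2l`-separated in each slab the expectation of the product of the indicators of `Opn` factorises over the slabs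
(`Es`, induction on `J`: pairs with index `0` belong to the first word, the others are shifted) and in each slab PZ (`Opn D l w y` depends on `filt (Bl y l) w` only, the balls are disjoint, contained in `S`) gives
`e a q^(number)` (also `1 ≤ e a`). -/
def PRX_stmt : Prop := ∀ (V U : Type) [Fintype V] [DecidableEq V] [Fintype U] (D : Dyn V U) (d : ℕ), D.Ok d →
  ∀ (S C : Finset V) (τ J s l r₂ : ℕ) (q : ℝ), S.Nonempty → 1 ≤ τ → 0 ≤ q →
  (∀ y ∈ BS D C (s * r₂), Bl D y l ⊆ S ∧ Pz D (Bl D y l) τ (τ * S.card) (fun w => ind (Opn D l w y)) ≤ q) →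
  Es D S (τ * S.card) J (fun ws => ind (∃ p, Xp D l r₂ ws C p ∧ p.length = s)) ≤
    ((C.card : ℝ) + 2 * s * (2 * r₂ + 1) ^ d) ^ s * (Real.exp 1 * (τ * S.card)) ^ J * q ^ s

/-- **EXC** (uses CH).  Classes of `supS w univ` for the relation: joined by a chain in the set with steps `≤ 4ρ`.  Let `C` be a class, `z₀ ∈ C`, `y₀` an open site within `2l+1` of `z₀` (CH), `T` an explored sequence of maximal length `< s₁` from the root
`y₀` for the single word `[w]` (all indices are `0`).  Along a chain of `C` each point `z` has an open `y` within `2l+1`; by induction `y` is within `2l` of `T` (otherwise append it: it is within `4ρ + 2(2l+1) + 2l` of `T`, the radius).  So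
`C` is in the `(4l+1)`-neighbourhood of the sites of `T`. -/
def EXC_stmt : Prop := ∀ (V U : Type) [Fintype V] [DecidableEq V] [Fintype U] (D : Dyn V U) (d : ℕ), D.Ok d →
  ∀ (l ρ s₁ : ℕ) (w : List (V × U)), 1 ≤ s₁ →
  (∀ y₀ : V, ¬ ∃ p, Xp D l (4 * ρ + 6 * l + 2) [w] {y₀} p ∧ p.length = s₁) →
  ∃ L : List (Finset V), (∀ C ∈ L, C.Nonempty ∧ C.card ≤ s₁ * (8 * l + 3) ^ d) ∧
    L.Pairwise (fun C C' => ∀ x ∈ C, ∀ y ∈ C', 4 * ρ < D.ds x y) ∧ ∀ x, x ∈ supS D w univ ↔ ∃ C ∈ L, x ∈ C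

/-- **S2A** (uses HG).  Induction on `J` for all `C`: HG (5) with the first (latest) slab; if `supS w C` is good use monotonicity (HG (4)) and the hypothesis, otherwise the induction hypothesis. -/
def S2A_stmt : Prop := ∀ (V U : Type) [Fintype V] [DecidableEq V] [Fintype U] (D : Dyn V U) (d : ℕ), D.Ok d →
  ∀ (R : Finset V) (good : Finset V → Prop) (a c J : ℕ) (b : ℝ), R.Nonempty → 0 ≤ b → (∀ A, good A → gH D R c A ≤ b) →
  ∀ C : Finset V, gH D R (J * a + c) C ≤ b + Es D R a J fun ws => ind (NG D good ws C)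

/-- **FNP** (patterns).  (1) induction on `m` for all `A`: if the head letter `a` has its site in `A`, the forcing letter with the right value has probability `≥ c0` and the other sites of `A` keep the values of `fl w σ`.
(2) `(1 - 1/|R|)^m ≤ exp (-m/|R|)` for each site, union bound. -/
def FNP_stmt : Prop := ∀ (V U : Type) [Fintype V] [DecidableEq V] [Fintype U] (D : Dyn V U) (d : ℕ) (c0 : ℝ), D.Ok d → D.Frc c0 →
  ∀ (R A : Finset V) (m : ℕ) (σ η : V → Bool), R.Nonempty → A ⊆ R →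
  c0 ^ A.card * (1 - A.card * Real.exp (-(m / R.card))) ≤ Ew D R m fun w => ind (∀ x ∈ A, fl D w σ x = η x)

/-- **FIN** (uses FNP, HE2, HG).  HE2 (4) with `Y` = the configurations which are `false` off `A`, `q = c0^|A|/2` (FNP), and `∑ |law σ - law σ'| ≤ 2 P(fl w σ ≠ fl w σ' on A) ≤ 2 ∑_{y ∈ A} uu R c y` (monotone coupling). -/
def FIN_stmt : Prop := ∀ (V U : Type) [Fintype V] [DecidableEq V] [Fintype U] (D : Dyn V U) (d : ℕ) (c0 : ℝ), D.Ok d → D.Frc c0 →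
  ∀ (R A : Finset V) (c : ℕ), R.Nonempty → A ⊆ R → (A.card : ℝ) * Real.exp (-(c / R.card)) ≤ 1 / 2 →
  gH D R c A ≤ (c0⁻¹) ^ A.card * (∑ y ∈ A, uu D R c y) ^ 2

/-! ## assembly -/

/-- failure probability of stage 2 -/
noncomputable def PP (d τ J M ρ c₁ : ℕ) (q : ℝ) : ℝ :=
  ((c₁ : ℝ) + 2 * (J * M) * (8 * ((8 * d + 2) * τ) + 3) ^ d) ^ (J * M) *
    (Real.exp 1 * (τ * (c₁ * (4 * ρ + 1) ^ d))) ^ J * q ^ (J * M)

/-- maximal number of sites after stage 2 -/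
def vv (d τ M : ℕ) : ℕ := M * (8 * ((8 * d + 2) * τ) + 3) ^ d

/-- final bound after stage 2 -/
noncomputable def bb (d τ M : ℕ) (c0 ub : ℝ) : ℝ := (c0⁻¹) ^ vv d τ M * (vv d τ M * ub) ^ 2

/-- **FIA** (one component; uses DEV, HG, S2A, EXD, PRX, FIN).  `R = BS C (2ρ)`, `|R| ≤ c₁ (4ρ+1)^d`, `|R| ≥ 2ρ` (Grw); `a = τ|R|`, `c = ⌊θ |R|⌋`, so `J a + c ≤ (1-η) m |R|/N`.  If the number of letters in `R` is at least
`(1-η) m|R|/N` (DEV) use HG (4).  S2A with `good A = (A.card ≤ vv ∧ A ⊆ BS C ((JM+1)(4l+1)))` and `b = bb` (FIN: `|A| exp (-c/|R|) ≤ vv exp (-(θ-1))`, `Bl y ρ ⊆ R` for `y ∈ A`, `c0 ≤ 1`, hypothesis on `ub`).  `NG` implies, by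
EXD, an explored sequence of length `J M`; PRX with `r₂ = 4l+1`, `s = J M` (`JM(4l+1) + l ≤ ρ`). -/
def FIA_stmt : Prop := ∀ (V U : Type) [Fintype V] [DecidableEq V] [Fintype U] (D : Dyn V U) (d : ℕ) (c0 : ℝ), D.Ok d → D.Frc c0 →
  c0 ≤ 1 → Grw D d → ∀ (τ J M ρ c₁ m : ℕ) (q η θ ub : ℝ), 1 ≤ τ → 1 ≤ J → 1 ≤ M → 0 ≤ q → 0 ≤ ub →
  (∀ (y : V) (a : ℕ), Pz D (Bl D y ((8 * d + 2) * τ)) τ a (fun w => ind (Opn D ((8 * d + 2) * τ) w y)) ≤ q) →
  (J * M + 1) * (4 * ((8 * d + 2) * τ) + 1) ≤ ρ → (2 * ρ) ^ (2 * d) ≤ Fintype.card V → 0 < η → η < 1 →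
  θ = (1 - η) * (m / Fintype.card V) - J * τ → 1 ≤ θ → (vv d τ M : ℝ) * Real.exp (-(θ - 1)) ≤ 1 / 2 →
  (∀ (R : Finset V) (y : V) (c : ℕ), Bl D y ρ ⊆ R → θ * R.card ≤ c + 1 → uu D R c y ≤ ub) →
  ∀ C : Finset V, C.Nonempty → C.card ≤ c₁ →
  Ew D univ m (fun w => gH D (BS D C (2 * ρ)) (filt (BS D C (2 * ρ)) w).length C) ≤
    Real.exp (-(η ^ 2 * (m * (2 * ρ) / Fintype.card V) / 2)) + PP d τ J M ρ c₁ q + bb d τ M c0 ub

/-- **FIB** (total; uses HG, I2, FIA, EXC, PRX).  HG (5) with the last `τ N` letters `w`: if for all `y₀` there is no explored sequence of length `s₁` of `[w]` from `{y₀}` (PRX with `J = 1`, `S = univ`, radius `4ρ+6l+2`, union over `y₀`), EXC gives the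
components of `supS w univ`; I2 with the list of the pairs `(BS C (2ρ), C)` (at most `N` of them, the first sets are disjoint) and FIA. -/
def FIB_stmt : Prop := ∀ (V U : Type) [Fintype V] [DecidableEq V] [Fintype U] (D : Dyn V U) (d : ℕ) (c0 : ℝ), D.Ok d → D.Frc c0 →
  c0 ≤ 1 → Grw D d → Nonempty V → ∀ (τ J M ρ s₁ m : ℕ) (q η θ ub : ℝ), 1 ≤ τ → 1 ≤ J → 1 ≤ M → 1 ≤ s₁ → 0 ≤ q → 0 ≤ ub →
  (∀ (y : V) (a : ℕ), Pz D (Bl D y ((8 * d + 2) * τ)) τ a (fun w => ind (Opn D ((8 * d + 2) * τ) w y)) ≤ q) →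
  (J * M + 1) * (4 * ((8 * d + 2) * τ) + 1) ≤ ρ → (2 * ρ) ^ (2 * d) ≤ Fintype.card V → 0 < η → η < 1 →
  θ = (1 - η) * (m / Fintype.card V) - J * τ → 1 ≤ θ → (vv d τ M : ℝ) * Real.exp (-(θ - 1)) ≤ 1 / 2 →
  (∀ (R : Finset V) (y : V) (c : ℕ), Bl D y ρ ⊆ R → θ * R.card ≤ c + 1 → uu D R c y ≤ ub) →
  gH D univ (τ * Fintype.card V + m) univ ≤
    Fintype.card V * ((1 + 2 * s₁ * (2 * (4 * ρ + 6 * ((8 * d + 2) * τ) + 2) + 1) ^ d) ^ s₁ *
      (Real.exp 1 * (τ * Fintype.card V)) * q ^ s₁) +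
    3 * (2 * (Fintype.card V * ((1 / 2) ^ (2 * ρ + 1) * Real.exp (4 * d * (m / Fintype.card V)))) +
      Fintype.card V * (Real.exp (-(η ^ 2 * (m * (2 * ρ) / Fintype.card V) / 2)) +
        PP d τ J M ρ (s₁ * (8 * ((8 * d + 2) * τ) + 3) ^ d) q + bb d τ M c0 ub))

end CWM
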