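import Pool.Agent.helper18.CWM.SpecB

/-!
# Project cwm (MP_7c3fb3_pr), statements L: lower bound for the mixing time
-/

open Finset Filter Topology

namespace CWM

section
variable {V U : Type} [Fintype V] [DecidableEq V] [Fintype U]

/-- number of plus spins -/
noncomputable def Cp (σ : V → Bool) : ℝ := ∑ x, ind (σ x = true)

/-- number of sites influenced by `z` -/
noncomputable def nS (D : Dyn V U) (w : List (V × U)) (z : V) : ℝ := ∑ x, ind (z ∈ supp D w x)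

/-- exponential decay of the mean support size -/
def Dec (D : Dyn V U) (A c : ℝ) : Prop := ∀ (x : V) (m : ℕ), GG D m x ≤ A * Real.exp (-c * (m / Fintype.card V))

end

/-- **EFR** (Efron-Stein).  Induction on `m` (for all `F, b`): with the head letter `a`, `Var_{m+1} F = E_a Var_m F(a::·) + Var_a (E_m F (a::·))`; the second term is
`(1/2) E_{a,a'} (g a - g a')² ≤ (1/2) E (b [] a + b [] a')² ≤ 2 E (b [] a)²`, the first is bounded by the induction hypothesis for `F (a :: ·)`, `b (a :: ·)`. -/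
def EFR_stmt : Prop := ∀ (V U : Type) [Fintype V] [DecidableEq V] [Fintype U] (D : Dyn V U),
  (∀ u, 0 ≤ D.nu u) → (∑ u, D.nu u = 1) → ∀ (S : Finset V), S.Nonempty → ∀ (m : ℕ) (F : List (V × U) → ℝ)
  (b : List (V × U) → V → ℝ), (∀ w z, 0 ≤ b w z) →
  (∀ (w1 w2 : List (V × U)) (a a' : V × U), |F (w1 ++ a :: w2) - F (w1 ++ a' :: w2)| ≤ b w1 a.1 + b w1 a'.1) →
  Ew D S m (fun w => F w ^ 2) - (Ew D S m F) ^ 2 ≤
    2 * ∑ j ∈ range m, Ew D S j fun w1 => (∑ z ∈ S, b w1 z ^ 2) / S.card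

/-- **PCB** (uses SUP).  `stp a η` and `stp a' η` differ at most at `a.1` and `a'.1`; a site `x` whose spin `fl w1 · x` differs for these has `a.1` or `a'.1` in
`supp w1 x` (SUP (1)). -/
def PCB_stmt : Prop := ∀ (V U : Type) [Fintype V] [DecidableEq V] [Fintype U] (D : Dyn V U) (d : ℕ), D.Ok d →
  ∀ (w1 w2 : List (V × U)) (a a' : V × U) (σ : V → Bool),
  |Cp (fl D (w1 ++ a :: w2) σ) - Cp (fl D (w1 ++ a' :: w2) σ)| ≤ nS D w1 a.1 + nS D w1 a'.1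

/-- **VS** (uses ANC, TL, HOM).  `(nS w z)² = ∑_{x,x'} ind (z ∈ supp x) ind (z ∈ supp x')`.  Pairs with `ds x z ≤ r` and `ds x' z ≤ r`: at most `|Bl z r| ∑_x ind (z ∈ supp x)`, which gives
`(2r+1)^d GG j`; the others: `ind (z ∈ anc w {x}, ds x z > r)` for `x` or `x'`, `∑_z` of it is at most `2^(-r-1) ∑_{anc} 2^ds` (TL (1)). -/
def VS_stmt : Prop := ∀ (V U : Type) [Fintype V] [DecidableEq V] [Fintype U] (D : Dyn V U) (d : ℕ), D.Ok d → D.Hom → ∀ (x : V) (j r : ℕ),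
  Ew D univ j (fun w => (∑ z, nS D w z ^ 2) / Fintype.card V) ≤
    (2 * (r : ℝ) + 1) ^ d * GG D j x + Fintype.card V * (1 / 2) ^ r * Real.exp (4 * d * (j / Fintype.card V))

/-- **VSM** (real analysis).  `r_j = ⌈2 log N + (8d+2) j/N⌉`; `N 2^(-r_j) e^(4 d j/N) ≤ e^(-j/N)` (`2 log 2 > 1`, `(8d+2) log 2 ≥ 4d+1`) with `∑_j e^(-j/N) ≤ 2 N`, and
`(2 r_j + 1)^d ≤ (16d+9)^d (1+log N)^d (1+j/N)^d`, `∑_j (1+j/N)^d e^(-c j/N) ≤ C N`. -/
def VSM_stmt : Prop := ∀ (d : ℕ) (A c : ℝ), 0 < A → 0 < c → ∃ C : ℝ, 0 < C ∧ ∀ N : ℕ, 1 ≤ N → ∃ r : ℕ → ℕ, ∀ m : ℕ,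
  ∑ j ∈ range m, ((2 * (r j : ℝ) + 1) ^ d * (A * Real.exp (-c * (j / N))) + N * (1 / 2) ^ (r j) * Real.exp (4 * d * (j / N))) ≤
    C * N * (1 + Real.log N) ^ d

/-- **VAR** (uses EFR, PCB, VS, VSM).  `F w = Cp (fl w σ)`, `b = nS`, `S = univ`. -/
def VAR_stmt : Prop := ∀ (d : ℕ) (A c : ℝ), 0 < A → 0 < c → ∃ C : ℝ, 0 < C ∧
  ∀ (V U : Type) [Fintype V] [DecidableEq V] [Nonempty V] [Fintype U] (D : Dyn V U), D.Ok d → D.Hom → Dec D A c →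
  ∀ (m : ℕ) (σ : V → Bool), Ew D univ m (fun w => Cp (fl D w σ) ^ 2) - (Ew D univ m fun w => Cp (fl D w σ)) ^ 2 ≤
    C * Fintype.card V * (1 + Real.log (Fintype.card V)) ^ d

/-- **VRW** (uses VAR, STA, GB).  Take `m` with `N uu m ≤ 1` for all sites (`uu ≤ GG`, Dec).  By stationarity `av W (Cp²) - (av W Cp)²` is the average over `σ` of `Var_w Cp (fl w σ)` plus the
variance over `σ` of `E_w Cp (fl w σ)`; the latter function of `σ` has oscillation at most `∑_x uu m x ≤ 1`. -/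
def VRW_stmt : Prop := ∀ (d : ℕ) (A c : ℝ), 0 < A → 0 < c → ∃ C : ℝ, 0 < C ∧
  ∀ (V U : Type) [Fintype V] [DecidableEq V] [Nonempty V] [Fintype U] (D : Dyn V U) (W : (V → Bool) → ℝ), D.Ok d → D.Hom → HB D W → Dec D A c →
  av W (fun σ => Cp σ ^ 2) - (av W Cp) ^ 2 ≤ C * Fintype.card V * (1 + Real.log (Fintype.card V)) ^ d

/-- **CHB** (Chebyshev).  Threshold at the midpoint of the two means: each law puts at most `4 v/g²` on the wrong side. -/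
def CHB_stmt : Prop := ∀ (X : Type) [Fintype X] (P Q f : X → ℝ) (g v : ℝ), (∀ x, 0 ≤ P x) → (∀ x, 0 ≤ Q x) →
  ∑ x, P x = 1 → ∑ x, Q x = 1 → 0 < g → g ≤ |∑ x, P x * f x - ∑ x, Q x * f x| →
  ∑ x, P x * f x ^ 2 - (∑ x, P x * f x) ^ 2 ≤ v → ∑ x, Q x * f x ^ 2 - (∑ x, Q x * f x) ^ 2 ≤ v →
  1 - 8 * v / g ^ 2 ≤ (∑ x, |P x - Q x|) / 2

/-- **LBT** (uses VAR, VRW, CHB, GB, UM, HOM).  `N = |V|`.  UM (3) and `uu T ≤ N^(-1/2)`: `(1-1/N)^T ≤ N^(-1/2)`, so `T ≥ (N-1)/2 log N ≥ N log N/4`.  `N^(-1/2) < uu (T-1) ≤ GG (T-1-K) uu K`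
(GB (3)), `T - 1 - K ≥ ε T - 1`, so `uu K ≥ N^(-1/2) N^(c ε/4) e^(-c)/A`.  `E_K Cp(pl) - E_K Cp(mi) = ∑_x uu K x = N uu K`, so one of the two starts has
`|E_K Cp - av W Cp| ≥ N uu K/2`; CHB with `v = C N (1+log N)^d`, `8 v/g² → 0`. (`P η = Ew univ K (ind (fl w σ = η))`, `Q = W/∑W`.) -/
def LBT_stmt : Prop := ∀ (d : ℕ) (A c ε ω : ℝ), 1 ≤ d → 0 < A → 0 < c → 0 < ε → ε < 1 → 0 < ω → ∃ N₀ : ℕ,
  ∀ (V U : Type) [Fintype V] [DecidableEq V] [Fintype U] (D : Dyn V U) (W : (V → Bool) → ℝ), D.Ok d → D.Hom → HB D W → Dec D A c →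
  N₀ ≤ Fintype.card V → ∀ (x : V) (T K : ℕ), (∀ m < T, 1 / √(Fintype.card V : ℝ) < uu D univ m x) →
  uu D univ T x ≤ 1 / √(Fintype.card V : ℝ) → (K : ℝ) ≤ (1 - ε) * T →
  ∃ σ : V → Bool, 1 - ω ≤ (∑ η : V → Bool, |Ew D univ K (fun w => ind (fl D w σ = η)) - W η / ∑ ξ, W ξ|) / 2

end CWM
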