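import Pool.Agent.helper18.CWM.SpecL

/-!
# Project cwm, row VS: second moment of the number of influenced sites
-/

open Finset Filter Topology

namespace CWM

theorem VS_card {V : Type} [Fintype V] [DecidableEq V] (S : Finset V) :
    ∑ x, ind (x ∈ S) = (S.card : ℝ) := by
  have h : ∀ x ∈ (univ : Finset V), ind (x ∈ S) = if x ∈ S then (1 : ℝ) else 0 := by
    intro x _
    by_cases hx : x ∈ S
    · rw [ind_of hx, if_pos hx]
    · rw [ind_not hx, if_neg hx]
  rw [Finset.sum_congr rfl h]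
  simp

theorem VS_point {V U : Type} [Fintype V] [DecidableEq V] [Fintype U] (D : Dyn V U) (d : ℕ)
    (hD : D.Ok d) (w : List (V × U)) (z : V) (r : ℕ) :
    nS D w z ^ 2 ≤ (2 * (r : ℝ) + 1) ^ d * nS D w z +
      Fintype.card V * ∑ x, ind (z ∈ supp D w x ∧ r < D.ds x z) := by
  classical
  set A : ℝ := ∑ x, ind (z ∈ supp D w x ∧ D.ds x z ≤ r) with hA
  set B : ℝ := ∑ x, ind (z ∈ supp D w x ∧ r < D.ds x z) with hB
  have hsum : nS D w z = A + B := by
    unfold nS
    rw [hA, hB, ← Finset.sum_add_distrib]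
    apply Finset.sum_congr rfl
    intro x _
    by_cases h1 : z ∈ supp D w x
    · by_cases h2 : D.ds x z ≤ r
      · rw [ind_of h1, ind_of ⟨h1, h2⟩, ind_not (by rintro ⟨-, h3⟩; omega)]
        ring
      · rw [ind_of h1, ind_not (by rintro ⟨-, h3⟩; exact h2 h3), ind_of ⟨h1, by omega⟩]
        ring
    · rw [ind_not h1, ind_not (by rintro ⟨h3, -⟩; exact h1 h3),
        ind_not (by rintro ⟨h3, -⟩; exact h1 h3)]
      ring
  have hn0 : 0 ≤ nS D w z := Finset.sum_nonneg fun _ _ => ind_nonneg _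
  have hB0 : 0 ≤ B := Finset.sum_nonneg fun _ _ => ind_nonneg _
  have hnN : nS D w z ≤ Fintype.card V := by
    unfold nS
    calc ∑ x, ind (z ∈ supp D w x) ≤ ∑ _x : V, (1 : ℝ) := Finset.sum_le_sum fun _ _ => ind_le_one _
      _ = Fintype.card V := by simp
  have hAK : A ≤ (2 * (r : ℝ) + 1) ^ d := by
    have h1 : A ≤ ((Bl D z r).card : ℝ) := by
      rw [hA]
      calc ∑ x, ind (z ∈ supp D w x ∧ D.ds x z ≤ r) ≤ ∑ x, ind (x ∈ Bl D z r) := by
            apply Finset.sum_le_sum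
            intro x _
            apply ind_mono
            rintro ⟨-, h2⟩
            rw [mem_Bl, hD.dsc]
            exact h2
        _ = ((Bl D z r).card : ℝ) := VS_card _
    have h2 : ((Bl D z r).card : ℝ) ≤ (2 * (r : ℝ) + 1) ^ d := by
      exact_mod_cast hD.blc z r
    exact h1.trans h2
  calc nS D w z ^ 2 = A * nS D w z + B * nS D w z := by rw [sq, ← add_mul, ← hsum]
    _ ≤ (2 * (r : ℝ) + 1) ^ d * nS D w z + B * Fintype.card V :=
        add_le_add (mul_le_mul_of_nonneg_right hAK hn0) (mul_le_mul_of_nonneg_left hnN hB0)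
    _ = _ := by ring

theorem VS_sum {V U : Type} [Fintype V] [DecidableEq V] [Fintype U] (D : Dyn V U) (d : ℕ)
    (hD : D.Ok d) (hA : ∀ (w : List (V × U)) (x : V), supp D w x ⊆ anc D w {x})
    (w : List (V × U)) (r : ℕ) :
    ∑ z, nS D w z ^ 2 ≤ (2 * (r : ℝ) + 1) ^ d * ∑ x, ((supp D w x).card : ℝ) +
      Fintype.card V * ((1 / 2) ^ (r + 1) * ∑ x, ∑ z ∈ anc D w {x}, (2 : ℝ) ^ D.ds x z) := by
  classical
  have h1 : ∑ z, nS D w z = ∑ x, ((supp D w x).card : ℝ) := by
    unfold nS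
    rw [Finset.sum_comm]
    apply Finset.sum_congr rfl
    intro x _
    exact VS_card _
  have h2 : ∑ z, ∑ x, ind (z ∈ supp D w x ∧ r < D.ds x z)
      ≤ (1 / 2) ^ (r + 1) * ∑ x, ∑ z ∈ anc D w {x}, (2 : ℝ) ^ D.ds x z := by
    rw [Finset.sum_comm, Finset.mul_sum]
    apply Finset.sum_le_sum
    intro x _
    rw [Finset.mul_sum]
    have h3 : ∑ z ∈ anc D w {x}, (1 / 2 : ℝ) ^ (r + 1) * (2 : ℝ) ^ D.ds x z
        = ∑ z, if z ∈ anc D w {x} then (1 / 2 : ℝ) ^ (r + 1) * (2 : ℝ) ^ D.ds x z else 0 := by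
      rw [Finset.sum_ite_mem, Finset.univ_inter]
    rw [h3]
    apply Finset.sum_le_sum
    intro z _
    by_cases h4 : z ∈ supp D w x ∧ r < D.ds x z
    · rw [ind_of h4, if_pos (hA w x h4.1)]
      have h5 : (2 : ℝ) ^ (r + 1) ≤ (2 : ℝ) ^ D.ds x z := pow_le_pow_right₀ (by norm_num) h4.2
      calc (1 : ℝ) = (1 / 2) ^ (r + 1) * 2 ^ (r + 1) := by
            rw [← mul_pow]; norm_num
        _ ≤ (1 / 2) ^ (r + 1) * 2 ^ D.ds x z := mul_le_mul_of_nonneg_left h5 (by positivity)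
    · rw [ind_not h4]
      by_cases h6 : z ∈ anc D w {x}
      · rw [if_pos h6]; positivity
      · rw [if_neg h6]
  calc ∑ z, nS D w z ^ 2 ≤ ∑ z, ((2 * (r : ℝ) + 1) ^ d * nS D w z +
      Fintype.card V * ∑ x, ind (z ∈ supp D w x ∧ r < D.ds x z)) :=
        Finset.sum_le_sum fun z _ => VS_point D d hD w z r
    _ = (2 * (r : ℝ) + 1) ^ d * ∑ x, ((supp D w x).card : ℝ) +
      Fintype.card V * ∑ z, ∑ x, ind (z ∈ supp D w x ∧ r < D.ds x z) := by
        rw [Finset.sum_add_distrib, ← Finset.mul_sum, ← Finset.mul_sum, h1]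
    _ ≤ _ := by
        apply add_le_add le_rfl
        exact mul_le_mul_of_nonneg_left h2 (Nat.cast_nonneg _)

theorem VS (hANC : ANC_stmt) (hTL : TL_stmt) (hHOM : HOM_stmt) : VS_stmt := by
  classical
  intro V U _ _ _ D d hD hH x j r
  have hN : 0 < Fintype.card V := Fintype.card_pos_iff.2 ⟨x⟩
  have hNR : (0 : ℝ) < Fintype.card V := by exact_mod_cast hN
  set N : ℝ := (Fintype.card V : ℝ) with hNdef
  set K : ℝ := (2 * (r : ℝ) + 1) ^ d with hK
  have hA := (hANC V U D d hD).2.2.2.2.1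
  have hanc : ∀ y : V, Ew D univ j (fun w => ∑ z ∈ anc D w {y}, (2 : ℝ) ^ D.ds y z)
      ≤ Real.exp (4 * d * (j / N)) := by
    intro y
    have h1 := (hTL V U D d hD).1 univ {y} y j
    rw [Finset.sum_singleton, (hD.ds0 y y).2 rfl, pow_zero, mul_one] at h1
    unfold Ew
    have hc : ((univ : Finset V).card : ℝ) = N := by
      rw [Finset.card_univ]
    rw [hc] at h1 ⊢
    rw [div_le_iff₀ (by positivity)]
    refine h1.trans ?_
    have h2 : N + 4 * d = (1 + 4 * d / N) * N := by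
      field_simp
    have h3 : 1 + 4 * (d : ℝ) / N ≤ Real.exp (4 * d / N) := by
      rw [add_comm]
      exact Real.add_one_le_exp _
    rw [h2, mul_pow]
    apply mul_le_mul_of_nonneg_right _ (by positivity)
    calc (1 + 4 * (d : ℝ) / N) ^ j ≤ (Real.exp (4 * d / N)) ^ j :=
          pow_le_pow_left₀ (by positivity) h3 j
      _ = Real.exp (4 * d * (j / N)) := by
          rw [← Real.exp_nat_mul]
          congr 1
          ring
  have hGG : ∀ y : V, GG D j y = GG D j x := fun y => (hHOM V U D hH j y x).2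
  have hle : Ew D univ j (fun w => (∑ z, nS D w z ^ 2) / N)
      ≤ Ew D univ j (fun w => K / N * ∑ y, ((supp D w y).card : ℝ)
        + (1 / 2) ^ (r + 1) * ∑ y, ∑ z ∈ anc D w {y}, (2 : ℝ) ^ D.ds y z) := by
    apply Ew_mono D hD.nu0
    intro w _ _
    rw [div_le_iff₀ hNR]
    refine (VS_sum D d hD hA w r).trans (le_of_eq ?_)
    rw [← hK, ← hNdef, add_mul]
    have e2 : ∀ T : ℝ, K / N * T * N = K * T := by
      intro T
      have hN0 : N ≠ 0 := hNR.ne'
      rw [div_mul_eq_mul_div, div_mul_cancel₀ _ hN0]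
    rw [e2]
    ring
  refine hle.trans ?_
  rw [Ew_add, Ew_smul, Ew_smul, Ew_sum, Ew_sum]
  have h4 : ∑ y : V, Ew D univ j (fun w => ((supp D w y).card : ℝ)) = N * GG D j x := by
    have h5 : ∀ y ∈ (univ : Finset V), Ew D univ j (fun w => ((supp D w y).card : ℝ)) = GG D j x :=
      fun y _ => hGG y
    rw [Finset.sum_congr rfl h5, Finset.sum_const, Finset.card_univ, nsmul_eq_mul]
  have h6 : ∑ y : V, Ew D univ j (fun w => ∑ z ∈ anc D w {y}, (2 : ℝ) ^ D.ds y z)
      ≤ N * Real.exp (4 * d * (j / N)) := by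
    refine (Finset.sum_le_sum fun y _ => hanc y).trans ?_
    rw [Finset.sum_const, Finset.card_univ, nsmul_eq_mul]
  rw [h4]
  have h7 : K / N * (N * GG D j x) = K * GG D j x := by
    field_simp
  rw [h7]
  apply add_le_add le_rfl
  calc (1 / 2 : ℝ) ^ (r + 1) * ∑ y : V, Ew D univ j (fun w => ∑ z ∈ anc D w {y}, (2 : ℝ) ^ D.ds y z)
      ≤ (1 / 2 : ℝ) ^ (r + 1) * (N * Real.exp (4 * d * (j / N))) :=
        mul_le_mul_of_nonneg_left h6 (by positivity)
    _ ≤ (1 / 2 : ℝ) ^ r * (N * Real.exp (4 * d * (j / N))) := by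
        apply mul_le_mul_of_nonneg_right _ (by positivity)
        exact pow_le_pow_of_le_one (by norm_num) (by norm_num) (Nat.le_succ r)
    _ = N * (1 / 2) ^ r * Real.exp (4 * d * (j / N)) := by ring

end CWM
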